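import Pool.Agent.Arb.Stmts

/-!
# MP_5c2e18_nt: module VAL (rigid divisibility and valuations)
-/

namespace Pool.Agent.Arb

namespace ValAux

lemma D_succ (a b : ℤ) (m : ℕ) : D a b (m + 1) = a * (D a b m) ^ 2 + b ^ (2 ^ m - 1) := rfl

lemma D_one (a b : ℤ) : D a b 1 = 1 := by simp [D]

/-- The orbit in terms of `D`. -/
lemma orbit_eq (c : ℚ) (m : ℕ) :
    (fun x : ℚ => x ^ 2 + c)^[m + 1] 0 =
      (c.num : ℚ) * (D c.num c.den (m + 1) : ℚ) / (c.den : ℚ) ^ (2 ^ m) := by
  have hb : (c.den : ℚ) ≠ 0 := by exact_mod_cast c.den_ne_zero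
  have hc : c = (c.num : ℚ) / (c.den : ℚ) := (Rat.num_div_den c).symm
  induction m with
  | zero =>
    simp only [zero_add, Function.iterate_one, pow_zero, pow_one, D_one]
    rw [zero_pow two_ne_zero, zero_add, Int.cast_one, mul_one]
    exact hc
  | succ m ih =>
    rw [Function.iterate_succ_apply', ih]
    rw [D_succ c.num c.den (m + 1)]
    push_cast
    have h1 : (c.den : ℚ) ^ (2 ^ (m + 1)) = (c.den : ℚ) ^ (2 ^ (m + 1) - 1) * c.den := by
      rw [← pow_succ]
      congr 1
      have := Nat.one_le_two_pow (n := m + 1)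
      omega
    have h2 : (c.den : ℚ) ^ (2 ^ (m + 1)) = ((c.den : ℚ) ^ (2 ^ m)) ^ 2 := by
      rw [← pow_mul, pow_succ 2 m]
    have h3 : (c.den : ℚ) ^ (2 ^ m) ≠ 0 := pow_ne_zero _ hb
    have h4 : (c.den : ℚ) ^ (2 ^ (m + 1) - 1) ≠ 0 := pow_ne_zero _ hb
    have h5 : (c.den : ℚ) ^ (2 ^ (m + 1)) ≠ 0 := pow_ne_zero _ hb
    rw [eq_div_iff h5]
    rw [add_mul, div_pow, h2, div_mul_cancel₀ _ (pow_ne_zero 2 h3), ← h2, h1]
    have h6 : c * ((c.den : ℚ) ^ (2 ^ (m + 1) - 1) * c.den) =
        (c.den : ℚ) ^ (2 ^ (m + 1) - 1) * c.num := by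
      have : c * c.den = c.num := Rat.mul_den_eq_num c
      calc c * ((c.den : ℚ) ^ (2 ^ (m + 1) - 1) * c.den)
          = (c.den : ℚ) ^ (2 ^ (m + 1) - 1) * (c * c.den) := by ring
        _ = _ := by rw [this]
    rw [h6]
    ring

/-- Rigid divisibility. -/
lemma rigid (a b : ℤ) (k j : ℕ) :
    (D a b k) ^ 2 ∣ b ^ (2 ^ j) * D a b (k + j + 1) - b ^ (2 ^ (k + j)) * D a b (j + 1) := by
  induction j with
  | zero =>
    refine ⟨b * a, ?_⟩
    rw [add_zero, zero_add, pow_zero, pow_one, D_one, D_succ, mul_one]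
    have h1 : b ^ (2 ^ k) = b * b ^ (2 ^ k - 1) := by
      rw [← pow_succ']
      congr 1
      have := Nat.one_le_two_pow (n := k)
      omega
    rw [h1]
    ring
  | succ j ih =>
    obtain ⟨t, ht⟩ := ih
    have e1 : b ^ (2 ^ j) * D a b (k + j + 1) =
      b ^ (2 ^ (k + j)) * D a b (j + 1) + (D a b k) ^ 2 * t := by linarith
    refine ⟨a * t * (b ^ (2 ^ j) * D a b (k + j + 1) + b ^ (2 ^ (k + j)) * D a b (j + 1)), ?_⟩
    have h0 : k + (j + 1) + 1 = (k + j + 1) + 1 := by ring
    have h0' : k + (j + 1) = k + j + 1 := by ring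
    rw [h0, h0', D_succ a b (k + j + 1), D_succ a b (j + 1)]
    have h1 : b ^ (2 ^ (j + 1)) = (b ^ (2 ^ j)) ^ 2 := by rw [← pow_mul, pow_succ 2 j]
    have h2 : b ^ (2 ^ (k + j + 1)) = (b ^ (2 ^ (k + j))) ^ 2 := by rw [← pow_mul, pow_succ 2 (k + j)]
    have h3 : b ^ (2 ^ (j + 1)) * b ^ (2 ^ (k + j + 1) - 1) =
        b ^ (2 ^ (k + j + 1)) * b ^ (2 ^ (j + 1) - 1) := by
      rw [← pow_add, ← pow_add]
      congr 1
      have := Nat.one_le_two_pow (n := j + 1)
      have := Nat.one_le_two_pow (n := k + j + 1)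
      omega
    have h4 : b ^ (2 ^ (j + 1)) * (a * D a b (k + j + 1) ^ 2 + b ^ (2 ^ (k + j + 1) - 1)) -
        b ^ (2 ^ (k + j + 1)) * (a * D a b (j + 1) ^ 2 + b ^ (2 ^ (j + 1) - 1)) =
        a * ((b ^ (2 ^ j) * D a b (k + j + 1)) ^ 2 - (b ^ (2 ^ (k + j)) * D a b (j + 1)) ^ 2) := by
      rw [mul_add, mul_add, h3, h1, h2]
      ring
    rw [h4]
    have h5 : (b ^ (2 ^ j) * D a b (k + j + 1)) ^ 2 - (b ^ (2 ^ (k + j)) * D a b (j + 1)) ^ 2 =
      (b ^ (2 ^ j) * D a b (k + j + 1) - b ^ (2 ^ (k + j)) * D a b (j + 1)) *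
      (b ^ (2 ^ j) * D a b (k + j + 1) + b ^ (2 ^ (k + j)) * D a b (j + 1)) := by ring
    rw [h5, ht]
    ring

/-- `gcd(D_m, a b) = 1`. -/
lemma coprime_D {a b : ℤ} (hab : IsCoprime a b) (m : ℕ) :
    IsCoprime (D a b (m + 1)) a ∧ IsCoprime (D a b (m + 1)) b := by
  induction m with
  | zero => simp [D_one, isCoprime_one_left]
  | succ m ih =>
    constructor
    · rw [D_succ]
      have h : IsCoprime (b ^ (2 ^ (m + 1) - 1)) a := (hab.symm).pow_left
      have := IsCoprime.add_mul_left_left h ((D a b (m + 1)) ^ 2)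
      rwa [add_comm] at this
    · rw [D_succ]
      have h : IsCoprime (a * (D a b (m + 1)) ^ 2) b := hab.mul_left (ih.2.pow_left)
      have h2 : 2 ^ (m + 1) - 1 = (2 ^ (m + 1) - 2) + 1 := by
        have : 2 ≤ 2 ^ (m + 1) := by
          calc 2 = 2 ^ 1 := rfl
            _ ≤ 2 ^ (m + 1) := Nat.pow_le_pow_right (by norm_num) (by omega)
        omega
      rw [h2, pow_succ' b]
      exact IsCoprime.add_mul_left_left h _

/-- The valuations of all `D_m` from the rank `k` of the prime `p`. -/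
lemma ranks {a b : ℤ} (p : ℕ) (hp : p.Prime) (hpb : ¬ (p : ℤ) ∣ b)
    (k e : ℕ) (hk : 1 ≤ k) (he : 1 ≤ e) (h1 : (p : ℤ) ^ e ∣ D a b k)
    (h2 : ¬ (p : ℤ) ^ (e + 1) ∣ D a b k) (hmin : ∀ m, 1 ≤ m → m < k → ¬ (p : ℤ) ∣ D a b m) :
    ∀ m, 1 ≤ m → (k ∣ m → (p : ℤ) ^ e ∣ D a b m ∧ ¬ (p : ℤ) ^ (e + 1) ∣ D a b m) ∧
      (¬ k ∣ m → ¬ (p : ℤ) ∣ D a b m) := by
  have hpz : Prime (p : ℤ) := Nat.prime_iff_prime_int.mp hp
  intro m
  induction m using Nat.strong_induction_on with
  | _ m ih =>
    intro hm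
    rcases lt_trichotomy m k with hlt | heq | hgt
    · refine ⟨fun hd => ?_, fun _ => hmin m hm hlt⟩
      exact absurd (Nat.le_of_dvd (by omega) hd) (by omega)
    · subst heq
      exact ⟨fun _ => ⟨h1, h2⟩, fun h => absurd (dvd_refl m) h⟩
    · obtain ⟨j, hj⟩ : ∃ j, m = k + j + 1 := ⟨m - k - 1, by omega⟩
      have hr := rigid a b k j
      rw [← hj] at hr
      have hih := ih (j + 1) (by omega) (by omega)
      have hkm : k ∣ m ↔ k ∣ j + 1 := by
        rw [hj, add_assoc]
        exact Nat.dvd_add_right (dvd_refl k)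
      have hpe : (p : ℤ) ^ (2 * e) ∣ (D a b k) ^ 2 := by
        rw [mul_comm, pow_mul]
        exact pow_dvd_pow_of_dvd h1 2
      have hr2 : (p : ℤ) ^ (2 * e) ∣
          b ^ (2 ^ j) * D a b m - b ^ (2 ^ (k + j)) * D a b (j + 1) := hpe.trans hr
      have cop : ∀ N i : ℕ, IsCoprime ((p : ℤ) ^ N) (b ^ i) := by
        intro N i
        apply IsCoprime.pow
        exact (Prime.coprime_iff_not_dvd hpz).2 hpb
      have key : ∀ N ≤ 2 * e, ((p : ℤ) ^ N ∣ D a b m ↔ (p : ℤ) ^ N ∣ D a b (j + 1)) := by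
        intro N hN
        have hr3 := (pow_dvd_pow (p : ℤ) hN).trans hr2
        constructor
        · intro h
          have h3 : (p : ℤ) ^ N ∣ b ^ (2 ^ (k + j)) * D a b (j + 1) :=
            (dvd_sub_right (h.mul_left _)).1 hr3
          exact (cop N _).dvd_of_dvd_mul_left h3
        · intro h
          have h3 : (p : ℤ) ^ N ∣ b ^ (2 ^ j) * D a b m :=
            (dvd_sub_left (h.mul_left _)).1 hr3
          exact (cop N _).dvd_of_dvd_mul_left h3
      refine ⟨fun hd => ?_, fun hd => ?_⟩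
      · obtain ⟨g1, g2⟩ := hih.1 (hkm.1 hd)
        exact ⟨(key e (by omega)).2 g1, fun h => g2 ((key (e + 1) (by omega)).1 h)⟩
      · have g := hih.2 (fun h => hd (hkm.2 h))
        intro h
        apply g
        have := (key 1 (by omega)).1 (by simpa using h)
        simpa using this

/-- Counting lemma: if `k ∣ n = s R`, `k ≠ n`, then `#{u ∣ R : k ∣ s u}` is even. -/
lemma count_even {s R k : ℕ} (hR : Squarefree R) (hn : s * R ≠ 0)
    (hrad : ∀ p, p.Prime → p ∣ s * R → p ∣ R) (hk : k ∣ s * R) (hkn : k ≠ s * R) :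
    Even ((R.divisors.filter (fun u => k ∣ s * u)).card) := by
  obtain ⟨l, hl⟩ := hk
  have hl1 : l ≠ 1 := by
    rintro rfl
    exact hkn (by omega)
  obtain ⟨q, hq, hql⟩ := Nat.exists_prime_and_dvd hl1
  have hqn : q ∣ s * R := hl ▸ hql.mul_left k
  obtain ⟨R', rfl⟩ := hrad q hq hqn
  have hqR' : ¬ q ∣ R' := by
    intro h
    obtain ⟨r, rfl⟩ := h
    have := hR q ⟨r, by ring⟩
    exact hq.one_lt.ne' (Nat.isUnit_iff.1 this)
  have hR'0 : R' ≠ 0 := by
    rintro rfl
    simp at hn
  obtain ⟨l', rfl⟩ := hql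
  have hk' : k ∣ s * R' := by
    refine ⟨l', ?_⟩
    have : q * (s * R') = q * (k * l') := by linarith
    exact Nat.eq_of_mul_eq_mul_left hq.pos this
  have hcop : ∀ u, u ∣ R' → (k ∣ s * (q * u) ↔ k ∣ s * u) := by
    intro u hu
    constructor
    · intro h
      obtain ⟨w, rfl⟩ := hu
      have h1 : k ∣ Nat.gcd (s * (q * u)) (s * (u * w)) := Nat.dvd_gcd h hk'
      have h2 : Nat.gcd (s * (q * u)) (s * (u * w)) = s * u := by
        have e1 : s * (q * u) = (s * u) * q := by ring
        have e2 : s * (u * w) = (s * u) * w := by ring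
        rw [e1, e2, Nat.gcd_mul_left]
        have : Nat.gcd q w = 1 := by
          apply (Nat.Prime.coprime_iff_not_dvd hq).2
          intro h
          exact hqR' (h.mul_left u)
        rw [this, mul_one]
      rwa [h2] at h1
    · intro h
      have : s * (q * u) = (s * u) * q := by ring
      rw [this]
      exact h.mul_right q
  -- split the divisors of `q * R'`
  have hsplit : (q * R').divisors.filter (fun u => k ∣ s * u) =
      (R'.divisors.filter (fun u => k ∣ s * u)) ∪
      ((R'.divisors.filter (fun u => k ∣ s * u)).image (fun u => q * u)) := by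
    ext u
    simp only [Finset.mem_filter, Nat.mem_divisors, Finset.mem_union, Finset.mem_image]
    constructor
    · rintro ⟨⟨h1, h2⟩, h3⟩
      by_cases hqu : q ∣ u
      · right
        obtain ⟨v, rfl⟩ := hqu
        have hv : v ∣ R' := Nat.dvd_of_mul_dvd_mul_left hq.pos h1
        exact ⟨v, ⟨⟨hv, hR'0⟩, (hcop v hv).1 h3⟩, rfl⟩
      · left
        have hu : u ∣ R' := by
          have : Nat.Coprime u q := ((Nat.Prime.coprime_iff_not_dvd hq).2 hqu).symm
          exact this.dvd_of_dvd_mul_left h1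
        exact ⟨⟨hu, hR'0⟩, h3⟩
    · rintro (⟨⟨h1, h2⟩, h3⟩ | ⟨v, ⟨⟨h1, h2⟩, h3⟩, rfl⟩)
      · exact ⟨⟨h1.mul_left q, mul_ne_zero hq.ne_zero hR'0⟩, h3⟩
      · exact ⟨⟨mul_dvd_mul_left q h1, mul_ne_zero hq.ne_zero hR'0⟩, (hcop v h1).2 h3⟩
  rw [hsplit, Finset.card_union_of_disjoint]
  · rw [Finset.card_image_of_injective]
    · exact ⟨_, rfl⟩
    · intro x y hxy
      exact Nat.eq_of_mul_eq_mul_left hq.pos hxy
  · rw [Finset.disjoint_left]
    intro u hu1 hu2
    simp only [Finset.mem_filter, Nat.mem_divisors, Finset.mem_image] at hu1 hu2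
    obtain ⟨v, _, rfl⟩ := hu2
    exact hqR' ((Dvd.intro v rfl).trans hu1.1.1)

lemma isSquare_of_even {n : ℕ} (hn : n ≠ 0) (h : ∀ p, p.Prime → Even (n.factorization p)) :
    IsSquare n := by
  have h1 := Nat.prod_factorization_pow_eq_self hn
  rw [Finsupp.prod] at h1
  refine ⟨∏ p ∈ n.factorization.support, p ^ (n.factorization p / 2), ?_⟩
  rw [← Finset.prod_mul_distrib]
  conv_lhs => rw [← h1]
  apply Finset.prod_congr rfl
  intro p hp
  rw [← pow_add]
  congr 1
  have hpp : p.Prime := by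
    by_contra hcon
    exact (Finsupp.mem_support_iff.1 hp) (Nat.factorization_eq_zero_of_not_prime n hcon)
  obtain ⟨t, ht⟩ := h p hpp
  omega

lemma padicValRat_prod {ι : Type*} [DecidableEq ι] (p : ℕ) [Fact p.Prime] (S : Finset ι)
    (f : ι → ℚ) (hf : ∀ i ∈ S, f i ≠ 0) :
    padicValRat p (∏ i ∈ S, f i) = ∑ i ∈ S, padicValRat p (f i) := by
  induction S using Finset.induction_on with
  | empty => simp
  | insert i S hi ih =>
    rw [Finset.prod_insert hi, Finset.sum_insert hi, padicValRat.mul (hf i (Finset.mem_insert_self i S))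
      (Finset.prod_ne_zero_iff.2 fun j hj => hf j (Finset.mem_insert_of_mem hj)),
      ih fun j hj => hf j (Finset.mem_insert_of_mem hj)]

end ValAux

open ValAux

theorem val_proof : Stmt_Val := by
  intro c hc S n hnS hS hn2 hsq s R hR hrad hsR
  classical
  set a : ℤ := c.num with ha
  set b : ℤ := (c.den : ℤ) with hb
  have hab : IsCoprime a b := by
    have := c.reduced
    rw [Int.isCoprime_iff_gcd_eq_one]
    simpa [Int.gcd, ha, hb] using this
  have ha0 : a ≠ 0 := by simpa [ha] using (Rat.num_ne_zero.2 hc)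
  have hb0 : b ≠ 0 := by simp [hb]
  have hn0 : s * R ≠ 0 := by omega
  have hs0 : s ≠ 0 := left_ne_zero_of_mul hn0
  have hR0 : R ≠ 0 := right_ne_zero_of_mul hn0
  by_cases hZ0 : Z a b s R = 0
  · rw [hZ0]
    exact ⟨0, rfl⟩
  have hD0 : ∀ u ∈ R.divisors, (D a b (s * u)).natAbs ≠ 0 := by
    intro u hu h
    exact hZ0 (Finset.prod_eq_zero hu h)
  apply isSquare_of_even hZ0
  intro p hp
  have : Fact p.Prime := ⟨hp⟩
  have hpz : Prime (p : ℤ) := Nat.prime_iff_prime_int.mp hp
  by_contra hodd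
  -- valuation of Z as a sum
  have hfac : (Z a b s R).factorization p =
      ∑ u ∈ R.divisors, (D a b (s * u)).natAbs.factorization p := by
    rw [Z, Nat.factorization_prod hD0, Finsupp.finsetSum_apply]
  -- p divides some D
  have hex : ∃ u ∈ R.divisors, (p : ℤ) ∣ D a b (s * u) := by
    by_contra hcon
    push Not at hcon
    apply hodd
    rw [hfac, Finset.sum_eq_zero]
    · exact ⟨0, rfl⟩
    · intro u hu
      apply Nat.factorization_eq_zero_of_not_dvd
      intro h
      exact hcon u hu (Int.natCast_dvd.2 h)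
  obtain ⟨u0, hu0, hpu0⟩ := hex
  have hu0pos : 1 ≤ s * u0 := by
    have : u0 ≠ 0 := by
      rintro rfl
      simp at hu0
    exact Nat.one_le_iff_ne_zero.2 (mul_ne_zero hs0 this)
  have hexk : ∃ m, 1 ≤ m ∧ (p : ℤ) ∣ D a b m := ⟨s * u0, hu0pos, hpu0⟩
  have hpab : ¬ (p : ℤ) ∣ a ∧ ¬ (p : ℤ) ∣ b := by
    obtain ⟨m, hm⟩ : ∃ m, s * u0 = m + 1 := ⟨s * u0 - 1, by omega⟩
    have hcop := coprime_D hab m
    rw [← hm] at hcop
    constructor
    · intro h
      exact hpz.not_isUnit (hcop.1.isUnit_of_dvd' hpu0 h)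
    · intro h
      exact hpz.not_isUnit (hcop.2.isUnit_of_dvd' hpu0 h)
  -- the rank
  set k := Nat.find hexk with hkdef
  have hk := Nat.find_spec hexk
  rw [← hkdef] at hk
  have hmin : ∀ m, 1 ≤ m → m < k → ¬ (p : ℤ) ∣ D a b m := by
    intro m hm1 hmk h
    exact Nat.find_min hexk hmk ⟨hm1, h⟩
  -- D_k is nonzero: k divides s * u0 is not yet known, use finite multiplicity differently
  have hDk0 : D a b k ≠ 0 := by
    intro h0
    -- then D_{k + j + 1} ≡ unit * D_{j+1} exactly, so some D in the product would vanish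
    have hzero : ∀ t, 1 ≤ t → D a b (k * t) = 0 := by
      intro t ht
      induction t, ht using Nat.le_induction with
      | base => simpa using h0
      | succ t ht ih =>
        obtain ⟨j, hj⟩ : ∃ j, k * t = j + 1 := ⟨k * t - 1, by
          have : 1 ≤ k * t := Nat.one_le_iff_ne_zero.2 (mul_ne_zero (by omega) (by omega))
          omega⟩
        have hr := rigid a b k j
        rw [h0] at hr
        have hr' : b ^ 2 ^ j * D a b (k + j + 1) - b ^ 2 ^ (k + j) * D a b (j + 1) = 0 := by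
          apply zero_dvd_iff.1
          simpa using hr
        rw [← hj, ih, mul_zero, sub_zero] at hr'
        have hkt : k * (t + 1) = k + j + 1 := by
          rw [mul_add, hj]; ring
        rw [hkt]
        rcases mul_eq_zero.1 hr' with h | h
        · exact absurd h (pow_ne_zero _ hb0)
        · exact h
    have hnz : ∀ m, 1 ≤ m → (p : ℤ) ∣ D a b m → k ∣ m := by
      intro m
      induction m using Nat.strong_induction_on with
      | _ m ih =>
        intro hm hpm
        rcases lt_trichotomy m k with hlt | heq | hgt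
        · exact absurd hpm (hmin m hm hlt)
        · rw [heq]
        · obtain ⟨j, hj⟩ : ∃ j, m = k + j + 1 := ⟨m - k - 1, by omega⟩
          have hr := rigid a b k j
          rw [h0] at hr
          have hr' : b ^ 2 ^ j * D a b (k + j + 1) - b ^ 2 ^ (k + j) * D a b (j + 1) = 0 := by
            apply zero_dvd_iff.1
            simpa using hr
          rw [← hj] at hr'
          have h1 : (p : ℤ) ∣ b ^ 2 ^ (k + j) * D a b (j + 1) := by
            have : b ^ 2 ^ (k + j) * D a b (j + 1) = b ^ 2 ^ j * D a b m := by linarith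
            rw [this]
            exact hpm.mul_left _
          have h2 : (p : ℤ) ∣ D a b (j + 1) := by
            rcases hpz.dvd_or_dvd h1 with h | h
            · exact absurd (hpz.dvd_of_dvd_pow h) hpab.2
            · exact h
          have h3 := ih (j + 1) (by omega) (by omega) h2
          rw [hj, add_assoc]
          exact (Nat.dvd_add_right (dvd_refl k)).2 h3
    obtain ⟨t, ht⟩ := hnz (s * u0) hu0pos hpu0
    have ht1 : 1 ≤ t := by
      rcases Nat.eq_zero_or_pos t with h | h
      · rw [h] at ht; omega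
      · exact h
    apply hD0 u0 hu0
    rw [ht, hzero t ht1]
    rfl
  -- exponent of p in D_k
  obtain ⟨e, he1, he2⟩ : ∃ e, (p : ℤ) ^ e ∣ D a b k ∧ ¬ (p : ℤ) ^ (e + 1) ∣ D a b k := by
    have hfin : FiniteMultiplicity (p : ℤ) (D a b k) :=
      FiniteMultiplicity.of_prime_left hpz hDk0
    obtain ⟨e, he⟩ := hfin.exists_eq_pow_mul_and_not_dvd
    refine ⟨multiplicity (p : ℤ) (D a b k), pow_multiplicity_dvd _ _, ?_⟩
    exact hfin.not_pow_dvd_of_multiplicity_lt (Nat.lt_succ_self _)
  have he : 1 ≤ e := by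
    rcases Nat.eq_zero_or_pos e with h | h
    · subst h
      exact absurd (by simpa using hk.2) he2
    · exact h
  have hrk := ranks p hp hpab.2 k e hk.1 he he1 he2 hmin
  -- factorizations
  have hfacD : ∀ m, 1 ≤ m → (D a b m).natAbs.factorization p = if k ∣ m then e else 0 := by
    intro m hm
    split_ifs with hkm
    · obtain ⟨g1, g2⟩ := (hrk m hm).1 hkm
      have hm0 : (D a b m).natAbs ≠ 0 := by
        intro h
        rw [Int.natAbs_eq_zero] at h
        exact g2 (h ▸ dvd_zero _)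
      have g1' : p ^ e ∣ (D a b m).natAbs := by
        apply Int.natCast_dvd.1
        simpa using g1
      have g2' : ¬ p ^ (e + 1) ∣ (D a b m).natAbs := by
        intro h
        apply g2
        have := Int.natCast_dvd.2 h
        simpa using this
      have l1 := (hp.pow_dvd_iff_le_factorization hm0).1 g1'
      have l2 : ¬ e + 1 ≤ (D a b m).natAbs.factorization p :=
        fun h => g2' ((hp.pow_dvd_iff_le_factorization hm0).2 h)
      omega
    · have g := (hrk m hm).2 hkm
      apply Nat.factorization_eq_zero_of_not_dvd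
      intro h
      exact g (Int.natCast_dvd.2 h)
  have hsum : (Z a b s R).factorization p =
      e * ((R.divisors.filter (fun u => k ∣ s * u)).card) := by
    rw [hfac, Finset.sum_congr rfl (fun u hu => hfacD (s * u) (by
      have : u ≠ 0 := by
        rintro rfl
        simp at hu
      exact Nat.one_le_iff_ne_zero.2 (mul_ne_zero hs0 this)))]
    rw [← Finset.sum_filter, Finset.sum_const, smul_eq_mul, mul_comm]
  have hkn : k ∣ s * R := by
    by_contra hcon
    apply hodd
    rw [hsum]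
    have : R.divisors.filter (fun u => k ∣ s * u) = ∅ := by
      rw [Finset.filter_eq_empty_iff]
      intro u hu h
      exact hcon (h.trans (mul_dvd_mul_left s (Nat.dvd_of_mem_divisors hu)))
    rw [this]
    simp
  have hkeq : k = s * R := by
    by_contra hne
    apply hodd
    rw [hsum]
    exact (count_even hR hn0 (fun q hq h => hrad q hq (hsR ▸ h)) hkn hne).mul_left e
  -- now p has rank n and e is odd
  have heodd : ¬ Even e := by
    intro hee
    apply hodd
    rw [hsum]
    exact hee.mul_right _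
  -- valuation of crit
  have hpa' : padicValRat p (a : ℚ) = 0 := by
    rw [padicValRat.of_int, padicValInt.eq_zero_of_not_dvd hpab.1]
    rfl
  have hpb' : padicValRat p (b : ℚ) = 0 := by
    rw [padicValRat.of_int, padicValInt.eq_zero_of_not_dvd hpab.2]
    rfl
  have hcrit : ∀ m, 1 ≤ m → D a b m ≠ 0 →
      crit c m ≠ 0 ∧ padicValRat p (crit c m) = ((D a b m).natAbs.factorization p : ℤ) := by
    intro m hm hDm
    have haQ : (a : ℚ) ≠ 0 := by exact_mod_cast ha0
    have hbQ : (b : ℚ) ≠ 0 := by exact_mod_cast hb0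
    have hDQ : (D a b m : ℚ) ≠ 0 := by exact_mod_cast hDm
    have hval : padicValRat p ((a : ℚ) * (D a b m : ℚ) / (b : ℚ) ^ (2 ^ (m - 1))) =
        ((D a b m).natAbs.factorization p : ℤ) := by
      rw [padicValRat.div (mul_ne_zero haQ hDQ) (pow_ne_zero _ hbQ), padicValRat.mul haQ hDQ,
        padicValRat.pow, hpa', hpb', padicValRat.of_int]
      simp only [mul_zero, sub_zero, zero_add]
      rw [padicValInt, Nat.factorization_def _ hp]
    have horb : (fun x : ℚ => x ^ 2 + c)^[m] 0 =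
        (a : ℚ) * (D a b m : ℚ) / (b : ℚ) ^ (2 ^ (m - 1)) := by
      obtain ⟨j, rfl⟩ : ∃ j, m = j + 1 := ⟨m - 1, by omega⟩
      rw [orbit_eq c j]
      simp [ha, hb]
    have hne : (a : ℚ) * (D a b m : ℚ) / (b : ℚ) ^ (2 ^ (m - 1)) ≠ 0 :=
      div_ne_zero (mul_ne_zero haQ hDQ) (pow_ne_zero _ hbQ)
    by_cases hm1 : m = 1
    · have hc1 : crit c m = - ((fun x : ℚ => x ^ 2 + c)^[m] 0) := by
        rw [crit, if_pos hm1, hm1]
        simp
      rw [hc1, horb]
      exact ⟨neg_ne_zero.2 hne, by rw [padicValRat.neg, hval]⟩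
    · rw [crit, if_neg hm1, horb]
      exact ⟨hne, hval⟩
  have hDm : ∀ m ∈ S, D a b m ≠ 0 := by
    intro m hm h0
    by_cases hmn : m = n
    · have : R ∈ R.divisors := Nat.mem_divisors_self R hR0
      apply hD0 R this
      rw [hsR, ← hmn, h0]
      rfl
    · have hlt : m < k := by
        have := (hS m hm).2
        rw [hkeq, hsR]
        omega
      exact hmin m (hS m hm).1 hlt (h0 ▸ dvd_zero _)
  have hvalprod : padicValRat p (∏ m ∈ S, crit c m) = e := by
    rw [padicValRat_prod p S (crit c) (fun m hm => (hcrit m (hS m hm).1 (hDm m hm)).1)]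
    rw [Finset.sum_congr rfl (fun m hm => (hcrit m (hS m hm).1 (hDm m hm)).2)]
    rw [Finset.sum_eq_single n]
    · rw [hfacD n (by omega), if_pos]
      rw [hkeq, hsR]
    · intro m hm hmn
      rw [hfacD m (hS m hm).1, if_neg]
      · rfl
      · intro hd
        have := Nat.le_of_dvd (by have := (hS m hm).1; omega) hd
        have h2 := (hS m hm).2
        rw [hkeq, hsR] at this
        omega
    · intro h
      exact absurd hnS h
  obtain ⟨r, hr⟩ := hsq
  have hr0 : r ≠ 0 := by
    rintro rfl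
    rw [mul_zero] at hr
    have := Finset.prod_ne_zero_iff.2 (fun m hm => (hcrit m (hS m hm).1 (hDm m hm)).1)
    exact this hr
  rw [hr, padicValRat.mul hr0 hr0] at hvalprod
  apply heodd
  rw [Nat.even_iff]
  omega

end Pool.Agent.Arb
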