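import Pool.Agent.Arb.Stmts

/-!
# Basic facts on `D`, `N` and Jacobi symbols of `Z`
-/

namespace Pool.Agent.Arb

variable {a b e : ℤ}

@[simp] lemma D_zero : D a b 0 = 0 := rfl

lemma D_succ (m : ℕ) : D a b (m + 1) = a * (D a b m) ^ 2 + b ^ (2 ^ m - 1) := rfl

@[simp] lemma D_one : D a b 1 = 1 := by simp [D]

@[simp] lemma D_two : D a b 2 = a + b := by simp [D]

/-- `N_t = D_t + b ^ (2 ^ (t - 2)) D_{t-1}` -/
def N (a b : ℤ) (t : ℕ) : ℤ := D a b t + b ^ (2 ^ (t - 2)) * D a b (t - 1)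

@[simp] lemma N_two : N a b 2 = a + 2 * b := by simp [N]; ring

lemma cop_b (h : IsCoprime a b) {m : ℕ} (hm : 1 ≤ m) : IsCoprime (D a b m) b := by
  induction m, hm using Nat.le_induction with
  | base => simp [isCoprime_one_left]
  | succ m hm ih =>
    rw [D_succ]
    have h2 : 1 ≤ 2 ^ m - 1 := by
      have : 2 ^ 1 ≤ 2 ^ m := Nat.pow_le_pow_right (by norm_num) hm
      omega
    obtain ⟨k, hk⟩ := Nat.exists_eq_add_of_le h2
    rw [hk, pow_add, pow_one]
    have : IsCoprime (a * D a b m ^ 2) b := IsCoprime.mul_left h (IsCoprime.pow_left ih)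
    exact (IsCoprime.add_mul_left_left_iff).mpr this

lemma cop_a (h : IsCoprime a b) {m : ℕ} (hm : 1 ≤ m) : IsCoprime (D a b m) a := by
  obtain ⟨m, rfl⟩ : ∃ k, m = k + 1 := ⟨m - 1, by omega⟩
  rw [D_succ, add_comm]
  have : IsCoprime (b ^ (2 ^ m - 1)) a := IsCoprime.pow_left h.symm
  exact (IsCoprime.add_mul_left_left_iff).mpr this

lemma cop_succ (h : IsCoprime a b) {m : ℕ} (hm : 1 ≤ m) : IsCoprime (D a b (m + 1)) (D a b m) := by
  rw [D_succ, add_comm, pow_two, mul_left_comm]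
  have : IsCoprime (b ^ (2 ^ m - 1)) (D a b m) := IsCoprime.pow_left (cop_b h hm).symm
  exact (IsCoprime.add_mul_left_left_iff).mpr this

lemma two_pow_sub (k j : ℕ) : 2 ^ (k + j) - 1 = 2 ^ j * (2 ^ k - 1) + (2 ^ j - 1) := by
  have h1 : 1 ≤ 2 ^ j := Nat.one_le_two_pow
  have h2 : 1 ≤ 2 ^ k := Nat.one_le_two_pow
  rw [pow_add, Nat.mul_sub, mul_comm (2 ^ k)]
  have : 2 ^ j * 1 ≤ 2 ^ j * 2 ^ k := Nat.mul_le_mul_left _ h2
  omega

/-- rigid divisibility -/
lemma rigid (k j : ℕ) :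
    D a b (k + (j + 1)) ≡ b ^ (2 ^ j * (2 ^ k - 1)) * D a b (j + 1) [ZMOD (D a b k) ^ 2] := by
  induction j with
  | zero =>
    simp only [zero_add, D_one, mul_one, pow_zero, one_mul]
    rw [D_succ]
    exact Int.modEq_iff_dvd.mpr ⟨-a, by ring⟩
  | succ j ih =>
    have h1 : D a b (k + (j + 1 + 1)) = a * (D a b (k + (j + 1))) ^ 2 + b ^ (2 ^ (k + (j + 1)) - 1) :=
      rfl
    rw [h1, two_pow_sub k (j + 1), pow_add b]
    have h2 := (ih.pow 2).mul_left a
    refine (h2.add_right _).trans ?_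
    have h3 : a * (b ^ (2 ^ j * (2 ^ k - 1)) * D a b (j + 1)) ^ 2 +
        b ^ (2 ^ (j + 1) * (2 ^ k - 1)) * b ^ (2 ^ (j + 1) - 1) =
        b ^ (2 ^ (j + 1) * (2 ^ k - 1)) * D a b (j + 1 + 1) := by
      rw [D_succ (j + 1), mul_pow, ← pow_mul,
        show 2 ^ j * (2 ^ k - 1) * 2 = 2 ^ (j + 1) * (2 ^ k - 1) by ring]
      ring
    rw [h3]

/-- preperiodicity modulo `N_t` -/
lemma tail (r i : ℕ) :
    D a b (r + 2 + i) ≡ b ^ (2 ^ (r + 1) * (2 ^ i - 1)) * D a b (r + 2) [ZMOD N a b (r + 2)] := by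
  have key : D a b (r + 3) ≡ b ^ (2 ^ (r + 1)) * D a b (r + 2) [ZMOD N a b (r + 2)] := by
    have h0 : D a b (r + 2) ≡ -(b ^ (2 ^ r) * D a b (r + 1)) [ZMOD N a b (r + 2)] := by
      apply Int.ModEq.symm
      apply Int.modEq_iff_dvd.mpr
      refine ⟨1, ?_⟩
      simp only [N, Nat.add_sub_cancel, show r + 2 - 1 = r + 1 by omega]
      ring
    have h1 : D a b (r + 3) = a * (D a b (r + 2)) ^ 2 + b ^ (2 ^ (r + 2) - 1) := rfl
    rw [h1]
    refine (((h0.pow 2).mul_left a).add_right _).trans ?_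
    have h2 : a * (-(b ^ (2 ^ r) * D a b (r + 1))) ^ 2 + b ^ (2 ^ (r + 2) - 1) =
        b ^ (2 ^ (r + 1)) * D a b (r + 2) := by
      have h3 : 2 ^ (r + 2) - 1 = 2 ^ (r + 1) + (2 ^ (r + 1) - 1) := by
        have : 2 ^ (r + 2) = 2 ^ (r + 1) + 2 ^ (r + 1) := by ring
        have h1 : 1 ≤ 2 ^ (r + 1) := Nat.one_le_two_pow
        omega
      rw [D_succ (r + 1), h3, pow_add b]
      have h4 : (b ^ (2 ^ r)) ^ 2 = b ^ (2 ^ (r + 1)) := by rw [← pow_mul]; ring_nf
      rw [neg_sq, mul_pow, h4]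
      ring
    rw [h2]
  induction i with
  | zero => simp
  | succ i ih =>
    have h1 : D a b (r + 2 + (i + 1)) = a * (D a b (r + 2 + i)) ^ 2 + b ^ (2 ^ (r + 2 + i) - 1) :=
      rfl
    rw [h1]
    refine (((ih.pow 2).mul_left a).add_right _).trans ?_
    have h2 : a * (b ^ (2 ^ (r + 1) * (2 ^ i - 1)) * D a b (r + 2)) ^ 2 +
        b ^ (2 ^ (r + 2 + i) - 1) = b ^ (2 ^ (r + 2) * (2 ^ i - 1)) * D a b (r + 3) := by
      rw [D_succ (r + 2), show r + 2 + i = i + (r + 2) by ring, two_pow_sub i (r + 2), pow_add b,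
        mul_pow, ← pow_mul, show 2 ^ (r + 1) * (2 ^ i - 1) * 2 = 2 ^ (r + 2) * (2 ^ i - 1) by ring]
      ring
    rw [h2]
    refine (key.mul_left _).trans ?_
    have h3 : 2 ^ (r + 1) * (2 ^ (i + 1) - 1) = 2 ^ (r + 2) * (2 ^ i - 1) + 2 ^ (r + 1) := by
      have h1 : 1 ≤ 2 ^ i := Nat.one_le_two_pow
      obtain ⟨x, hx⟩ := Nat.exists_eq_add_of_le h1
      rw [pow_succ 2 i, hx, show (1 + x) * 2 - 1 = 2 * x + 1 by omega, Nat.add_sub_cancel_left]
      ring
    rw [h3, pow_add b, mul_assoc]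

lemma N_succ (t : ℕ) : N a b (t + 2) = D a b (t + 2) + b ^ (2 ^ t) * D a b (t + 1) := by
  simp [N]

lemma D_modN (r : ℕ) : D a b (r + 2) ≡ -(b ^ (2 ^ r) * D a b (r + 1)) [ZMOD N a b (r + 2)] := by
  apply Int.ModEq.symm
  apply Int.modEq_iff_dvd.mpr
  refine ⟨1, ?_⟩
  rw [N_succ]
  ring

lemma cop_N_b (h : IsCoprime a b) (r : ℕ) : IsCoprime (N a b (r + 2)) b := by
  rw [N_succ]
  have h1 : IsCoprime (D a b (r + 2)) b := cop_b h (by omega)
  have : 1 ≤ 2 ^ r := Nat.one_le_two_pow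
  obtain ⟨x, hx⟩ := Nat.exists_eq_add_of_le this
  rw [hx, pow_add, pow_one, mul_assoc]
  exact (IsCoprime.add_mul_left_left_iff).mpr h1

lemma cop_N_prev (h : IsCoprime a b) (r : ℕ) : IsCoprime (N a b (r + 2)) (D a b (r + 1)) := by
  rw [N_succ, mul_comm]
  exact (IsCoprime.add_mul_left_left_iff).mpr (cop_succ h (by omega))

lemma cop_N_self (h : IsCoprime a b) (r : ℕ) : IsCoprime (N a b (r + 2)) (D a b (r + 2)) := by
  rw [N_succ, add_comm]
  have h1 : IsCoprime (b ^ (2 ^ r) * D a b (r + 1)) (D a b (r + 2)) :=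
    IsCoprime.mul_left (IsCoprime.pow_left (cop_b h (by omega)).symm) (cop_succ h (by omega)).symm
  have := (IsCoprime.add_mul_left_left_iff (z := 1)).mpr h1
  simpa using this

/-! ### signs -/

lemma Adm.pos_D (h : Adm a b e) {m : ℕ} (hm : 2 ≤ m) : 0 < e * D a b m := by
  rcases h.hs with ⟨rfl, h1⟩ | ⟨rfl, h1⟩
  · rw [one_mul]
    rcases lt_or_gt_of_ne h.ha with ha | ha
    · -- `-b < a < 0`
      have key : ∀ m, 1 ≤ m → 0 < D a b m ∧ D a b m ≤ b ^ (2 ^ (m - 1) - 1) := by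
        intro m hm
        induction m, hm using Nat.le_induction with
        | base => simp
        | succ m hm ih =>
          obtain ⟨h2, h3⟩ := ih
          rw [D_succ]
          have hb := h.hb
          have h4 : (D a b m) ^ 2 ≤ b ^ (2 ^ m - 2) := by
            have : b ^ (2 ^ m - 2) = (b ^ (2 ^ (m - 1) - 1)) ^ 2 := by
              rw [← pow_mul]
              congr 1
              obtain ⟨k, rfl⟩ : ∃ k, m = k + 1 := ⟨m - 1, by omega⟩
              simp [pow_succ, Nat.sub_mul]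
            rw [this]
            exact pow_le_pow_left₀ h2.le h3 2
          have h5 : b ^ (2 ^ m - 1) = b ^ (2 ^ m - 2) * b := by
            rw [← pow_succ]
            congr 1
            have : 2 ^ 1 ≤ 2 ^ m := Nat.pow_le_pow_right (by norm_num) hm
            omega
          have h6 : 0 < b ^ (2 ^ m - 2) := by positivity
          have h7 : 0 ≤ (D a b m) ^ 2 := by positivity
          constructor
          · rw [h5]
            nlinarith
          · simp only [Nat.add_sub_cancel]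
            nlinarith
      exact (key m (by omega)).1
    · have key : ∀ m, 1 ≤ m → 0 < D a b m := by
        intro m hm
        obtain ⟨m, rfl⟩ : ∃ k, m = k + 1 := ⟨m - 1, by omega⟩
        rw [D_succ]
        have hb := h.hb
        positivity
      exact key m (by omega)
  · have key : ∀ m, 2 ≤ m → D a b m ≤ - b ^ (2 ^ (m - 1) - 1) := by
      intro m hm
      induction m, hm using Nat.le_induction with
      | base => simp; linarith
      | succ m hm ih =>
        rw [D_succ]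
        have hb := h.hb
        have h4 : b ^ (2 ^ m - 2) ≤ (D a b m) ^ 2 := by
          have : b ^ (2 ^ m - 2) = (b ^ (2 ^ (m - 1) - 1)) ^ 2 := by
            rw [← pow_mul]
            congr 1
            obtain ⟨k, rfl⟩ : ∃ k, m = k + 1 := ⟨m - 1, by omega⟩
            simp [pow_succ, Nat.sub_mul]
          rw [this]
          have h0 : (0 : ℤ) ≤ b ^ (2 ^ (m - 1) - 1) := by positivity
          nlinarith
        have h5 : b ^ (2 ^ m - 1) = b ^ (2 ^ m - 2) * b := by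
          rw [← pow_succ]
          congr 1
          have : 2 ^ 1 ≤ 2 ^ m := Nat.pow_le_pow_right (by norm_num) (by omega)
          omega
        have h6 : 0 < b ^ (2 ^ m - 2) := by positivity
        simp only [Nat.add_sub_cancel]
        rw [h5]
        nlinarith
    have h2 := key m hm
    have hb := h.hb
    have : 0 < b ^ (2 ^ (m - 1) - 1) := by positivity
    linarith

lemma Adm.pos_N (h : Adm a b e) (r : ℕ) : 0 < e * N a b (r + 2) := by
  have hb := h.hb
  rcases Nat.eq_zero_or_pos r with rfl | hr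
  · rcases h.hs with ⟨rfl, h1⟩ | ⟨rfl, h1⟩
    · simp; linarith
    · simp; linarith
  · rw [N_succ, mul_add]
    have h1 := h.pos_D (m := r + 2) (by omega)
    have h2 := h.pos_D (m := r + 1) (by omega)
    have h3 : 0 < b ^ (2 ^ r) := by positivity
    have : e * (b ^ (2 ^ r) * D a b (r + 1)) = b ^ (2 ^ r) * (e * D a b (r + 1)) := by ring
    rw [this]
    positivity

lemma Adm.e_sq (h : Adm a b e) : e * e = 1 := by
  rcases h.hs with ⟨rfl, _⟩ | ⟨rfl, _⟩ <;> norm_num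

lemma Adm.natAbs_eq (h : Adm a b e) {x : ℤ} (hx : 0 < e * x) : ((x.natAbs : ℕ) : ℤ) = e * x := by
  rcases h.hs with ⟨rfl, _⟩ | ⟨rfl, _⟩ <;> omega

lemma Adm.natAbs_D (h : Adm a b e) {m : ℕ} (hm : 2 ≤ m) :
    ((D a b m).natAbs : ℤ) = e * D a b m := h.natAbs_eq (h.pos_D hm)

lemma Adm.natAbs_N (h : Adm a b e) (r : ℕ) :
    ((N a b (r + 2)).natAbs : ℤ) = e * N a b (r + 2) := h.natAbs_eq (h.pos_N r)

/-! ### Jacobi symbols -/

lemma jac_prod {ι : Type*} (S : Finset ι) (f : ι → ℤ) (M : ℕ) :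
    jacobiSym (∏ i ∈ S, f i) M = ∏ i ∈ S, jacobiSym (f i) M := by
  classical
  induction S using Finset.induction_on with
  | empty => simp
  | insert i S hi ih => rw [Finset.prod_insert hi, Finset.prod_insert hi, jacobiSym.mul_left, ih]

lemma jac_Z (s R M : ℕ) : jacobiSym (Z a b s R : ℤ) M =
    ∏ u ∈ R.divisors, jacobiSym ((D a b (s * u)).natAbs : ℤ) M := by
  rw [← jac_prod, Z]
  push_cast
  rfl

/-- a negative Jacobi symbol excludes squares -/
lemma not_sq_of_jac {z M : ℕ} (h : jacobiSym (z : ℤ) M = -1) : ¬ IsSquare z := by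
  rintro ⟨y, rfl⟩
  push_cast at h
  rw [jacobiSym.mul_left] at h
  nlinarith [mul_self_nonneg (jacobiSym (y : ℤ) M)]

lemma jac_sq_pow {x : ℤ} {M : ℕ} (h : IsCoprime x (M : ℤ)) (k : ℕ) (hk : Even k) :
    jacobiSym (x ^ k) M = 1 := by
  obtain ⟨k, rfl⟩ := hk
  have h1 : x.gcd (M : ℤ) = 1 := Int.isCoprime_iff_gcd_eq_one.mp h
  rw [← two_mul, pow_mul', jacobiSym.pow_left]
  have h2 : jacobiSym (x ^ k) M = 1 ∨ jacobiSym (x ^ k) M = -1 := by
    apply jacobiSym.eq_one_or_neg_one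
    exact Int.isCoprime_iff_gcd_eq_one.mp (IsCoprime.pow_left h)
  rcases h2 with h2 | h2 <;> rw [h2] <;> norm_num

lemma jac_sq {x : ℤ} {M : ℕ} (h : IsCoprime x (M : ℤ)) : jacobiSym x M * jacobiSym x M = 1 := by
  have := jac_sq_pow h 2 (by norm_num)
  rwa [pow_two, jacobiSym.mul_left] at this

lemma jac_congr {x y : ℤ} {M : ℕ} (h : x ≡ y [ZMOD M]) : jacobiSym x M = jacobiSym y M := by
  rw [jacobiSym.mod_left x, jacobiSym.mod_left y, h]

/-- the symbols of `D_j`, `j ≥ t`, modulo a divisor of `N_t` -/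
lemma jac_tail (h : IsCoprime a b) (r : ℕ) {M : ℕ} (hM : (M : ℤ) ∣ N a b (r + 2)) {j : ℕ}
    (hj : r + 2 ≤ j) : jacobiSym (D a b j) M = jacobiSym (D a b (r + 2)) M := by
  obtain ⟨i, rfl⟩ := Nat.exists_eq_add_of_le hj
  rw [jac_congr ((tail r i).of_dvd hM), jacobiSym.mul_left, jac_sq_pow, one_mul]
  · exact ((cop_N_b h r).of_isCoprime_of_dvd_left hM).symm
  · exact Even.mul_right (by rw [pow_succ]; exact even_two.mul_left _) _

lemma jac_first (h : IsCoprime a b) (r : ℕ) (hr : 1 ≤ r) {M : ℕ}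
    (hM : (M : ℤ) ∣ N a b (r + 2)) :
    jacobiSym (D a b (r + 2)) M = jacobiSym (-1) M * jacobiSym (D a b (r + 1)) M := by
  rw [jac_congr ((D_modN r).of_dvd hM), ← neg_one_mul, jacobiSym.mul_left, jacobiSym.mul_left,
    jac_sq_pow, one_mul]
  · exact ((cop_N_b h r).of_isCoprime_of_dvd_left hM).symm
  · obtain ⟨r, rfl⟩ : ∃ k, r = k + 1 := ⟨r - 1, by omega⟩
    rw [pow_succ]
    exact even_two.mul_left _

lemma jac_first0 {M : ℕ} (hM : (M : ℤ) ∣ N a b 2) :
    jacobiSym (D a b 2) M = jacobiSym (-b) M := by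
  rw [jac_congr ((D_modN 0).of_dvd hM)]
  simp

/-- splitting a product over divisors at `t` -/
lemma prod_tail (f : ℕ → ℤ) (t : ℕ) (hf : ∀ j, t ≤ j → f j = f t) (s R : ℕ) :
    ∏ u ∈ R.divisors, f (s * u) = (∏ u ∈ R.divisors with s * u < t, f (s * u)) *
      f t ^ (R.divisors.filter (fun u => ¬ s * u < t)).card := by
  rw [← Finset.prod_filter_mul_prod_filter_not R.divisors (fun u => s * u < t)]
  congr 1
  rw [Finset.prod_congr rfl (g := fun _ => f t), Finset.prod_const]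
  intro u hu
  exact hf _ (not_lt.mp (Finset.mem_filter.mp hu).2)

lemma even_card_divisors {R : ℕ} (hR : Squarefree R) (h1 : 1 < R) : Even R.divisors.card := by
  have hp := Nat.minFac_prime (n := R) (by omega)
  obtain ⟨k, hk⟩ := R.minFac_dvd
  set p := R.minFac
  have hc : Nat.Coprime p k := by
    have := hk ▸ hR
    exact Nat.coprime_of_squarefree_mul this
  rw [hk, hc.card_divisors_mul, hp.divisors, Finset.card_pair hp.one_lt.ne]
  exact even_two.mul_right _

end Pool.Agent.Arb
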