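import Mathlib

/-!
# Arboreal representations of `x ^ 2 + c` over `ℚ` (problem MP_5c2e18_nt): definitions
-/

namespace Pool.Agent.Arb

open Polynomial

/-- The `n`-th iterate of `x ^ 2 + c`, as a polynomial: `iter c 0 = X`,
`iter c (n + 1) = (iter c n) ^ 2 + c`. -/
noncomputable def iter (c : ℚ) : ℕ → ℚ[X]
  | 0 => X
  | n + 1 => (iter c n) ^ 2 + C c

/-- The map `x ↦ x ^ 2 + c` on the algebraic closure of `ℚ`. -/
noncomputable def phi (c : ℚ) (x : AlgebraicClosure ℚ) : AlgebraicClosure ℚ :=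
  x ^ 2 + algebraMap ℚ (AlgebraicClosure ℚ) c

/-- The vertices of level `n` of the tree `T`: the roots of the `n`-th iterate. -/
def level (c : ℚ) (n : ℕ) : Set (AlgebraicClosure ℚ) := {x | aeval x (iter c n) = 0}

/-- An automorphism of the rooted tree `T`: a permutation of every level, compatible with the
edges (a vertex `x` of level `n + 1` is joined to the vertex `phi c x` of level `n`). -/
structure TreeAut (c : ℚ) where
  perm : ∀ n, Equiv.Perm (level c n)
  compat : ∀ (n : ℕ) (x : level c (n + 1)) (y : level c n),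
    phi c x = y → phi c (perm (n + 1) x) = perm n y

/-- Every automorphism of the tree is induced by an element of the absolute Galois group
(equivalently by an element of `lim Gal(K_n/ℚ)`): `G(φ_c) → Aut(T)` is onto. -/
def FullImage (c : ℚ) : Prop :=
  ∀ α : TreeAut c, ∃ σ : AlgebraicClosure ℚ ≃ₐ[ℚ] AlgebraicClosure ℚ,
    ∀ (n : ℕ) (x : level c n), σ x = (α.perm n x : AlgebraicClosure ℚ)

/-- The exceptional set `E` of the problem: some iterate is inseparable, or the image of the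
arboreal representation is not all of `Aut(T)`. -/
def Exceptional : Set ℚ := {c | (∃ n, ¬ (iter c n).Separable) ∨ ¬ FullImage c}

/-- A subset of `ℚ` is thin (Serre): up to a finite set it is contained in a finite union of
sets `{t | P(t, y) = 0 has a root y ∈ ℚ}` with `P ∈ ℚ[t][y]` of degree at least `2` in `y` and
irreducible over `ℚ(t)`. -/
def IsThin (A : Set ℚ) : Prop :=
  ∃ (F : Finset ℚ[X][X]) (W : Finset ℚ),
    (∀ P ∈ F, 2 ≤ P.natDegree ∧ Irreducible (P.map (algebraMap ℚ[X] (RatFunc ℚ)))) ∧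
    ∀ t ∈ A, t ∈ W ∨ ∃ P ∈ F, ∃ y : ℚ, (P.map (evalRingHom t)).eval y = 0

/-- The naive height of a rational number. -/
def ht (c : ℚ) : ℕ := max c.num.natAbs c.den

/-- Number of rationals of height at most `B` with a property. -/
noncomputable def cnt (P : ℚ → Prop) (B : ℕ) : ℕ := {c : ℚ | ht c ≤ B ∧ P c}.ncard

/-- The sign: `-1` if `c < -2`, and `1` otherwise. -/
noncomputable def sgn (c : ℚ) : ℤ := if c < -2 then -1 else 1

/-- The explicit set of rational numbers treated by the theorem. With `c = a / b` in lowest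
terms, `b > 0`, `c ∉ [-2, -1]`, `c ≠ 0` and `s = sgn c` it asks for
* `s * (a + b) ≡ 3 (mod 4)` if `a` is even;
* `s * a ≡ 3 (mod 4)` if `4 ∣ b`;
* not (`s * a ≡ 3` and `s * b ≡ 1 (mod 4)`) if `a` and `b` are odd;
* nothing if `b ≡ 2 (mod 4)`. -/
def Good (c : ℚ) : Prop :=
  (c < -2 ∨ -1 < c) ∧ c ≠ 0 ∧
  (c.num % 2 = 0 → (sgn c * (c.num + c.den)) % 4 = 3) ∧
  ((c.den : ℤ) % 4 = 0 → (sgn c * c.num) % 4 = 3) ∧
  (c.num % 2 = 1 → (c.den : ℤ) % 2 = 1 →
    ¬ ((sgn c * c.num) % 4 = 3 ∧ (sgn c * (c.den : ℤ)) % 4 = 1))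

/-! ### Arithmetic of the critical orbit -/

/-- `c_m` up to sign for `m = 1`: `crit c 1 = -c`, `crit c m = φ_c^m(0)` for `m ≥ 2`. -/
def crit (c : ℚ) (m : ℕ) : ℚ := if m = 1 then -c else (fun x : ℚ => x ^ 2 + c)^[m] 0

/-- The orbit numerators `D_0 = 0`, `D_{m+1} = a D_m ^ 2 + b ^ (2 ^ m - 1)`. -/
def D (a b : ℤ) : ℕ → ℤ
  | 0 => 0
  | m + 1 => a * (D a b m) ^ 2 + b ^ (2 ^ m - 1)

/-- `Z(s, R) = ∏_{u ∣ R} |D_{s u}|`. -/
def Z (a b : ℤ) (s R : ℕ) : ℕ := ∏ u ∈ R.divisors, (D a b (s * u)).natAbs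

/-- Admissible data: `b > 0`, `a ≠ 0`, `gcd(a, b) = 1` and either `s = 1`, `a / b > -1`, or
`s = -1`, `a / b < -2`. -/
structure Adm (a b s : ℤ) : Prop where
  hb : 0 < b
  ha : a ≠ 0
  cop : IsCoprime a b
  hs : (s = 1 ∧ -b < a) ∨ (s = -1 ∧ a < -2 * b)

end Pool.Agent.Arb
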