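import Pool.Agent.Arb.GalBase

/-!
# MP_5c2e18_nt, module GAL: Stoll's criterion
-/

namespace Pool.Agent.Arb

open Polynomial Topology

/-- The Galois group acts on every level. -/
noncomputable instance levAct (c : ℚ) (n : ℕ) : MulAction GG (level c n) where
  smul σ x := ⟨σ x.1, level_map σ x.2⟩
  one_smul _ := rfl
  mul_smul _ _ _ := rfl

lemma levAct_val {c : ℚ} {n : ℕ} (σ : GG) (x : level c n) :
    ((σ • x : level c n) : AlgebraicClosure ℚ) = σ x.1 := rfl

/-- The elements that fix the levels up to `n`. -/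
def NN (c : ℚ) (n : ℕ) : Subgroup GG where
  carrier := {σ | ∀ m ≤ n, ∀ x ∈ level c m, σ x = x}
  one_mem' := fun _ _ _ _ => rfl
  mul_mem' := by
    intro σ τ hσ hτ m hm x hx
    rw [AlgEquiv.mul_apply, hτ m hm x hx, hσ m hm x hx]
  inv_mem' := by
    intro σ hσ m hm x hx
    have := hσ m hm x hx
    conv_lhs => rw [← this]
    exact σ.symm_apply_apply x

lemma mem_NN {c : ℚ} {n : ℕ} {σ : GG} :
    σ ∈ NN c n ↔ ∀ m ≤ n, ∀ x ∈ level c m, σ x = x := Iff.rfl

lemma NN_succ {c : ℚ} {n : ℕ} {σ : GG} :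
    σ ∈ NN c (n + 1) ↔ σ ∈ NN c n ∧ ∀ x ∈ level c (n + 1), σ x = x := by
  constructor
  · intro h
    exact ⟨fun m hm => h m (by omega), h (n + 1) le_rfl⟩
  · rintro ⟨h1, h2⟩ m hm x hx
    rcases Nat.lt_or_ge n m with h | h
    · have : m = n + 1 := by omega
      subst this
      exact h2 x hx
    · exact h1 m h x hx

lemma NN_conj {c : ℚ} {n : ℕ} (g : GG) {σ : GG} (hσ : σ ∈ NN c n) : g * σ * g⁻¹ ∈ NN c n := by
  intro m hm x hx
  rw [AlgEquiv.mul_apply, AlgEquiv.mul_apply, hσ m hm _ (level_map g⁻¹ hx)]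
  exact g.apply_symm_apply x

open scoped Classical in
/-- The sign changes. -/
noncomputable def chi (c : ℚ) (n : ℕ) (σ : GG) : level c n → ZMod 2 :=
  fun x => if σ (rt c x) = rt c x then 0 else 1

/-- The sign with values in the algebraic closure. -/
noncomputable def sg2 (t : ZMod 2) : AlgebraicClosure ℚ := if t = 0 then 1 else -1

lemma sg2_zero : sg2 0 = 1 := by simp [sg2]
lemma sg2_one : sg2 1 = -1 := by simp [sg2]

lemma zmod2_cases (t : ZMod 2) : t = 0 ∨ t = 1 := by revert t; decide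

lemma sg2_add (s t : ZMod 2) : sg2 (s + t) = sg2 s * sg2 t := by
  rcases zmod2_cases s with rfl | rfl <;> rcases zmod2_cases t with rfl | rfl
  · simp [sg2_zero]
  · simp [sg2_zero]
  · simp [sg2_zero]
  · have : (1 + 1 : ZMod 2) = 0 := by decide
    rw [this, sg2_zero, sg2_one]; ring

lemma sg2_sum {ι : Type*} (s : Finset ι) (f : ι → ZMod 2) :
    sg2 (∑ i ∈ s, f i) = ∏ i ∈ s, sg2 (f i) := by
  classical
  induction s using Finset.induction_on with
  | empty => simp [sg2_zero]
  | insert a s ha ih => rw [Finset.sum_insert ha, Finset.prod_insert ha, sg2_add, ih]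

lemma sg2_map (σ : GG) (t : ZMod 2) : σ (sg2 t) = sg2 t := by
  rcases zmod2_cases t with rfl | rfl
  · rw [sg2_zero, map_one]
  · rw [sg2_one, map_neg, map_one]

lemma sg2_inj {s t : ZMod 2} {x : AlgebraicClosure ℚ} (hx : x ≠ 0)
    (h : sg2 s * x = sg2 t * x) : s = t := by
  have h1 : sg2 s = sg2 t := mul_right_cancel₀ hx h
  rcases zmod2_cases s with rfl | rfl <;> rcases zmod2_cases t with rfl | rfl
  · rfl
  · rw [sg2_zero, sg2_one] at h1; norm_num at h1
  · rw [sg2_zero, sg2_one] at h1; norm_num at h1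
  · rfl

lemma chi_spec {c : ℚ} {n : ℕ} {σ : GG} (hσ : σ ∈ NN c n) (x : level c n) :
    σ (rt c x) = sg2 (chi c n σ x) * rt c x := by
  unfold chi
  split_ifs with h
  · rw [sg2_zero, one_mul, h]
  · rw [sg2_one]
    have h1 : phi c (σ (rt c x)) = phi c (rt c x) := by
      rw [phi_map, phi_rt, hσ n le_rfl x.1 x.2]
    rcases eq_or_neg_of_phi h1 with h2 | h2
    · exact absurd h2 h
    · rw [h2]; ring

lemma chi_mul {c : ℚ} (hc : Hyp c) {n : ℕ} {σ τ : GG} (hσ : σ ∈ NN c n) (hτ : τ ∈ NN c n) :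
    chi c n (σ * τ) = chi c n σ + chi c n τ := by
  funext x
  have h1 := chi_spec ((NN c n).mul_mem hσ hτ) x
  rw [AlgEquiv.mul_apply, chi_spec hτ x, map_mul, sg2_map, chi_spec hσ x] at h1
  apply sg2_inj (rt_ne_zero hc x.2)
  rw [← h1, Pi.add_apply, sg2_add]; ring

lemma chi_conj {c : ℚ} {n : ℕ} (g : GG) {σ : GG} (x : level c n) :
    chi c n (g * σ * g⁻¹) (g • x) = chi c n σ x := by
  have h0 : phi c (g⁻¹ (rt c (g • x : level c n))) = phi c (rt c x) := by
    rw [phi_map, phi_rt, phi_rt, levAct_val]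
    exact g.symm_apply_apply x.1
  have h1 : ((g * σ * g⁻¹) (rt c (g • x : level c n)) = rt c (g • x : level c n)) ↔
      σ (rt c x) = rt c x := by
    have h2 : ((g * σ * g⁻¹) (rt c (g • x : level c n)) = rt c (g • x : level c n)) ↔
        σ (g⁻¹ (rt c (g • x : level c n))) = g⁻¹ (rt c (g • x : level c n)) := by
      rw [AlgEquiv.mul_apply, AlgEquiv.mul_apply]
      constructor
      · intro h
        conv_rhs => rw [← h]
        exact (g.symm_apply_apply _).symm
      · intro h
        rw [h]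
        exact g.apply_symm_apply _
    rw [h2]
    rcases eq_or_neg_of_phi h0 with h3 | h3
    · rw [h3]
    · rw [h3, map_neg, neg_inj]
  unfold chi
  by_cases h : σ (rt c x) = rt c x
  · rw [if_pos h, if_pos (h1.mpr h)]
  · rw [if_neg h, if_neg (fun h' => h (h1.mp h'))]

lemma level_succ_eq {c : ℚ} {x : AlgebraicClosure ℚ} :
    x = rt c (phi c x) ∨ x = - rt c (phi c x) := by
  apply eq_or_neg_of_phi
  rw [phi_rt]

lemma chi_eq_zero {c : ℚ} (hc : Hyp c) {n : ℕ} {σ : GG} (hσ : σ ∈ NN c n) (h : chi c n σ = 0) :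
    σ ∈ NN c (n + 1) := by
  rw [NN_succ]
  refine ⟨hσ, fun x hx => ?_⟩
  rw [mem_level_succ] at hx
  have h1 := chi_spec hσ ⟨phi c x, hx⟩
  rw [h, Pi.zero_apply, sg2_zero, one_mul] at h1
  rcases level_succ_eq (c := c) (x := x) with h2 | h2
  · rw [h2]; exact h1
  · rw [h2, map_neg]; congr 1

/-- `g ^ (2 ^ n)` fixes level `n`. -/
lemma pow_fix {c : ℚ} (g : GG) (n : ℕ) : ∀ x ∈ level c n, (g ^ 2 ^ n) x = x := by
  induction n with
  | zero => intro x hx; rw [mem_level_zero] at hx; rw [hx, map_zero]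
  | succ n ih =>
    intro x hx
    rw [mem_level_succ] at hx
    have h1 := ih _ hx
    rw [← phi_map] at h1
    rw [pow_succ 2 n, pow_mul, pow_two (g ^ 2 ^ n), AlgEquiv.mul_apply]
    rcases eq_or_neg_of_phi h1 with h2 | h2
    · rw [h2, h2]
    · rw [h2, map_neg, h2, neg_neg]

lemma isPGroup_level (c : ℚ) (n : ℕ) :
    IsPGroup 2 (MulAction.toPermHom GG (level c n)).range := by
  rintro ⟨π, g, rfl⟩
  refine ⟨n, ?_⟩
  apply Subtype.ext
  change (MulAction.toPermHom GG (level c n) g) ^ 2 ^ n = 1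
  rw [← map_pow]
  ext x
  exact pow_fix g n x.1 x.2

/-- The product of the square roots. -/
noncomputable def PP (c : ℚ) (n : ℕ) : AlgebraicClosure ℚ := ∏ x : level c n, rt c x

lemma PP_sq {c : ℚ} (hc : Hyp c) (n : ℕ) :
    (PP c n) ^ 2 = algebraMap ℚ (AlgebraicClosure ℚ) (crit c (n + 1)) := by
  unfold PP
  rw [← Finset.prod_pow, ← prod_level hc]
  exact Finset.prod_congr rfl fun x _ => rt_sq c x

lemma PP_ne_zero {c : ℚ} (hc : Hyp c) (n : ℕ) : PP c n ≠ 0 :=
  Finset.prod_ne_zero_iff.mpr fun x _ => rt_ne_zero hc x.2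

lemma PP_map {c : ℚ} {n : ℕ} {σ : GG} (hσ : σ ∈ NN c n) :
    σ (PP c n) = sg2 (∑ x, chi c n σ x) * PP c n := by
  unfold PP
  rw [map_prod, sg2_sum, ← Finset.prod_mul_distrib]
  exact Finset.prod_congr rfl fun x _ => chi_spec hσ x

/-- The Kummer statement. -/
def Kum (c : ℚ) (n : ℕ) : Prop :=
  ∀ (d : ℚ) (δ : AlgebraicClosure ℚ), δ ^ 2 = algebraMap ℚ (AlgebraicClosure ℚ) d → δ ≠ 0 →
    (∀ σ ∈ NN c n, σ δ = δ) →
    ∃ S : Finset ℕ, (∀ m ∈ S, 1 ≤ m ∧ m ≤ n) ∧ IsSquare (d * ∏ m ∈ S, crit c m)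

/-- All sign changes occur. -/
def Sur (c : ℚ) (n : ℕ) : Prop := ∀ v : level c n → ZMod 2, ∃ σ ∈ NN c n, chi c n σ = v

lemma kum_zero (c : ℚ) : Kum c 0 := by
  intro d δ hδ _ hfix
  refine ⟨∅, by simp, ?_⟩
  rw [Finset.prod_empty, mul_one]
  have h1 : ∀ σ : GG, σ δ = δ := by
    intro σ
    apply hfix
    intro m hm x hx
    have : m = 0 := by omega
    subst this
    rw [mem_level_zero] at hx
    rw [hx, map_zero]
  obtain ⟨q, hq⟩ := (InfiniteGalois.mem_range_algebraMap_iff_fixed δ).mpr h1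
  refine ⟨q, ?_⟩
  rw [← hq, ← map_pow] at hδ
  rw [← (algebraMap ℚ (AlgebraicClosure ℚ)).injective hδ]
  ring

lemma sur_of {c : ℚ} (hc : Hyp c) {n : ℕ} (ht : MulAction.IsPretransitive GG (level c n))
    (hk : Kum c n) : Sur c n := by
  apply lemA (isPGroup_level c n) (NN c n) (chi c n)
  · exact fun σ hσ τ hτ => chi_mul hc hσ hτ
  · exact fun g σ hσ => ⟨NN_conj g hσ, fun x => chi_conj g x⟩
  · by_contra hcon
    push Not at hcon
    have h1 : ∀ σ ∈ NN c n, σ (PP c n) = PP c n := by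
      intro σ hσ
      rw [PP_map hσ, hcon σ hσ, sg2_zero, one_mul]
    obtain ⟨S, hS, hsq⟩ := hk _ _ (PP_sq hc n) (PP_ne_zero hc n) h1
    apply hc (insert (n + 1) S) (Finset.insert_nonempty _ _)
    · intro h0
      rw [Finset.mem_insert] at h0
      rcases h0 with h0 | h0
      · omega
      · have := (hS 0 h0).1; omega
    · rw [Finset.prod_insert]
      · exact hsq
      · intro h0
        have := (hS _ h0).2; omega

lemma trans_zero (c : ℚ) : MulAction.IsPretransitive GG (level c 0) := by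
  constructor
  intro x y
  refine ⟨1, ?_⟩
  apply Subtype.ext
  have h1 := mem_level_zero.mp x.2
  have h2 := mem_level_zero.mp y.2
  change x.1 = y.1
  rw [h1, h2]

/-- Correction of signs. -/
lemma correct {c : ℚ} {n : ℕ} (hs : Sur c n) (e : AlgebraicClosure ℚ → ZMod 2) :
    ∃ σ ∈ NN c n, ∀ x ∈ level c (n + 1), σ x = sg2 (e (phi c x)) * x := by
  obtain ⟨σ, hσ, hχ⟩ := hs fun x => e x
  refine ⟨σ, hσ, fun x hx => ?_⟩
  rw [mem_level_succ] at hx
  have h1 := chi_spec hσ ⟨phi c x, hx⟩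
  rw [hχ] at h1
  rcases level_succ_eq (c := c) (x := x) with h2 | h2
  · conv_lhs => rw [h2]
    conv_rhs => rw [h2]
    rw [phi_rt]
    exact h1
  · conv_lhs => rw [h2]
    conv_rhs => rw [h2]
    rw [phi_neg, phi_rt, map_neg]
    simp only at h1
    rw [h1]; ring

lemma trans_succ {c : ℚ} {n : ℕ} (ht : MulAction.IsPretransitive GG (level c n))
    (hs : Sur c n) : MulAction.IsPretransitive GG (level c (n + 1)) := by
  classical
  constructor
  rintro ⟨x, hx⟩ ⟨y, hy⟩
  have hx' := mem_level_succ.mp hx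
  have hy' := mem_level_succ.mp hy
  obtain ⟨g, hg⟩ := MulAction.exists_smul_eq GG (⟨_, hx'⟩ : level c n) ⟨_, hy'⟩
  have h1 : phi c (g x) = phi c y := by
    rw [phi_map]; exact congrArg Subtype.val hg
  rcases eq_or_neg_of_phi h1 with h2 | h2
  · exact ⟨g, Subtype.ext h2⟩
  · obtain ⟨σ, _, hσ⟩ := correct hs fun _ => 1
    refine ⟨σ * g, Subtype.ext ?_⟩
    change (σ * g) x = y
    rw [AlgEquiv.mul_apply, hσ _ (level_map g hx), sg2_one, h2]
    ring

lemma kum_succ {c : ℚ} (hc : Hyp c) {n : ℕ} (ht : MulAction.IsPretransitive GG (level c n))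
    (hk : Kum c n) (hs : Sur c n) : Kum c (n + 1) := by
  classical
  intro d δ hδ hδ0 hfix
  -- the character of δ
  let ψ : GG → ZMod 2 := fun σ => if σ δ = δ then 0 else 1
  have hψ : ∀ σ, σ δ = sg2 (ψ σ) * δ := by
    intro σ
    change σ δ = sg2 (if σ δ = δ then 0 else 1) * δ
    split_ifs with h
    · rw [sg2_zero, one_mul, h]
    · rw [sg2_one]
      have h1 : (σ δ) ^ 2 = δ ^ 2 := by
        rw [← map_pow, hδ, AlgEquiv.commutes]
      rcases sq_eq_sq_iff_eq_or_eq_neg.mp h1 with h2 | h2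
      · exact absurd h2 h
      · rw [h2]; ring
  have hψm : ∀ σ τ, ψ (σ * τ) = ψ σ + ψ τ := by
    intro σ τ
    apply sg2_inj hδ0
    rw [← hψ, AlgEquiv.mul_apply, hψ τ, map_mul, sg2_map, hψ σ, sg2_add]; ring
  have hψc : ∀ g σ, ψ (g * σ * g⁻¹) = ψ σ := by
    intro g σ
    rw [hψm, hψm]
    have h1 : ψ g + ψ g⁻¹ = 0 := by
      rw [← hψm, mul_inv_cancel]
      apply sg2_inj hδ0
      rw [← hψ, sg2_zero, one_mul]; rfl
    have : ψ g + ψ σ + ψ g⁻¹ = ψ σ + (ψ g + ψ g⁻¹) := by ring
    rw [this, h1, add_zero]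
  have hmain := lemB (NN c n) (chi c n) (fun σ hσ τ hτ => chi_mul hc hσ hτ)
    (fun g σ hσ => ⟨NN_conj g hσ, fun x => chi_conj g x⟩) hs ψ
    (fun σ _ τ _ => hψm σ τ) (fun g σ _ => hψc g σ)
    (fun σ hσ h0 => by
      have h1 := hfix σ (chi_eq_zero hc hσ h0)
      change (if σ δ = δ then 0 else 1) = (0 : ZMod 2)
      rw [if_pos h1])
  rcases hmain with h | h
  · obtain ⟨S, hS, hsq⟩ := hk d δ hδ hδ0 fun σ hσ => by
      rw [hψ σ, h σ hσ, sg2_zero, one_mul]
    exact ⟨S, fun m hm => ⟨(hS m hm).1, by have := (hS m hm).2; omega⟩, hsq⟩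
  · have h1 : (δ * PP c n) ^ 2 =
        algebraMap ℚ (AlgebraicClosure ℚ) (d * crit c (n + 1)) := by
      rw [mul_pow, hδ, PP_sq hc, map_mul]
    obtain ⟨S, hS, hsq⟩ := hk _ _ h1 (mul_ne_zero hδ0 (PP_ne_zero hc n)) fun σ hσ => by
      rw [map_mul, PP_map hσ, hψ σ, h σ hσ]
      have h2 : sg2 (∑ x, chi c n σ x) * sg2 (∑ x, chi c n σ x) = 1 := by
        rw [← sg2_add, CharTwo.add_self_eq_zero, sg2_zero]
      linear_combination (δ * PP c n) * h2
    refine ⟨insert (n + 1) S, ?_, ?_⟩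
    · intro m hm
      rw [Finset.mem_insert] at hm
      rcases hm with rfl | hm
      · omega
      · have := hS m hm; omega
    · rw [Finset.prod_insert]
      · rw [← mul_assoc]; exact hsq
      · intro h0
        have := (hS _ h0).2; omega

theorem all_levels {c : ℚ} (hc : Hyp c) (n : ℕ) :
    MulAction.IsPretransitive GG (level c n) ∧ Kum c n ∧ Sur c n := by
  induction n with
  | zero => exact ⟨trans_zero c, kum_zero c, sur_of hc (trans_zero c) (kum_zero c)⟩
  | succ n ih =>
    obtain ⟨ht, hk, hs⟩ := ih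
    have h1 := trans_succ ht hs
    have h2 := kum_succ hc ht hk hs
    exact ⟨h1, h2, sur_of hc h1 h2⟩

/-- Every tree automorphism is Galois on the levels up to `n`. -/
theorem finite_levels {c : ℚ} (hc : Hyp c) (α : TreeAut c) (n : ℕ) :
    ∃ σ : GG, ∀ m ≤ n, ∀ x : level c m, σ x = (α.perm m x : AlgebraicClosure ℚ) := by
  classical
  induction n with
  | zero =>
    refine ⟨1, fun m hm x => ?_⟩
    have : m = 0 := by omega
    subst this
    have h1 := mem_level_zero.mp x.2
    have h2 := mem_level_zero.mp (α.perm 0 x).2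
    rw [h1, h2, map_zero]
  | succ n ih =>
    obtain ⟨g, hg⟩ := ih
    -- the automorphism on level `n + 1`
    have hα : ∀ x : level c (n + 1), phi c (α.perm (n + 1) x) = phi c (g x) := by
      intro x
      have hx' := mem_level_succ.mp x.2
      have h1 := α.compat n x ⟨_, hx'⟩ rfl
      rw [h1, phi_map, ← hg n le_rfl ⟨_, hx'⟩]
    -- sign of the pair above `b`
    let e : AlgebraicClosure ℚ → ZMod 2 := fun b =>
      if ∃ x : level c (n + 1), phi c (g x) = b ∧
        (α.perm (n + 1) x : AlgebraicClosure ℚ) = g x then 0 else 1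
    have he : ∀ x : level c (n + 1), (α.perm (n + 1) x : AlgebraicClosure ℚ) =
        sg2 (e (phi c (g x))) * g x := by
      intro x
      change _ = sg2 (if ∃ y : level c (n + 1), phi c (g y) = phi c (g x) ∧
        (α.perm (n + 1) y : AlgebraicClosure ℚ) = g y then 0 else 1) * g x
      split_ifs with h
      · obtain ⟨y, hy1, hy2⟩ := h
        rw [sg2_zero, one_mul]
        rcases eq_or_neg_of_phi hy1 with h2 | h2
        · have h3 : y = x := Subtype.ext (g.injective h2)
          rw [← h3]; exact hy2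
        · rcases eq_or_neg_of_phi (hα x) with h4 | h4
          · exact h4
          · exfalso
            have h5 : α.perm (n + 1) x = α.perm (n + 1) y := by
              apply Subtype.ext
              rw [h4, hy2, h2]
            have h6 := (α.perm (n + 1)).injective h5
            rw [h6] at h2
            have h7 := level_succ_ne_zero hc (level_map g y.2)
            apply h7
            have h8 : (2 : AlgebraicClosure ℚ) * g y = 0 := by linear_combination h2
            rcases mul_eq_zero.mp h8 with h9 | h9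
            · norm_num at h9
            · exact h9
      · rw [sg2_one]
        rcases eq_or_neg_of_phi (hα x) with h4 | h4
        · exact absurd ⟨x, rfl, h4⟩ h
        · rw [h4]; ring
    obtain ⟨σ, hσ, hσ'⟩ := correct (all_levels hc n).2.2 e
    refine ⟨σ * g, fun m hm x => ?_⟩
    rw [AlgEquiv.mul_apply]
    rcases Nat.lt_or_ge n m with h | h
    · have : m = n + 1 := by omega
      subst this
      rw [hσ' _ (level_map g x.2), he x]
    · rw [hσ m h _ (level_map g x.2), hg m h x]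

/-- Closedness in the Krull topology. -/
lemma isClosed_eq (x y : AlgebraicClosure ℚ) : IsClosed {σ : GG | σ x = y} := by
  by_cases h : ∃ g : GG, g x = y
  · obtain ⟨g, hg⟩ := h
    have h1 : IsClosed (MulAction.stabilizer GG x : Set GG) :=
      Subgroup.isClosed_of_isOpen _ (stabilizer_isOpen_of_isIntegral x)
    have h2 : {σ : GG | σ x = y} = (fun σ => g⁻¹ * σ) ⁻¹' (MulAction.stabilizer GG x : Set GG) := by
      ext σ
      simp only [Set.mem_ofPred_eq, Set.mem_preimage, SetLike.mem_coe, MulAction.mem_stabilizer_iff]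
      constructor
      · intro h
        change (g⁻¹ * σ) x = x
        rw [AlgEquiv.mul_apply, h, ← hg]
        exact g.symm_apply_apply x
      · intro h
        have h' : (g⁻¹ * σ) x = x := h
        rw [AlgEquiv.mul_apply] at h'
        have h3 : g (g⁻¹ (σ x)) = g x := congrArg g h'
        rw [← hg, ← h3]
        exact (g.apply_symm_apply _).symm
    rw [h2]
    exact h1.preimage (continuous_const.mul continuous_id)
  · have : {σ : GG | σ x = y} = ∅ := by
      ext σ
      simp only [Set.mem_ofPred_eq, Set.mem_empty_iff_false, iff_false]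
      exact fun h' => h ⟨σ, h'⟩
    rw [this]
    exact isClosed_empty

theorem fullImage_of_hyp {c : ℚ} (hc : Hyp c) : FullImage c := by
  intro α
  let A : ℕ → Set GG := fun n =>
    {σ | ∀ m ≤ n, ∀ x : level c m, σ x = (α.perm m x : AlgebraicClosure ℚ)}
  have hA : ∀ n, A n = ⋂ m : ℕ, ⋂ _ : m ≤ n, ⋂ x : level c m,
      {σ : GG | σ x = (α.perm m x : AlgebraicClosure ℚ)} := by
    intro n
    ext σ
    simp only [A, Set.mem_ofPred_eq, Set.mem_iInter]
  have hclosed : ∀ n, IsClosed (A n) := by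
    intro n
    rw [hA]
    exact isClosed_iInter fun m => isClosed_iInter fun _ => isClosed_iInter fun x => isClosed_eq _ _
  have hcomp : CompactSpace GG := inferInstanceAs (CompactSpace Gal(AlgebraicClosure ℚ/ℚ))
  have hne := IsCompact.nonempty_iInter_of_sequence_nonempty_isCompact_isClosed A
    (fun n σ hσ m hm => hσ m (by omega)) (fun n => finite_levels hc α n)
    (hclosed 0).isCompact hclosed
  obtain ⟨σ, hσ⟩ := hne
  refine ⟨σ, fun n x => ?_⟩
  exact (Set.mem_iInter.mp hσ n) n le_rfl x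

/-- GAL (Stoll's criterion). -/
theorem gal_proof : Stmt_Gal := by
  intro c hc hE
  rcases hE with ⟨n, hn⟩ | h
  · exact hn (iter_separable hc n)
  · exact h (fullImage_of_hyp hc)

end Pool.Agent.Arb
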