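import Mathlib

/-!
# MP_5c2e18_nt, module GAL: two lemmas on group actions

`N` is a normal subgroup of `G`, `χ : N → F₂ ^ X` an equivariant homomorphism.
-/

namespace Pool.Agent.Arb

open Finset

section Abs

variable {G X : Type*} [Group G] [Fintype X] [MulAction G X]

/-- Linear functionals on `X → ZMod 2` as sums. -/
lemma functional_eq_sum [DecidableEq X] (f : (X → ZMod 2) →ₗ[ZMod 2] ZMod 2) (v : X → ZMod 2) :
    f v = ∑ x, v x * f (Pi.single x 1) := by
  have := LinearMap.pi_apply_eq_sum_univ f v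
  rw [this]
  refine Finset.sum_congr rfl fun x _ => ?_
  rw [smul_eq_mul]
  congr 2
  funext y
  by_cases h : y = x
  · subst h; simp
  · simp [h, Ne.symm h]

/-- The annihilator of the image of `χ`. -/
def ann (N : Subgroup G) (χ : G → X → ZMod 2) : AddSubgroup (X → ZMod 2) where
  carrier := {w | ∀ σ ∈ N, ∑ x, w x * χ σ x = 0}
  zero_mem' := by intro σ _; simp
  add_mem' := by
    intro a b ha hb σ hσ
    have h1 := ha σ hσ
    have h2 := hb σ hσ
    simp only [Pi.add_apply, add_mul, Finset.sum_add_distrib, h1, h2, add_zero]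
  neg_mem' := by
    intro a ha σ hσ
    have h1 := ha σ hσ
    simp only [Pi.neg_apply, neg_mul, Finset.sum_neg_distrib, h1, neg_zero]

omit [MulAction G X] in
lemma mem_ann {N : Subgroup G} {χ : G → X → ZMod 2} {w : X → ZMod 2} :
    w ∈ ann N χ ↔ ∀ σ ∈ N, ∑ x, w x * χ σ x = 0 := Iff.rfl

/-- The translation of a vector. -/
lemma ann_smul {N : Subgroup G} {χ : G → X → ZMod 2}
    (hconj : ∀ g, ∀ σ ∈ N, g * σ * g⁻¹ ∈ N ∧ ∀ x, χ (g * σ * g⁻¹) (g • x) = χ σ x)
    {w : X → ZMod 2} (hw : w ∈ ann N χ) (g : G) : (fun x => w (g⁻¹ • x)) ∈ ann N χ := by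
  rw [mem_ann] at hw ⊢
  intro σ hσ
  obtain ⟨h1, h2⟩ := hconj g⁻¹ σ hσ
  have h3 := hw _ h1
  rw [← h3]
  refine Fintype.sum_equiv (MulAction.toPerm g⁻¹) _ _ fun x => ?_
  have := h2 x
  simp only [MulAction.toPerm_apply]
  rw [this]

theorem lemA [MulAction.IsPretransitive G X]
    (h2 : IsPGroup 2 (MulAction.toPermHom G X).range) (N : Subgroup G) (χ : G → X → ZMod 2)
    (hmul : ∀ σ ∈ N, ∀ τ ∈ N, χ (σ * τ) = χ σ + χ τ)
    (hconj : ∀ g, ∀ σ ∈ N, g * σ * g⁻¹ ∈ N ∧ ∀ x, χ (g * σ * g⁻¹) (g • x) = χ σ x)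
    (hne : ∃ σ ∈ N, ∑ x, χ σ x ≠ 0) : ∀ v : X → ZMod 2, ∃ σ ∈ N, χ σ = v := by
  classical
  have hone : χ 1 = 0 := by
    have := hmul 1 N.one_mem 1 N.one_mem
    rw [mul_one] at this
    exact left_eq_add.mp this
  let H : Submodule (ZMod 2) (X → ZMod 2) :=
    { carrier := {v | ∃ σ ∈ N, χ σ = v}
      zero_mem' := ⟨1, N.one_mem, hone⟩
      add_mem' := by
        rintro _ _ ⟨σ, hσ, rfl⟩ ⟨τ, hτ, rfl⟩
        exact ⟨σ * τ, N.mul_mem hσ hτ, hmul σ hσ τ hτ⟩
      smul_mem' := by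
        rintro a _ ⟨σ, hσ, rfl⟩
        have : a = 0 ∨ a = 1 := by
          revert a; decide
        rcases this with h | h
        · exact ⟨1, N.one_mem, by rw [h, zero_smul, hone]⟩
        · exact ⟨σ, hσ, by rw [h, one_smul]⟩ }
  by_cases hH : H = ⊤
  · intro v
    have : v ∈ H := by rw [hH]; trivial
    exact this
  exfalso
  obtain ⟨f, hf0, hf⟩ := Submodule.exists_le_ker_of_lt_top H (lt_top_iff_ne_top.mpr hH)
  -- the nonzero vector of the annihilator
  set w0 : X → ZMod 2 := fun x => f (Pi.single x 1) with hw0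
  have hw0mem : w0 ∈ ann N χ := by
    rw [mem_ann]
    intro σ hσ
    have h1 : f (χ σ) = 0 := hf (show χ σ ∈ H from ⟨σ, hσ, rfl⟩)
    rw [functional_eq_sum] at h1
    rw [← h1]
    exact Finset.sum_congr rfl fun x _ => mul_comm _ _
  have hw0ne : w0 ≠ 0 := by
    intro h
    apply hf0
    ext v
    have := functional_eq_sum f (Pi.single v 1)
    simp only [LinearMap.coe_comp, LinearMap.coe_single, Function.comp_apply, LinearMap.zero_apply]
    rw [this]
    refine Finset.sum_eq_zero fun x _ => ?_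
    have := congrFun h x
    simp only [hw0, Pi.zero_apply] at this
    rw [this, mul_zero]
  -- the action of the 2-group
  let P := (MulAction.toPermHom G X).range
  have hP : ∀ (π : P), ∃ g : G, ∀ x, (π : Equiv.Perm X) x = g • x := by
    rintro ⟨π, g, rfl⟩
    exact ⟨g, fun x => rfl⟩
  have hstab : ∀ (π : P) (w : X → ZMod 2), w ∈ ann N χ →
      (fun x => w (((π⁻¹ : P) : Equiv.Perm X) x)) ∈ ann N χ := by
    intro π w hw
    obtain ⟨g, hg⟩ := hP π⁻¹
    have := ann_smul hconj hw g⁻¹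
    rw [inv_inv] at this
    have h2 : (fun x => w (((π⁻¹ : P) : Equiv.Perm X) x)) = fun x => w (g • x) := by
      funext x; rw [hg]
    rw [h2]; exact this
  let act : MulAction P (ann N χ) :=
    { smul := fun π w => ⟨fun x => w.1 (((π⁻¹ : P) : Equiv.Perm X) x), hstab π w.1 w.2⟩
      one_smul := by
        intro w
        apply Subtype.ext
        funext x
        change w.1 (((1 : P)⁻¹ : P).1 x) = w.1 x
        rw [inv_one]; rfl
      mul_smul := by
        intro π ρ w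
        apply Subtype.ext
        funext x
        change w.1 (((π * ρ)⁻¹ : P).1 x) = w.1 ((ρ⁻¹ : P).1 ((π⁻¹ : P).1 x))
        rw [mul_inv_rev]; rfl }
  have hfin : Finite (ann N χ) := inferInstance
  have hcard : 2 ∣ Nat.card (ann N χ) := by
    have h1 : addOrderOf (⟨w0, hw0mem⟩ : ann N χ) = 2 := by
      apply addOrderOf_eq_prime
      · apply Subtype.ext
        funext x
        change (2 • w0) x = 0
        rw [Pi.smul_apply, two_nsmul]
        exact CharTwo.add_self_eq_zero _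
      · intro h
        exact hw0ne (congrArg Subtype.val h)
    have h2 := addOrderOf_dvd_natCard (⟨w0, hw0mem⟩ : ann N χ)
    rwa [h1] at h2
  have hfix0 : (0 : ann N χ) ∈ MulAction.fixedPoints P (ann N χ) := by
    intro π
    apply Subtype.ext
    rfl
  obtain ⟨b, hb, hb0⟩ :=
    h2.exists_fixed_point_of_prime_dvd_card_of_fixed_point (ann N χ) hcard hfix0
  -- `b` is constant
  have hconst : ∀ (g : G) (x : X), b.1 (g • x) = b.1 x := by
    intro g x
    have h3 := hb ((⟨MulAction.toPermHom G X g, g, rfl⟩ : P)⁻¹)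
    have h4 := congrFun (congrArg Subtype.val h3) x
    change b.1 ((((⟨MulAction.toPermHom G X g, g, rfl⟩ : P)⁻¹)⁻¹ : P).1 x) = b.1 x at h4
    rw [inv_inv] at h4
    exact h4
  obtain ⟨x0, hx0⟩ : ∃ x0, b.1 x0 ≠ 0 := by
    by_contra h
    push Not at h
    exact hb0 (Subtype.ext (funext fun x => (h x).symm))
  have hb1 : ∀ x, b.1 x = 1 := by
    intro x
    obtain ⟨g, hg⟩ := MulAction.exists_smul_eq G x0 x
    rw [← hg, hconst]
    revert hx0
    generalize b.1 x0 = t
    revert t; decide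
  obtain ⟨σ, hσ, hne'⟩ := hne
  apply hne'
  have := b.2 σ hσ
  rw [← this]
  exact Finset.sum_congr rfl fun x _ => by rw [hb1, one_mul]

theorem lemB [MulAction.IsPretransitive G X] (N : Subgroup G) (χ : G → X → ZMod 2)
    (hmul : ∀ σ ∈ N, ∀ τ ∈ N, χ (σ * τ) = χ σ + χ τ)
    (hconj : ∀ g, ∀ σ ∈ N, g * σ * g⁻¹ ∈ N ∧ ∀ x, χ (g * σ * g⁻¹) (g • x) = χ σ x)
    (hsurj : ∀ v : X → ZMod 2, ∃ σ ∈ N, χ σ = v) (ψ : G → ZMod 2)
    (hψ : ∀ σ ∈ N, ∀ τ ∈ N, ψ (σ * τ) = ψ σ + ψ τ)
    (hψc : ∀ g, ∀ σ ∈ N, ψ (g * σ * g⁻¹) = ψ σ)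
    (hker : ∀ σ ∈ N, χ σ = 0 → ψ σ = 0) :
    (∀ σ ∈ N, ψ σ = 0) ∨ ∀ σ ∈ N, ψ σ = ∑ x, χ σ x := by
  classical
  have hψ1 : ψ 1 = 0 := by
    have := hψ 1 N.one_mem 1 N.one_mem
    rw [mul_one] at this
    exact left_eq_add.mp this
  -- `ψ` only depends on `χ`
  have hdep : ∀ σ ∈ N, ∀ τ ∈ N, χ σ = χ τ → ψ σ = ψ τ := by
    intro σ hσ τ hτ h
    have h1 : χ (σ * τ) = 0 := by
      rw [hmul σ hσ τ hτ, h]
      funext x
      exact CharTwo.add_self_eq_zero _
    have h2 := hker _ (N.mul_mem hσ hτ) h1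
    rw [hψ σ hσ τ hτ] at h2
    rw [← CharTwo.sub_eq_add] at h2
    exact sub_eq_zero.mp h2
  choose s hsN hs using hsurj
  let ψ' : (X → ZMod 2) →+ ZMod 2 :=
    { toFun := fun v => ψ (s v)
      map_zero' := by
        rw [hdep (s 0) (hsN 0) 1 N.one_mem ?_, hψ1]
        have := hmul 1 N.one_mem 1 N.one_mem
        rw [mul_one] at this
        rw [hs, left_eq_add.mp this]
      map_add' := by
        intro v w
        rw [← hψ _ (hsN v) _ (hsN w)]
        apply hdep _ (hsN _) _ (N.mul_mem (hsN v) (hsN w))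
        rw [hs, hmul _ (hsN v) _ (hsN w), hs, hs] }
  let ψ'' : (X → ZMod 2) →ₗ[ZMod 2] ZMod 2 := ψ'.toZModLinearMap 2
  have hψ'' : ∀ σ ∈ N, ψ σ = ψ'' (χ σ) := by
    intro σ hσ
    change ψ σ = ψ (s (χ σ))
    exact hdep _ hσ _ (hsN _) (hs _).symm
  have hconst : ∀ (g : G) (x : X), ψ'' (Pi.single (g • x) 1) = ψ'' (Pi.single x 1) := by
    intro g x
    change ψ (s (Pi.single (g • x) 1)) = ψ (s (Pi.single x 1))
    rw [← hψc g _ (hsN (Pi.single x 1))]
    obtain ⟨h1, h2⟩ := hconj g _ (hsN (Pi.single x 1))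
    apply hdep _ (hsN _) _ h1
    rw [hs]
    funext y
    have h3 := h2 (g⁻¹ • y)
    rw [smul_inv_smul] at h3
    rw [h3, hs]
    by_cases hy : y = g • x
    · subst hy
      rw [inv_smul_smul]; simp
    · have : g⁻¹ • y ≠ x := by
        intro h
        apply hy
        rw [← h, smul_inv_smul]
      rw [Pi.single_eq_of_ne hy, Pi.single_eq_of_ne this]
  by_cases hX : Nonempty X
  · obtain ⟨x0⟩ := hX
    have hall : ∀ x, ψ'' (Pi.single x 1) = ψ'' (Pi.single x0 1) := by
      intro x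
      obtain ⟨g, hg⟩ := MulAction.exists_smul_eq G x0 x
      rw [← hg, hconst]
    have h01 : ψ'' (Pi.single x0 1) = 0 ∨ ψ'' (Pi.single x0 1) = 1 := by
      generalize ψ'' (Pi.single x0 1) = t
      revert t; decide
    rcases h01 with h | h
    · left
      intro σ hσ
      rw [hψ'' σ hσ, functional_eq_sum]
      exact Finset.sum_eq_zero fun x _ => by rw [hall, h, mul_zero]
    · right
      intro σ hσ
      rw [hψ'' σ hσ, functional_eq_sum]
      exact Finset.sum_congr rfl fun x _ => by rw [hall, h, mul_one]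
  · left
    intro σ hσ
    apply hker σ hσ
    funext x
    exact absurd ⟨x⟩ hX

end Abs

end Pool.Agent.Arb
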