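import Pool.Agent.Arb.Stmts
import Pool.Agent.Arb.GalAbs

/-!
# MP_5c2e18_nt, module GAL: the levels of the tree
-/

namespace Pool.Agent.Arb

open Polynomial

/-- The algebraic closure. -/
abbrev Om : Type := AlgebraicClosure ℚ

/-- The absolute Galois group. -/
abbrev GG : Type := AlgebraicClosure ℚ ≃ₐ[ℚ] AlgebraicClosure ℚ

/-- The element `c` in the algebraic closure. -/
noncomputable def cc (c : ℚ) : AlgebraicClosure ℚ := algebraMap ℚ (AlgebraicClosure ℚ) c

lemma algebra_rat_eq : (DivisionRing.toRatAlgebra : Algebra ℚ (AlgebraicClosure ℚ)) =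
    AlgebraicClosure.instAlgebra ℚ := Subsingleton.elim _ _

instance isAlgebraic_rat : Algebra.IsAlgebraic ℚ (AlgebraicClosure ℚ) := by
  have h := AlgebraicClosure.isAlgebraic ℚ
  rw [algebra_rat_eq]; exact h

instance isGalois_rat : IsGalois ℚ (AlgebraicClosure ℚ) := by
  have : IsAlgClosure ℚ (AlgebraicClosure ℚ) := ⟨inferInstance, inferInstance⟩
  have : Normal ℚ (AlgebraicClosure ℚ) := IsAlgClosure.normal ℚ (AlgebraicClosure ℚ)
  have : Algebra.IsSeparable ℚ (AlgebraicClosure ℚ) := inferInstance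
  exact {}

lemma phi_eq (c : ℚ) (x : AlgebraicClosure ℚ) : phi c x = x ^ 2 + cc c := rfl

lemma aeval_iter (c : ℚ) (n : ℕ) (x : AlgebraicClosure ℚ) :
    aeval x (iter c n) = (phi c)^[n] x := by
  induction n with
  | zero => simp [iter]
  | succ n ih =>
    rw [Function.iterate_succ_apply', ← ih]
    simp [iter, phi]

lemma mem_level {c : ℚ} {n : ℕ} {x : AlgebraicClosure ℚ} :
    x ∈ level c n ↔ (phi c)^[n] x = 0 := by
  rw [← aeval_iter]; rfl

lemma mem_level_succ {c : ℚ} {n : ℕ} {x : AlgebraicClosure ℚ} :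
    x ∈ level c (n + 1) ↔ phi c x ∈ level c n := by
  rw [mem_level, mem_level, Function.iterate_succ_apply]

lemma mem_level_zero {c : ℚ} {x : AlgebraicClosure ℚ} : x ∈ level c 0 ↔ x = 0 := by
  rw [mem_level]; rfl

lemma phi_map (c : ℚ) (σ : GG) (x : AlgebraicClosure ℚ) : phi c (σ x) = σ (phi c x) := by
  simp [phi]

lemma phi_iter_map (c : ℚ) (σ : GG) (n : ℕ) (x : AlgebraicClosure ℚ) :
    (phi c)^[n] (σ x) = σ ((phi c)^[n] x) := by
  induction n generalizing x with
  | zero => rfl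
  | succ n ih => rw [Function.iterate_succ_apply, Function.iterate_succ_apply, phi_map, ih]

lemma level_map {c : ℚ} {n : ℕ} (σ : GG) {x : AlgebraicClosure ℚ} (hx : x ∈ level c n) :
    σ x ∈ level c n := by
  rw [mem_level] at hx ⊢
  rw [phi_iter_map, hx, map_zero]

/-- The critical orbit. -/
def orb (c : ℚ) (m : ℕ) : ℚ := (fun x : ℚ => x ^ 2 + c)^[m] 0

lemma orb_succ (c : ℚ) (m : ℕ) : orb c (m + 1) = (orb c m) ^ 2 + c := by
  unfold orb; rw [Function.iterate_succ_apply']

lemma phi_orb (c : ℚ) (m : ℕ) :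
    (phi c)^[m] 0 = algebraMap ℚ (AlgebraicClosure ℚ) (orb c m) := by
  induction m with
  | zero => simp [orb]
  | succ m ih => rw [Function.iterate_succ_apply', ih, orb_succ]; simp [phi]

lemma crit_one (c : ℚ) : crit c 1 = - c := by simp [crit]

lemma crit_of_ne {c : ℚ} {m : ℕ} (hm : m ≠ 1) : crit c m = orb c m := by
  simp [crit, orb, hm]

/-- The hypothesis of the criterion. -/
def Hyp (c : ℚ) : Prop :=
  ∀ S : Finset ℕ, S.Nonempty → 0 ∉ S → ¬ IsSquare (∏ m ∈ S, crit c m)

lemma crit_ne_zero {c : ℚ} (h : Hyp c) {m : ℕ} (hm : 1 ≤ m) : crit c m ≠ 0 := by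
  intro h0
  apply h {m} (Finset.singleton_nonempty m) (by simp; omega)
  rw [Finset.prod_singleton, h0]
  exact ⟨0, by simp⟩

lemma orb_ne_zero {c : ℚ} (h : Hyp c) {m : ℕ} (hm : 1 ≤ m) : orb c m ≠ 0 := by
  intro h0
  by_cases h1 : m = 1
  · subst h1
    apply crit_ne_zero h le_rfl
    rw [crit_one]
    have : orb c 1 = c := by rw [orb_succ]; simp [orb]
    rw [this] at h0
    rw [h0, neg_zero]
  · apply crit_ne_zero h hm
    rw [crit_of_ne h1, h0]

/-! ### separability -/

lemma iter_add_eq (c : ℚ) (i k : ℕ) : ∃ q : ℚ[X], iter c (i + k) = iter c i * q + C (orb c k) := by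
  induction k with
  | zero => exact ⟨1, by simp [orb]⟩
  | succ k ih =>
    obtain ⟨q, hq⟩ := ih
    refine ⟨iter c i * q ^ 2 + 2 * q * C (orb c k), ?_⟩
    rw [← Nat.add_assoc]
    change (iter c (i + k)) ^ 2 + C c = _
    rw [hq, orb_succ, map_add, map_pow]
    ring

lemma coprime_iter {c : ℚ} (h : Hyp c) {i n : ℕ} (hin : i < n) :
    IsCoprime (iter c n) (iter c i) := by
  obtain ⟨k, rfl⟩ := Nat.exists_eq_add_of_lt hin
  obtain ⟨q, hq⟩ := iter_add_eq c i (k + 1)
  have h0 : orb c (k + 1) ≠ 0 := orb_ne_zero h (by omega)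
  refine ⟨C (orb c (k + 1))⁻¹, - (C (orb c (k + 1))⁻¹ * q), ?_⟩
  have h1 : i + k + 1 = i + (k + 1) := by ring
  rw [h1, hq]
  have h2 : (C (orb c (k + 1))⁻¹ : ℚ[X]) * C (orb c (k + 1)) = 1 := by
    rw [← C_mul, inv_mul_cancel₀ h0, C_1]
  linear_combination h2

lemma iter_derivative (c : ℚ) (n : ℕ) :
    derivative (iter c n) = C (2 ^ n) * ∏ i ∈ Finset.range n, iter c i := by
  induction n with
  | zero => simp [iter]
  | succ n ih =>
    rw [Finset.prod_range_succ]
    change derivative ((iter c n) ^ 2 + C c) = _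
    rw [derivative_add, derivative_C, derivative_pow, ih, add_zero, pow_succ (2 : ℚ), C_mul]
    simp only [Nat.cast_ofNat]
    have : (C (2 : ℚ) : ℚ[X]) = 2 := rfl
    rw [this]
    ring

lemma iter_separable {c : ℚ} (h : Hyp c) (n : ℕ) : (iter c n).Separable := by
  rw [separable_def, iter_derivative]
  apply IsCoprime.mul_right
  · refine ⟨0, C (2 ^ n)⁻¹, ?_⟩
    rw [← C_mul, inv_mul_cancel₀ (by positivity), C_1]
    simp
  · apply IsCoprime.prod_right
    intro i hi
    exact coprime_iter h (Finset.mem_range.mp hi)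

lemma iter_monic_natDegree (c : ℚ) (n : ℕ) :
    (iter c n).Monic ∧ (iter c n).natDegree = 2 ^ n := by
  induction n with
  | zero => exact ⟨monic_X, by simp [iter]⟩
  | succ n ih =>
    obtain ⟨h1, h2⟩ := ih
    have h3 : ((iter c n) ^ 2).natDegree = 2 ^ (n + 1) := by
      rw [h1.natDegree_pow, h2]; ring
    constructor
    · change ((iter c n) ^ 2 + C c).Monic
      apply (h1.pow 2).add_of_left
      have h4 : (C c : ℚ[X]).degree ≤ 0 := degree_C_le
      apply lt_of_le_of_lt h4
      rw [← natDegree_pos_iff_degree_pos, h3]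
      positivity
    · change ((iter c n) ^ 2 + C c).natDegree = _
      rw [natDegree_add_C, h3]

/-! ### the level as a finite set -/

open scoped Classical in
/-- The level as a finite set. -/
noncomputable def lev (c : ℚ) (n : ℕ) : Finset (AlgebraicClosure ℚ) :=
  ((iter c n).aroots (AlgebraicClosure ℚ)).toFinset

open scoped Classical in
lemma mem_lev {c : ℚ} {n : ℕ} {x : AlgebraicClosure ℚ} : x ∈ lev c n ↔ x ∈ level c n := by
  unfold lev level
  rw [Multiset.mem_toFinset, mem_aroots]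
  constructor
  · exact fun h => h.2
  · exact fun h => ⟨(iter_monic_natDegree c n).1.ne_zero, h⟩

noncomputable instance levelFintype (c : ℚ) (n : ℕ) : Fintype (level c n) :=
  Fintype.subtype (lev c n) fun _ => mem_lev

open scoped Classical in
lemma prod_lev {c : ℚ} (h : Hyp c) (n : ℕ) (t : AlgebraicClosure ℚ) :
    ∏ x ∈ lev c n, (t - x) = (phi c)^[n] t := by
  have hs : (((iter c n).map (algebraMap ℚ (AlgebraicClosure ℚ))).roots).Nodup :=
    nodup_roots ((iter_separable h n).map)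
  have h1 := (IsAlgClosed.splits
    ((iter c n).map (algebraMap ℚ (AlgebraicClosure ℚ)))).eval_eq_prod_roots_of_monic
    ((iter_monic_natDegree c n).1.map _) t
  rw [← aeval_iter, aeval_def, ← eval_map, h1]
  unfold lev aroots
  rw [Finset.prod, Multiset.toFinset_val, Multiset.dedup_eq_self.mpr hs]

open scoped Classical in
lemma card_lev {c : ℚ} (h : Hyp c) (n : ℕ) : (lev c n).card = 2 ^ n := by
  have hs : (((iter c n).map (algebraMap ℚ (AlgebraicClosure ℚ))).roots).Nodup :=
    nodup_roots ((iter_separable h n).map)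
  have h1 := (IsAlgClosed.splits
    ((iter c n).map (algebraMap ℚ (AlgebraicClosure ℚ)))).natDegree_eq_card_roots
  rw [natDegree_map, (iter_monic_natDegree c n).2] at h1
  unfold lev aroots
  rw [Multiset.card_toFinset, Multiset.dedup_eq_self.mpr hs, h1]

lemma prod_level {c : ℚ} (h : Hyp c) (n : ℕ) :
    ∏ x : level c n, ((x : AlgebraicClosure ℚ) - cc c) =
      algebraMap ℚ (AlgebraicClosure ℚ) (crit c (n + 1)) := by
  have h1 : ∏ x : level c n, ((x : AlgebraicClosure ℚ) - cc c) = ∏ x ∈ lev c n, (x - cc c) :=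
    (Finset.prod_subtype (lev c n) (fun _ => mem_lev) fun x => x - cc c).symm
  have h2 : ∏ x ∈ lev c n, (x - cc c) = ∏ x ∈ lev c n, ((-1) * (cc c - x)) :=
    Finset.prod_congr rfl fun x _ => by ring
  rw [h1, h2, Finset.prod_mul_distrib, Finset.prod_const, card_lev h, prod_lev h]
  have h3 : (phi c)^[n] (cc c) = algebraMap ℚ (AlgebraicClosure ℚ) (orb c (n + 1)) := by
    rw [← phi_orb, Function.iterate_succ_apply]
    congr 1
    simp [phi, cc]
  rw [h3]
  rcases Nat.eq_zero_or_pos n with hn | hn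
  · subst hn
    rw [crit_one, orb_succ]
    simp [orb]
  · rw [crit_of_ne (by omega)]
    have : Even (2 ^ n) := (Nat.even_pow.mpr ⟨even_two, by omega⟩)
    rw [this.neg_one_pow, one_mul]

/-! ### square roots -/

/-- A chosen square root of `x - c`. -/
noncomputable def rt (c : ℚ) (x : AlgebraicClosure ℚ) : AlgebraicClosure ℚ :=
  Classical.choose (IsAlgClosed.exists_pow_nat_eq (x - cc c) two_pos)

lemma rt_sq (c : ℚ) (x : AlgebraicClosure ℚ) : (rt c x) ^ 2 = x - cc c :=
  Classical.choose_spec (IsAlgClosed.exists_pow_nat_eq (x - cc c) two_pos)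

lemma phi_rt (c : ℚ) (x : AlgebraicClosure ℚ) : phi c (rt c x) = x := by
  rw [phi_eq, rt_sq]; ring

lemma eq_or_neg_of_phi {c : ℚ} {x y : AlgebraicClosure ℚ} (h : phi c x = phi c y) :
    x = y ∨ x = - y := by
  rw [phi_eq, phi_eq] at h
  exact sq_eq_sq_iff_eq_or_eq_neg.mp (add_right_cancel h)

lemma phi_neg (c : ℚ) (x : AlgebraicClosure ℚ) : phi c (-x) = phi c x := by
  rw [phi_eq, phi_eq, neg_sq]

lemma level_succ_ne_zero {c : ℚ} (h : Hyp c) {n : ℕ} {x : AlgebraicClosure ℚ}
    (hx : x ∈ level c (n + 1)) : x ≠ 0 := by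
  rintro rfl
  rw [mem_level, phi_orb] at hx
  exact orb_ne_zero h (Nat.succ_le_succ (Nat.zero_le n))
    ((map_eq_zero (algebraMap ℚ (AlgebraicClosure ℚ))).mp hx)

lemma rt_mem {c : ℚ} {n : ℕ} {x : AlgebraicClosure ℚ} (hx : x ∈ level c n) :
    rt c x ∈ level c (n + 1) := by
  rw [mem_level_succ, phi_rt]; exact hx

lemma rt_ne_zero {c : ℚ} (h : Hyp c) {n : ℕ} {x : AlgebraicClosure ℚ} (hx : x ∈ level c n) :
    rt c x ≠ 0 := level_succ_ne_zero h (rt_mem hx)

end Pool.Agent.Arb
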