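import Pool.Agent.Arb.Stmts

/-! DENSA: coprime pairs in residue classes modulo 4. -/

namespace Pool.Agent.Arb

open Filter Topology Finset
open scoped Classical

/-! ### one-dimensional counts -/

/-- elements of `[1, n]` in a residue class modulo 4 -/
noncomputable def cf (v : ℤ) (n : ℕ) : Finset ℕ := (Icc 1 n).filter fun b : ℕ => (b : ℤ) ≡ v [ZMOD 4]

theorem cf_zero (v : ℤ) : cf v 0 = ∅ := by
  unfold cf
  simp

theorem cf_succ_pos (v : ℤ) (n : ℕ) (h : ((n + 1 : ℕ) : ℤ) ≡ v [ZMOD 4]) :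
    cf v (n + 1) = insert (n + 1) (cf v n) := by
  unfold cf
  ext b
  simp only [mem_filter, mem_Icc, mem_insert]
  constructor
  · rintro ⟨⟨h1, h2⟩, h3⟩
    by_cases hb : b = n + 1
    · exact Or.inl hb
    · exact Or.inr ⟨⟨h1, by omega⟩, h3⟩
  · rintro (rfl | ⟨⟨h1, h2⟩, h3⟩)
    · exact ⟨⟨by omega, le_rfl⟩, h⟩
    · exact ⟨⟨h1, by omega⟩, h3⟩

theorem cf_succ_neg (v : ℤ) (n : ℕ) (h : ¬ ((n + 1 : ℕ) : ℤ) ≡ v [ZMOD 4]) :
    cf v (n + 1) = cf v n := by
  unfold cf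
  ext b
  simp only [mem_filter, mem_Icc]
  constructor
  · rintro ⟨⟨h1, h2⟩, h3⟩
    by_cases hb : b = n + 1
    · subst hb
      exact absurd h3 h
    · exact ⟨⟨h1, by omega⟩, h3⟩
  · rintro ⟨⟨h1, h2⟩, h3⟩
    exact ⟨⟨h1, by omega⟩, h3⟩

theorem not_mem_cf (v : ℤ) (n : ℕ) : n + 1 ∉ cf v n := by
  unfold cf
  simp

theorem card_cf_succ (v : ℤ) (n : ℕ) : ((cf v (n + 1)).card : ℝ) =
    (cf v n).card + if ((n + 1 : ℕ) : ℤ) ≡ v [ZMOD 4] then 1 else 0 := by
  by_cases h : ((n + 1 : ℕ) : ℤ) ≡ v [ZMOD 4]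
  · rw [cf_succ_pos v n h, card_insert_of_notMem (not_mem_cf v n), if_pos h]
    push_cast
    ring
  · rw [cf_succ_neg v n h, if_neg h, add_zero]

theorem sum_cf_succ (v : ℤ) (n : ℕ) : (∑ t ∈ cf v (n + 1), (t : ℝ)) =
    (∑ t ∈ cf v n, (t : ℝ)) + if ((n + 1 : ℕ) : ℤ) ≡ v [ZMOD 4] then ((n : ℝ) + 1) else 0 := by
  by_cases h : ((n + 1 : ℕ) : ℤ) ≡ v [ZMOD 4]
  · rw [cf_succ_pos v n h, sum_insert (not_mem_cf v n), if_pos h]
    push_cast
    ring
  · rw [cf_succ_neg v n h, if_neg h, add_zero]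

/-- exactly one of four consecutive integers is in the class -/
theorem four (v : ℤ) (n : ℕ) :
    (((n + 1 : ℕ) : ℤ) ≡ v [ZMOD 4] ∧ ¬ ((n + 1 + 1 : ℕ) : ℤ) ≡ v [ZMOD 4] ∧
      ¬ ((n + 1 + 1 + 1 : ℕ) : ℤ) ≡ v [ZMOD 4] ∧ ¬ ((n + 1 + 1 + 1 + 1 : ℕ) : ℤ) ≡ v [ZMOD 4]) ∨
    (¬ ((n + 1 : ℕ) : ℤ) ≡ v [ZMOD 4] ∧ ((n + 1 + 1 : ℕ) : ℤ) ≡ v [ZMOD 4] ∧
      ¬ ((n + 1 + 1 + 1 : ℕ) : ℤ) ≡ v [ZMOD 4] ∧ ¬ ((n + 1 + 1 + 1 + 1 : ℕ) : ℤ) ≡ v [ZMOD 4]) ∨
    (¬ ((n + 1 : ℕ) : ℤ) ≡ v [ZMOD 4] ∧ ¬ ((n + 1 + 1 : ℕ) : ℤ) ≡ v [ZMOD 4] ∧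
      ((n + 1 + 1 + 1 : ℕ) : ℤ) ≡ v [ZMOD 4] ∧ ¬ ((n + 1 + 1 + 1 + 1 : ℕ) : ℤ) ≡ v [ZMOD 4]) ∨
    (¬ ((n + 1 : ℕ) : ℤ) ≡ v [ZMOD 4] ∧ ¬ ((n + 1 + 1 : ℕ) : ℤ) ≡ v [ZMOD 4] ∧
      ¬ ((n + 1 + 1 + 1 : ℕ) : ℤ) ≡ v [ZMOD 4] ∧ ((n + 1 + 1 + 1 + 1 : ℕ) : ℤ) ≡ v [ZMOD 4]) := by
  unfold Int.ModEq
  push_cast
  omega

theorem card_cf (v : ℤ) (n : ℕ) : |((cf v n).card : ℝ) - n / 4| ≤ 1 := by
  induction n using Nat.strong_induction_on with
  | _ n ih =>
    by_cases h4 : 4 ≤ n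
    · obtain ⟨m, rfl⟩ : ∃ m, n = m + 1 + 1 + 1 + 1 := ⟨n - 4, by omega⟩
      have h := ih m (by omega)
      rw [card_cf_succ, card_cf_succ, card_cf_succ, card_cf_succ]
      have e : ((m + 1 + 1 + 1 + 1 : ℕ) : ℝ) / 4 = (m : ℝ) / 4 + 1 := by
        push_cast
        ring
      rw [e]
      rw [abs_le] at h ⊢
      rcases four v m with ⟨h1, h2, h3, h4'⟩ | ⟨h1, h2, h3, h4'⟩ | ⟨h1, h2, h3, h4'⟩ | ⟨h1, h2, h3, h4'⟩
      · rw [if_pos h1, if_neg h2, if_neg h3, if_neg h4']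
        constructor <;> linarith [h.1, h.2]
      · rw [if_neg h1, if_pos h2, if_neg h3, if_neg h4']
        constructor <;> linarith [h.1, h.2]
      · rw [if_neg h1, if_neg h2, if_pos h3, if_neg h4']
        constructor <;> linarith [h.1, h.2]
      · rw [if_neg h1, if_neg h2, if_neg h3, if_pos h4']
        constructor <;> linarith [h.1, h.2]
    · -- small `n`
      have hle : (cf v n).card ≤ 1 := by
        rw [card_le_one]
        intro a ha b hb
        unfold cf at ha hb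
        rw [mem_filter, mem_Icc] at ha hb
        have h1 : (a : ℤ) ≡ b [ZMOD 4] := ha.2.trans hb.2.symm
        unfold Int.ModEq at h1
        omega
      have h0 : (0 : ℝ) ≤ (cf v n).card := Nat.cast_nonneg _
      have h1 : ((cf v n).card : ℝ) ≤ 1 := by exact_mod_cast hle
      have h2 : (n : ℝ) ≤ 3 := by
        have : n ≤ 3 := by omega
        exact_mod_cast this
      have h3 : (0 : ℝ) ≤ n := Nat.cast_nonneg _
      rw [abs_le]
      constructor <;> linarith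

theorem sum_cf (v : ℤ) (n : ℕ) :
    |(∑ t ∈ cf v n, (t : ℝ)) - (n : ℝ) ^ 2 / 8| ≤ (n : ℝ) + 10 := by
  induction n using Nat.strong_induction_on with
  | _ n ih =>
    by_cases h4 : 4 ≤ n
    · obtain ⟨m, rfl⟩ : ∃ m, n = m + 1 + 1 + 1 + 1 := ⟨n - 4, by omega⟩
      have h := ih m (by omega)
      rw [sum_cf_succ, sum_cf_succ, sum_cf_succ, sum_cf_succ]
      have e : ((m + 1 + 1 + 1 + 1 : ℕ) : ℝ) ^ 2 / 8 = (m : ℝ) ^ 2 / 8 + (m + 2) := by
        push_cast
        ring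
      rw [e]
      rw [abs_le] at h ⊢
      obtain ⟨ha, hb⟩ := h
      rcases four v m with ⟨h1, h2, h3, h4'⟩ | ⟨h1, h2, h3, h4'⟩ | ⟨h1, h2, h3, h4'⟩ | ⟨h1, h2, h3, h4'⟩
      · rw [if_pos h1, if_neg h2, if_neg h3, if_neg h4']
        push_cast
        constructor <;> linarith
      · rw [if_neg h1, if_pos h2, if_neg h3, if_neg h4']
        push_cast
        constructor <;> linarith
      · rw [if_neg h1, if_neg h2, if_pos h3, if_neg h4']
        push_cast
        constructor <;> linarith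
      · rw [if_neg h1, if_neg h2, if_neg h3, if_pos h4']
        push_cast
        constructor <;> linarith
    · have h2 : (n : ℝ) ≤ 3 := by
        have : n ≤ 3 := by omega
        exact_mod_cast this
      have h3 : (0 : ℝ) ≤ n := Nat.cast_nonneg _
      have h0 : (0 : ℝ) ≤ ∑ t ∈ cf v n, (t : ℝ) := sum_nonneg fun t _ => Nat.cast_nonneg _
      have h1 : ∑ t ∈ cf v n, (t : ℝ) ≤ 9 := by
        calc ∑ t ∈ cf v n, (t : ℝ) ≤ ∑ t ∈ Icc 1 n, (t : ℝ) :=
              sum_le_sum_of_subset_of_nonneg (filter_subset _ _) (fun _ _ _ => Nat.cast_nonneg _)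
          _ ≤ ∑ t ∈ Icc 1 n, (3 : ℝ) := by
              apply sum_le_sum
              intro t ht
              rw [mem_Icc] at ht
              have : t ≤ 3 := by omega
              exact_mod_cast this
          _ ≤ 9 := by
              rw [sum_const, Nat.card_Icc, nsmul_eq_mul]
              push_cast
              have : ((n + 1 - 1 : ℕ) : ℝ) = n := by
                congr 1
              nlinarith
      rw [abs_le]
      constructor <;> nlinarith

theorem tendsto_of_err (f : ℕ → ℝ) (L C D : ℝ)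
    (h : ∀ n : ℕ, |f n - L * (n : ℝ) ^ 2| ≤ C * n + D) :
    Tendsto (fun n : ℕ => f n / (n : ℝ) ^ 2) atTop (𝓝 L) := by
  have h1 : Tendsto (fun n : ℕ => C * (1 / (n : ℝ)) + D * ((1 / (n : ℝ)) * (1 / (n : ℝ)))) atTop
      (𝓝 (C * 0 + D * (0 * 0))) := by
    have := tendsto_one_div_atTop_nhds_zero_nat (𝕜 := ℝ)
    exact (this.const_mul C).add ((this.mul this).const_mul D)
  rw [show C * 0 + D * (0 * 0) = (0 : ℝ) by ring] at h1
  rw [tendsto_iff_norm_sub_tendsto_zero]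
  apply squeeze_zero' (Eventually.of_forall fun n => norm_nonneg _) _ h1
  filter_upwards [eventually_ge_atTop 1] with n hn
  have hn0 : (0 : ℝ) < n := by exact_mod_cast hn
  have e : f n / (n : ℝ) ^ 2 - L = (f n - L * (n : ℝ) ^ 2) / (n : ℝ) ^ 2 := by
    field_simp
  rw [e, Real.norm_eq_abs, abs_div, abs_of_pos (by positivity : (0 : ℝ) < (n : ℝ) ^ 2),
    div_le_iff₀ (by positivity)]
  have e2 : (C * (1 / (n : ℝ)) + D * ((1 / (n : ℝ)) * (1 / (n : ℝ)))) * (n : ℝ) ^ 2 = C * n + D := by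
    field_simp
  rw [e2]
  exact h n

/-! ### two-dimensional counts -/

/-- all pairs in the region and in the class -/
noncomputable def regF (P : ℤ → ℤ → Prop) (α β : ℤ) (N : ℕ) : Finset (ℤ × ℤ) :=
  ((Icc (-(N : ℤ)) N) ×ˢ (Icc 1 (N : ℤ))).filter
    fun x => x.1 ≡ α [ZMOD 4] ∧ x.2 ≡ β [ZMOD 4] ∧ P x.1 x.2

theorem mem_regF {P : ℤ → ℤ → Prop} {α β : ℤ} {N : ℕ} {x : ℤ × ℤ} : x ∈ regF P α β N ↔
    (-(N : ℤ) ≤ x.1 ∧ x.1 ≤ N) ∧ (1 ≤ x.2 ∧ x.2 ≤ N) ∧ x.1 ≡ α [ZMOD 4] ∧ x.2 ≡ β [ZMOD 4] ∧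
      P x.1 x.2 := by
  unfold regF
  rw [mem_filter, mem_product, mem_Icc, mem_Icc]
  tauto

/-- regions of the form `b ≤ h (-a)` -/
theorem card_regF_h (P : ℤ → ℤ → Prop) (h : ℕ → ℕ) (hh : ∀ t, h t ≤ t)
    (hP : ∀ a b : ℤ, 1 ≤ b → (P a b ↔ ∃ t : ℕ, 1 ≤ t ∧ a = -(t : ℤ) ∧ b ≤ h t)) (α β : ℤ) (N : ℕ) :
    (regF P α β N).card = ∑ t ∈ cf (-α) N, (cf β (h t)).card := by
  rw [← card_sigma]
  symm
  apply card_bij (fun (x : Σ _ : ℕ, ℕ) _ => ((-(x.1 : ℤ), (x.2 : ℤ)) : ℤ × ℤ))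
  · rintro ⟨t, b⟩ hx
    rw [mem_sigma] at hx
    obtain ⟨h1, h2⟩ := hx
    unfold cf at h1 h2
    rw [mem_filter, mem_Icc] at h1 h2
    simp only at h1 h2 ⊢
    have h3 := hh t
    rw [mem_regF]
    refine ⟨⟨by simp only; omega, by simp only; omega⟩, ⟨by simp only; omega, by simp only; omega⟩,
      ?_, h2.2, ?_⟩
    · have := h1.2.neg
      rwa [neg_neg] at this
    · rw [hP _ _ (by simp only; omega)]
      exact ⟨t, h1.1.1, rfl, by simp only; omega⟩
  · rintro ⟨t, b⟩ _ ⟨t', b'⟩ _ h1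
    simp only [Prod.mk.injEq, neg_inj, Nat.cast_inj] at h1
    obtain ⟨rfl, rfl⟩ := h1
    rfl
  · rintro ⟨a, b⟩ hx
    rw [mem_regF] at hx
    simp only at hx
    obtain ⟨⟨h1, h2⟩, ⟨h3, h4⟩, h5, h6, h7⟩ := hx
    rw [hP _ _ h3] at h7
    obtain ⟨t, ht, rfl, hb⟩ := h7
    refine ⟨⟨t, b.toNat⟩, ?_, ?_⟩
    · rw [mem_sigma]
      unfold cf
      rw [mem_filter, mem_filter, mem_Icc, mem_Icc]
      simp only
      have e : ((b.toNat : ℕ) : ℤ) = b := Int.toNat_of_nonneg (by omega)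
      refine ⟨⟨⟨ht, by omega⟩, ?_⟩, ⟨by omega, by omega⟩, ?_⟩
      · have := h5.neg
        rwa [neg_neg] at this
      · rwa [e]
    · have e : ((b.toNat : ℕ) : ℤ) = b := Int.toNat_of_nonneg (by omega)
      simp only [e]

theorem lim_h (P : ℤ → ℤ → Prop) (h : ℕ → ℕ) (hh : ∀ t, h t ≤ t) (lam : ℝ) (hl0 : 0 ≤ lam)
    (hl1 : lam ≤ 1)
    (hlam : ∀ t : ℕ, 1 ≤ t → |(h t : ℝ) / 4 - lam * t| ≤ 1)
    (hP : ∀ a b : ℤ, 1 ≤ b → (P a b ↔ ∃ t : ℕ, 1 ≤ t ∧ a = -(t : ℤ) ∧ b ≤ h t)) (α β : ℤ) :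
    Tendsto (fun N : ℕ => ((regF P α β N).card : ℝ) / (N : ℝ) ^ 2) atTop (𝓝 (lam / 8)) := by
  apply tendsto_of_err _ (lam / 8) 3 10
  intro N
  rw [card_regF_h P h hh hP]
  push_cast
  have h1 : |∑ t ∈ cf (-α) N, ((cf β (h t)).card : ℝ) - lam * ∑ t ∈ cf (-α) N, (t : ℝ)| ≤ 2 * N := by
    rw [mul_sum, ← sum_sub_distrib]
    calc |∑ t ∈ cf (-α) N, (((cf β (h t)).card : ℝ) - lam * t)|
        ≤ ∑ t ∈ cf (-α) N, |((cf β (h t)).card : ℝ) - lam * t| := abs_sum_le_sum_abs _ _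
      _ ≤ ∑ t ∈ cf (-α) N, (2 : ℝ) := by
          apply sum_le_sum
          intro t ht
          unfold cf at ht
          rw [mem_filter, mem_Icc] at ht
          have h2 := card_cf β (h t)
          have h3 := hlam t ht.1.1
          rw [abs_le] at h2 h3 ⊢
          constructor <;> linarith [h2.1, h2.2, h3.1, h3.2]
      _ ≤ 2 * N := by
          rw [sum_const, nsmul_eq_mul, mul_comm]
          have : (cf (-α) N).card ≤ N := by
            refine (card_filter_le _ _).trans ?_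
            simp
          have h4 : ((cf (-α) N).card : ℝ) ≤ N := by exact_mod_cast this
          linarith
  have h2 := sum_cf (-α) N
  have hN : (0 : ℝ) ≤ N := Nat.cast_nonneg _
  have h3 : |lam * ∑ t ∈ cf (-α) N, (t : ℝ) - lam * ((N : ℝ) ^ 2 / 8)| ≤ (N : ℝ) + 10 := by
    rw [← mul_sub, abs_mul, abs_of_nonneg hl0]
    calc lam * |∑ t ∈ cf (-α) N, (t : ℝ) - (N : ℝ) ^ 2 / 8| ≤ 1 * ((N : ℝ) + 10) :=
          mul_le_mul hl1 h2 (abs_nonneg _) (by norm_num)
      _ = (N : ℝ) + 10 := one_mul _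
  rw [abs_le] at h1 h3 ⊢
  constructor <;> nlinarith [h1.1, h1.2, h3.1, h3.2]

theorem lim_true (α β : ℤ) :
    Tendsto (fun N : ℕ => ((regF (fun _ _ => True) α β N).card : ℝ) / (N : ℝ) ^ 2) atTop
      (𝓝 (1 / 8)) := by
  apply tendsto_of_err _ (1 / 8) 20 20
  intro N
  have hN : (0 : ℝ) ≤ N := Nat.cast_nonneg _
  set A : Finset ℤ := (Icc (-(N : ℤ)) N).filter fun a => a ≡ α [ZMOD 4] with hA
  have hcard : (regF (fun _ _ => True) α β N).card = A.card * (cf β N).card := by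
    have e : (cf β N).card = ((Icc 1 (N : ℤ)).filter fun b => b ≡ β [ZMOD 4]).card := by
      apply card_bij (fun (b : ℕ) _ => (b : ℤ))
      · intro b hb
        unfold cf at hb
        rw [mem_filter, mem_Icc] at hb ⊢
        exact ⟨⟨by omega, by omega⟩, hb.2⟩
      · intro b _ b' _ h
        exact_mod_cast h
      · intro b hb
        rw [mem_filter, mem_Icc] at hb
        have e : ((b.toNat : ℕ) : ℤ) = b := Int.toNat_of_nonneg (by omega)
        refine ⟨b.toNat, ?_, e⟩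
        unfold cf
        rw [mem_filter, mem_Icc, e]
        exact ⟨⟨by omega, by omega⟩, hb.2⟩
    rw [e, ← card_product]
    congr 1
    ext x
    rw [mem_regF, mem_product, hA, mem_filter, mem_filter, mem_Icc, mem_Icc]
    tauto
  have hAcard : |(A.card : ℝ) - N / 2| ≤ 3 := by
    have hsplit : A = ((cf α N).image (fun t : ℕ => (t : ℤ))) ∪
        (((cf (-α) N).image (fun t : ℕ => -(t : ℤ))) ∪
          (({0} : Finset ℤ).filter fun a => a ≡ α [ZMOD 4])) := by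
      ext a
      simp only [hA, cf, mem_filter, mem_Icc, mem_union, mem_image, mem_singleton]
      constructor
      · rintro ⟨⟨h1, h2⟩, h3⟩
        rcases lt_trichotomy a 0 with h | h | h
        · right; left
          refine ⟨(-a).toNat, ⟨⟨by omega, by omega⟩, ?_⟩, ?_⟩
          · have e : (((-a).toNat : ℕ) : ℤ) = -a := Int.toNat_of_nonneg (by omega)
            rw [e]
            exact h3.neg
          · have e : (((-a).toNat : ℕ) : ℤ) = -a := Int.toNat_of_nonneg (by omega)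
            rw [e, neg_neg]
        · right; right
          exact ⟨h, h3⟩
        · left
          have e : ((a.toNat : ℕ) : ℤ) = a := Int.toNat_of_nonneg (by omega)
          refine ⟨a.toNat, ⟨⟨by omega, by omega⟩, ?_⟩, e⟩
          rw [e]
          exact h3
      · rintro (⟨t, ⟨⟨h1, h2⟩, h3⟩, rfl⟩ | ⟨t, ⟨⟨h1, h2⟩, h3⟩, rfl⟩ | ⟨rfl, h3⟩)
        · exact ⟨⟨by omega, by omega⟩, h3⟩
        · refine ⟨⟨by omega, by omega⟩, ?_⟩
          have := h3.neg
          rwa [neg_neg] at this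
        · exact ⟨⟨by omega, by omega⟩, h3⟩
    have hc1 : ((cf α N).image (fun t : ℕ => (t : ℤ))).card = (cf α N).card :=
      card_image_of_injective _ (fun a b h => by simpa using h)
    have hc2 : ((cf (-α) N).image (fun t : ℕ => -(t : ℤ))).card = (cf (-α) N).card :=
      card_image_of_injective _ (fun a b h => by simpa using h)
    have hc3 : (({0} : Finset ℤ).filter fun a => a ≡ α [ZMOD 4]).card ≤ 1 :=
      (card_filter_le _ _).trans (by simp)
    have hd1 : Disjoint ((cf (-α) N).image (fun t : ℕ => -(t : ℤ)))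
        (({0} : Finset ℤ).filter fun a => a ≡ α [ZMOD 4]) := by
      rw [disjoint_left]
      intro a ha ha'
      simp only [cf, mem_image, mem_filter, mem_Icc, mem_singleton] at ha ha'
      obtain ⟨t, ⟨⟨h1, h2⟩, h3⟩, rfl⟩ := ha
      omega
    have hd2 : Disjoint ((cf α N).image (fun t : ℕ => (t : ℤ)))
        (((cf (-α) N).image (fun t : ℕ => -(t : ℤ))) ∪
          (({0} : Finset ℤ).filter fun a => a ≡ α [ZMOD 4])) := by
      rw [disjoint_left]
      intro a ha ha'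
      simp only [cf, mem_image, mem_filter, mem_Icc, mem_singleton, mem_union] at ha ha'
      obtain ⟨t, ⟨⟨h1, h2⟩, h3⟩, rfl⟩ := ha
      rcases ha' with ⟨t', ⟨⟨h1', h2'⟩, h3'⟩, h4⟩ | ⟨h4, h5⟩ <;> omega
    have hAc : A.card = (cf α N).card + ((cf (-α) N).card +
        (({0} : Finset ℤ).filter fun a => a ≡ α [ZMOD 4]).card) := by
      rw [hsplit, card_union_of_disjoint hd2, card_union_of_disjoint hd1, hc1, hc2]
    rw [hAc]
    have h1 := card_cf α N
    have h2 := card_cf (-α) N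
    have h3 : ((({0} : Finset ℤ).filter fun a => a ≡ α [ZMOD 4]).card : ℝ) ≤ 1 := by
      exact_mod_cast hc3
    have h4 : (0 : ℝ) ≤ ((({0} : Finset ℤ).filter fun a => a ≡ α [ZMOD 4]).card : ℝ) :=
      Nat.cast_nonneg _
    push_cast
    rw [abs_le] at h1 h2 ⊢
    constructor <;> linarith [h1.1, h1.2, h2.1, h2.2]
  rw [hcard]
  push_cast
  have h1 := card_cf β N
  set x : ℝ := (A.card : ℝ) - N / 2 with hx
  set y : ℝ := ((cf β N).card : ℝ) - N / 4 with hy
  have e1 : (A.card : ℝ) = N / 2 + x := by rw [hx]; ring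
  have e2 : ((cf β N).card : ℝ) = N / 4 + y := by rw [hy]; ring
  rw [e1, e2]
  have e3 : ((N : ℝ) / 2 + x) * (N / 4 + y) - 1 / 8 * (N : ℝ) ^ 2 = N / 2 * y + x * (N / 4) + x * y := by
    ring
  rw [e3]
  have h2 : |(N : ℝ) / 2 * y| ≤ N / 2 := by
    rw [abs_mul, abs_of_nonneg (by positivity : (0 : ℝ) ≤ (N : ℝ) / 2)]
    nlinarith [abs_nonneg y]
  have h3 : |x * ((N : ℝ) / 4)| ≤ 3 * (N / 4) := by
    rw [abs_mul, abs_of_nonneg (by positivity : (0 : ℝ) ≤ (N : ℝ) / 4)]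
    exact mul_le_mul_of_nonneg_right hAcard (by positivity)
  have h4 : |x * y| ≤ 3 * 1 := by
    rw [abs_mul]
    exact mul_le_mul hAcard h1 (abs_nonneg _) (by norm_num)
  calc |(N : ℝ) / 2 * y + x * (N / 4) + x * y| ≤ |(N : ℝ) / 2 * y| + |x * (N / 4)| + |x * y| :=
        abs_add_three _ _ _
    _ ≤ 20 * N + 20 := by linarith

/-! ### Moebius inversion -/

theorem moebius_ind (n : ℕ) :
    ∑ d ∈ n.divisors, ArithmeticFunction.moebius d = if n = 1 then 1 else 0 := by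
  have h := ArithmeticFunction.coe_mul_zeta_apply (R := ℤ) (f := ArithmeticFunction.moebius) (x := n)
  rw [ArithmeticFunction.moebius_mul_coe_zeta, ArithmeticFunction.one_apply] at h
  exact h.symm

/-- pairs divisible by `d` -/
noncomputable def Nd (P : ℤ → ℤ → Prop) (α β : ℤ) (B d : ℕ) : ℕ :=
  ((regF P α β B).filter fun x => (d : ℤ) ∣ x.1 ∧ (d : ℤ) ∣ x.2).card

theorem pairs_eq (P : ℤ → ℤ → Prop) (α β : ℤ) (B : ℕ) :
    (pairs α β P B : ℤ) = ∑ d ∈ range (B + 1), ArithmeticFunction.moebius d * (Nd P α β B d : ℤ) := by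
  have h1 : pairs α β P B = ((regF P α β B).filter fun x => IsCoprime x.1 x.2).card := by
    unfold pairs
    rw [← Set.ncard_coe_finset]
    congr 1
    ext x
    rw [mem_coe, mem_filter, mem_regF]
    show (-(B : ℤ) ≤ x.1 ∧ x.1 ≤ B ∧ 1 ≤ x.2 ∧ x.2 ≤ B ∧ IsCoprime x.1 x.2 ∧
      x.1 ≡ α [ZMOD 4] ∧ x.2 ≡ β [ZMOD 4] ∧ P x.1 x.2) ↔ _
    tauto
  rw [h1, card_filter]
  push_cast
  have h2 : ∀ x ∈ regF P α β B, (if IsCoprime x.1 x.2 then (1 : ℤ) else 0) =
      ∑ d ∈ range (B + 1), if ((d : ℤ) ∣ x.1 ∧ (d : ℤ) ∣ x.2) then ArithmeticFunction.moebius d else 0 := by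
    intro x hx
    rw [mem_regF] at hx
    obtain ⟨-, ⟨h3, h4⟩, -⟩ := hx
    have h5 : (if IsCoprime x.1 x.2 then (1 : ℤ) else 0) = if Int.gcd x.1 x.2 = 1 then 1 else 0 := by
      simp only [Int.isCoprime_iff_gcd_eq_one]
    rw [h5, ← moebius_ind, ← sum_filter]
    apply sum_congr _ (fun _ _ => rfl)
    ext d
    rw [Nat.mem_divisors, mem_filter, mem_range]
    have h6 : Int.gcd x.1 x.2 ≠ 0 := by
      intro h
      rw [Int.gcd_eq_zero_iff] at h
      omega
    constructor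
    · rintro ⟨h7, -⟩
      have h8 : (d : ℤ) ∣ x.1 := (Int.natCast_dvd_natCast.mpr h7).trans (Int.gcd_dvd_left _ _)
      have h9 : (d : ℤ) ∣ x.2 := (Int.natCast_dvd_natCast.mpr h7).trans (Int.gcd_dvd_right _ _)
      have h10 := Int.le_of_dvd (by omega) h9
      exact ⟨by omega, h8, h9⟩
    · rintro ⟨-, h8, h9⟩
      exact ⟨Int.natCast_dvd_natCast.mp (Int.dvd_coe_gcd h8 h9), h6⟩
  rw [sum_congr rfl h2, sum_comm]
  apply sum_congr rfl
  intro d _
  unfold Nd
  rw [card_filter]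
  push_cast
  rw [mul_sum]
  apply sum_congr rfl
  intro x _
  by_cases h : ((d : ℤ) ∣ x.1 ∧ (d : ℤ) ∣ x.2)
  · rw [if_pos h, if_pos h, mul_one]
  · rw [if_neg h, if_neg h, mul_zero]

theorem odd_sq_mod (d : ℤ) (hd : Odd d) (a : ℤ) : d * (d * a) ≡ a [ZMOD 4] := by
  obtain ⟨k, rfl⟩ := hd
  rw [Int.modEq_iff_dvd]
  exact ⟨-(k * (k + 1) * a), by ring⟩

theorem Nd_odd (P : ℤ → ℤ → Prop) (hP : ∀ d a b : ℤ, 0 < d → (P (d * a) (d * b) ↔ P a b))
    (α β : ℤ) (B d : ℕ) (hd : Odd d) :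
    Nd P α β B d = (regF P (d * α) (d * β) (B / d)).card := by
  have hd0 : 0 < d := hd.pos
  have hdz : (0 : ℤ) < d := by exact_mod_cast hd0
  have hdo : Odd (d : ℤ) := by exact_mod_cast hd
  unfold Nd
  symm
  apply card_bij (fun (x : ℤ × ℤ) _ => ((d * x.1, d * x.2) : ℤ × ℤ))
  · intro x hx
    rw [mem_regF] at hx
    obtain ⟨⟨h1, h2⟩, ⟨h3, h4⟩, h5, h6, h7⟩ := hx
    rw [mem_filter, mem_regF]
    have hB : (d : ℤ) * ((B / d : ℕ) : ℤ) ≤ B := by exact_mod_cast Nat.mul_div_le B d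
    have m1 : (d : ℤ) * x.1 ≤ d * ((B / d : ℕ) : ℤ) := mul_le_mul_of_nonneg_left h2 hdz.le
    have m2 : (d : ℤ) * (-((B / d : ℕ) : ℤ)) ≤ d * x.1 := mul_le_mul_of_nonneg_left h1 hdz.le
    have m3 : (d : ℤ) * x.2 ≤ d * ((B / d : ℕ) : ℤ) := mul_le_mul_of_nonneg_left h4 hdz.le
    have m4 : (d : ℤ) * 1 ≤ d * x.2 := mul_le_mul_of_nonneg_left h3 hdz.le
    refine ⟨⟨⟨?_, ?_⟩, ⟨?_, ?_⟩, ?_, ?_, ?_⟩, Dvd.intro _ rfl, Dvd.intro _ rfl⟩
    · show -(B : ℤ) ≤ d * x.1
      linarith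
    · show d * x.1 ≤ (B : ℤ)
      linarith
    · show 1 ≤ (d : ℤ) * x.2
      linarith
    · show (d : ℤ) * x.2 ≤ B
      linarith
    · show (d : ℤ) * x.1 ≡ α [ZMOD 4]
      exact (h5.mul_left d).trans (odd_sq_mod d hdo α)
    · show (d : ℤ) * x.2 ≡ β [ZMOD 4]
      exact (h6.mul_left d).trans (odd_sq_mod d hdo β)
    · show P (d * x.1) (d * x.2)
      rw [hP _ _ _ hdz]
      exact h7
  · intro x _ y _ h
    simp only [Prod.mk.injEq] at h
    exact Prod.ext (mul_left_cancel₀ hdz.ne' h.1) (mul_left_cancel₀ hdz.ne' h.2)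
  · intro y hy
    rw [mem_filter, mem_regF] at hy
    obtain ⟨⟨⟨h1, h2⟩, ⟨h3, h4⟩, h5, h6, h7⟩, ⟨a, ha⟩, ⟨b, hb⟩⟩ := hy
    rw [ha] at h1 h2 h5 h7
    rw [hb] at h3 h4 h6 h7
    have e : ((B / d : ℕ) : ℤ) = (B : ℤ) / d := by push_cast; rfl
    refine ⟨(a, b), ?_, ?_⟩
    · rw [mem_regF]
      simp only
      rw [e]
      refine ⟨⟨?_, ?_⟩, ⟨?_, ?_⟩, ?_, ?_, ?_⟩
      · have : -a ≤ (B : ℤ) / d := by
          apply Int.le_ediv_of_mul_le hdz
          linarith
        linarith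
      · apply Int.le_ediv_of_mul_le hdz
        linarith
      · by_contra hcon
        push Not at hcon
        have : b ≤ 0 := by omega
        have : (d : ℤ) * b ≤ 0 := mul_nonpos_of_nonneg_of_nonpos hdz.le this
        linarith
      · apply Int.le_ediv_of_mul_le hdz
        linarith
      · exact (odd_sq_mod d hdo a).symm.trans (h5.mul_left d)
      · exact (odd_sq_mod d hdo b).symm.trans (h6.mul_left d)
      · rwa [hP _ _ _ hdz] at h7
    · exact Prod.ext ha.symm hb.symm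

theorem Nd_even (P : ℤ → ℤ → Prop) (α β : ℤ) (hαβ : ¬ (2 ∣ α ∧ 2 ∣ β)) (B d : ℕ) (hd : ¬ Odd d) :
    Nd P α β B d = 0 := by
  unfold Nd
  rw [card_eq_zero, filter_eq_empty_iff]
  rintro x hx ⟨h1, h2⟩
  rw [mem_regF] at hx
  obtain ⟨-, -, h3, h4, -⟩ := hx
  rw [Nat.not_odd_iff_even] at hd
  have h5 : (2 : ℤ) ∣ d := by exact_mod_cast hd.two_dvd
  have h6 := h5.trans h1
  have h7 := h5.trans h2
  apply hαβ
  unfold Int.ModEq at h3 h4
  constructor <;> omega

theorem card_regF_le (P : ℤ → ℤ → Prop) (α β : ℤ) (N : ℕ) : (regF P α β N).card ≤ 3 * N ^ 2 := by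
  unfold regF
  refine (card_filter_le _ _).trans ?_
  rw [card_product, Int.card_Icc, Int.card_Icc]
  have e1 : ((N : ℤ) + 1 - -(N : ℤ)).toNat = 2 * N + 1 := by omega
  have e2 : ((N : ℤ) + 1 - 1).toNat = N := by omega
  rw [e1, e2]
  rcases Nat.eq_zero_or_pos N with h | h
  · subst h
    simp
  · nlinarith

theorem tendsto_div (d : ℕ) (hd : 0 < d) :
    Tendsto (fun B : ℕ => ((B / d : ℕ) : ℝ) / B) atTop (𝓝 (1 / (d : ℝ))) := by
  have h := (tendsto_nat_floor_mul_div_atTop (R := ℝ) (a := 1 / (d : ℝ)) (by positivity)).comp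
    (tendsto_natCast_atTop_atTop (R := ℝ))
  refine h.congr ?_
  intro B
  simp only [Function.comp]
  congr 2
  rw [one_div_mul_eq_div]
  exact Nat.floor_div_eq_div B d

theorem main_lim (P : ℤ → ℤ → Prop) (hP : ∀ d a b : ℤ, 0 < d → (P (d * a) (d * b) ↔ P a b)) (L : ℝ)
    (hL : ∀ α β : ℤ, Tendsto (fun N : ℕ => ((regF P α β N).card : ℝ) / (N : ℝ) ^ 2) atTop (𝓝 L))
    (α β : ℤ) (hαβ : ¬ (2 ∣ α ∧ 2 ∣ β)) :
    Tendsto (fun B : ℕ => (pairs α β P B : ℝ) / (B : ℝ) ^ 2) atTop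
      (𝓝 (L * ∑' k : ℕ, if Odd k then (ArithmeticFunction.moebius k : ℝ) / (k : ℝ) ^ 2 else 0)) := by
  rw [← tsum_mul_left]
  have hmu : ∀ k : ℕ, |((ArithmeticFunction.moebius k : ℤ) : ℝ)| ≤ 1 := by
    intro k
    have := ArithmeticFunction.abs_moebius_le_one (n := k)
    exact_mod_cast this
  have hsum : Summable (fun k : ℕ => 3 * ((1 : ℝ) / (k : ℝ) ^ 2)) :=
    (hasSum_zeta_two.summable).mul_left 3
  have key : Tendsto (fun B : ℕ => ∑' k : ℕ,
      (ArithmeticFunction.moebius k : ℝ) * ((Nd P α β B k : ℝ) / (B : ℝ) ^ 2)) atTop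
      (𝓝 (∑' k : ℕ, L * if Odd k then (ArithmeticFunction.moebius k : ℝ) / (k : ℝ) ^ 2 else 0)) := by
    apply tendsto_tsum_of_dominated_convergence hsum
    · intro k
      by_cases hk : Odd k
      · rw [if_pos hk]
        have hk0 : 0 < k := hk.pos
        have h1 : Tendsto (fun B : ℕ => B / k) atTop atTop := Nat.tendsto_div_const_atTop hk0.ne'
        have h2 := (hL (k * α) (k * β)).comp h1
        have h3 := (tendsto_div k hk0).pow 2
        have h4 := h2.mul h3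
        have e : L * ((ArithmeticFunction.moebius k : ℝ) / (k : ℝ) ^ 2) =
            (ArithmeticFunction.moebius k : ℝ) * (L * (1 / (k : ℝ)) ^ 2) := by
          ring
        rw [e]
        apply Tendsto.const_mul
        refine h4.congr' ?_
        filter_upwards [eventually_ge_atTop k] with B hB
        have hBk : 0 < B / k := Nat.div_pos hB hk0
        have hBr : (0 : ℝ) < ((B / k : ℕ) : ℝ) := by exact_mod_cast hBk
        have hB0 : (0 : ℝ) < B := by
          have : 0 < B := lt_of_lt_of_le hk0 hB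
          exact_mod_cast this
        rw [Nd_odd P hP α β B k hk]
        simp only [Function.comp]
        field_simp
      · rw [if_neg hk, mul_zero]
        simp only [Nd_even P α β hαβ _ k hk]
        simp
    · filter_upwards [eventually_ge_atTop 1] with B hB k
      have hB0 : (0 : ℝ) < B := by exact_mod_cast hB
      rw [norm_mul, Real.norm_eq_abs, Real.norm_eq_abs, abs_of_nonneg (by positivity :
        (0 : ℝ) ≤ (Nd P α β B k : ℝ) / (B : ℝ) ^ 2)]
      have h1 : (Nd P α β B k : ℝ) / (B : ℝ) ^ 2 ≤ 3 * (1 / (k : ℝ) ^ 2) := by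
        by_cases hk : Odd k
        · have hk0 : (0 : ℝ) < k := by exact_mod_cast hk.pos
          rw [Nd_odd P hP α β B k hk, div_le_iff₀ (by positivity)]
          have h2 : ((regF P (k * α) (k * β) (B / k)).card : ℝ) ≤ 3 * ((B / k : ℕ) : ℝ) ^ 2 := by
            exact_mod_cast card_regF_le P (k * α) (k * β) (B / k)
          have h3 : ((B / k : ℕ) : ℝ) ≤ (B : ℝ) / k := Nat.cast_div_le
          have h4 : ((B / k : ℕ) : ℝ) ^ 2 ≤ ((B : ℝ) / k) ^ 2 :=
            pow_le_pow_left₀ (Nat.cast_nonneg _) h3 2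
          calc ((regF P (k * α) (k * β) (B / k)).card : ℝ) ≤ 3 * ((B / k : ℕ) : ℝ) ^ 2 := h2
            _ ≤ 3 * ((B : ℝ) / k) ^ 2 := by linarith
            _ = 3 * (1 / (k : ℝ) ^ 2) * (B : ℝ) ^ 2 := by
                field_simp
        · rw [Nd_even P α β hαβ B k hk]
          simp only [Nat.cast_zero, zero_div]
          positivity
      calc |((ArithmeticFunction.moebius k : ℤ) : ℝ)| * ((Nd P α β B k : ℝ) / (B : ℝ) ^ 2)
          ≤ 1 * (3 * (1 / (k : ℝ) ^ 2)) := mul_le_mul (hmu k) h1 (by positivity) (by norm_num)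
        _ = 3 * (1 / (k : ℝ) ^ 2) := one_mul _
  refine key.congr ?_
  intro B
  have h1 : ∀ k, k ∉ range (B + 1) →
      (ArithmeticFunction.moebius k : ℝ) * ((Nd P α β B k : ℝ) / (B : ℝ) ^ 2) = 0 := by
    intro k hk
    rw [mem_range, not_lt] at hk
    have : Nd P α β B k = 0 := by
      unfold Nd
      rw [card_eq_zero, filter_eq_empty_iff]
      rintro x hx ⟨-, h2⟩
      rw [mem_regF] at hx
      obtain ⟨-, ⟨h3, h4⟩, -⟩ := hx
      have := Int.le_of_dvd (by omega) h2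
      omega
    rw [this]
    simp
  rw [tsum_eq_sum h1]
  have h2 : (pairs α β P B : ℝ) = ∑ d ∈ range (B + 1), (ArithmeticFunction.moebius d : ℝ) * (Nd P α β B d : ℝ) := by
    exact_mod_cast pairs_eq P α β B
  rw [h2, sum_div]
  apply sum_congr rfl
  intro d _
  ring

theorem kap_pos : 0 < ∑' k : ℕ, if Odd k then (ArithmeticFunction.moebius k : ℝ) / (k : ℝ) ^ 2 else 0 := by
  have hmu : ∀ k : ℕ, |((ArithmeticFunction.moebius k : ℤ) : ℝ)| ≤ 1 := by
    intro k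
    have := ArithmeticFunction.abs_moebius_le_one (n := k)
    exact_mod_cast this
  have hz := hasSum_zeta_two
  have hone : HasSum (fun k : ℕ => if k = 1 then (2 : ℝ) else 0) 2 := hasSum_ite_eq 1 2
  have hlow : HasSum (fun k : ℕ => -((1 : ℝ) / (k : ℝ) ^ 2) + if k = 1 then (2 : ℝ) else 0)
      (-(Real.pi ^ 2 / 6) + 2) := hz.neg.add hone
  have hsum : Summable (fun k : ℕ => if Odd k then (ArithmeticFunction.moebius k : ℝ) / (k : ℝ) ^ 2 else 0) := by
    apply Summable.of_norm_bounded hz.summable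
    intro k
    by_cases hk : Odd k
    · rw [if_pos hk, norm_div, Real.norm_eq_abs, norm_pow, Real.norm_eq_abs, Nat.abs_cast]
      exact div_le_div_of_nonneg_right (hmu k) (by positivity)
    · rw [if_neg hk, norm_zero]
      positivity
  have hle : -(Real.pi ^ 2 / 6) + 2 ≤
      ∑' k : ℕ, if Odd k then (ArithmeticFunction.moebius k : ℝ) / (k : ℝ) ^ 2 else 0 := by
    apply hasSum_le _ hlow hsum.hasSum
    intro k
    by_cases h1 : k = 1
    · subst h1
      simp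
      norm_num
    · rw [if_neg h1, add_zero]
      by_cases hk : Odd k
      · rw [if_pos hk, neg_div']
        apply div_le_div_of_nonneg_right _ (by positivity)
        have := (abs_le.mp (hmu k)).1
        exact this
      · rw [if_neg hk]
        have : 0 ≤ (1 : ℝ) / (k : ℝ) ^ 2 := by positivity
        linarith
  have hpi : Real.pi ^ 2 < 12 := by
    have h1 := Real.pi_lt_d2
    have h2 := Real.pi_pos
    nlinarith
  linarith

theorem pairs_proof : Stmt_Pairs := by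
  set S : ℝ := ∑' k : ℕ, if Odd k then (ArithmeticFunction.moebius k : ℝ) / (k : ℝ) ^ 2 else 0 with hS
  have hS0 : 0 < S := kap_pos
  refine ⟨S / 16, by positivity, ?_⟩
  intro α β hαβ
  refine ⟨?_, ?_, ?_⟩
  · have h := main_lim (fun _ _ => True) (fun _ _ _ _ => Iff.rfl) (1 / 8) lim_true α β hαβ
    rw [show 2 * (S / 16) = 1 / 8 * S by ring]
    exact h
  · have h := main_lim (fun a b => a ≤ -b) (fun d a b hd => by
      constructor
      · intro h
        have : d * a ≤ d * (-b) := by linarith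
        exact le_of_mul_le_mul_left this hd
      · intro h
        have := mul_le_mul_of_nonneg_left h hd.le
        linarith) ((1 / 4) / 8)
      (lim_h (fun a b => a ≤ -b) (fun t => t) (fun t => le_rfl) (1 / 4) (by norm_num) (by norm_num)
        (fun t _ => by
          have : (t : ℝ) / 4 - 1 / 4 * t = 0 := by ring
          rw [this]
          simp)
        (fun a b hb => by
          constructor
          · intro h
            refine ⟨(-a).toNat, by omega, by omega, by omega⟩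
          · rintro ⟨t, h1, h2, h3⟩
            omega)) α β hαβ
    rw [show S / 16 / 2 = (1 / 4) / 8 * S by ring]
    exact h
  · have h := main_lim (fun a b => a < -2 * b) (fun d a b hd => by
      constructor
      · intro h
        have : d * a < d * (-2 * b) := by linarith
        exact lt_of_mul_lt_mul_left this hd.le
      · intro h
        have := mul_lt_mul_of_pos_left h hd
        linarith) ((1 / 8) / 8)
      (lim_h (fun a b => a < -2 * b) (fun t => (t - 1) / 2) (fun t => by omega) (1 / 8) (by norm_num)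
        (by norm_num)
        (fun t ht => by
          have h1 : (t - 1) / 2 * 2 ≤ t := by omega
          have h2 : t ≤ (t - 1) / 2 * 2 + 2 := by omega
          have h1' : (((t - 1) / 2 : ℕ) : ℝ) * 2 ≤ t := by exact_mod_cast h1
          have h2' : (t : ℝ) ≤ (((t - 1) / 2 : ℕ) : ℝ) * 2 + 2 := by exact_mod_cast h2
          rw [abs_le]
          constructor <;> linarith)
        (fun a b hb => by
          constructor
          · intro h
            refine ⟨(-a).toNat, by omega, by omega, by omega⟩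
          · rintro ⟨t, h1, h2, h3⟩
            omega)) α β hαβ
    rw [show S / 16 / 4 = (1 / 8) / 8 * S by ring]
    exact h

end Pool.Agent.Arb
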