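import Pool.Agent.Arb.Stmts

set_option autoImplicit false

/-!
# MP_5c2e18_nt: the density of `Good` (DENSB)
-/

namespace Pool.Agent.Arb

open Filter Topology

namespace DensAux

/-- coprime pairs in the box -/
noncomputable def box (B : ℕ) : Finset (ℤ × ℤ) := by
  classical
  exact ((Finset.Icc (-(B : ℤ)) B) ×ˢ (Finset.Icc 1 (B : ℤ))).filter
    (fun x => IsCoprime x.1 x.2)

lemma mem_box {B : ℕ} {x : ℤ × ℤ} :
    x ∈ box B ↔ -(B : ℤ) ≤ x.1 ∧ x.1 ≤ B ∧ 1 ≤ x.2 ∧ x.2 ≤ B ∧ IsCoprime x.1 x.2 := by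
  unfold box
  simp only [Finset.mem_filter, Finset.mem_product, Finset.mem_Icc]
  tauto

/-- number of points of the box with a property -/
noncomputable def N (Q : ℤ × ℤ → Prop) (B : ℕ) : ℕ := by
  classical
  exact ((box B).filter Q).card

lemma cnt_eq (P : ℚ → Prop) (B : ℕ) :
    cnt P B = N (fun x => P ((x.1 : ℚ) / x.2)) B := by
  classical
  have hinj : Function.Injective (fun c : ℚ => (c.num, (c.den : ℤ))) := by
    intro c d h
    simp only [Prod.mk.injEq, Nat.cast_inj] at h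
    exact Rat.ext h.1 h.2
  unfold cnt N
  rw [← Set.ncard_image_of_injective _ hinj, ← Set.ncard_coe_finset]
  congr 1
  ext ⟨a, b⟩
  simp only [Set.mem_image, Set.mem_ofPred_eq, Finset.coe_filter, mem_box, Prod.mk.injEq]
  constructor
  · rintro ⟨c, ⟨hc, hP⟩, rfl, rfl⟩
    unfold ht at hc
    have h1 : c.num.natAbs ≤ B := (le_max_left _ _).trans hc
    have h2 : c.den ≤ B := (le_max_right _ _).trans hc
    have h3 : 0 < c.den := c.den_pos
    refine ⟨⟨by omega, by omega, by exact_mod_cast h3, by exact_mod_cast h2, ?_⟩, ?_⟩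
    · rw [Int.isCoprime_iff_gcd_eq_one]
      have := c.reduced
      simpa [Int.gcd, Nat.Coprime] using this
    · have : (c.num : ℚ) / ((c.den : ℤ) : ℚ) = c := by
        rw [Int.cast_natCast]; exact Rat.num_div_den c
      rw [this]; exact hP
  · rintro ⟨⟨h1, h2, h3, h4, h5⟩, hP⟩
    have hb : 0 < b := by omega
    have hcop : Nat.Coprime a.natAbs b.natAbs := by
      rw [Int.isCoprime_iff_gcd_eq_one] at h5
      exact h5
    have hn : ((a : ℚ) / b).num = a := Rat.num_div_eq_of_coprime hb hcop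
    have hd : (((a : ℚ) / b).den : ℤ) = b := Rat.den_div_eq_of_coprime hb hcop
    refine ⟨(a : ℚ) / b, ⟨?_, hP⟩, hn, hd⟩
    unfold ht
    rw [hn]
    have : ((a : ℚ) / b).den ≤ B := by
      have : (((a : ℚ) / b).den : ℤ) ≤ B := by rw [hd]; exact h4
      exact_mod_cast this
    exact max_le (by omega) this

lemma pairs_eq (α β : ℤ) (P : ℤ → ℤ → Prop) (B : ℕ) :
    pairs α β P B = N (fun x => x.1 ≡ α [ZMOD 4] ∧ x.2 ≡ β [ZMOD 4] ∧ P x.1 x.2) B := by
  classical
  unfold pairs N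
  rw [← Set.ncard_coe_finset]
  congr 1
  ext x
  simp only [Set.mem_ofPred_eq, Finset.coe_filter, mem_box]
  tauto

/-- the residue class of a pair -/
def cls (x : ℤ × ℤ) : ℕ × ℕ := ((x.1 % 4).toNat, (x.2 % 4).toNat)

lemma N_split (Q : ℤ × ℤ → Prop) (B : ℕ) :
    N Q B = ∑ i ∈ Finset.range 4 ×ˢ Finset.range 4, N (fun x => cls x = i ∧ Q x) B := by
  classical
  unfold N
  rw [Finset.card_eq_sum_card_fiberwise (f := cls) (t := Finset.range 4 ×ˢ Finset.range 4)]
  · refine Finset.sum_congr rfl fun i _ => ?_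
    congr 1
    ext x
    simp only [Finset.mem_filter]
    tauto
  · intro x _
    simp only [cls, Finset.coe_product, Finset.coe_range, Set.mem_prod, Set.mem_Iio]
    omega

lemma N_congr {Q Q' : ℤ × ℤ → Prop} {B : ℕ}
    (h : ∀ x : ℤ × ℤ, -(B : ℤ) ≤ x.1 → x.1 ≤ (B : ℤ) → 1 ≤ x.2 → x.2 ≤ (B : ℤ) →
      IsCoprime x.1 x.2 → (Q x ↔ Q' x)) : N Q B = N Q' B := by
  classical
  unfold N
  congr 1
  refine Finset.filter_congr fun x hx => ?_
  obtain ⟨h1, h2, h3, h4, h5⟩ := mem_box.1 hx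
  exact h x h1 h2 h3 h4 h5

lemma N_or {Q Q' : ℤ × ℤ → Prop} {B : ℕ} (h : ∀ x, 1 ≤ x.2 → Q x → Q' x → False) :
    N (fun x => Q x ∨ Q' x) B = N Q B + N Q' B := by
  classical
  unfold N
  rw [← Finset.card_union_of_disjoint]
  · congr 1
    ext x
    simp only [Finset.mem_filter, Finset.mem_union]
    tauto
  · rw [Finset.disjoint_filter]
    intro x hx h1 h2
    exact h x (mem_box.1 hx).2.2.1 h1 h2

lemma N_false {B : ℕ} : N (fun _ => False) B = 0 := by
  classical
  unfold N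
  simp

lemma modEq_iff {x : ℤ} {i : ℕ} (hi : i < 4) : x ≡ (i : ℤ) [ZMOD 4] ↔ (x % 4).toNat = i := by
  unfold Int.ModEq
  omega

/-- `Good` classes for the sign `s` -/
def GG (s α β : ℤ) : Prop :=
  (α % 2 = 0 → (s * (α + β)) % 4 = 3) ∧ (β % 4 = 0 → (s * α) % 4 = 3) ∧
  (α % 2 = 1 → β % 2 = 1 → ¬ ((s * α) % 4 = 3 ∧ (s * β) % 4 = 1))

instance (s α β : ℤ) : Decidable (GG s α β) := by unfold GG; infer_instance

lemma good_iff {a b : ℤ} (hb : 1 ≤ b) (hc : IsCoprime a b) :
    Good ((a : ℚ) / b) ↔ (GG 1 (a % 4) (b % 4) ∧ -b < a) ∨ (GG (-1) (a % 4) (b % 4) ∧ a < -2 * b) := by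
  have hb0 : 0 < b := by omega
  have hbq : (0 : ℚ) < b := by exact_mod_cast hb0
  have hcop : Nat.Coprime a.natAbs b.natAbs := by
    rw [Int.isCoprime_iff_gcd_eq_one] at hc
    exact hc
  have hn : ((a : ℚ) / b).num = a := Rat.num_div_eq_of_coprime hb0 hcop
  have hd : (((a : ℚ) / b).den : ℤ) = b := Rat.den_div_eq_of_coprime hb0 hcop
  have h2 : (a : ℚ) / b < -2 ↔ a < -2 * b := by
    rw [div_lt_iff₀ hbq]
    constructor
    · intro h; exact_mod_cast h
    · intro h; exact_mod_cast h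
  have h1 : -1 < (a : ℚ) / b ↔ -b < a := by
    rw [lt_div_iff₀ hbq]
    constructor
    · intro h
      have : ((-1 : ℤ) * b : ℤ) < a := by exact_mod_cast h
      omega
    · intro h
      have : ((-1 : ℤ) * b : ℤ) < a := by omega
      exact_mod_cast this
  have h0 : (a : ℚ) / b = 0 → a = 0 := by
    intro h
    rcases div_eq_zero_iff.1 h with h | h
    · exact_mod_cast h
    · exact absurd h hbq.ne'
  unfold Good sgn GG
  simp only [hn, hd, h1, h2]
  by_cases hl : a < -2 * b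
  · have hne : (a : ℚ) / b ≠ 0 := fun h => by have := h0 h; omega
    simp only [hl, if_true, hne, ne_eq, not_false_eq_true, true_or, true_and, and_true]
    have h3 : ¬ (-b < a) := by omega
    simp only [h3, and_false, false_or]
    constructor
    · rintro ⟨h4, h5, h6⟩
      refine ⟨fun h => ?_, fun h => ?_, fun h h' => ?_⟩
      · have := h4 (by omega); omega
      · have := h5 (by omega); omega
      · have := h6 (by omega) (by omega); omega
    · rintro ⟨h4, h5, h6⟩
      refine ⟨fun h => ?_, fun h => ?_, fun h h' => ?_⟩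
      · have := h4 (by omega); omega
      · have := h5 (by omega); omega
      · have := h6 (by omega) (by omega); omega
  · simp only [hl, if_false, false_or, and_false, or_false]
    by_cases hg : -b < a
    · simp only [hg, true_and, and_true]
      constructor
      · rintro ⟨-, h4, h5, h6⟩
        refine ⟨fun h => ?_, fun h => ?_, fun h h' => ?_⟩
        · have := h4 (by omega); omega
        · have := h5 (by omega); omega
        · have := h6 (by omega) (by omega); omega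
      · rintro ⟨h4, h5, h6⟩
        refine ⟨?_, fun h => ?_, fun h => ?_, fun h h' => ?_⟩
        · intro h
          have ha := h0 h
          subst ha
          have hu : IsUnit b := by
            rw [isCoprime_zero_left] at hc
            exact hc
          rcases Int.isUnit_iff.1 hu with h | h
          · subst h
            have := h4 (by norm_num)
            norm_num at this
          · omega
        · have := h4 (by omega); omega
        · have := h5 (by omega); omega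
        · have := h6 (by omega) (by omega); omega
    · simp [hg]

lemma class_even {α β : ℕ} {B : ℕ} (Q : ℤ × ℤ → Prop) (h : 2 ∣ α ∧ 2 ∣ β) (h4 : α < 4)
    (h4' : β < 4) :
    N (fun x => cls x = (α, β) ∧ Q x) B = 0 := by
  rw [← N_false (B := B)]
  refine N_congr fun x _ _ _ _ hc => ⟨?_, fun h => h.elim⟩
  rintro ⟨h1, -⟩
  simp only [cls, Prod.mk.injEq] at h1
  have ha : (2 : ℤ) ∣ x.1 := by omega
  have hb : (2 : ℤ) ∣ x.2 := by omega
  have := hc.isUnit_of_dvd' ha hb
  rw [Int.isUnit_iff] at this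
  omega

lemma class_all {κ : ℝ} (h : ∀ α β : ℤ, ¬ (2 ∣ α ∧ 2 ∣ β) →
    Tendsto (fun B : ℕ => (pairs α β (fun _ _ => True) B : ℝ) / (B : ℝ) ^ 2) atTop (𝓝 (2 * κ)) ∧
    Tendsto (fun B : ℕ => (pairs α β (fun a b => a ≤ -b) B : ℝ) / (B : ℝ) ^ 2) atTop
      (𝓝 (κ / 2)) ∧
    Tendsto (fun B : ℕ => (pairs α β (fun a b => a < -2 * b) B : ℝ) / (B : ℝ) ^ 2) atTop
      (𝓝 (κ / 4))) (i : ℕ × ℕ) (hi : i ∈ Finset.range 4 ×ˢ Finset.range 4) :
    Tendsto (fun B : ℕ => (N (fun x => cls x = i ∧ True) B : ℝ) / (B : ℝ) ^ 2) atTop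
      (𝓝 (if 2 ∣ i.1 ∧ 2 ∣ i.2 then 0 else 2 * κ)) := by
  obtain ⟨α, β⟩ := i
  simp only [Finset.mem_product, Finset.mem_range] at hi
  split_ifs with he
  · have : (fun B : ℕ => (N (fun x => cls x = (α, β) ∧ True) B : ℝ) / (B : ℝ) ^ 2) =
        fun _ => 0 := by
      funext B
      rw [class_even _ he hi.1 hi.2]
      simp
    rw [this]
    exact tendsto_const_nhds
  · have := (h α β (by
      intro hh; apply he; exact ⟨by exact_mod_cast hh.1, by exact_mod_cast hh.2⟩)).1
    refine this.congr fun B => ?_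
    rw [pairs_eq]
    congr 2
    refine N_congr fun x _ _ _ _ _ => ?_
    rw [modEq_iff hi.1, modEq_iff hi.2]
    simp only [cls, Prod.mk.injEq]
    tauto

lemma class_good {κ : ℝ} (h : ∀ α β : ℤ, ¬ (2 ∣ α ∧ 2 ∣ β) →
    Tendsto (fun B : ℕ => (pairs α β (fun _ _ => True) B : ℝ) / (B : ℝ) ^ 2) atTop (𝓝 (2 * κ)) ∧
    Tendsto (fun B : ℕ => (pairs α β (fun a b => a ≤ -b) B : ℝ) / (B : ℝ) ^ 2) atTop
      (𝓝 (κ / 2)) ∧
    Tendsto (fun B : ℕ => (pairs α β (fun a b => a < -2 * b) B : ℝ) / (B : ℝ) ^ 2) atTop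
      (𝓝 (κ / 4))) (i : ℕ × ℕ) (hi : i ∈ Finset.range 4 ×ˢ Finset.range 4) :
    Tendsto (fun B : ℕ => (N (fun x => cls x = i ∧ Good ((x.1 : ℚ) / x.2)) B : ℝ) / (B : ℝ) ^ 2)
      atTop
      (𝓝 (if 2 ∣ i.1 ∧ 2 ∣ i.2 then 0 else
        (if GG 1 i.1 i.2 then (2 * κ - κ / 2) else 0) + (if GG (-1) i.1 i.2 then κ / 4 else 0))) := by
  obtain ⟨α, β⟩ := i
  simp only [Finset.mem_product, Finset.mem_range] at hi
  by_cases he : 2 ∣ α ∧ 2 ∣ β
  · simp only [if_pos he]
    have : (fun B : ℕ => (N (fun x => cls x = (α, β) ∧ Good ((x.1 : ℚ) / x.2)) B : ℝ) /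
        (B : ℝ) ^ 2) = fun _ => 0 := by
      funext B
      rw [class_even _ he hi.1 hi.2]
      simp
    rw [this]
    exact tendsto_const_nhds
  · simp only [if_neg he]
    obtain ⟨hT, hM, hL⟩ := h α β (by
      intro hh; apply he; exact ⟨by exact_mod_cast hh.1, by exact_mod_cast hh.2⟩)
    -- the part `a > -b`
    have hkey : ∀ B : ℕ, (pairs α β (fun _ _ => True) B : ℝ) =
        pairs α β (fun a b => a ≤ -b) B +
          N (fun x => cls x = (α, β) ∧ -x.2 < x.1) B := by
      intro B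
      rw [pairs_eq, pairs_eq, ← Nat.cast_add, ← N_or]
      · congr 1
        refine N_congr fun x _ _ _ _ _ => ?_
        rw [modEq_iff hi.1, modEq_iff hi.2]
        simp only [cls, Prod.mk.injEq]
        have := lt_or_ge (-x.2) x.1
        tauto
      · rintro x - ⟨-, -, h1⟩ ⟨-, h2⟩
        omega
    have hG1 : Tendsto (fun B : ℕ => (N (fun x => cls x = (α, β) ∧ -x.2 < x.1) B : ℝ) /
        (B : ℝ) ^ 2) atTop (𝓝 (2 * κ - κ / 2)) := by
      refine (hT.sub hM).congr fun B => ?_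
      rw [hkey B]
      ring
    have hG2 : Tendsto (fun B : ℕ => (N (fun x => cls x = (α, β) ∧ x.1 < -2 * x.2) B : ℝ) /
        (B : ℝ) ^ 2) atTop (𝓝 (κ / 4)) := by
      refine hL.congr fun B => ?_
      rw [pairs_eq]
      congr 2
      refine N_congr fun x _ _ _ _ _ => ?_
      rw [modEq_iff hi.1, modEq_iff hi.2]
      simp only [cls, Prod.mk.injEq]
      tauto
    have hsplit : ∀ B : ℕ, N (fun x => cls x = (α, β) ∧ Good ((x.1 : ℚ) / x.2)) B =
        N (fun x => GG 1 α β ∧ (cls x = (α, β) ∧ -x.2 < x.1)) B +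
        N (fun x => GG (-1) α β ∧ (cls x = (α, β) ∧ x.1 < -2 * x.2)) B := by
      intro B
      rw [← N_or]
      · refine N_congr fun x _ _ hx _ hc => ?_
        constructor
        · rintro ⟨h1, h2⟩
          rw [good_iff hx hc] at h2
          have e1 : x.1 % 4 = α := by
            simp only [cls, Prod.mk.injEq] at h1; omega
          have e2 : x.2 % 4 = β := by
            simp only [cls, Prod.mk.injEq] at h1; omega
          rw [e1, e2] at h2
          tauto
        · intro h2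
          have h1 : cls x = (α, β) := by tauto
          have e1 : x.1 % 4 = α := by
            simp only [cls, Prod.mk.injEq] at h1; omega
          have e2 : x.2 % 4 = β := by
            simp only [cls, Prod.mk.injEq] at h1; omega
          rw [good_iff hx hc, e1, e2]
          tauto
      · rintro x hx ⟨-, -, h1⟩ ⟨-, -, h2⟩
        omega
    have hind : ∀ (p : Prop) [Decidable p] (Q : ℤ × ℤ → Prop) (l : ℝ),
        Tendsto (fun B : ℕ => (N Q B : ℝ) / (B : ℝ) ^ 2) atTop (𝓝 l) →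
        Tendsto (fun B : ℕ => (N (fun x => p ∧ Q x) B : ℝ) / (B : ℝ) ^ 2) atTop
          (𝓝 (if p then l else 0)) := by
      intro p _ Q l hl
      by_cases hp : p
      · simp only [hp, true_and, if_true]
        exact hl
      · simp only [hp, false_and, if_false, N_false]
        simp
    have := (hind (GG 1 α β) _ _ hG1).add (hind (GG (-1) α β) _ _ hG2)
    refine this.congr fun B => ?_
    rw [hsplit B]
    push_cast
    ring

lemma total {κ : ℝ} (h : ∀ α β : ℤ, ¬ (2 ∣ α ∧ 2 ∣ β) →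
    Tendsto (fun B : ℕ => (pairs α β (fun _ _ => True) B : ℝ) / (B : ℝ) ^ 2) atTop (𝓝 (2 * κ)) ∧
    Tendsto (fun B : ℕ => (pairs α β (fun a b => a ≤ -b) B : ℝ) / (B : ℝ) ^ 2) atTop
      (𝓝 (κ / 2)) ∧
    Tendsto (fun B : ℕ => (pairs α β (fun a b => a < -2 * b) B : ℝ) / (B : ℝ) ^ 2) atTop
      (𝓝 (κ / 4))) :
    Tendsto (fun B : ℕ => (cnt (fun _ => True) B : ℝ) / (B : ℝ) ^ 2) atTop (𝓝 (24 * κ)) := by
  have h1 := tendsto_finsetSum (Finset.range 4 ×ˢ Finset.range 4) (class_all h)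
  have e : ∑ i ∈ Finset.range 4 ×ˢ Finset.range 4, (if 2 ∣ i.1 ∧ 2 ∣ i.2 then 0 else 2 * κ) =
      24 * κ := by
    rw [Finset.sum_product]
    simp only [Finset.sum_range_succ, Finset.sum_range_zero]
    norm_num
    ring
  rw [e] at h1
  refine h1.congr fun B => ?_
  rw [cnt_eq, N_split, ← Finset.sum_div]
  push_cast
  rfl

lemma goodTotal {κ : ℝ} (h : ∀ α β : ℤ, ¬ (2 ∣ α ∧ 2 ∣ β) →
    Tendsto (fun B : ℕ => (pairs α β (fun _ _ => True) B : ℝ) / (B : ℝ) ^ 2) atTop (𝓝 (2 * κ)) ∧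
    Tendsto (fun B : ℕ => (pairs α β (fun a b => a ≤ -b) B : ℝ) / (B : ℝ) ^ 2) atTop
      (𝓝 (κ / 2)) ∧
    Tendsto (fun B : ℕ => (pairs α β (fun a b => a < -2 * b) B : ℝ) / (B : ℝ) ^ 2) atTop
      (𝓝 (κ / 4))) :
    Tendsto (fun B : ℕ => (cnt Good B : ℝ) / (B : ℝ) ^ 2) atTop (𝓝 (14 * κ)) := by
  have h1 := tendsto_finsetSum (Finset.range 4 ×ˢ Finset.range 4) (class_good h)
  have e : ∑ i ∈ Finset.range 4 ×ˢ Finset.range 4, (if 2 ∣ i.1 ∧ 2 ∣ i.2 then 0 else
        (if GG 1 i.1 i.2 then (2 * κ - κ / 2) else 0) + (if GG (-1) i.1 i.2 then κ / 4 else 0)) =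
      14 * κ := by
    rw [Finset.sum_product]
    simp only [Finset.sum_range_succ, Finset.sum_range_zero]
    norm_num [GG]
    ring
  rw [e] at h1
  refine h1.congr fun B => ?_
  rw [cnt_eq, N_split, ← Finset.sum_div]
  push_cast
  rfl

end DensAux

/-- DENSB -/
theorem DensB_proof (h : Stmt_Pairs) : Stmt_Dens := by
  obtain ⟨κ, hκ, h⟩ := h
  have h1 := (DensAux.goodTotal h).div (DensAux.total h) (by positivity)
  have e : 14 * κ / (24 * κ) = 7 / 12 := by
    field_simp
    norm_num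
  rw [e] at h1
  refine h1.congr' ?_
  filter_upwards [eventually_gt_atTop 0] with B hB
  have hB' : (B : ℝ) ≠ 0 := by positivity
  simp only [Pi.div_apply]
  field_simp

end Pool.Agent.Arb
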