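import Pool.Agent.Arb.Core

/-!
# Class A3: `a`, `b` odd, `e a ≡ 1`, `e b ≡ 3 (mod 4)` (so `4 ∣ a + b`)
-/

namespace Pool.Agent.Arb

namespace ClsA3

variable {a b e : ℤ}

lemma odd_sq {x : ℤ} (hx : x % 2 = 1) : ∃ k, x ^ 2 = 8 * k + 1 := by
  obtain ⟨k, hk⟩ : ∃ k, x = 2 * k + 1 := ⟨x / 2, by omega⟩
  obtain ⟨l, hl⟩ := Int.even_mul_succ_self k
  refine ⟨l, ?_⟩
  have : x ^ 2 = 4 * (k * (k + 1)) + 1 := by rw [hk]; ring
  rw [this, hl]; ring

lemma odd_pow_even {x : ℤ} (hx : x % 2 = 1) (m : ℕ) : ∃ k, x ^ (2 * m) = 8 * k + 1 := by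
  obtain ⟨k, hk⟩ := odd_sq hx
  have h1 : (8 * k + 1) ^ m ≡ 1 [ZMOD 8] := by
    have : 8 * k + 1 ≡ 1 [ZMOD 8] := by
      exact Int.modEq_iff_dvd.2 ⟨-k, by ring⟩
    simpa using this.pow m
  rw [pow_mul, hk]
  obtain ⟨c, hc⟩ := Int.modEq_iff_dvd.1 h1
  exact ⟨-c, by linarith⟩

/-- structure of the orbit numerators: `D_{2k+3} ≡ b (mod 8)`, `D_{2k+2} = (a + b)(1 + 4 x)` -/
lemma struct (hb : b % 2 = 1) (h4 : (a + b) % 4 = 0) (k : ℕ) :
    (∃ x, D a b (2 * k + 2) = (a + b) * (1 + 4 * x)) ∧ D a b (2 * k + 3) % 8 = b % 8 := by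
  have step1 : ∀ m, 1 ≤ m → (∃ x, D a b m = (a + b) * (1 + 4 * x)) →
      D a b (m + 1) % 8 = b % 8 ∧ ∃ y, D a b (m + 1) = b ^ (2 ^ m - 1) + 4 * (a + b) * y := by
    intro m hm ⟨x, hx⟩
    obtain ⟨w, hw⟩ : ∃ w, a + b = 4 * w := ⟨(a + b) / 4, by omega⟩
    rw [D_succ, hx]
    have h2 : 2 ^ m - 1 = 2 * (2 ^ (m - 1) - 1) + 1 := by
      obtain ⟨m, rfl⟩ : ∃ l, m = l + 1 := ⟨m - 1, by omega⟩
      have : 1 ≤ 2 ^ m := Nat.one_le_two_pow
      rw [pow_succ, Nat.add_sub_cancel]; omega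
    constructor
    · obtain ⟨c, hc⟩ := odd_pow_even hb (2 ^ (m - 1) - 1)
      rw [h2, pow_succ b, hc, hw]
      have : a * (4 * w * (1 + 4 * x)) ^ 2 + (8 * c + 1) * b =
          b + 8 * (2 * a * (w * (1 + 4 * x)) ^ 2 + c * b) := by ring
      rw [this]; omega
    · refine ⟨a * w * (1 + 4 * x) ^ 2, ?_⟩
      rw [hw]; ring
  have step2 : ∀ m, (∃ y, D a b (m + 1) = b ^ (2 ^ m - 1) + 4 * (a + b) * y) →
      ∃ x, D a b (m + 2) = (a + b) * (1 + 4 * x) := by
    intro m ⟨y, hy⟩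
    rw [D_succ (m + 1), hy]
    have h2 : 2 ^ (m + 1) - 1 = (2 ^ m - 1) * 2 + 1 := by
      have : 1 ≤ 2 ^ m := Nat.one_le_two_pow
      rw [pow_succ]; omega
    obtain ⟨c, hc⟩ := odd_pow_even hb (2 ^ m - 1)
    rw [mul_comm] at hc
    rw [h2, pow_succ b ((2 ^ m - 1) * 2), hc]
    have hc2 : (b ^ (2 ^ m - 1)) ^ 2 = 8 * c + 1 := by rw [← pow_mul]; exact hc
    set B := b ^ (2 ^ m - 1)
    refine ⟨2 * c + a * (2 * B * y + 4 * (a + b) * y ^ 2), ?_⟩
    have : a * (B + 4 * (a + b) * y) ^ 2 + (8 * c + 1) * b =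
        a * B ^ 2 + (8 * c + 1) * b + a * (8 * B * (a + b) * y + 16 * (a + b) ^ 2 * y ^ 2) := by ring
    rw [this, hc2]; ring
  induction k with
  | zero =>
    have e1 : ∃ x, D a b (2 * 0 + 2) = (a + b) * (1 + 4 * x) := ⟨0, by simp⟩
    exact ⟨e1, (step1 2 (by norm_num) e1).1⟩
  | succ k ih =>
    have e1 := step1 (2 * k + 2) (by omega) ih.1
    have e2 := step2 (2 * k + 2) e1.2
    exact ⟨e2, (step1 (2 * (k + 1) + 2) (by omega) e2).1⟩

lemma D_odd_mod (hb : b % 2 = 1) (h4 : (a + b) % 4 = 0) {m : ℕ} (hm : 3 ≤ m) (ho : Odd m) :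
    D a b m % 8 = b % 8 := by
  obtain ⟨k, hk⟩ := ho
  obtain ⟨l, rfl⟩ : ∃ l, k = l + 1 := ⟨k - 1, by omega⟩
  rw [hk]
  exact (struct hb h4 l).2

lemma D_even_eq (hb : b % 2 = 1) (h4 : (a + b) % 4 = 0) {m : ℕ} (hm : 2 ≤ m) (he : Even m) :
    ∃ x, D a b m = (a + b) * (1 + 4 * x) := by
  obtain ⟨k, hk⟩ := he
  obtain ⟨l, rfl⟩ : ∃ l, k = l + 1 := ⟨k - 1, by omega⟩
  have : m = 2 * l + 2 := by omega
  rw [this]
  exact (struct hb h4 l).1

lemma prod_one_mod4 (S : Finset ℕ) (g : ℕ → ℕ) (hg : ∀ u ∈ S, g u % 4 = 1) :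
    (∏ u ∈ S, g u) % 4 = 1 := by
  induction S using Finset.induction_on with
  | empty => simp
  | insert i T hi ih =>
    rw [Finset.prod_insert hi, Nat.mul_mod, hg i (Finset.mem_insert_self _ _),
      ih (fun u hu => hg u (Finset.mem_insert_of_mem hu))]

/-- the divisors of `2 R'`, `R'` odd -/
lemma prod_divisors_two_mul {R' : ℕ} (ho : Odd R') (g : ℕ → ℕ) :
    ∏ u ∈ (2 * R').divisors, g u = (∏ u ∈ R'.divisors, g u) * ∏ u ∈ R'.divisors, g (2 * u) := by
  have hR'0 : R' ≠ 0 := by rintro rfl; simp at ho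
  have hdec : (2 * R').divisors = R'.divisors ∪ R'.divisors.image (fun u => 2 * u) := by
    ext u
    simp only [Nat.mem_divisors, Finset.mem_union, Finset.mem_image]
    constructor
    · rintro ⟨hu, _⟩
      rcases Nat.even_or_odd u with he | ho'
      · right
        obtain ⟨v, hv⟩ := he.two_dvd
        refine ⟨v, ⟨?_, hR'0⟩, hv.symm⟩
        rw [hv] at hu
        exact Nat.dvd_of_mul_dvd_mul_left (by norm_num) hu
      · left
        have hc : Nat.Coprime u 2 := Nat.coprime_two_right.2 ho'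
        exact ⟨hc.dvd_of_dvd_mul_left hu, hR'0⟩
    · rintro (⟨hu, _⟩ | ⟨v, ⟨hv, _⟩, rfl⟩)
      · exact ⟨Dvd.dvd.mul_left hu 2, by omega⟩
      · exact ⟨Nat.mul_dvd_mul_left 2 hv, by omega⟩
  have hdisj : Disjoint R'.divisors (R'.divisors.image (fun u => 2 * u)) := by
    rw [Finset.disjoint_left]
    intro u hu hu'
    rw [Finset.mem_image] at hu'
    obtain ⟨v, _, rfl⟩ := hu'
    have := Odd.of_dvd_nat ho (Nat.dvd_of_mem_divisors hu)
    rw [Nat.odd_iff] at this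
    omega
  rw [hdec, Finset.prod_union hdisj, Finset.prod_image (fun x _ y _ hxy => by simpa using hxy)]

end ClsA3

open Pool.Agent.Arb.Core Pool.Agent.Arb.ClsA3 in
theorem clsA3_proof : Stmt_ClsA3 := by
  intro a b e h ha hb s R hR h1 _ hs0 hsR
  have hb2 : b % 2 = 1 := by
    rcases h.hs with ⟨rfl, _⟩ | ⟨rfl, _⟩ <;> omega
  have hab : (a + b) % 4 = 0 := by
    rcases h.hs with ⟨rfl, _⟩ | ⟨rfl, _⟩ <;> omega
  have heb : ∀ x : ℤ, x % 4 = b % 4 → (e * x) % 4 = 3 := by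
    intro x hx
    rcases h.hs with ⟨rfl, _⟩ | ⟨rfl, _⟩ <;> omega
  rcases Nat.lt_or_ge 1 s with hs | hs
  · refine core h hs hR h1 (heb _ ?_)
    obtain ⟨r, rfl⟩ : ∃ r, s = r + 1 := ⟨s - 1, by omega⟩
    rw [show r + 1 + 1 = r + 2 by ring, N_succ]
    rcases Nat.even_or_odd r with he | ho
    · -- `t = r + 2` even, `r + 1` odd `≥ 3`
      obtain ⟨x, hx⟩ := D_even_eq (a := a) hb2 hab (m := r + 2) (by omega) (by
        obtain ⟨k, hk⟩ := he; exact ⟨k + 1, by omega⟩)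
      have hr2 : 2 ≤ r := by
        obtain ⟨k, hk⟩ := he
        omega
      have h2 := D_odd_mod (a := a) hb2 hab (m := r + 1) (by omega) he.add_one
      have hpow : 2 ^ r = 2 * 2 ^ (r - 1) := by
        obtain ⟨l, rfl⟩ : ∃ l, r = l + 1 := ⟨r - 1, by omega⟩
        rw [pow_succ, Nat.add_sub_cancel]; ring
      obtain ⟨c, hc⟩ := odd_pow_even hb2 (2 ^ (r - 1))
      obtain ⟨w, hw⟩ : ∃ w, a + b = 4 * w := ⟨(a + b) / 4, by omega⟩
      obtain ⟨y, hy⟩ : ∃ y, D a b (r + 1) = b + 8 * y := ⟨(D a b (r + 1) - b) / 8, by omega⟩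
      rw [hx, hw, hpow, hc, hy]
      have : 4 * w * (1 + 4 * x) + (8 * c + 1) * (b + 8 * y) =
        b + 4 * (w * (1 + 4 * x) + 2 * c * b + 16 * c * y + 2 * y) := by ring
      rw [this]; omega
    · -- `t = r + 2` odd, `r + 1` even
      obtain ⟨x, hx⟩ := D_even_eq (a := a) hb2 hab (m := r + 1) (by omega) ho.add_one
      have h2 := D_odd_mod (a := a) hb2 hab (m := r + 2) (by omega) (by
        obtain ⟨k, hk⟩ := ho; exact ⟨k + 1, by omega⟩)
      obtain ⟨w, hw⟩ : ∃ w, a + b = 4 * w := ⟨(a + b) / 4, by omega⟩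
      obtain ⟨y, hy⟩ : ∃ y, D a b (r + 2) = b + 8 * y := ⟨(D a b (r + 2) - b) / 8, by omega⟩
      rw [hx, hw, hy]
      have : b + 8 * y + b ^ 2 ^ r * (4 * w * (1 + 4 * x)) =
        b + 4 * (2 * y + b ^ 2 ^ r * (w * (1 + 4 * x))) := by ring
      rw [this]; omega
  · have : s = 1 := by omega
    subst this
    rw [one_mul] at hsR
    have hDodd : ∀ u, 3 ≤ u → Odd u → (D a b u).natAbs % 4 = 3 := by
      intro u hu huo
      have h2 := D_odd_mod (a := a) hb2 hab hu huo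
      have h3 : ((D a b u).natAbs : ℤ) % 4 = 3 := by
        rw [h.natAbs_D (by omega)]
        exact heb _ (by omega)
      omega
    rcases Nat.even_or_odd R with he | ho
    · obtain ⟨R', hR'⟩ := he.two_dvd
      have hcop : Nat.Coprime 2 R' := Nat.coprime_of_squarefree_mul (hR' ▸ hR)
      have hR'odd : Odd R' := Nat.coprime_two_left.1 hcop
      have hR'sq : Squarefree R' := hR.squarefree_of_dvd ⟨2, by rw [hR']; ring⟩
      have hR'1 : 1 < R' := by
        obtain ⟨k, hk⟩ := hR'odd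
        omega
      have hmem : 1 ∈ R'.divisors := by rw [Nat.mem_divisors]; exact ⟨one_dvd _, by omega⟩
      -- the odd divisors
      have hodd : (∏ u ∈ R'.divisors, (D a b u).natAbs) % 4 = 3 := by
        rw [← Finset.mul_prod_erase _ _ hmem]
        simp only [D_one, Int.natAbs_one, one_mul]
        refine prod_mod4 _ _ ?_ ?_
        · intro u hu
          rw [Finset.mem_erase, Nat.mem_divisors] at hu
          have hu2 : Odd u := Odd.of_dvd_nat hR'odd hu.2.1
          refine hDodd u ?_ hu2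
          obtain ⟨k, hk⟩ := hu2
          omega
        · rw [Finset.card_erase_of_mem hmem]
          have := even_card_divisors hR'sq hR'1
          have hpos : 0 < R'.divisors.card := Finset.card_pos.2 ⟨1, hmem⟩
          obtain ⟨k, hk⟩ := this
          exact ⟨k - 1, by omega⟩
      -- the even divisors
      have heven : ∀ u ∈ R'.divisors, ∃ c : ℕ, (D a b (2 * u)).natAbs = (a + b).natAbs * c ∧ c % 4 = 1 := by
        intro u hu
        have hu0 : u ≠ 0 := by
          rintro rfl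
          simp at hu
        obtain ⟨x, hx⟩ := D_even_eq (a := a) hb2 hab (m := 2 * u) (by omega) (even_two_mul u)
        have hp1 := h.pos_D (m := 2 * u) (by omega)
        have hp2 := h.pos_D (m := 2) (le_refl 2)
        rw [D_two] at hp2
        rw [hx] at hp1
        have hx0 : 0 < 1 + 4 * x := by
          have : e * ((a + b) * (1 + 4 * x)) = (e * (a + b)) * (1 + 4 * x) := by ring
          rw [this] at hp1
          exact (pos_iff_pos_of_mul_pos hp1).1 hp2
        refine ⟨(1 + 4 * x).natAbs, ?_, by omega⟩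
        rw [hx, Int.natAbs_mul]
      choose! c hc1 hc2 using heven
      have hZ : Z a b 1 R = ((a + b).natAbs ^ (R'.divisors.card / 2)) ^ 2 *
          ((∏ u ∈ R'.divisors, (D a b u).natAbs) * ∏ u ∈ R'.divisors, c u) := by
        rw [Z, hR']
        simp only [one_mul]
        rw [prod_divisors_two_mul hR'odd (fun u => (D a b u).natAbs), Finset.prod_congr rfl hc1,
          Finset.prod_mul_distrib, Finset.prod_const, ← pow_mul]
        have : R'.divisors.card / 2 * 2 = R'.divisors.card := by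
          have := even_card_divisors hR'sq hR'1
          obtain ⟨k, hk⟩ := this
          omega
        rw [this]; ring
      refine not_sq_of_mul hZ ?_ ?_
      · have hp2 := h.pos_D (m := 2) (le_refl 2)
        rw [D_two] at hp2
        have : a + b ≠ 0 := by
          intro h0
          rw [h0] at hp2
          simp at hp2
        positivity
      · rw [Nat.mul_mod, hodd, prod_one_mod4 _ _ hc2]
    · exact odd_one hR h1 ho hDodd

end Pool.Agent.Arb
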