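import Pool.Agent.Arb.Congr

/-!
# The classes `a` even and `4 ∣ b`
-/

namespace Pool.Agent.Arb

variable {a b e : ℤ}

lemma not_sq_of_mod4 {z : ℕ} (h : z % 4 = 3) : ¬ IsSquare z := by
  rintro ⟨y, rfl⟩
  have : y % 4 = 0 ∨ y % 4 = 1 ∨ y % 4 = 2 ∨ y % 4 = 3 := by omega
  rcases this with h1 | h1 | h1 | h1 <;> rw [Nat.mul_mod, h1] at h <;> norm_num at h

/-- a product over a finite set of numbers `≡ 3 (mod 4)` -/
lemma prod_mod4 (S : Finset ℕ) (f : ℕ → ℕ) (h : ∀ u ∈ S, f u % 4 = 3) :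
    (∏ u ∈ S, f u) % 4 = if Even S.card then 1 else 3 := by
  classical
  induction S using Finset.induction_on with
  | empty => simp
  | insert i S hi ih =>
    rw [Finset.prod_insert hi, Finset.card_insert_of_notMem hi, Nat.mul_mod,
      h i (Finset.mem_insert_self _ _), ih (fun u hu => h u (Finset.mem_insert_of_mem hu))]
    by_cases h2 : Even S.card
    · simp [h2, Nat.even_add_one]
    · simp [h2, Nat.even_add_one]

/-- if all `|D_u|`, `u ∣ R`, `u ≥ 2` are `≡ 3 (mod 4)` then `Z(1, R) ≡ 3 (mod 4)` -/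
lemma Z_one_not_sq {R : ℕ} (hR : Squarefree R) (h1 : 1 < R)
    (h : ∀ u, u ∣ R → 2 ≤ u → (D a b u).natAbs % 4 = 3) : ¬ IsSquare (Z a b 1 R) := by
  apply not_sq_of_mod4
  have hmem : 1 ∈ R.divisors := by simp; omega
  rw [Z, ← Finset.mul_prod_erase _ _ hmem]
  simp only [one_mul, D_one, Int.natAbs_one]
  rw [prod_mod4 (R.divisors.erase 1) (fun u => (D a b u).natAbs)]
  · have h2 := even_card_divisors hR h1
    have h3 := Finset.card_erase_add_one hmem
    rw [← h3, Nat.even_add_one] at h2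
    rw [if_neg h2]
  · intro u hu
    rw [Finset.mem_erase, Nat.mem_divisors] at hu
    apply h u hu.2.1
    have : u ≠ 0 := by rintro rfl; have := hu.2.1; simp at this; omega
    omega

lemma Adm.b_odd (h : Adm a b e) (ha : a % 2 = 0) : b % 2 = 1 := by
  by_contra hb
  have h2 : (2 : ℤ) ∣ a := Int.dvd_of_emod_eq_zero ha
  have h3 : (2 : ℤ) ∣ b := Int.dvd_of_emod_eq_zero (by omega)
  have := h.cop.isUnit_of_dvd' h2 h3
  rw [Int.isUnit_iff] at this
  omega

lemma Adm.a_odd (h : Adm a b e) (hb : b % 2 = 0) : a % 2 = 1 := by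
  by_contra ha
  have h2 : (2 : ℤ) ∣ a := Int.dvd_of_emod_eq_zero (by omega)
  have h3 : (2 : ℤ) ∣ b := Int.dvd_of_emod_eq_zero hb
  have := h.cop.isUnit_of_dvd' h2 h3
  rw [Int.isUnit_iff] at this
  omega

theorem clsAE_proof : Stmt_ClsAE := by
  intro a b e h ha h3 s R hR h1 _ hs _
  have hb := h.b_odd ha
  rcases Nat.lt_or_ge s 2 with hs2 | hs2
  · obtain rfl : s = 1 := by omega
    apply Z_one_not_sq hR h1
    intro u _ hu
    obtain ⟨m, rfl⟩ : ∃ m, u = m + 1 := ⟨u - 1, by omega⟩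
    have h4 := (D_ae ha hb (m := m) (by omega)).1.of_dvd (show (4 : ℤ) ∣ 8 by norm_num)
    have h5 := h4.mul_left e
    have h6 := h.natAbs_D (m := m + 1) (by omega)
    rw [Int.ModEq] at h5
    omega
  · obtain ⟨r, rfl⟩ : ∃ r, s = r + 1 := ⟨s - 1, by omega⟩
    have h4 := (N_ae ha hb (r := r) (by omega)).mul_left e
    have h6 := h.natAbs_N r
    rw [Int.ModEq, ← h6] at h4
    have h7 : (N a b (r + 2)).natAbs % 8 = 6 := by
      have h8 : e * (2 * (a + b)) = 2 * (e * (a + b)) := by ring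
      rw [h8] at h4
      omega
    have hdvd : (((N a b (r + 2)).natAbs / 2 : ℕ) : ℤ) ∣ N a b (r + 2) := by
      rw [← Int.natAbs_dvd_natAbs, Int.natAbs_natCast]
      exact Nat.div_dvd_of_dvd (by omega)
    exact h.kill_succ hR h1 hs2 hdvd (by omega)

theorem clsB4_proof : Stmt_ClsB4 := by
  intro a b e h hb4 h3 s R hR h1 _ hs _
  have hb : b % 2 = 0 := by omega
  have ha := h.a_odd hb
  rcases Nat.lt_or_ge s 2 with hs2 | hs2
  · obtain rfl : s = 1 := by omega
    apply Z_one_not_sq hR h1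
    intro u _ hu
    have h6 := h.natAbs_D (m := u) (by omega)
    have h5 : e * D a b u ≡ e * a [ZMOD 4] := by
      apply Int.ModEq.mul_left
      rcases Nat.eq_or_lt_of_le hu with rfl | hu
      · rw [D_two]
        apply Int.modEq_iff_dvd.mpr
        have : (4 : ℤ) ∣ b := Int.dvd_of_emod_eq_zero hb4
        simpa using this
      · obtain ⟨m, rfl⟩ : ∃ m, u = m + 1 := ⟨u - 1, by omega⟩
        exact (D_be ha hb (m := m) (by omega)).of_dvd (by norm_num)
    rw [Int.ModEq] at h5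
    omega
  · obtain ⟨r, rfl⟩ : ∃ r, s = r + 1 := ⟨s - 1, by omega⟩
    have h4 := (N_be ha hb (r := r) (by omega)).mul_left e
    have h6 := h.natAbs_N r
    rw [Int.ModEq, ← h6] at h4
    have h7 : (N a b (r + 2)).natAbs % 4 = 3 := by omega
    exact h.kill_succ hR h1 hs2 (M := (N a b (r + 2)).natAbs) (Int.natAbs_dvd.mpr dvd_rfl) h7

end Pool.Agent.Arb
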