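import Pool.Agent.Arb.Congr

/-!
# Class `b ≡ 2 (4)`, `s a ≡ 1 (4)` (module ClsB1)
-/

namespace Pool.Agent.Arb

namespace ClsB1

variable {a b e : ℤ}

lemma pow_split (r : ℕ) : b ^ (2 ^ (r + 1) - 1) = b * (b ^ (2 ^ r - 1)) ^ 2 := by
  rw [← pow_mul, ← pow_succ']
  congr 1
  have h1 : 1 ≤ 2 ^ r := Nat.one_le_two_pow
  have : 2 ^ (r + 1) = 2 ^ r * 2 := by ring
  omega

lemma N_mod_prev (r : ℕ) : N a b (r + 2) ≡ b * (b ^ (2 ^ r - 1)) ^ 2 [ZMOD D a b (r + 1)] := by
  rw [N_succ, ← pow_split]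
  have h1 : D a b (r + 2) = a * D a b (r + 1) ^ 2 + b ^ (2 ^ (r + 1) - 1) := rfl
  rw [h1]
  exact Int.modEq_iff_dvd.mpr ⟨-(a * D a b (r + 1)) - b ^ 2 ^ r, by ring⟩

/-- `N_{s+2}` modulo `D_s` -/
lemma N_mod_pprev (s : ℕ) : N a b (s + 2) ≡ (a + 2 * b) * (b ^ (2 ^ s - 1)) ^ 2
    [ZMOD D a b s] := by
  rw [N_succ]
  have h2 : D a b (s + 2) = a * D a b (s + 1) ^ 2 + b * (b ^ (2 ^ s - 1)) ^ 2 := by
    rw [← pow_split]; rfl
  have h1 : D a b (s + 1) ≡ b ^ (2 ^ s - 1) [ZMOD D a b s] := by
    rw [D_succ]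
    exact Int.modEq_iff_dvd.mpr ⟨-(a * D a b s), by ring⟩
  rw [h2]
  have h3 := (((h1.pow 2).mul_left a).add_right (b * (b ^ (2 ^ s - 1)) ^ 2)).add
    (h1.mul_left (b ^ 2 ^ s))
  refine h3.trans ?_
  have h4 : b ^ 2 ^ s = b ^ (2 ^ s - 1) * b := by
    rw [← pow_succ]
    congr 1
    have h1 : 1 ≤ 2 ^ s := Nat.one_le_two_pow
    omega
  rw [h4]
  exact Int.modEq_iff_dvd.mpr ⟨0, by ring⟩

/-- `D_s` modulo `a + 2b` -/
lemma D_mod_N2 (i : ℕ) : D a b (i + 2) ≡ (-b) * (b ^ (2 ^ i - 1)) ^ 2 [ZMOD a + 2 * b] := by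
  have h1 := tail (a := a) (b := b) 0 i
  simp only [zero_add, N_two, D_two, pow_one] at h1
  rw [show 2 + i = i + 2 by ring] at h1
  refine h1.trans ?_
  rw [pow_mul']
  exact Int.modEq_iff_dvd.mpr ⟨-(b ^ (2 ^ i - 1)) ^ 2, by ring⟩

lemma je (h : Adm a b e) {x : ℕ} (hx : x % 4 = 1) : jacobiSym e x = 1 := by
  rcases h.hs with ⟨rfl, _⟩ | ⟨rfl, _⟩
  · simp
  · exact jac_neg_one_of_one hx

/-- `(b / x)` for `x ≡ 1 (4)` -/
lemma jb (h : Adm a b e) (hb : b % 4 = 2) {x : ℕ} (hx : x % 4 = 1) :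
    jacobiSym b x = (if x % 8 = 1 then 1 else -1) * jacobiSym (x : ℤ) (b / 2).natAbs := by
  have hb0 := h.hb
  have hbb : b = 2 * (((b / 2).natAbs : ℕ) : ℤ) := by omega
  have hodd : Odd (b / 2).natAbs := by
    rw [Nat.odd_iff]
    omega
  conv_lhs => rw [hbb]
  rw [jacobiSym.mul_left, jacobiSym.quadratic_reciprocity_one_mod_four' hodd hx,
    jacobiSym.at_two (by rw [Nat.odd_iff]; omega), ZMod.χ₈_nat_eq_if_mod_eight]
  congr 1
  have h1 : x % 8 = 1 ∨ x % 8 = 5 := by omega
  rcases h1 with h1 | h1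
  · simp [h1]; omega
  · simp [h1]; omega

lemma key (h : Adm a b e) (hb : b % 4 = 2) (hea : (e * a) % 4 = 1) (j : ℕ) (hj : 2 ≤ j) :
    jacobiSym b (a + 2 * b).natAbs * jacobiSym b (D a b (j + 1)).natAbs = -1 := by
  have ha : a % 2 = 1 := by rcases h.hs with ⟨rfl, _⟩ | ⟨rfl, _⟩ <;> omega
  have hb0 := h.hb
  have hN : ((a + 2 * b).natAbs : ℤ) = e * (a + 2 * b) := by
    have := h.natAbs_N 0
    simpa using this
  have hD : ((D a b (j + 1)).natAbs : ℤ) = e * D a b (j + 1) := h.natAbs_D (by omega)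
  have hD8 := D_be ha (by omega : b % 2 = 0) hj
  have heD8 : e * D a b (j + 1) ≡ e * a [ZMOD 8] := hD8.mul_left e
  rw [Int.ModEq] at heD8
  have hN8 : (e * (a + 2 * b)) % 8 = (e * a + 4) % 8 := by
    rcases h.hs with ⟨rfl, _⟩ | ⟨rfl, _⟩ <;> omega
  rw [jb h hb (by omega), jb h hb (by omega), hN, hD]
  have hb2 : (((b / 2).natAbs : ℕ) : ℤ) = b / 2 := by omega
  have hbd : b / 2 ∣ b := ⟨2, by omega⟩
  have h1 : jacobiSym (e * (a + 2 * b)) (b / 2).natAbs = jacobiSym (e * a) (b / 2).natAbs := by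
    apply jac_congr
    rw [hb2]
    refine Int.ModEq.of_dvd hbd ?_
    exact Int.modEq_iff_dvd.mpr ⟨-(2 * e), by ring⟩
  have h2 : jacobiSym (e * D a b (j + 1)) (b / 2).natAbs = jacobiSym (e * a) (b / 2).natAbs := by
    have : e * D a b (j + 1) ≡ (e * a) * (D a b j) ^ 2 [ZMOD (b / 2).natAbs] := by
      rw [hb2]
      refine Int.ModEq.of_dvd hbd ?_
      rw [D_succ]
      have h1 : 1 ≤ 2 ^ j - 1 := by
        have : 2 ^ 1 ≤ 2 ^ j := Nat.pow_le_pow_right (by norm_num) (by omega)
        omega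
      obtain ⟨k, hk⟩ := Nat.exists_eq_add_of_le h1
      rw [hk, pow_add b, pow_one]
      exact Int.modEq_iff_dvd.mpr ⟨-(e * b ^ k), by ring⟩
    rw [jac_congr this, jacobiSym.mul_left, jac_sq_pow _ 2 even_two, mul_one]
    rw [hb2]
    exact (cop_b h.cop (by omega)).of_isCoprime_of_dvd_right hbd
  have h3 : jacobiSym (e * a) (b / 2).natAbs * jacobiSym (e * a) (b / 2).natAbs = 1 := by
    apply jac_sq
    rw [hb2]
    exact (IsCoprime.mul_left (h.cop_e b) h.cop).of_isCoprime_of_dvd_right hbd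
  rw [h1, h2]
  have h4 : (((a + 2 * b).natAbs % 8 = 1) ∧ ¬ ((D a b (j + 1)).natAbs % 8 = 1)) ∨
    ((¬ ((a + 2 * b).natAbs % 8 = 1)) ∧ (D a b (j + 1)).natAbs % 8 = 1) := by
    omega
  rcases h4 with ⟨h4, h5⟩ | ⟨h4, h5⟩
  · rw [if_pos h4, if_neg h5]
    linarith
  · rw [if_neg h4, if_pos h5]
    linarith

lemma not_sq_three (s R s' : ℕ) (hs' : s' ∈ R.divisors) (hss : ∀ u ∈ R.divisors, s * u = 2 ↔ u = s')
    (h2 : (D a b 2).natAbs % 4 = 3)
    (h1 : ∀ u ∈ R.divisors, s * u ≠ 2 → (D a b (s * u)).natAbs % 4 = 1) :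
    ¬ IsSquare (Z a b s R) := by
  have hZ : ((Z a b s R : ℕ) : ZMod 4) = 3 := by
    rw [Z]
    push_cast
    rw [Finset.prod_congr rfl (g := fun u => if u = s' then (3 : ZMod 4) else 1)]
    · rw [Finset.prod_ite_eq' R.divisors s' (fun _ => (3 : ZMod 4)), if_pos hs']
    · intro u hu
      by_cases hu' : u = s'
      · rw [if_pos hu', (hss u hu).mpr hu']
        rw [← ZMod.natCast_mod, h2]
        rfl
      · rw [if_neg hu']
        have := h1 u hu (fun h => hu' ((hss u hu).mp h))
        rw [← ZMod.natCast_mod, this]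
        rfl
  rintro ⟨y, hy⟩
  rw [hy] at hZ
  push_cast at hZ
  generalize (y : ZMod 4) = w at hZ
  revert w
  decide

end ClsB1

open ClsB1 in
theorem clsB1_proof : Stmt_ClsB1 := by
  intro a b e h hb hea s R hsq hR hdiv hs hsR
  have ha : a % 2 = 1 := by rcases h.hs with ⟨rfl, _⟩ | ⟨rfl, _⟩ <;> omega
  have hb2 : b % 2 = 0 := by omega
  have hb0 := h.hb
  have hR0 : R ≠ 0 := by omega
  -- residues
  have hD4 : ∀ j, 3 ≤ j → (D a b j).natAbs % 4 = 1 := by
    intro j hj
    obtain ⟨j, rfl⟩ : ∃ k, j = k + 1 := ⟨j - 1, by omega⟩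
    have h1 := h.natAbs_D (m := j + 1) (by omega)
    have h2 := (D_be ha hb2 (m := j) (by omega)).mul_left e
    rw [Int.ModEq] at h2
    omega
  have hD2 : (D a b 2).natAbs % 4 = 3 := by
    have h1 := h.natAbs_D (m := 2) (by omega)
    rw [D_two] at h1 ⊢
    rcases h.hs with ⟨rfl, _⟩ | ⟨rfl, _⟩ <;> omega
  have hN4 : ∀ r, 1 ≤ r → (N a b (r + 2)).natAbs % 4 = 1 := by
    intro r hr
    have h1 := h.natAbs_N r
    have h2 := (N_be ha hb2 hr).mul_left e
    rw [Int.ModEq] at h2
    omega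
  have hN2 : (a + 2 * b).natAbs % 4 = 1 := by
    have h1 := h.natAbs_N 0
    rw [zero_add, N_two] at h1
    rcases h.hs with ⟨rfl, _⟩ | ⟨rfl, _⟩ <;> omega
  have hdN : ∀ r, (((N a b (r + 2)).natAbs : ℕ) : ℤ) ∣ N a b (r + 2) := fun r =>
    Int.natAbs_dvd.mpr (dvd_refl _)
  have hdD : ∀ j, (((D a b j).natAbs : ℕ) : ℤ) ∣ D a b j := fun j =>
    Int.natAbs_dvd.mpr (dvd_refl _)
  -- the symbol of `|D_{r+1}|` modulo `|N_{r+2}|`
  have hprev : ∀ r, 2 ≤ r → jacobiSym ((D a b (r + 1)).natAbs : ℤ) (N a b (r + 2)).natAbs =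
      jacobiSym b (D a b (r + 1)).natAbs := by
    intro r hr
    rw [jacobiSym.quadratic_reciprocity_one_mod_four (hD4 _ (by omega))
      (by rw [Nat.odd_iff]; have := hN4 r (by omega); omega), h.natAbs_N, jacobiSym.mul_left,
      je h (hD4 _ (by omega)), one_mul, jac_congr ((N_mod_prev r).of_dvd (hdD _)),
      jacobiSym.mul_left, jac_sq_pow _ 2 even_two, mul_one]
    exact (IsCoprime.pow_left (cop_b h.cop (by omega)).symm).of_isCoprime_of_dvd_right (hdD _)
  rcases Nat.lt_or_ge 2 s with hs2 | hs2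
  · -- `s ≥ 3`
    have h1 := h.jac_succ2 hsq hR (by omega : 2 ≤ s) (hdN s)
    rw [jac_neg_one_of_one (hN4 s (by omega)), one_mul, hprev s (by omega)] at h1
    have h2 : jacobiSym ((D a b s).natAbs : ℤ) (N a b (s + 2)).natAbs =
        jacobiSym b (a + 2 * b).natAbs := by
      have hNn : (((a + 2 * b).natAbs : ℕ) : ℤ) = e * (a + 2 * b) := by
        have := h.natAbs_N 0
        simpa using this
      rw [jacobiSym.quadratic_reciprocity_one_mod_four (hD4 _ (by omega))
        (by rw [Nat.odd_iff]; have := hN4 s (by omega); omega), h.natAbs_N, jacobiSym.mul_left,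
        jac_congr ((N_mod_pprev s).of_dvd (hdD _)), jacobiSym.mul_left, jac_sq_pow _ 2 even_two,
        mul_one, ← jacobiSym.mul_left, ← hNn,
        jacobiSym.quadratic_reciprocity_one_mod_four hN2
          (by rw [Nat.odd_iff]; have := hD4 s (by omega); omega), h.natAbs_D (by omega),
        jacobiSym.mul_left, je h hN2, one_mul]
      · obtain ⟨i, rfl⟩ : ∃ i, s = i + 2 := ⟨s - 2, by omega⟩
        have h3 := (D_mod_N2 (a := a) (b := b) i).of_dvd
          (Int.natAbs_dvd.mpr (dvd_refl (a + 2 * b)))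
        rw [jac_congr h3, jacobiSym.mul_left, jac_sq_pow _ 2 even_two, mul_one, ← neg_one_mul b,
          jacobiSym.mul_left, jac_neg_one_of_one hN2, one_mul]
        have h4 := (cop_N_b h.cop 0)
        rw [zero_add, N_two] at h4
        exact (IsCoprime.pow_left h4.symm).of_isCoprime_of_dvd_right
          (Int.natAbs_dvd.mpr (dvd_refl _))
      · exact (IsCoprime.pow_left (cop_b h.cop (by omega)).symm).of_isCoprime_of_dvd_right (hdD _)
    rw [h2, key h hb hea s (by omega)] at h1
    exact not_sq_of_jac h1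
  · -- `s = 1` or `s = 2`
    have hs12 : s = 1 ∨ s = 2 := by omega
    rcases hs12 with rfl | rfl
    · rcases Nat.even_or_odd R with hev | hodd
      · -- `R` even
        refine not_sq_three 1 R 2 (Nat.mem_divisors.mpr ⟨hev.two_dvd, hR0⟩) (fun u _ => by omega)
          hD2 ?_
        intro u hu hu2
        rw [one_mul] at hu2 ⊢
        rcases Nat.lt_or_ge u 3 with h3 | h3
        · have h4 : 0 < u := Nat.pos_of_mem_divisors hu
          obtain rfl : u = 1 := by omega
          simp
        · exact hD4 u h3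
      · -- `R` odd
        have h1 := h.jac_two hsq hR (M := (a + 2 * b).natAbs) (Int.natAbs_dvd.mpr (dvd_refl _))
        have h2 : jacobiSym (-(e * b)) (a + 2 * b).natAbs = jacobiSym b (a + 2 * b).natAbs := by
          rw [show -(e * b) = (-1) * (e * b) by ring, jacobiSym.mul_left, jacobiSym.mul_left,
            jac_neg_one_of_one hN2, je h hN2, one_mul, one_mul]
        rw [h2] at h1
        have h3 : jacobiSym (Z a b 1 R : ℤ) (N a b (2 + 2)).natAbs =
            jacobiSym b (D a b 3).natAbs := by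
          rw [← hprev 2 le_rfl]
          by_cases h3R : 3 ∣ R
          · have hf : R.divisors.filter (fun u => 1 * u < 2 + 2) = {1, 3} := by
              ext u
              simp only [one_mul, Finset.mem_filter, Nat.mem_divisors, Finset.mem_insert,
                Finset.mem_singleton]
              constructor
              · rintro ⟨⟨h4, h5⟩, h6⟩
                have h7 : u ≠ 0 := by rintro rfl; simp at h4; omega
                have h8 : u ≠ 2 := by
                  rintro rfl
                  rw [Nat.odd_iff] at hodd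
                  omega
                omega
              · rintro (rfl | rfl)
                · exact ⟨⟨one_dvd _, hR0⟩, by omega⟩
                · exact ⟨⟨h3R, hR0⟩, by omega⟩
            rw [h.jac_split 2 (hdN 2) hsq hR _ hf]
            rw [Finset.card_pair (by norm_num), if_pos even_two, Finset.prod_pair (by norm_num)]
            simp
          · have hf : R.divisors.filter (fun u => 1 * u < 2 + 2) = {1} := by
              ext u
              simp only [one_mul, Finset.mem_filter, Nat.mem_divisors, Finset.mem_singleton]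
              constructor
              · rintro ⟨⟨h4, h5⟩, h6⟩
                have h7 : u ≠ 0 := by rintro rfl; simp at h4; omega
                have h8 : u ≠ 2 := by
                  rintro rfl
                  rw [Nat.odd_iff] at hodd
                  omega
                have h9 : u ≠ 3 := by
                  rintro rfl
                  exact h3R h4
                omega
              · rintro rfl
                exact ⟨⟨one_dvd _, hR0⟩, by omega⟩
            rw [h.jac_split 2 (hdN 2) hsq hR _ hf]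
            simp only [Finset.prod_singleton, mul_one, Finset.card_singleton, Nat.not_even_one,
              if_false]
            rw [h.abs_first 2 (by omega) (hdN 2), jac_neg_one_of_one (hN4 2 (by omega))]
            simp
        have h4 := key h hb hea 2 le_rfl
        rw [show 2 + 1 = 3 from rfl] at h4
        have h5 : jacobiSym b (a + 2 * b).natAbs = -1 ∨ jacobiSym b (D a b 3).natAbs = -1 := by
          rcases jacobiSym.trichotomy b (a + 2 * b).natAbs with h6 | h6 | h6
          · rw [h6] at h4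
            simp at h4
          · rw [h6, one_mul] at h4
            exact Or.inr h4
          · exact Or.inl h6
        rcases h5 with h5 | h5
        · exact not_sq_of_jac (h1.trans h5)
        · exact not_sq_of_jac (h3.trans h5)
    · -- `s = 2`
      refine not_sq_three 2 R 1 (Nat.mem_divisors.mpr ⟨one_dvd _, hR0⟩) (fun u _ => by omega)
        hD2 ?_
      intro u hu hu2
      have h4 : 0 < u := Nat.pos_of_mem_divisors hu
      exact hD4 _ (by omega)

end Pool.Agent.Arb
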