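import Pool.Agent.Arb.Core

/-!
# Class B2: `b ≡ 2 (mod 4)`, `e a ≡ 3 (mod 4)`
-/

namespace Pool.Agent.Arb

namespace Core

variable {a b e : ℤ}

/-- `D_j` modulo `D_2 = a + b` -/
lemma D_mod_D2 (k : ℕ) : (D a b (2 * k) ≡ 0 [ZMOD (a + b)]) ∧
    (D a b (2 * k + 1) ≡ b ^ (2 ^ (2 * k) - 1) [ZMOD (a + b)]) := by
  have step : ∀ m, D a b m ≡ 0 [ZMOD (a + b)] → D a b (m + 1) ≡ b ^ (2 ^ m - 1) [ZMOD (a + b)] := by
    intro m hm
    rw [D_succ]
    have := ((hm.pow 2).mul_left a).add_right (b ^ (2 ^ m - 1))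
    simpa using this
  have step2 : ∀ m, D a b (m + 1) ≡ b ^ (2 ^ m - 1) [ZMOD (a + b)] → D a b (m + 2) ≡ 0 [ZMOD (a + b)] := by
    intro m hm
    rw [D_succ (m + 1)]
    have h1 := ((hm.pow 2).mul_left a).add_right (b ^ (2 ^ (m + 1) - 1))
    refine h1.trans ?_
    have h2 : 2 ^ (m + 1) - 1 = (2 ^ m - 1) * 2 + 1 := by
      have : 1 ≤ 2 ^ m := Nat.one_le_two_pow
      rw [pow_succ]; omega
    rw [← pow_mul, h2, pow_succ, Int.modEq_zero_iff_dvd]
    exact ⟨b ^ ((2 ^ m - 1) * 2), by ring⟩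
  induction k with
  | zero =>
    refine ⟨by simp, by simp⟩
  | succ k ih =>
    have e1 := step2 (2 * k) ih.2
    exact ⟨e1, step (2 * k + 2) e1⟩

/-- `N_t ≡ b ^ (2 ^ (t - 1) - 1)` modulo `D_2` -/
lemma N_mod_D2 (r : ℕ) : N a b (r + 2) ≡ b ^ (2 ^ (r + 1) - 1) [ZMOD (a + b)] := by
  rw [N_succ]
  rcases Nat.even_or_odd' r with ⟨k, rfl | rfl⟩
  · have h1 := (D_mod_D2 (a := a) (b := b) (k + 1)).1
    have h2 := (D_mod_D2 (a := a) (b := b) k).2
    have h3 := h1.add (h2.mul_left (b ^ (2 ^ (2 * k))))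
    refine (h3.trans ?_)
    rw [zero_add, ← pow_add]
    have : 2 ^ (2 * k) + (2 ^ (2 * k) - 1) = 2 ^ (2 * k + 1) - 1 := by
      have : 1 ≤ 2 ^ (2 * k) := Nat.one_le_two_pow
      rw [pow_succ]; omega
    rw [this]
  · have h1 := (D_mod_D2 (a := a) (b := b) (k + 1)).2
    have h2 := (D_mod_D2 (a := a) (b := b) (k + 1)).1
    have h3 := h1.add (h2.mul_left (b ^ (2 ^ (2 * k + 1))))
    refine (h3.trans ?_)
    rw [mul_zero, add_zero, show 2 * (k + 1) = 2 * k + 1 + 1 by ring]

/-- `b` even, `a` odd: `D_m` is odd for `m ≥ 1` -/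
lemma D_odd_of_even (hb : b % 2 = 0) (ha : a % 2 = 1) {m : ℕ} (hm : 1 ≤ m) : D a b m % 2 = 1 := by
  induction m, hm using Nat.le_induction with
  | base => simp
  | succ m hm ih =>
    rw [D_succ]
    have h1 : b ^ (2 ^ m - 1) % 2 = 0 := by
      have h2 : 2 ^ m - 1 ≠ 0 := by
        have : 2 ^ 1 ≤ 2 ^ m := Nat.pow_le_pow_right (by norm_num) hm
        omega
      have : (2 : ℤ) ∣ b ^ (2 ^ m - 1) := dvd_pow (Int.dvd_of_emod_eq_zero hb) h2
      omega
    have h3 : (a * D a b m ^ 2) % 2 = 1 := by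
      rw [Int.mul_emod, ha, pow_two, Int.mul_emod (D a b m), ih]; norm_num
    omega

lemma D_mod8_of_even (hb : b % 2 = 0) (ha : a % 2 = 1) {m : ℕ} (hm : 3 ≤ m) : D a b m % 8 = a % 8 := by
  obtain ⟨m, rfl⟩ : ∃ k, m = k + 1 := ⟨m - 1, by omega⟩
  rw [D_succ]
  have hbd : (8 : ℤ) ∣ b ^ (2 ^ m - 1) := by
    have h2 : 3 ≤ 2 ^ m - 1 := by
      have : 2 ^ 2 ≤ 2 ^ m := Nat.pow_le_pow_right (by norm_num) (by omega)
      omega
    have h3 : (2 : ℤ) ^ 3 ∣ b ^ 3 := pow_dvd_pow_of_dvd (Int.dvd_of_emod_eq_zero hb) 3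
    exact (by simpa using h3 : (8 : ℤ) ∣ b ^ 3).trans (pow_dvd_pow b h2)
  have hodd := D_odd_of_even hb ha (m := m) (by omega)
  obtain ⟨k, hk⟩ : ∃ k, D a b m = 2 * k + 1 := ⟨D a b m / 2, by omega⟩
  have hsq : (D a b m ^ 2) % 8 = 1 := by
    rw [hk]
    have h4 : k % 4 = 0 ∨ k % 4 = 1 ∨ k % 4 = 2 ∨ k % 4 = 3 := by omega
    have h5 : ∃ l, k * (k + 1) = 2 * l := by
      obtain ⟨l, hl⟩ := Int.even_mul_succ_self k
      exact ⟨l, by linarith⟩
    obtain ⟨l, hl⟩ := h5
    have : (2 * k + 1) ^ 2 = 8 * l + 1 := by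
      have : (2 * k + 1) ^ 2 = 4 * (k * (k + 1)) + 1 := by ring
      rw [this, hl]; ring
    omega
  obtain ⟨x, hx⟩ : ∃ x, D a b m ^ 2 = 8 * x + 1 := ⟨D a b m ^ 2 / 8, by omega⟩
  obtain ⟨y, hy⟩ := hbd
  rw [hx, hy]
  have : a * (8 * x + 1) + 8 * y = a + 8 * (a * x + y) := by ring
  rw [this]
  omega

/-- the two symbols at `t = 3` and `t = q + 1`: if `|N_3|`, `|N_{q+1}|` give the same symbol of `D_2`
and `|N_{q+1}| ≡ 3 (mod 4)`, then `Z(1, R)` is not a square, for `R` even with least odd prime factor `q`. -/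
theorem even_one (h : Adm a b e) {R : ℕ} (hR : Squarefree R) (heven : Even R) (h3 : 3 ≤ R)
    (hM : ∀ r, 1 ≤ r → Even r → (e * N a b (r + 2)) % 4 = 3)
    (hβ : ∀ r, 1 ≤ r → Even r → f a b (N a b (r + 2)).natAbs 2 = f a b (N a b 3).natAbs 2) :
    ¬ IsSquare (Z a b 1 R) := by
  obtain ⟨R', hR'⟩ := heven.two_dvd
  have hcop : Nat.Coprime 2 R' := Nat.coprime_of_squarefree_mul (hR' ▸ hR)
  have hR'odd : Odd R' := Nat.coprime_two_left.1 hcop
  have hR'1 : R' ≠ 1 := by rintro rfl; omega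
  have hR'0 : R' ≠ 0 := by rintro rfl; simp at hR'; omega
  have hR0 : R ≠ 0 := by omega
  set q := R'.minFac with hq
  have hqp : q.Prime := Nat.minFac_prime hR'1
  have hqd : q ∣ R' := R'.minFac_dvd
  have hqodd : Odd q := Odd.of_dvd_nat hR'odd hqd
  have hq3 : 3 ≤ q := by
    have := hqp.two_le
    obtain ⟨k, hk⟩ := hqodd
    omega
  have hqR : q ∣ R := hR' ▸ Dvd.dvd.mul_left hqd 2
  -- divisors below `q + 1`
  have hsmall : ∀ u, u ∣ R → u < q + 1 → u = 1 ∨ u = 2 ∨ u = q := by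
    intro u hu hlt
    rcases Nat.even_or_odd u with he | ho
    · -- `u = 2 v`, `v` divides `R'`, `v < q`
      obtain ⟨v, hv⟩ := he.two_dvd
      have hvR : v ∣ R' := by
        have : 2 * v ∣ 2 * R' := by rw [← hv, ← hR']; exact hu
        exact Nat.dvd_of_mul_dvd_mul_left (by norm_num) this
      have hv0 : v ≠ 0 := by rintro rfl; simp at hvR; exact hR'0 hvR
      by_cases hv1 : v = 1
      · right; left; omega
      · exfalso
        have := Nat.minFac_le_of_dvd (by omega) hvR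
        omega
    · have hvR : u ∣ R' := by
        have hc : Nat.Coprime u 2 := Nat.coprime_two_right.2 ho
        exact hc.dvd_of_dvd_mul_left (by rw [← hR']; exact hu)
      by_cases hv1 : u = 1
      · exact Or.inl hv1
      · right; right
        have hu0 : u ≠ 0 := by rintro rfl; simp at ho
        have := Nat.minFac_le_of_dvd (by omega) hvR
        omega
  have hcardE := even_card_divisors hR (by omega : 1 < R)
  have hmem : ∀ u, u ∣ R → u ∈ R.divisors := fun u hu => Nat.mem_divisors.2 ⟨hu, hR0⟩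
  -- `t = 3`
  have hM3d : (((N a b 3).natAbs : ℕ) : ℤ) ∣ N a b (1 + 2) := Int.natAbs_dvd.2 dvd_rfl
  have e3 : jacobiSym (Z a b 1 R : ℤ) (N a b 3).natAbs = f a b (N a b 3).natAbs 2 := by
    set M := (N a b 3).natAbs with hMdef
    rw [jac_Z_f, prod_tail (f a b M) 3 (fun j hj => f_tail h 1 hM3d hj)]
    have hfil : R.divisors.filter (fun u => 1 * u < 3) = {1, 2} := by
      ext u
      simp only [Finset.mem_filter, Nat.mem_divisors, Finset.mem_singleton, Finset.mem_insert, one_mul]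
      constructor
      · rintro ⟨⟨hu, _⟩, hlt⟩
        have hu0 : u ≠ 0 := by rintro rfl; simp at hu; omega
        omega
      · rintro (rfl | rfl)
        · exact ⟨⟨one_dvd _, hR0⟩, by omega⟩
        · exact ⟨⟨heven.two_dvd, hR0⟩, by omega⟩
    have hcard : (R.divisors.filter (fun u => ¬ 1 * u < 3)).card + 2 = R.divisors.card := by
      have := Finset.card_filter_add_card_filter_not (s := R.divisors) (fun u => 1 * u < 3)
      rw [hfil, Finset.card_pair (by norm_num)] at this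
      omega
    rw [hfil, Finset.prod_pair (by norm_num)]
    set k := (R.divisors.filter (fun u => ¬ 1 * u < 3)).card with hk
    have hke : Even k := by
      rw [← hcard] at hcardE
      obtain ⟨l, hl⟩ := hcardE
      exact ⟨l - 1, by omega⟩
    obtain ⟨l, hl⟩ := hke
    have hsq : f a b M 3 * f a b M 3 = 1 :=
      f_sq ((cop_N_self h.cop 1).symm.of_isCoprime_of_dvd_right hM3d)
    rw [hl, ← two_mul, pow_mul, pow_two, hsq, one_pow]
    simp only [mul_one, one_mul, f_one]
  -- `t = q + 1`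
  obtain ⟨r, hr⟩ : ∃ r, q = r + 1 := ⟨q - 1, by omega⟩
  have hreven : Even r := by
    obtain ⟨k, hk⟩ := hqodd
    exact ⟨k, by omega⟩
  have hMqd : (((N a b (r + 2)).natAbs : ℕ) : ℤ) ∣ N a b (r + 2) := Int.natAbs_dvd.2 dvd_rfl
  have hMe : (((N a b (r + 2)).natAbs : ℕ) : ℤ) = e * N a b (r + 2) := h.natAbs_N r
  have hM4 : (N a b (r + 2)).natAbs % 4 = 3 := by
    have : (((N a b (r + 2)).natAbs : ℕ) : ℤ) % 4 = 3 := by rw [hMe]; exact hM r (by omega) hreven
    omega
  have eq1 : jacobiSym (Z a b 1 R : ℤ) (N a b (r + 2)).natAbs = - f a b (N a b (r + 2)).natAbs 2 := by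
    set M := (N a b (r + 2)).natAbs with hMdef
    rw [jac_Z_f, prod_tail (f a b M) (r + 2) (fun j hj => f_tail h r hMqd hj)]
    have hfil : R.divisors.filter (fun u => 1 * u < r + 2) = {1, 2, q} := by
      ext u
      simp only [Finset.mem_filter, Nat.mem_divisors, Finset.mem_singleton, Finset.mem_insert, one_mul]
      constructor
      · rintro ⟨⟨hu, _⟩, hlt⟩
        exact hsmall u hu (by omega)
      · rintro (rfl | rfl | rfl)
        · exact ⟨⟨one_dvd _, hR0⟩, by omega⟩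
        · exact ⟨⟨heven.two_dvd, hR0⟩, by omega⟩
        · exact ⟨⟨hqR, hR0⟩, by omega⟩
    have hc3 : ({1, 2, q} : Finset ℕ).card = 3 := by
      rw [Finset.card_eq_three]
      exact ⟨1, 2, q, by norm_num, by omega, by omega, rfl⟩
    have hcard : (R.divisors.filter (fun u => ¬ 1 * u < r + 2)).card + 3 = R.divisors.card := by
      have := Finset.card_filter_add_card_filter_not (s := R.divisors) (fun u => 1 * u < r + 2)
      rw [hfil, hc3] at this
      omega
    rw [hfil, Finset.prod_insert (by simp; omega), Finset.prod_pair (by omega)]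
    set k := (R.divisors.filter (fun u => ¬ 1 * u < r + 2)).card with hk
    have hko : ∃ l, k = 2 * l + 1 := by
      rw [← hcard] at hcardE
      obtain ⟨l, hl⟩ := hcardE
      exact ⟨l - 2, by omega⟩
    obtain ⟨l, hl⟩ := hko
    rw [hl, f_first h r (by omega) hMqd, jac_neg_one hM4]
    have hsq : f a b M (r + 1) * f a b M (r + 1) = 1 :=
      f_sq ((cop_N_prev h.cop r).symm.of_isCoprime_of_dvd_right hMqd)
    simp only [mul_one, one_mul, f_one, hr]
    set x := f a b M (r + 1)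
    set y := f a b M 2
    have : y * x * (-1 * x) ^ (2 * l + 1) = -(y * ((x * x) * (x * x) ^ l)) := by
      rw [mul_pow, pow_succ (-1 : ℤ), pow_mul (-1 : ℤ)]
      simp only [even_two, Even.neg_pow, one_pow, one_mul]
      ring
    rw [this, hsq]
    simp
  have hβ' := hβ r (by omega) hreven
  -- one of the two symbols is `-1`
  have hval : f a b (N a b 3).natAbs 2 = 1 ∨ f a b (N a b 3).natAbs 2 = -1 := by
    have hc : IsCoprime (D a b 2) (((N a b 3).natAbs : ℕ) : ℤ) :=
      (cop_N_prev h.cop 1).symm.of_isCoprime_of_dvd_right hM3d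
    have := f_sq (a := a) (b := b) hc
    exact mul_self_eq_one_iff.1 this
  rcases hval with hv | hv
  · refine not_sq_of_jac (M := (N a b (r + 2)).natAbs) ?_
    rw [eq1, hβ', hv]
  · refine not_sq_of_jac (M := (N a b 3).natAbs) ?_
    rw [e3, hv]

end Core

open Pool.Agent.Arb.Core in
theorem clsB2_proof : Stmt_ClsB2 := by
  intro a b e h hb ha s R hR h1 _ hs0 hsR
  have hb2 : b % 2 = 0 := by omega
  have ha2 : a % 2 = 1 := by
    rcases h.hs with ⟨rfl, _⟩ | ⟨rfl, _⟩ <;> omega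
  have hea : ∀ x : ℤ, x % 4 = a % 4 → (e * x) % 4 = 3 := by
    intro x hx
    rcases h.hs with ⟨rfl, _⟩ | ⟨rfl, _⟩ <;> omega
  have hN : ∀ r, 1 ≤ r → N a b (r + 2) % 4 = a % 4 := by
    intro r hr
    rw [N_succ]
    have h1 := D_mod8_of_even hb2 ha2 (m := r + 2) (by omega)
    have h2 : (4 : ℤ) ∣ b ^ (2 ^ r) := by
      have h3 : (2 : ℤ) ^ 2 ∣ b ^ 2 := pow_dvd_pow_of_dvd (Int.dvd_of_emod_eq_zero hb2) 2
      have h4 : 2 ≤ 2 ^ r := by
        calc 2 = 2 ^ 1 := by norm_num
          _ ≤ 2 ^ r := Nat.pow_le_pow_right (by norm_num) hr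
      exact (by simpa using h3 : (4 : ℤ) ∣ b ^ 2).trans (pow_dvd_pow b h4)
    obtain ⟨y, hy⟩ := h2
    rw [hy, mul_assoc]
    omega
  rcases Nat.lt_or_ge 1 s with hs | hs
  · refine core h hs hR h1 ?_
    obtain ⟨r, rfl⟩ : ∃ r, s = r + 1 := ⟨s - 1, by omega⟩
    exact hea _ (hN r (by omega))
  · have : s = 1 := by omega
    subst this
    rw [one_mul] at hsR
    rcases Nat.even_or_odd R with he | ho
    · refine even_one h hR he hsR ?_ ?_
      · intro r hr _
        exact hea _ (hN r hr)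
      · intro r hr _
        -- all symbols are `(b / |D_2|)`
        have hD2 : ((D a b 2).natAbs : ℤ) = e * (a + b) := by
          rw [h.natAbs_D (by omega), D_two]
        have hD24 : (D a b 2).natAbs % 4 = 1 := by
          have : ((D a b 2).natAbs : ℤ) % 4 = 1 := by
            rw [hD2]
            rcases h.hs with ⟨rfl, _⟩ | ⟨rfl, _⟩ <;> omega
          omega
        have hD2d : (((D a b 2).natAbs : ℕ) : ℤ) ∣ (a + b) := by
          rw [← D_two (a := a) (b := b)]; exact Int.natAbs_dvd.2 dvd_rfl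
        have hbc : IsCoprime b (((D a b 2).natAbs : ℕ) : ℤ) := by
          refine IsCoprime.of_isCoprime_of_dvd_right (cop_b h.cop (m := 2) (by omega)).symm ?_
          exact Int.natAbs_dvd.2 dvd_rfl
        have key : ∀ r, 1 ≤ r → f a b (N a b (r + 2)).natAbs 2 = jacobiSym b (D a b 2).natAbs := by
          intro r hr
          have hNodd : Odd (N a b (r + 2)).natAbs := by
            have := hN r hr
            rw [Nat.odd_iff]
            omega
          rw [f, jacobiSym.quadratic_reciprocity_one_mod_four hD24 hNodd, h.natAbs_N r,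
            jacobiSym.mul_left]
          have he1 : jacobiSym e (D a b 2).natAbs = 1 := by
            rcases h.hs with ⟨rfl, _⟩ | ⟨rfl, _⟩
            · simp
            · rw [jacobiSym.at_neg_one (by rw [Nat.odd_iff]; omega)]
              exact ZMod.χ₄_nat_one_mod_four hD24
          rw [he1, one_mul, jac_congr ((N_mod_D2 r).of_dvd hD2d)]
          have hexp : 2 ^ (r + 1) - 1 = 2 * (2 ^ r - 1) + 1 := by
            have : 1 ≤ 2 ^ r := Nat.one_le_two_pow
            rw [pow_succ]; omega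
          rw [hexp, pow_succ, jacobiSym.mul_left, jac_sq_pow hbc _ (even_two_mul _), one_mul]
        rw [key r hr, key 1 (le_refl 1)]
    · refine odd_one hR h1 ho ?_
      intro u hu _
      have h2 := D_mod8_of_even hb2 ha2 hu
      have h3 : ((D a b u).natAbs : ℤ) % 4 = 3 := by
        rw [h.natAbs_D (by omega)]
        exact hea _ (by omega)
      omega

end Pool.Agent.Arb
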