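import Pool.Agent.Arb.Basic

/-!
# Class `s a ≡ 1`, `s b ≡ 1 (mod 4)` (module ClsC1)
-/

namespace Pool.Agent.Arb

namespace ClsC1

variable {a b e : ℤ}

/-- the symbol of `Z` modulo a divisor of `N_{r+2}` -/
lemma jac_Z_tail (h : Adm a b e) (r : ℕ) {M : ℕ} (hM : (M : ℤ) ∣ N a b (r + 2)) (s R : ℕ) :
    jacobiSym (Z a b s R : ℤ) M =
      (∏ u ∈ R.divisors with s * u < r + 2, jacobiSym ((D a b (s * u)).natAbs : ℤ) M) *
      jacobiSym ((D a b (r + 2)).natAbs : ℤ) M ^
        (R.divisors.filter (fun u => ¬ s * u < r + 2)).card := by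
  rw [jac_Z]
  refine prod_tail (fun j => jacobiSym ((D a b j).natAbs : ℤ) M) (r + 2) ?_ s R
  intro j hj
  rw [h.natAbs_D (m := j) (by omega), h.natAbs_D (m := r + 2) (by omega), jacobiSym.mul_left,
    jacobiSym.mul_left, jac_tail h.cop r hM hj]

lemma card_not (R s t : ℕ) : (R.divisors.filter (fun u => ¬ s * u < t)).card +
    (R.divisors.filter (fun u => s * u < t)).card = R.divisors.card := by
  rw [add_comm]
  exact Finset.card_filter_add_card_filter_not (fun u => s * u < t)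

lemma pow_odd {x : ℤ} (hx : x * x = 1) {k : ℕ} (hk : Odd k) : x ^ k = x := by
  obtain ⟨k, rfl⟩ := hk
  rw [pow_add, pow_mul, pow_two, hx]
  simp

lemma pow_even {x : ℤ} (hx : x * x = 1) {k : ℕ} (hk : Even k) : x ^ k = 1 := by
  obtain ⟨k, rfl⟩ := hk
  rw [← two_mul, pow_mul, pow_two, hx]
  simp

lemma filter_one (s R : ℕ) (hR : R ≠ 0) (t : ℕ) (ht : s < t) (ht2 : t ≤ 2 * s) :
    R.divisors.filter (fun u => s * u < t) = {1} := by
  ext u
  simp only [Finset.mem_filter, Nat.mem_divisors, Finset.mem_singleton]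
  constructor
  · rintro ⟨⟨h1, _⟩, h2⟩
    have h3 : 0 < u := Nat.pos_of_dvd_of_pos h1 (Nat.pos_of_ne_zero hR)
    have h4 : u < 2 := by
      by_contra h5
      push Not at h5
      have : s * 2 ≤ s * u := Nat.mul_le_mul_left _ h5
      omega
    omega
  · rintro rfl
    exact ⟨⟨one_dvd _, hR⟩, by omega⟩

/-- odd `R`, `q` the least prime -/
lemma filter_q (R q : ℕ) (hq : q.Prime) (hqR : q ∣ R) (hR : R ≠ 0)
    (hmin : ∀ u, u ∣ R → 1 < u → q ≤ u) : 
    R.divisors.filter (fun u => 1 * u < q + 1) = {1, q} := by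
  ext u
  simp only [Finset.mem_filter, Nat.mem_divisors, Finset.mem_singleton, Finset.mem_insert]
  constructor
  · rintro ⟨⟨h1, _⟩, h2⟩
    have h3 : 0 < u := Nat.pos_of_dvd_of_pos h1 (Nat.pos_of_ne_zero hR)
    rcases Nat.lt_or_ge 1 u with h4 | h4
    · have := hmin u h1 h4
      omega
    · omega
  · have := hq.two_le
    rintro (rfl | rfl)
    · exact ⟨⟨one_dvd _, hR⟩, by omega⟩
    · exact ⟨⟨hqR, hR⟩, by omega⟩

/-- even `R`, `q` the least odd prime -/
lemma filter_2q (R q : ℕ) (hq : q.Prime) (hq2 : q ≠ 2) (hqR : q ∣ R) (h2R : 2 ∣ R) (hR : R ≠ 0)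
    (hsq : Squarefree R) (hmin : ∀ p, p.Prime → p ∣ R → p ≠ 2 → q ≤ p) :
    R.divisors.filter (fun u => 1 * u < q + 1) = {1, 2, q} := by
  have hq3 : 3 ≤ q := by
    have := hq.two_le
    omega
  ext u
  simp only [Finset.mem_filter, Nat.mem_divisors, Finset.mem_singleton, Finset.mem_insert]
  constructor
  · rintro ⟨⟨h1, _⟩, h2⟩
    have h3 : 0 < u := Nat.pos_of_dvd_of_pos h1 (Nat.pos_of_ne_zero hR)
    by_contra hne
    push Not at hne
    obtain ⟨n1, n2, nq⟩ := hne
    -- an odd prime divides `u`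
    by_cases hodd : ∃ p, p.Prime ∧ p ∣ u ∧ p ≠ 2
    · obtain ⟨p, hp, hpu, hp2⟩ := hodd
      have h4 := hmin p hp (hpu.trans h1) hp2
      have h5 := Nat.le_of_dvd h3 hpu
      omega
    · push Not at hodd
      have h4 := Nat.eq_prime_pow_of_unique_prime_dvd (n := u) (p := 2) (by omega)
        (fun {d} hd hdu => hodd d hd hdu)
      set k := u.primeFactorsList.length
      have hk : k < 2 := by
        by_contra hk
        push Not at hk
        have h5 : 2 ^ 2 ∣ u := by
          rw [h4]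
          exact Nat.pow_dvd_pow 2 hk
        have h6 : 2 * 2 ∣ R := by
          rw [← pow_two]
          exact h5.trans h1
        have := hsq 2 h6
        simp at this
      interval_cases k <;> simp at h4 <;> omega
  · rintro (rfl | rfl | rfl)
    · exact ⟨⟨one_dvd _, hR⟩, by omega⟩
    · exact ⟨⟨h2R, hR⟩, by omega⟩
    · exact ⟨⟨hqR, hR⟩, by omega⟩

lemma filter_two (R : ℕ) (h2R : 2 ∣ R) (hR : R ≠ 0) :
    R.divisors.filter (fun u => 1 * u < 3) = {1, 2} := by
  ext u
  simp only [Finset.mem_filter, Nat.mem_divisors, Finset.mem_singleton, Finset.mem_insert]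
  constructor
  · rintro ⟨⟨h1, _⟩, h2⟩
    have h3 : 0 < u := Nat.pos_of_dvd_of_pos h1 (Nat.pos_of_ne_zero hR)
    omega
  · rintro (rfl | rfl)
    · exact ⟨⟨one_dvd _, hR⟩, by omega⟩
    · exact ⟨⟨h2R, hR⟩, by omega⟩

/-! ### congruences -/

lemma sq8 {x : ℤ} (hx : x % 2 = 1) : x ^ 2 ≡ 1 [ZMOD 8] := by
  have h : x % 8 = 1 ∨ x % 8 = 3 ∨ x % 8 = 5 ∨ x % 8 = 7 := by omega
  have h2 : x ^ 2 ≡ (x % 8) ^ 2 [ZMOD 8] := (Int.mod_modEq x 8).symm.pow 2
  refine h2.trans ?_
  rcases h with h | h | h | h <;> rw [h] <;> rfl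

lemma pow8e {x : ℤ} (hx : x % 2 = 1) {k : ℕ} (hk : Even k) : x ^ k ≡ 1 [ZMOD 8] := by
  obtain ⟨k, rfl⟩ := hk
  have := (sq8 hx).pow k
  rwa [one_pow, ← pow_mul, two_mul] at this

lemma pow8o {x : ℤ} (hx : x % 2 = 1) {k : ℕ} (hk : Odd k) : x ^ k ≡ x [ZMOD 8] := by
  obtain ⟨k, rfl⟩ := hk
  have := (pow8e hx (even_two_mul k)).mul_right x
  rwa [one_mul, ← pow_succ] at this

lemma odd_sub (m : ℕ) (hm : 1 ≤ m) : Odd (2 ^ m - 1) := by
  obtain ⟨m, rfl⟩ : ∃ k, m = k + 1 := ⟨m - 1, by omega⟩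
  have : 1 ≤ 2 ^ m := Nat.one_le_two_pow
  refine ⟨2 ^ m - 1, ?_⟩
  rw [pow_succ]
  omega

lemma even_two_pow (m : ℕ) (hm : 1 ≤ m) : Even (2 ^ m) := by
  obtain ⟨m, rfl⟩ : ∃ k, m = k + 1 := ⟨m - 1, by omega⟩
  rw [pow_succ]
  exact even_two.mul_left _

/-- `a`, `b` odd, `a + b ≡ 2 (4)` -/
lemma D8 (ha : a % 2 = 1) (hb : b % 2 = 1) (hab : (a + b) % 4 = 2) (k : ℕ) :
    D a b (2 * k + 2) ≡ a + b [ZMOD 8] ∧ D a b (2 * k + 3) ≡ b + 4 [ZMOD 8] := by
  have step : ∀ m, 1 ≤ m → D a b m ≡ a + b [ZMOD 8] → D a b (m + 1) ≡ b + 4 [ZMOD 8] := by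
    intro m hm h
    rw [D_succ]
    have h1 : (D a b m) ^ 2 ≡ 4 [ZMOD 8] := by
      have h2 : D a b m % 4 = 2 := by
        have := h.of_dvd (show (4 : ℤ) ∣ 8 by norm_num)
        rw [Int.ModEq] at this
        omega
      obtain ⟨c, hc⟩ : ∃ c, D a b m = 4 * c + 2 := ⟨D a b m / 4, by omega⟩
      rw [hc]
      exact Int.modEq_iff_dvd.mpr ⟨-(2 * c ^ 2 + 2 * c), by ring⟩
    have h3 := (h1.mul_left a).add (pow8o hb (odd_sub m hm))
    refine h3.trans ?_
    rw [Int.ModEq]
    omega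
  have step2 : ∀ m, 1 ≤ m → D a b m ≡ b + 4 [ZMOD 8] → D a b (m + 1) ≡ a + b [ZMOD 8] := by
    intro m hm h
    rw [D_succ]
    have h1 : (D a b m) ^ 2 ≡ 1 [ZMOD 8] := by
      apply sq8
      rw [Int.ModEq] at h
      omega
    have h3 := (h1.mul_left a).add (pow8o hb (odd_sub m hm))
    simpa using h3
  induction k with
  | zero =>
    have h0 : D a b 2 ≡ a + b [ZMOD 8] := by simp [Int.ModEq]
    exact ⟨h0, step 2 (by norm_num) h0⟩
  | succ k ih =>
    have h0 := step2 _ (by omega) ih.2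
    exact ⟨h0, step _ (by omega) h0⟩

lemma N8 (ha : a % 2 = 1) (hb : b % 2 = 1) (hab : (a + b) % 4 = 2) (r : ℕ) (hr : 1 ≤ r) :
    N a b (r + 2) ≡ a + 2 * b + 4 [ZMOD 8] := by
  rw [N_succ]
  have h1 := (pow8e hb (even_two_pow r hr)).mul_right (D a b (r + 1))
  rw [one_mul] at h1
  refine (h1.add_left _).trans ?_
  rcases Nat.even_or_odd' r with ⟨k, rfl | rfl⟩
  · obtain ⟨k, rfl⟩ : ∃ j, k = j + 1 := ⟨k - 1, by omega⟩
    have h2 := (D8 ha hb hab (k + 1)).1
    have h3 := (D8 ha hb hab k).2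
    have h4 := h2.add h3
    refine (show D a b (2 * (k + 1) + 2) + D a b (2 * (k + 1) + 1) ≡ a + b + (b + 4) [ZMOD 8]
      from h4).trans ?_
    rw [Int.ModEq]
    ring_nf
  · have h2 := (D8 ha hb hab k).2
    have h3 := (D8 ha hb hab k).1
    have h4 := h2.add h3
    refine (show D a b (2 * k + 1 + 2) + D a b (2 * k + 1 + 1) ≡ b + 4 + (a + b) [ZMOD 8]
      from h4).trans ?_
    rw [Int.ModEq]
    ring_nf

lemma D_even_dvd (k : ℕ) : D a b 2 ∣ D a b (2 * k + 2) := by
  induction k with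
  | zero => simp
  | succ k ih =>
    have h := rigid (a := a) (b := b) 2 (2 * k + 1)
    have h1 : D a b (2 + (2 * k + 1 + 1)) = D a b (2 * (k + 1) + 2) := by congr 1; omega
    rw [h1] at h
    have h2 := h.of_dvd (dvd_pow_self (D a b 2) two_ne_zero)
    have h3 : D a b 2 ∣ b ^ (2 ^ (2 * k + 1) * (2 ^ 2 - 1)) * D a b (2 * k + 1 + 1) :=
      ih.mul_left _
    exact (Int.ModEq.dvd_iff h2).mpr h3

/-- odd terms modulo `D_2` -/
lemma D_odd_mod (k : ℕ) : D a b (2 * k + 1) ≡ b ^ (2 ^ (2 * k) - 1) [ZMOD D a b 2] := by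
  rcases Nat.eq_zero_or_pos k with rfl | hk
  · simp
  · obtain ⟨k, rfl⟩ : ∃ j, k = j + 1 := ⟨k - 1, by omega⟩
    obtain ⟨c, hc⟩ := D_even_dvd (a := a) (b := b) k
    have h1 : D a b (2 * (k + 1) + 1) = a * (D a b 2 * c) ^ 2 + b ^ (2 ^ (2 * (k + 1)) - 1) := by
      rw [← hc]
      rfl
    rw [h1]
    exact Int.modEq_iff_dvd.mpr ⟨-(a * c ^ 2 * D a b 2), by ring⟩

lemma N_mod_two (r : ℕ) (hr : 1 ≤ r) :
    N a b (r + 2) ≡ b ^ (2 ^ (r + 1) - 1) [ZMOD D a b 2] := by
  rw [N_succ]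
  rcases Nat.even_or_odd' r with ⟨k, rfl | rfl⟩
  · have h1 : D a b (2 * k + 2) ≡ 0 [ZMOD D a b 2] :=
      Int.modEq_zero_iff_dvd.mpr (D_even_dvd k)
    have h2 := (D_odd_mod (a := a) (b := b) k).mul_left (b ^ 2 ^ (2 * k))
    refine (h1.add h2).trans ?_
    have h3 : 2 ^ (2 * k + 1) - 1 = 2 ^ (2 * k) + (2 ^ (2 * k) - 1) := by
      have : 2 ^ (2 * k + 1) = 2 ^ (2 * k) + 2 ^ (2 * k) := by ring
      have h1 : 1 ≤ 2 ^ (2 * k) := Nat.one_le_two_pow
      omega
    rw [zero_add, h3, pow_add b]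
  · have h1 : D a b (2 * k + 1 + 1) ≡ 0 [ZMOD D a b 2] :=
      Int.modEq_zero_iff_dvd.mpr (D_even_dvd k)
    have h2 := D_odd_mod (a := a) (b := b) (k + 1)
    refine (Int.ModEq.add (show D a b (2 * k + 1 + 2) ≡ b ^ (2 ^ (2 * k + 1 + 1) - 1)
      [ZMOD D a b 2] from h2) (h1.mul_left _)).trans ?_
    simp

/-! ### reciprocity -/

lemma jac_neg_three {M : ℕ} (hM : M % 4 = 3) : jacobiSym (-1) M = -1 := by
  rw [jacobiSym.at_neg_one (by rw [Nat.odd_iff]; omega), ZMod.χ₄_nat_three_mod_four hM]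

lemma jac_neg_one' {M : ℕ} (hM : M % 4 = 1) : jacobiSym (-1) M = 1 := by
  rw [jacobiSym.at_neg_one (by rw [Nat.odd_iff]; omega), ZMod.χ₄_nat_one_mod_four hM]

/-- `(e b / x) = (x / b)` if `e b ≡ 1 (4)` and `b > 0` -/
lemma recip (h : Adm a b e) (hb : (e * b) % 4 = 1) {x : ℕ} (hx : Odd x) :
    jacobiSym (e * b) x = jacobiSym (x : ℤ) b.natAbs := by
  have hb0 := h.hb
  have hbb : ((b.natAbs : ℕ) : ℤ) = b := by omega
  rcases h.hs with ⟨rfl, _⟩ | ⟨rfl, _⟩
  · rw [one_mul]
    conv_lhs => rw [← hbb]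
    exact jacobiSym.quadratic_reciprocity_one_mod_four (by omega) hx
  · rw [jacobiSym.mul_left]
    conv_lhs => rw [← hbb]
    have hx' : x % 4 = 1 ∨ x % 4 = 3 := by
      rw [Nat.odd_iff] at hx
      omega
    rcases hx' with hx' | hx'
    · rw [jac_neg_one' hx', one_mul]
      exact (jacobiSym.quadratic_reciprocity_one_mod_four hx' (by rw [Nat.odd_iff]; omega)).symm
    · rw [jac_neg_three hx', jacobiSym.quadratic_reciprocity_three_mod_four (by omega) hx']
      ring

lemma nat_dvd_N (r : ℕ) : (((N a b (r + 2)).natAbs : ℕ) : ℤ) ∣ N a b (r + 2) :=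
  Int.natAbs_dvd.mpr (dvd_refl _)

lemma cop_natAbs {x y : ℤ} (h : IsCoprime x y) : IsCoprime x ((y.natAbs : ℕ) : ℤ) :=
  h.of_isCoprime_of_dvd_right (Int.natAbs_dvd.mpr (dvd_refl _))

lemma cop_natAbs' {x y : ℤ} (h : IsCoprime x y) :
    IsCoprime ((x.natAbs : ℕ) : ℤ) ((y.natAbs : ℕ) : ℤ) :=
  (cop_natAbs h).of_isCoprime_of_dvd_left (Int.natAbs_dvd.mpr (dvd_refl _))

lemma cop_e (h : Adm a b e) (M : ℕ) : IsCoprime e (M : ℤ) := by
  rcases h.hs with ⟨rfl, _⟩ | ⟨rfl, _⟩
  · exact isCoprime_one_left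
  · exact isCoprime_one_left.neg_left

lemma jac_e (h : Adm a b e) (M : ℕ) : jacobiSym e M * jacobiSym e M = 1 := jac_sq (cop_e h M)

lemma same_sym (h : Adm a b e) (ha : a % 2 = 1) (hb : b % 2 = 1) (hab : (a + b) % 4 = 2)
    (hNo : ∀ r, Odd (N a b (r + 2)).natAbs) (r : ℕ) (hr : 1 ≤ r) :
    jacobiSym ((D a b 2).natAbs : ℤ) (N a b (r + 2)).natAbs =
      jacobiSym ((D a b 2).natAbs : ℤ) (N a b (1 + 2)).natAbs := by
  set c : ℕ := b.natAbs ^ (2 ^ r - 2) with hc
  have hcZ : (c : ℤ) = b ^ (2 ^ r - 2) := by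
    have : ((b.natAbs : ℕ) : ℤ) = b := by have := h.hb; omega
    rw [hc]
    push_cast
    rw [abs_of_pos h.hb]
  have hco : Odd c := by
    rw [hc]
    apply Odd.pow
    rw [Nat.odd_iff]
    omega
  have h2r : 2 ^ 1 ≤ 2 ^ r := Nat.pow_le_pow_right (by norm_num) hr
  have hcop : IsCoprime ((D a b 2).natAbs : ℤ) (c : ℤ) := by
    rw [hcZ]
    exact IsCoprime.pow_right
      ((cop_b h.cop (by norm_num)).of_isCoprime_of_dvd_left (Int.natAbs_dvd.mpr (dvd_refl _)))
  have hc1 : jacobiSym ((D a b 2).natAbs : ℤ) (c * c) = 1 := by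
    have : NeZero c := ⟨by rintro h0; rw [h0] at hco; simp at hco⟩
    rw [jacobiSym.mul_right]
    exact jac_sq hcop
  have hM : NeZero (N a b (1 + 2)).natAbs :=
    ⟨by have := hNo 1; rintro h0; rw [h0] at this; simp at this⟩
  have hcn : NeZero (c * c) := ⟨by
    rintro h0
    have := hco.mul hco
    rw [h0] at this
    simp at this⟩
  have key : jacobiSym ((D a b 2).natAbs : ℤ) (N a b (r + 2)).natAbs =
      jacobiSym ((D a b 2).natAbs : ℤ) ((N a b (1 + 2)).natAbs * (c * c)) := by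
    rw [jacobiSym.mod_right _ (hNo r), jacobiSym.mod_right _ ((hNo 1).mul (hco.mul hco))]
    congr 1
    -- congruence modulo `4 |D_2|`
    have h8 : e * N a b (r + 2) ≡ e * N a b (1 + 2) * (b ^ (2 ^ r - 2) * b ^ (2 ^ r - 2))
        [ZMOD 8] := by
      have h1 := (N8 ha hb hab r hr).mul_left e
      have h2 := (N8 ha hb hab 1 le_rfl).mul_left e
      have h3 : b ^ (2 ^ r - 2) * b ^ (2 ^ r - 2) ≡ 1 [ZMOD 8] := by
        rw [← pow_add]
        exact pow8e hb ⟨_, rfl⟩
      have h4 := h2.mul h3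
      rw [mul_one] at h4
      exact h1.trans h4.symm
    have hD : e * N a b (r + 2) ≡ e * N a b (1 + 2) * (b ^ (2 ^ r - 2) * b ^ (2 ^ r - 2))
        [ZMOD D a b 2] := by
      have h1 := (N_mod_two (a := a) (b := b) r hr).mul_left e
      have h2 := ((N_mod_two (a := a) (b := b) 1 le_rfl).mul_left e).mul_right
        (b ^ (2 ^ r - 2) * b ^ (2 ^ r - 2))
      refine h1.trans (Int.ModEq.trans ?_ h2.symm)
      rw [mul_assoc, ← pow_add, ← pow_add]
      have : 2 ^ (1 + 1) - 1 + (2 ^ r - 2 + (2 ^ r - 2)) = 2 ^ (r + 1) - 1 := by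
        have : 2 ^ (r + 1) = 2 ^ r + 2 ^ r := by ring
        omega
      rw [this]
    obtain ⟨d, hd⟩ : ∃ d, a + b = 2 * d := ⟨(a + b) / 2, by omega⟩
    have hdodd : d % 2 = 1 := by omega
    have hDd : D a b 2 = 2 * d := by rw [D_two, hd]
    rw [hDd] at hD
    have hd' := hD.of_dvd (Dvd.intro_left 2 rfl)
    have hcop8 : Nat.Coprime (Int.natAbs 8) d.natAbs := by
      rw [show Int.natAbs 8 = 2 ^ 3 by rfl]
      apply Nat.Coprime.pow_left
      rw [Nat.coprime_two_left, Nat.odd_iff]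
      omega
    have h9 := (Int.modEq_and_modEq_iff_modEq_mul hcop8).mp ⟨h8, hd'⟩
    have h10 : ((N a b (r + 2)).natAbs : ℤ) ≡ (((N a b (1 + 2)).natAbs * (c * c) : ℕ) : ℤ)
        [ZMOD ((4 * (((D a b 2).natAbs : ℤ)).natAbs : ℕ) : ℤ)] := by
      rw [h.natAbs_N r, Nat.cast_mul (N a b (1 + 2)).natAbs, Nat.cast_mul c, h.natAbs_N 1, hcZ]
      refine h9.of_dvd ?_
      rw [Int.natAbs_natCast, hDd]
      push_cast
      rw [abs_mul]
      rcases abs_choice d with h | h <;> rw [h]
      · exact ⟨1, by norm_num; ring⟩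
      · exact ⟨-1, by norm_num; ring⟩
    exact (Int.natCast_modEq_iff.mp h10)
  rw [key, jacobiSym.mul_right, hc1, mul_one]

end ClsC1

open ClsC1 in
theorem clsC1_proof : Stmt_ClsC1 := by
  intro a b e h hea heb s R hsq hR hdiv hs hsR
  have hee := h.e_sq
  have ha : a % 2 = 1 := by rcases h.hs with ⟨rfl, _⟩ | ⟨rfl, _⟩ <;> omega
  have hb : b % 2 = 1 := by rcases h.hs with ⟨rfl, _⟩ | ⟨rfl, _⟩ <;> omega
  have hab : (a + b) % 4 = 2 := by rcases h.hs with ⟨rfl, _⟩ | ⟨rfl, _⟩ <;> omega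
  have hR0 : R ≠ 0 := by omega
  have hN : ∀ r, (N a b (r + 2)).natAbs % 4 = 3 := by
    intro r
    have h1 := h.natAbs_N r
    have h2 : N a b (r + 2) % 4 = (a + 2 * b) % 4 := by
      rcases Nat.eq_zero_or_pos r with rfl | hr
      · simp
      · have := (N8 ha hb hab r hr).of_dvd (show (4 : ℤ) ∣ 8 by norm_num)
        rw [Int.ModEq] at this
        omega
    rcases h.hs with ⟨rfl, _⟩ | ⟨rfl, _⟩ <;> omega
  have hNo : ∀ r, Odd (N a b (r + 2)).natAbs := by
    intro r
    have := hN r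
    rw [Nat.odd_iff]
    omega
  have hcard := even_card_divisors hsq hR
  -- `D_s D_{s+1}` modulo `N_{s+1}`
  have hDD : ∀ r, 1 ≤ r → jacobiSym ((D a b (r + 1)).natAbs : ℤ) (N a b (r + 2)).natAbs *
      jacobiSym ((D a b (r + 2)).natAbs : ℤ) (N a b (r + 2)).natAbs = -1 := by
    intro r hr
    rw [h.natAbs_D (m := r + 1) (by omega), h.natAbs_D (m := r + 2) (by omega),
      jacobiSym.mul_left, jacobiSym.mul_left, jac_first h.cop r hr (nat_dvd_N r),
      jac_neg_three (hN r)]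
    have h1 := jac_e h (N a b (r + 2)).natAbs
    have h2 := jac_sq (cop_natAbs (cop_N_prev h.cop r).symm)
    linear_combination (-1 : ℤ) * (jacobiSym (D a b (r + 1)) (N a b (r + 2)).natAbs *
      jacobiSym (D a b (r + 1)) (N a b (r + 2)).natAbs) * h1 - h2
  have hsqD : ∀ r, jacobiSym ((D a b (r + 2)).natAbs : ℤ) (N a b (r + 2)).natAbs *
      jacobiSym ((D a b (r + 2)).natAbs : ℤ) (N a b (r + 2)).natAbs = 1 := by
    intro r
    exact jac_sq (cop_natAbs' (cop_N_self h.cop r).symm)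
  have hDone : jacobiSym ((D a b (1 * 1)).natAbs : ℤ) = fun _ => 1 := by
    funext M
    simp
  rcases Nat.lt_or_ge 1 s with hs2 | hs1
  · -- `s ≥ 2`
    obtain ⟨r, rfl⟩ : ∃ r, s = r + 1 := ⟨s - 1, by omega⟩
    have hr : 1 ≤ r := by omega
    apply not_sq_of_jac (M := (N a b (r + 2)).natAbs)
    have hf := filter_one (r + 1) R hR0 (r + 2) (by omega) (by omega)
    have hc := card_not R (r + 1) (r + 2)
    rw [hf, Finset.card_singleton] at hc
    rw [jac_Z_tail h r (nat_dvd_N r) (r + 1) R, hf, Finset.prod_singleton, mul_one,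
      pow_odd (hsqD r), hDD r hr]
    rw [← hc] at hcard
    rw [Nat.even_add_one] at hcard
    exact Nat.not_even_iff_odd.mp hcard
  · obtain rfl : s = 1 := by omega
    rcases Nat.even_or_odd R with hev | hodd
    · -- `R` even
      have h2R : 2 ∣ R := hev.two_dvd
      obtain ⟨R', hR'⟩ := h2R
      have hR'1 : 1 < R' := by omega
      have hq := Nat.minFac_prime (n := R') (by omega)
      set q := R'.minFac with hqdef
      have hqR' : q ∣ R' := R'.minFac_dvd
      have hR'odd : ¬ 2 ∣ R' := by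
        intro h2
        have : 2 * 2 ∣ R := by
          rw [hR']
          exact Nat.mul_dvd_mul_left 2 h2
        have := hsq 2 this
        simp at this
      have hq2 : q ≠ 2 := by
        intro h2
        rw [h2] at hqR'
        exact hR'odd hqR'
      have hqR : q ∣ R := hqR'.trans ⟨2, by rw [hR']; ring⟩
      have hmin : ∀ p, p.Prime → p ∣ R → p ≠ 2 → q ≤ p := by
        intro p hp hpR hp2
        rw [hR'] at hpR
        rcases (Nat.Prime.dvd_mul hp).mp hpR with h1 | h1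
        · exact absurd ((Nat.prime_dvd_prime_iff_eq hp Nat.prime_two).mp h1) hp2
        · exact Nat.minFac_le_of_dvd hp.two_le h1
      have hq3 : 3 ≤ q := by
        have := hq.two_le
        omega
      obtain ⟨r, hr⟩ : ∃ r, q = r + 1 := ⟨q - 1, by omega⟩
      have hr1 : 1 ≤ r := by omega
      have hrodd : Even r := by
        have := hq.odd_of_ne_two hq2
        rw [hr] at this
        have h1 := Nat.odd_add_one.mp this
        exact Nat.not_odd_iff_even.mp h1
      -- modulo `N_3`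
      have h3 : jacobiSym (Z a b 1 R : ℤ) (N a b (1 + 2)).natAbs =
          jacobiSym ((D a b 2).natAbs : ℤ) (N a b (1 + 2)).natAbs := by
        have hf := filter_two R ⟨R', hR'⟩ hR0
        have hc := card_not R 1 3
        rw [hf, Finset.card_pair (by norm_num)] at hc
        rw [jac_Z_tail h 1 (nat_dvd_N 1) 1 R, show 1 + 2 = 3 from rfl, hf,
          Finset.prod_pair (by norm_num), hDone, one_mul, show 1 * 2 = 2 from rfl,
          pow_even, mul_one]
        · exact hsqD 1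
        · rw [← hc] at hcard
          exact (Nat.even_add.mp hcard).mpr even_two
      have h4 : jacobiSym (Z a b 1 R : ℤ) (N a b (r + 2)).natAbs =
          - jacobiSym ((D a b 2).natAbs : ℤ) (N a b (r + 2)).natAbs := by
        have hf := filter_2q R q hq hq2 hqR ⟨R', hR'⟩ hR0 hsq hmin
        rw [show q + 1 = r + 2 by omega] at hf
        have hc := card_not R 1 (r + 2)
        rw [hf, Finset.card_insert_of_notMem (by simp; omega),
          Finset.card_pair (by omega)] at hc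
        rw [jac_Z_tail h r (nat_dvd_N r) 1 R, hf,
          Finset.prod_insert (by simp; omega), Finset.prod_pair (by omega), hDone, one_mul,
          show 1 * 2 = 2 from rfl, show 1 * q = r + 1 by omega, pow_odd (hsqD r)]
        · have := hDD r hr1
          linear_combination jacobiSym ((D a b 2).natAbs : ℤ) (N a b (r + 2)).natAbs * this
        · rw [← hc] at hcard
          have h5 : Even ((R.divisors.filter (fun u => ¬ 1 * u < r + 2)).card + 1 + 2) := by
            convert hcard using 1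
          have h6 := (Nat.even_add.mp h5).mpr even_two
          rw [Nat.even_add_one] at h6
          exact Nat.not_even_iff_odd.mp h6
      -- the two symbols of `D_2` agree
      have h5 : jacobiSym ((D a b 2).natAbs : ℤ) (N a b (r + 2)).natAbs =
          jacobiSym ((D a b 2).natAbs : ℤ) (N a b (1 + 2)).natAbs :=
        same_sym h ha hb hab hNo r hr1
      have h6 : jacobiSym ((D a b 2).natAbs : ℤ) (N a b (1 + 2)).natAbs = 1 ∨
          jacobiSym ((D a b 2).natAbs : ℤ) (N a b (1 + 2)).natAbs = -1 := by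
        apply jacobiSym.eq_one_or_neg_one
        exact Int.isCoprime_iff_gcd_eq_one.mp (cop_natAbs' (cop_N_prev h.cop 1).symm)
      rcases h6 with h6 | h6
      · apply not_sq_of_jac (M := (N a b (r + 2)).natAbs)
        rw [h4, h5, h6]
      · apply not_sq_of_jac (M := (N a b (1 + 2)).natAbs)
        rw [h3, h6]
    · -- `R` odd
      have hq := Nat.minFac_prime (n := R) (by omega)
      set q := R.minFac with hqdef
      have hqR : q ∣ R := R.minFac_dvd
      have hmin : ∀ u, u ∣ R → 1 < u → q ≤ u := fun u hu h1 => Nat.minFac_le_of_dvd h1 hu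
      have hq2 : q ≠ 2 := by
        intro h2
        rw [h2] at hqR
        rw [Nat.odd_iff] at hodd
        omega
      have hq3 : 3 ≤ q := by
        have := hq.two_le
        omega
      obtain ⟨k, hk⟩ : ∃ k, q = 2 * k + 3 := by
        have := hq.odd_of_ne_two hq2
        obtain ⟨k, hk⟩ := this
        exact ⟨k - 1, by omega⟩
      -- modulo `N_2`
      have h1 : jacobiSym (Z a b 1 R : ℤ) (N a b (0 + 2)).natAbs =
          - jacobiSym (e * a) b.natAbs := by
        have hf := filter_one 1 R hR0 2 (by omega) (by omega)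
        have hc := card_not R 1 2
        rw [hf, Finset.card_singleton] at hc
        rw [jac_Z_tail h 0 (nat_dvd_N 0) 1 R, zero_add, hf, Finset.prod_singleton, hDone, one_mul,
          pow_odd (hsqD 0)]
        · rw [h.natAbs_D (m := 2) (by omega), jacobiSym.mul_left,
            jac_first0 (nat_dvd_N 0), ← neg_one_mul b, ← jacobiSym.mul_left]
          rw [show e * (-1 * b) = -1 * (e * b) by ring, jacobiSym.mul_left,
            jac_neg_three (hN 0), recip h heb (hNo 0), h.natAbs_N 0, neg_one_mul]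
          congr 1
          apply jac_congr
          have : ((b.natAbs : ℕ) : ℤ) = b := by have := h.hb; omega
          rw [this, N_two]
          exact Int.modEq_iff_dvd.mpr ⟨-(2 * e), by ring⟩
        · rw [← hc] at hcard
          rw [Nat.even_add_one] at hcard
          exact Nat.not_even_iff_odd.mp hcard
      have h2 : jacobiSym (Z a b 1 R : ℤ) (N a b (2 * k + 2 + 2)).natAbs =
          jacobiSym (e * a) b.natAbs := by
        have hf := filter_q R q hq hqR hR0 hmin
        rw [show q + 1 = 2 * k + 2 + 2 by omega] at hf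
        have hc := card_not R 1 (2 * k + 2 + 2)
        rw [hf, Finset.card_pair (by omega)] at hc
        rw [jac_Z_tail h (2 * k + 2) (nat_dvd_N _) 1 R, hf, Finset.prod_pair (by omega), hDone,
          one_mul, show 1 * q = 2 * k + 3 by omega, pow_even (hsqD _), mul_one]
        · have hD1 : (D a b (2 * k + 3)).natAbs % 4 = 1 := by
            have h1 := h.natAbs_D (m := 2 * k + 3) (by omega)
            have h2 := (D8 ha hb hab k).2.of_dvd (show (4 : ℤ) ∣ 8 by norm_num)
            rw [Int.ModEq] at h2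
            rcases h.hs with ⟨rfl, _⟩ | ⟨rfl, _⟩ <;> omega
          rw [jacobiSym.quadratic_reciprocity_one_mod_four hD1 (hNo _), h.natAbs_N]
          have hmod : e * N a b (2 * k + 2 + 2) ≡
              (e * b) * (b ^ (2 ^ (2 * k + 2) - 1)) ^ 2 [ZMOD (D a b (2 * k + 3)).natAbs] := by
            have h1 : (((D a b (2 * k + 3)).natAbs : ℕ) : ℤ) ∣ D a b (2 * k + 3) :=
              Int.natAbs_dvd.mpr (dvd_refl _)
            refine Int.ModEq.of_dvd h1 ?_
            have hDs : D a b (2 * k + 2 + 2) = a * D a b (2 * k + 3) ^ 2 +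
              b ^ (2 ^ (2 * k + 3) - 1) := rfl
            rw [N_succ, hDs, show 2 * k + 2 + 1 = 2 * k + 3 by ring]
            have h2 : 2 ^ (2 * k + 3) - 1 = 1 + (2 ^ (2 * k + 2) - 1) * 2 := by
              have h1 : 1 ≤ 2 ^ (2 * k + 2) := Nat.one_le_two_pow
              have : 2 ^ (2 * k + 3) = 2 ^ (2 * k + 2) * 2 := by ring
              omega
            rw [h2, pow_add b, pow_one, pow_mul b]
            exact Int.modEq_iff_dvd.mpr ⟨-(e * a * D a b (2 * k + 3)) - e * b ^ 2 ^ (2 * k + 2),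
              by ring⟩
          rw [jac_congr hmod, jacobiSym.mul_left, jac_sq_pow, mul_one,
            recip h heb (by rw [Nat.odd_iff]; omega), h.natAbs_D (by omega)]
          · have : ((b.natAbs : ℕ) : ℤ) = b := by have := h.hb; omega
            have hmod2 : e * D a b (2 * k + 3) ≡ (e * a) * (D a b (2 * k + 2)) ^ 2
                [ZMOD b.natAbs] := by
              rw [this, show 2 * k + 3 = (2 * k + 2) + 1 by ring, D_succ]
              have h1 : 1 ≤ 2 ^ (2 * k + 2) - 1 := by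
                have : 2 ^ 1 ≤ 2 ^ (2 * k + 2) := Nat.pow_le_pow_right (by norm_num) (by omega)
                omega
              obtain ⟨j, hj⟩ := Nat.exists_eq_add_of_le h1
              rw [hj, pow_add b, pow_one]
              exact Int.modEq_iff_dvd.mpr ⟨-(e * b ^ j), by ring⟩
            rw [jac_congr hmod2, jacobiSym.mul_left, jac_sq_pow _ 2 even_two, mul_one]
            rw [this]
            exact cop_b h.cop (by omega)
          · exact cop_natAbs (IsCoprime.pow_left (cop_b h.cop (by omega)).symm)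
          · exact even_two
        · rw [← hc] at hcard
          exact (Nat.even_add.mp hcard).mpr even_two
      have h3 : jacobiSym (e * a) b.natAbs = 1 ∨ jacobiSym (e * a) b.natAbs = -1 := by
        apply jacobiSym.eq_one_or_neg_one
        apply Int.isCoprime_iff_gcd_eq_one.mp
        exact IsCoprime.mul_left (cop_e h _) (cop_natAbs h.cop)
      rcases h3 with h3 | h3
      · apply not_sq_of_jac (M := (N a b (0 + 2)).natAbs)
        rw [h1, h3]
      · apply not_sq_of_jac (M := (N a b (2 * k + 2 + 2)).natAbs)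
        rw [h2, h3]

end Pool.Agent.Arb
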