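import Pool.Agent.Arb.Congr

/-!
# Class `a ≡ b ≡ 3 (mod 4)` up to the common sign
-/

namespace Pool.Agent.Arb

namespace ClsC2

/-- normalised data: both parameters are multiplied with the sign -/
structure Hyp (a b : ℤ) : Prop where
  cop : IsCoprime a b
  ha : a % 4 = 3
  hb : b % 4 = 3
  posD : ∀ m, 1 ≤ m → 0 < D a b m
  posN : ∀ r, 0 < N a b (r + 2)

variable {a b e : ℤ}

lemma D_neg (m : ℕ) (hm : 2 ≤ m) : D (-a) (-b) m = - D a b m := by
  induction m, hm using Nat.le_induction with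
  | base => simp; ring
  | succ m hm ih =>
    rw [D_succ, D_succ, ih]
    have h : Odd (2 ^ m - 1) := by
      obtain ⟨k, rfl⟩ : ∃ k, m = k + 1 := ⟨m - 1, by omega⟩
      have : 1 ≤ 2 ^ k := Nat.one_le_two_pow
      refine ⟨2 ^ k - 1, ?_⟩
      rw [pow_succ]
      omega
    rw [h.neg_pow]
    ring

lemma N_neg (r : ℕ) : N (-a) (-b) (r + 2) = - N a b (r + 2) := by
  rcases Nat.eq_zero_or_pos r with rfl | hr
  · simp; ring
  · rw [N_succ, N_succ, D_neg _ (by omega), D_neg _ (by omega)]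
    have : Even (2 ^ r) := by
      obtain ⟨r, rfl⟩ : ∃ k, r = k + 1 := ⟨r - 1, by omega⟩
      rw [pow_succ]
      exact even_two.mul_left _
    rw [this.neg_pow]
    ring

lemma hyp_of_adm (h : Adm a b e) (h1 : (e * a) % 4 = 3) (h2 : (e * b) % 4 = 3) :
    Hyp (e * a) (e * b) := by
  have hc := h.cop
  rcases h.hs with ⟨rfl, h3⟩ | ⟨rfl, h3⟩
  · refine ⟨by simpa using hc, h1, h2, ?_, ?_⟩
    · intro m hm
      rcases Nat.lt_or_ge m 2 with h4 | h4
      · obtain rfl : m = 1 := by omega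
        simp
      · simpa using h.pos_D h4
    · intro r
      simpa using h.pos_N r
  · refine ⟨by rw [neg_one_mul, neg_one_mul]; exact hc.neg_left.neg_right, h1, h2, ?_, ?_⟩
    · intro m hm
      rcases Nat.lt_or_ge m 2 with h4 | h4
      · obtain rfl : m = 1 := by omega
        simp
      · have := h.pos_D h4
        rw [neg_one_mul, neg_one_mul, D_neg _ h4]
        linarith
    · intro r
      have := h.pos_N r
      rw [neg_one_mul, neg_one_mul, N_neg]
      linarith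

lemma natAbs_D_sign (h : e = 1 ∨ e = -1) (m : ℕ) :
    (D (e * a) (e * b) m).natAbs = (D a b m).natAbs := by
  rcases h with rfl | rfl
  · simp
  · rcases Nat.lt_or_ge m 2 with h4 | h4
    · interval_cases m <;> simp
    · rw [neg_one_mul, neg_one_mul, D_neg _ h4, Int.natAbs_neg]

lemma Z_sign (h : e = 1 ∨ e = -1) (s R : ℕ) : Z (e * a) (e * b) s R = Z a b s R := by
  unfold Z
  exact Finset.prod_congr rfl fun u _ => natAbs_D_sign h _

/-! ### congruences modulo 16 -/

lemma cast_cases {b : ℤ} (h : b % 4 = 3) :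
    (b : ZMod 16) = 3 ∨ (b : ZMod 16) = 7 ∨ (b : ZMod 16) = 11 ∨ (b : ZMod 16) = 15 := by
  have h1 : b % 16 = 3 ∨ b % 16 = 7 ∨ b % 16 = 11 ∨ b % 16 = 15 := by omega
  rcases h1 with h1 | h1 | h1 | h1
  · left; exact_mod_cast (ZMod.intCast_eq_intCast_iff' b 3 16).2 (by omega)
  · right; left; exact_mod_cast (ZMod.intCast_eq_intCast_iff' b 7 16).2 (by omega)
  · right; right; left; exact_mod_cast (ZMod.intCast_eq_intCast_iff' b 11 16).2 (by omega)
  · right; right; right; exact_mod_cast (ZMod.intCast_eq_intCast_iff' b 15 16).2 (by omega)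

lemma pow_b (h : b % 4 = 3) (m : ℕ) (hm : 2 ≤ m) : (b : ZMod 16) ^ (2 ^ m - 1) = (b : ZMod 16) ^ 3 := by
  have h4 : (b : ZMod 16) ^ 4 = 1 := by
    rcases cast_cases h with h | h | h | h <;> rw [h] <;> decide
  obtain ⟨k, rfl⟩ : ∃ k, m = k + 2 := ⟨m - 2, by omega⟩
  have h5 : 2 ^ (k + 2) - 1 = 4 * (2 ^ k - 1) + 3 := by
    have : 1 ≤ 2 ^ k := Nat.one_le_two_pow
    rw [pow_add]
    omega
  rw [h5, pow_add, pow_mul, h4, one_pow, one_mul]

lemma D16 (h : b % 4 = 3) (m : ℕ) (hm : 2 ≤ m) :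
    ((D a b (m + 1) : ℤ) : ZMod 16) = (a : ZMod 16) * ((D a b m : ℤ) : ZMod 16) ^ 2 +
      (b : ZMod 16) ^ 3 := by
  rw [D_succ]
  push_cast
  rw [pow_b h m hm]

lemma D16_inv (h : a % 4 = 3) (h' : b % 4 = 3) (k : ℕ) :
    (((D a b (2 * k + 3) : ℤ) : ZMod 16) = (b : ZMod 16) + 4 ∨
      ((D a b (2 * k + 3) : ℤ) : ZMod 16) = (b : ZMod 16) + 12) ∧
    ((D a b (2 * k + 4) : ℤ) : ZMod 16) = (a : ZMod 16) + (b : ZMod 16) + 8 := by
  have step : ∀ k : ℕ, (((D a b (2 * k + 3) : ℤ) : ZMod 16) = (b : ZMod 16) + 4 ∨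
      ((D a b (2 * k + 3) : ℤ) : ZMod 16) = (b : ZMod 16) + 12) →
      ((D a b (2 * k + 4) : ℤ) : ZMod 16) = (a : ZMod 16) + (b : ZMod 16) + 8 := by
    intro k hk
    rw [show 2 * k + 4 = (2 * k + 3) + 1 by ring, D16 h' _ (by omega)]
    rcases hk with hk | hk <;> rw [hk] <;>
    rcases cast_cases h with h | h | h | h <;> rw [h] <;>
    rcases cast_cases h' with h' | h' | h' | h' <;> rw [h'] <;> decide
  induction k with
  | zero =>
    have h0 : (((D a b (2 * 0 + 3) : ℤ) : ZMod 16) = (b : ZMod 16) + 4 ∨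
      ((D a b (2 * 0 + 3) : ℤ) : ZMod 16) = (b : ZMod 16) + 12) := by
      rw [show 2 * 0 + 3 = 2 + 1 by ring, D16 h' _ (by omega), D_two]
      push_cast
      rcases cast_cases h with h | h | h | h <;> rw [h] <;>
      rcases cast_cases h' with h' | h' | h' | h' <;> rw [h'] <;> decide
    exact ⟨h0, step 0 h0⟩
  | succ k ih =>
    have h0 : (((D a b (2 * (k + 1) + 3) : ℤ) : ZMod 16) = (b : ZMod 16) + 4 ∨
      ((D a b (2 * (k + 1) + 3) : ℤ) : ZMod 16) = (b : ZMod 16) + 12) := by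
      rw [show 2 * (k + 1) + 3 = (2 * k + 4) + 1 by ring, D16 h' _ (by omega), ih.2]
      rcases cast_cases h with h | h | h | h <;> rw [h] <;>
      rcases cast_cases h' with h' | h' | h' | h' <;> rw [h'] <;> decide
    exact ⟨h0, step (k + 1) h0⟩

lemma D_odd_mod (h : a % 4 = 3) (h' : b % 4 = 3) {m : ℕ} (hm : m % 2 = 1) (h3 : 3 ≤ m) :
    D a b m % 8 = (b + 4) % 8 := by
  obtain ⟨k, rfl⟩ : ∃ k, m = 2 * k + 3 := ⟨(m - 3) / 2, by omega⟩
  rcases (D16_inv h h' k).1 with h1 | h1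
  · have h2 : ((D a b (2 * k + 3) : ℤ) : ZMod 16) = ((b + 4 : ℤ) : ZMod 16) := by
      rw [h1]; push_cast; rfl
    have h4 := (ZMod.intCast_eq_intCast_iff' _ _ 16).1 h2
    push_cast at h4
    omega
  · have h2 : ((D a b (2 * k + 3) : ℤ) : ZMod 16) = ((b + 12 : ℤ) : ZMod 16) := by
      rw [h1]; push_cast; rfl
    have h4 := (ZMod.intCast_eq_intCast_iff' _ _ 16).1 h2
    push_cast at h4
    omega

lemma D_even_mod (h : a % 4 = 3) (h' : b % 4 = 3) {m : ℕ} (hm : m % 2 = 0) (h3 : 4 ≤ m) :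
    D a b m % 16 = (a + b + 8) % 16 := by
  obtain ⟨k, rfl⟩ : ∃ k, m = 2 * k + 4 := ⟨(m - 4) / 2, by omega⟩
  have h1 := (D16_inv h h' k).2
  have h2 : ((D a b (2 * k + 4) : ℤ) : ZMod 16) = ((a + b + 8 : ℤ) : ZMod 16) := by
    rw [h1]; push_cast; rfl
  have h4 := (ZMod.intCast_eq_intCast_iff' _ _ 16).1 h2
  push_cast at h4
  exact h4

lemma D_even_mod4 (h : a % 4 = 3) (h' : b % 4 = 3) {m : ℕ} (hm : m % 2 = 0) (h3 : 2 ≤ m) :
    D a b m % 4 = 2 := by
  rcases Nat.lt_or_ge m 4 with h4 | h4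
  · obtain rfl : m = 2 := by omega
    rw [D_two]
    omega
  · have := D_even_mod h h' hm h4
    omega

/-- half of an even-index value, modulo 4 -/
lemma half_mod4 (h : a % 4 = 3) (h' : b % 4 = 3) {m : ℕ} (hm : m % 2 = 0) (h3 : 2 ≤ m) :
    (D a b m / 2) % 4 = ((a + b) / 2) % 4 := by
  rcases Nat.lt_or_ge m 4 with h4 | h4
  · obtain rfl : m = 2 := by omega
    rw [D_two]
  · have := D_even_mod h h' hm h4
    omega

/-! ### the cases `s ≤ 2` -/

lemma Hyp.Z_eq (h : Hyp a b) {s : ℕ} (hs : 0 < s) (R : ℕ) :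
    (Z a b s R : ℤ) = ∏ u ∈ R.divisors, D a b (s * u) := by
  unfold Z
  push_cast
  refine Finset.prod_congr rfl fun u hu => ?_
  have hu' : 0 < u := Nat.pos_of_mem_divisors hu
  exact abs_of_pos (h.posD _ (Nat.mul_pos hs hu'))

/-- squares modulo 4 -/
lemma not_sq_mod4 {n : ℕ} (h : n % 4 = 3) : ¬ IsSquare n := by
  rintro ⟨y, rfl⟩
  have : y % 4 < 4 := Nat.mod_lt _ (by norm_num)
  rw [Nat.mul_mod] at h
  interval_cases y % 4 <;> simp at h

lemma not_sq_mod8 {n : ℕ} (h : n % 8 = 5) : ¬ IsSquare n := by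
  rintro ⟨y, rfl⟩
  have : y % 8 < 8 := Nat.mod_lt _ (by norm_num)
  rw [Nat.mul_mod] at h
  interval_cases y % 8 <;> simp at h

lemma sq_of_mul {x y : ℕ} (hx : 0 < x) (h : IsSquare (x ^ 2 * y)) : IsSquare y := by
  obtain ⟨z, hz⟩ := h
  have h1 : x ^ 2 ∣ z ^ 2 := ⟨y, by rw [pow_two z, ← hz]⟩
  have h2 : x ∣ z := (Nat.pow_dvd_pow_iff (by norm_num)).1 h1
  obtain ⟨w, rfl⟩ := h2
  refine ⟨w, ?_⟩
  have : x ^ 2 * y = x ^ 2 * (w * w) := by rw [hz]; ring
  exact Nat.eq_of_mul_eq_mul_left (by positivity) this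

/-- case `s = 1`, `R` odd -/
lemma Hyp.case_one_odd (h : Hyp a b) {R : ℕ} (hR : Squarefree R) (h1 : 1 < R) (h2 : R % 2 = 1) :
    ¬ IsSquare (Z a b 1 R) := by
  apply not_sq_mod4
  have hc := even_card_divisors hR h1
  have key : ((Z a b 1 R : ℤ) : ZMod 4) = 3 := by
    rw [h.Z_eq one_pos]
    push_cast
    have hm : 1 ∈ R.divisors := Nat.one_mem_divisors.2 (by omega)
    rw [← Finset.mul_prod_erase _ _ hm]
    have h3 : ∏ u ∈ R.divisors.erase 1, ((D a b (1 * u) : ℤ) : ZMod 4) =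
        ∏ u ∈ R.divisors.erase 1, (3 : ZMod 4) := by
      refine Finset.prod_congr rfl fun u hu => ?_
      rw [Finset.mem_erase, Nat.mem_divisors] at hu
      obtain ⟨hu1, hu2, hu3⟩ := hu
      have hu4 : u % 2 = 1 := by
        rcases Nat.mod_two_eq_zero_or_one u with h5 | h5
        · exact absurd ((Nat.dvd_of_mod_eq_zero h5).trans hu2) (by omega)
        · exact h5
      have hu5 : 0 < u := Nat.pos_of_dvd_of_pos hu2 (by omega)
      have hu6 := D_odd_mod (a := a) h.ha h.hb hu4 (by omega)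
      have hb := h.hb
      rw [one_mul]
      exact_mod_cast (ZMod.intCast_eq_intCast_iff' _ 3 4).2 (by push_cast; omega)
    rw [h3, Finset.prod_const, Finset.card_erase_of_mem hm]
    simp only [mul_one, D_one, Int.cast_one, one_mul]
    obtain ⟨c, hc⟩ := hc
    have hpos : 0 < R.divisors.card := Finset.card_pos.2 ⟨1, hm⟩
    obtain ⟨c', rfl⟩ : ∃ c', c = c' + 1 := ⟨c - 1, by omega⟩
    rw [hc, show c' + 1 + (c' + 1) - 1 = 2 * c' + 1 by omega, pow_add, pow_mul]
    have : (3 : ZMod 4) ^ 2 = 1 := by decide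
    rw [this]
    simp
  have h3 : ((Z a b 1 R : ℤ) : ZMod 4) = ((3 : ℤ) : ZMod 4) := by rw [key]; rfl
  have := (ZMod.intCast_eq_intCast_iff' _ _ 4).1 h3
  push_cast at this
  omega

lemma natAbs_half {x : ℤ} (h : 0 < x) (h2 : x % 4 = 2) :
    x = 2 * ((x / 2).natAbs : ℤ) := by
  have : 0 < x / 2 := by omega
  rw [Int.natAbs_of_nonneg this.le]
  omega

/-- case `s = 1`, `R = 2 R'` -/
lemma Hyp.case_one_even (h : Hyp a b) {R' : ℕ} (hR : Squarefree (2 * R')) (h1 : 1 < R') :
    ¬ IsSquare (Z a b 1 (2 * R')) := by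
  have hRo : R' % 2 = 1 := by
    rcases Nat.mod_two_eq_zero_or_one R' with h5 | h5
    · exfalso
      have h6 : 2 * 2 ∣ 2 * R' := Nat.mul_dvd_mul_left 2 (Nat.dvd_of_mod_eq_zero h5)
      have := hR 2 h6
      simp at this
    · exact h5
  have hR' : Squarefree R' := hR.squarefree_of_dvd (dvd_mul_left _ _)
  have hfo : (2 * R').divisors.filter (fun u => u % 2 = 1) = R'.divisors := by
    ext u
    simp only [Finset.mem_filter, Nat.mem_divisors]
    constructor
    · rintro ⟨⟨h3, h4⟩, h5⟩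
      refine ⟨?_, by omega⟩
      apply Nat.Coprime.dvd_of_dvd_mul_left _ h3
      exact Nat.coprime_two_right.mpr (Nat.odd_iff.2 h5)
    · rintro ⟨h3, h4⟩
      refine ⟨⟨h3.mul_left 2, by omega⟩, ?_⟩
      rcases Nat.mod_two_eq_zero_or_one u with h5 | h5
      · exfalso
        have := (Nat.dvd_of_mod_eq_zero h5).trans h3
        omega
      · exact h5
  set E := (2 * R').divisors.filter (fun u => ¬ u % 2 = 1) with hE
  have hc1 := even_card_divisors hR' h1
  have hc2 := even_card_divisors hR (by omega)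
  have hc3 := Finset.card_filter_add_card_filter_not (s := (2 * R').divisors) (fun u => u % 2 = 1)
  rw [hfo, ← hE] at hc3
  have hcE : Even E.card := by
    rw [← hc3] at hc2
    exact (Nat.even_add.mp hc2).mp hc1
  obtain ⟨c, hc⟩ := hcE
  -- the product
  set P := ∏ u ∈ R'.divisors, (D a b (1 * u)).natAbs with hP
  set Q := ∏ u ∈ E, (D a b (1 * u) / 2).natAbs with hQ
  have hmem : ∀ u ∈ E, 2 ≤ u ∧ u % 2 = 0 := by
    intro u hu
    rw [hE, Finset.mem_filter, Nat.mem_divisors] at hu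
    have : u ≠ 0 := by
      rintro rfl
      have := hu.1.1
      simp at this
      omega
    omega
  have hZ : Z a b 1 (2 * R') = (2 ^ c) ^ 2 * (P * Q) := by
    have h3 : ∏ u ∈ E, (D a b (1 * u)).natAbs = 2 ^ E.card * Q := by
      rw [hQ, ← Finset.prod_const, ← Finset.prod_mul_distrib]
      refine Finset.prod_congr rfl fun u hu => ?_
      obtain ⟨h4, h5⟩ := hmem u hu
      have h6 := natAbs_half (h.posD (1 * u) (by omega))
        (D_even_mod4 h.ha h.hb (m := 1 * u) (by omega) (by omega))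
      omega
    unfold Z
    rw [← Finset.prod_filter_mul_prod_filter_not (2 * R').divisors (fun u => u % 2 = 1), hfo,
      ← hE, h3, hc, ← hP]
    ring
  rw [hZ]
  intro hsq
  have hsq' := sq_of_mul (by positivity) hsq
  revert hsq'
  apply not_sq_mod4
  have hP4 : ((P : ℕ) : ZMod 4) = 3 := by
    have h3 : P = Z a b 1 R' := rfl
    have h4 : ((Z a b 1 R' : ℤ) : ZMod 4) = 3 := by
      rw [h.Z_eq one_pos]
      push_cast
      have hm : 1 ∈ R'.divisors := Nat.one_mem_divisors.2 (by omega)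
      rw [← Finset.mul_prod_erase _ _ hm]
      have h3 : ∏ u ∈ R'.divisors.erase 1, ((D a b (1 * u) : ℤ) : ZMod 4) =
          ∏ u ∈ R'.divisors.erase 1, (3 : ZMod 4) := by
        refine Finset.prod_congr rfl fun u hu => ?_
        rw [Finset.mem_erase, Nat.mem_divisors] at hu
        obtain ⟨hu1, hu2, hu3⟩ := hu
        have hu4 : u % 2 = 1 := by
          rcases Nat.mod_two_eq_zero_or_one u with h5 | h5
          · exact absurd ((Nat.dvd_of_mod_eq_zero h5).trans hu2) (by omega)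
          · exact h5
        have hu5 : 0 < u := Nat.pos_of_dvd_of_pos hu2 (by omega)
        have hu6 := D_odd_mod (a := a) h.ha h.hb hu4 (by omega)
        have hb := h.hb
        rw [one_mul]
        exact_mod_cast (ZMod.intCast_eq_intCast_iff' _ 3 4).2 (by push_cast; omega)
      rw [h3, Finset.prod_const, Finset.card_erase_of_mem hm]
      simp only [mul_one, D_one, Int.cast_one, one_mul]
      obtain ⟨c, hc⟩ := hc1
      have hpos : 0 < R'.divisors.card := Finset.card_pos.2 ⟨1, hm⟩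
      obtain ⟨c', rfl⟩ : ∃ c', c = c' + 1 := ⟨c - 1, by omega⟩
      rw [hc, show c' + 1 + (c' + 1) - 1 = 2 * c' + 1 by omega, pow_add, pow_mul]
      have : (3 : ZMod 4) ^ 2 = 1 := by decide
      rw [this]
      simp
    rw [h3]
    exact_mod_cast h4
  have hQ4 : ((Q : ℕ) : ZMod 4) = 1 := by
    have h3 : ((Q : ℕ) : ZMod 4) = ∏ u ∈ E, (((a + b) / 2 : ℤ) : ZMod 4) := by
      rw [hQ, Nat.cast_prod]
      refine Finset.prod_congr rfl fun u hu => ?_
      obtain ⟨h4, h5⟩ := hmem u hu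
      have h6 := half_mod4 h.ha h.hb (m := 1 * u) (by omega) (by omega)
      have h7 := h.posD (1 * u) (by omega)
      have h8 : (((D a b (1 * u) / 2).natAbs : ℕ) : ZMod 4) =
          ((D a b (1 * u) / 2 : ℤ) : ZMod 4) := by
        have : (((D a b (1 * u) / 2).natAbs : ℕ) : ℤ) = D a b (1 * u) / 2 :=
          Int.natAbs_of_nonneg (by omega)
        rw [← Int.cast_natCast, this]
      rw [h8]
      exact (ZMod.intCast_eq_intCast_iff' _ _ 4).2 (by push_cast; exact h6)
    rw [h3, Finset.prod_const, hc, ← two_mul, pow_mul]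
    have h4 : (((a + b) / 2 : ℤ) : ZMod 4) ^ 2 = 1 := by
      have ha := h.ha
      have hb := h.hb
      have h5 : ((a + b) / 2) % 4 = 1 ∨ ((a + b) / 2) % 4 = 3 := by omega
      rcases h5 with h5 | h5
      · have : (((a + b) / 2 : ℤ) : ZMod 4) = ((1 : ℤ) : ZMod 4) :=
          (ZMod.intCast_eq_intCast_iff' _ _ 4).2 (by push_cast; omega)
        rw [this]; decide
      · have : (((a + b) / 2 : ℤ) : ZMod 4) = ((3 : ℤ) : ZMod 4) :=
          (ZMod.intCast_eq_intCast_iff' _ _ 4).2 (by push_cast; omega)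
        rw [this]; decide
    rw [h4, one_pow]
  have h5 : ((P * Q : ℕ) : ZMod 4) = ((3 : ℕ) : ZMod 4) := by
    push_cast
    rw [hP4, hQ4]
    decide
  have := (ZMod.natCast_eq_natCast_iff' _ _ 4).1 h5
  omega

/-- case `s = 2` -/
lemma Hyp.case_two (h : Hyp a b) {R : ℕ} (hR : Squarefree R) (h1 : 1 < R) :
    ¬ IsSquare (Z a b 2 R) := by
  have hc := even_card_divisors hR h1
  obtain ⟨c, hc⟩ := hc
  set Q := ∏ u ∈ R.divisors, (D a b (2 * u) / 2).natAbs with hQ
  have hZ : Z a b 2 R = (2 ^ c) ^ 2 * Q := by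
    have h3 : Z a b 2 R = 2 ^ R.divisors.card * Q := by
      rw [hQ, ← Finset.prod_const, ← Finset.prod_mul_distrib]
      refine Finset.prod_congr rfl fun u hu => ?_
      have h4 : 0 < u := Nat.pos_of_mem_divisors hu
      have h6 := natAbs_half (h.posD (2 * u) (by omega))
        (D_even_mod4 h.ha h.hb (m := 2 * u) (by omega) (by omega))
      omega
    rw [h3, hc]
    ring
  rw [hZ]
  intro hsq
  have hsq' := sq_of_mul (by positivity) hsq
  revert hsq'
  apply not_sq_mod8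
  have hm : 1 ∈ R.divisors := Nat.one_mem_divisors.2 (by omega)
  have hpos : 0 < R.divisors.card := Finset.card_pos.2 ⟨1, hm⟩
  obtain ⟨c', rfl⟩ : ∃ c', c = c' + 1 := ⟨c - 1, by omega⟩
  have cast : ∀ u : ℕ, 0 < u → (((D a b (2 * u) / 2).natAbs : ℕ) : ZMod 8) =
      ((D a b (2 * u) / 2 : ℤ) : ZMod 8) := by
    intro u hu
    have h7 := h.posD (2 * u) (by omega)
    have : (((D a b (2 * u) / 2).natAbs : ℕ) : ℤ) = D a b (2 * u) / 2 :=
      Int.natAbs_of_nonneg (by omega)
    rw [← Int.cast_natCast, this]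
  have key : ((Q : ℕ) : ZMod 8) = ((5 : ℕ) : ZMod 8) := by
    rw [hQ, Nat.cast_prod, ← Finset.mul_prod_erase _ _ hm]
    have h3 : ∏ u ∈ R.divisors.erase 1, (((D a b (2 * u) / 2).natAbs : ℕ) : ZMod 8) =
        ∏ u ∈ R.divisors.erase 1, (((a + b) / 2 + 4 : ℤ) : ZMod 8) := by
      refine Finset.prod_congr rfl fun u hu => ?_
      rw [Finset.mem_erase, Nat.mem_divisors] at hu
      obtain ⟨hu1, hu2, hu3⟩ := hu
      have hu5 : 0 < u := Nat.pos_of_dvd_of_pos hu2 (by omega)
      have hu6 := D_even_mod (a := a) h.ha h.hb (m := 2 * u) (by omega) (by omega)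
      have hb := h.hb
      have ha := h.ha
      rw [cast u hu5]
      exact (ZMod.intCast_eq_intCast_iff' _ _ 8).2 (by push_cast; omega)
    rw [h3, Finset.prod_const, Finset.card_erase_of_mem hm, hc, cast 1 one_pos, mul_one, D_two,
      show c' + 1 + (c' + 1) - 1 = 2 * c' + 1 by omega, pow_add, pow_mul]
    have ha := h.ha
    have hb := h.hb
    have h5 : ((a + b) / 2) % 8 = 1 ∨ ((a + b) / 2) % 8 = 3 ∨ ((a + b) / 2) % 8 = 5 ∨
      ((a + b) / 2) % 8 = 7 := by omega
    have h6 : ∀ z : ℤ, ((a + b) / 2) % 8 = z % 8 → (((a + b) / 2 : ℤ) : ZMod 8) = (z : ZMod 8) :=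
      fun z hz => (ZMod.intCast_eq_intCast_iff' _ _ 8).2 (by push_cast; exact hz)
    rw [Int.cast_add]
    rcases h5 with h5 | h5 | h5 | h5
    · rw [h6 1 (by omega)]
      have : (((1 : ℤ) : ZMod 8) + ((4 : ℤ) : ZMod 8)) ^ 2 = 1 := by decide
      rw [this, one_pow, one_mul]
      decide
    · rw [h6 3 (by omega)]
      have : (((3 : ℤ) : ZMod 8) + ((4 : ℤ) : ZMod 8)) ^ 2 = 1 := by decide
      rw [this, one_pow, one_mul]
      decide
    · rw [h6 5 (by omega)]
      have : (((5 : ℤ) : ZMod 8) + ((4 : ℤ) : ZMod 8)) ^ 2 = 1 := by decide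
      rw [this, one_pow, one_mul]
      decide
    · rw [h6 7 (by omega)]
      have : (((7 : ℤ) : ZMod 8) + ((4 : ℤ) : ZMod 8)) ^ 2 = 1 := by decide
      rw [this, one_pow, one_mul]
      decide
  have := (ZMod.natCast_eq_natCast_iff' _ _ 8).1 key
  omega

/-! ### reciprocity -/

lemma jac_b {b : ℤ} (hb : b % 4 = 3) {h : ℕ} (ho : h % 2 = 1) :
    jacobiSym b h = jacobiSym (-1) h * jacobiSym (h : ℤ) b.natAbs := by
  have hoo : Odd h := Nat.odd_iff.2 ho
  rcases le_total 0 b with h0 | h0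
  · have h1 : (b.natAbs : ℤ) = b := Int.natAbs_of_nonneg h0
    have h2 : b.natAbs % 4 = 3 := by omega
    have h3 : h % 4 = 1 ∨ h % 4 = 3 := by omega
    rcases h3 with h3 | h3
    · rw [jac_neg_one_of_one h3, one_mul]
      nth_rw 1 [← h1]
      exact jacobiSym.quadratic_reciprocity_one_mod_four' (Nat.odd_iff.2 (by omega)) h3
    · rw [jac_neg_one_of_three h3, neg_one_mul]
      nth_rw 1 [← h1]
      exact jacobiSym.quadratic_reciprocity_three_mod_four h2 h3
  · have h1 : b = -1 * (b.natAbs : ℤ) := by omega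
    have h2 : b.natAbs % 4 = 1 := by omega
    nth_rw 1 [h1]
    rw [jacobiSym.mul_left]
    congr 1
    exact jacobiSym.quadratic_reciprocity_one_mod_four h2 hoo

lemma jac_D_b (h : IsCoprime a b) {m : ℕ} (hm : 2 ≤ m) :
    jacobiSym (D a b m) b.natAbs = jacobiSym a b.natAbs := by
  obtain ⟨m, rfl⟩ : ∃ k, m = k + 1 := ⟨m - 1, by omega⟩
  have h1 : D a b (m + 1) ≡ a * (D a b m) ^ 2 [ZMOD (b.natAbs : ℤ)] := by
    apply Int.ModEq.symm
    apply Int.modEq_iff_dvd.mpr
    rw [D_succ, add_sub_cancel_left]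
    refine (Int.natAbs_dvd.2 dvd_rfl).trans (dvd_pow_self b ?_)
    have := two_pow_ge (m := m) (k := 1) (by omega)
    omega
  rw [jac_congr h1, jacobiSym.mul_left, jac_sq_pow _ 2 even_two, mul_one]
  have h2 := cop_b h (m := m) (by omega)
  rcases Int.natAbs_eq b with h3 | h3
  · rwa [← h3]
  · have : (b.natAbs : ℤ) = -b := by omega
    rw [this]
    exact h2.neg_right

lemma jac_a_b (h : IsCoprime a b) : jacobiSym a b.natAbs * jacobiSym a b.natAbs = 1 := by
  apply jac_sq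
  rcases Int.natAbs_eq b with h3 | h3
  · rwa [← h3]
  · have : (b.natAbs : ℤ) = -b := by omega
    rw [this]
    exact h.neg_right

lemma chi8_natAbs (b : ℤ) (z : ℕ) (h : b % 8 = (z : ℤ) % 8) (hz : z % 2 = 1) :
    jacobiSym 2 b.natAbs = jacobiSym 2 z := by
  have h1 : Odd b.natAbs := Nat.odd_iff.2 (by omega)
  rw [jacobiSym.at_two h1, jacobiSym.at_two (Nat.odd_iff.2 hz), ZMod.χ₈_nat_mod_eight,
    ZMod.χ₈_nat_mod_eight z]
  have h2 : b.natAbs % 8 = z % 8 ∨ (b.natAbs % 8 = (8 - z % 8)) := by omega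
  rcases h2 with h2 | h2
  · rw [h2]
  · rw [h2]
    have h3 : z % 8 = 1 ∨ z % 8 = 3 ∨ z % 8 = 5 ∨ z % 8 = 7 := by omega
    rcases h3 with h3 | h3 | h3 | h3 <;> rw [h3] <;> decide

lemma jac_two_congr {x y : ℕ} (h : x % 8 = y % 8) (hx : x % 2 = 1) :
    jacobiSym 2 x = jacobiSym 2 y := by
  rw [jacobiSym.at_two (Nat.odd_iff.2 hx), jacobiSym.at_two (Nat.odd_iff.2 (by omega)),
    ZMod.χ₈_nat_mod_eight, ZMod.χ₈_nat_mod_eight y, h]

lemma jac_neg_one_congr {x y : ℕ} (h : x % 4 = y % 4) (hx : x % 2 = 1) :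
    jacobiSym (-1) x = jacobiSym (-1) y := by
  rw [jacobiSym.at_neg_one (Nat.odd_iff.2 hx), jacobiSym.at_neg_one (Nat.odd_iff.2 (by omega)),
    ZMod.χ₄_nat_mod_four, ZMod.χ₄_nat_mod_four y, h]

/-- case `s ≥ 3` odd -/
lemma Hyp.case_odd (h : Hyp a b) {s R : ℕ} (hR : Squarefree R) (h1 : 1 < R) (hs : 3 ≤ s)
    (hs2 : s % 2 = 1) : ¬ IsSquare (Z a b s R) := by
  have ha := h.ha
  have hb := h.hb
  obtain ⟨c, hc⟩ := even_card_divisors hR h1
  have hm : 1 ∈ R.divisors := Nat.one_mem_divisors.2 (by omega)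
  have hpos : 0 < R.divisors.card := Finset.card_pos.2 ⟨1, hm⟩
  set M : ℕ := (N a b (s + 2)).natAbs with hM
  have hMN : (M : ℤ) = N a b (s + 2) := Int.natAbs_of_nonneg (h.posN s).le
  have hN8 : N a b (s + 2) % 8 = (a + 2 * b + 4) % 8 := by
    have := N_oo2 (a := a) (b := b) (by omega) (by omega) (by omega) (r := s) (by omega)
    rw [Int.ModEq] at this
    omega
  have hM4 : M % 4 = 1 := by omega
  have hMo : Odd M := Nat.odd_iff.2 (by omega)
  have hdvd : (M : ℤ) ∣ N a b (s + 2) := by rw [hMN]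
  -- D_s, D_{s+1}
  set x : ℕ := (D a b s).natAbs with hx
  have hxD : (x : ℤ) = D a b s := Int.natAbs_of_nonneg (h.posD s (by omega)).le
  have hx8 := D_odd_mod (a := a) (b := b) ha hb hs2 hs
  have hxo : x % 2 = 1 := by omega
  set o : ℕ := (D a b (s + 1) / 2).natAbs with ho
  have hoD : D a b (s + 1) = 2 * (o : ℤ) := natAbs_half (h.posD (s + 1) (by omega))
        (D_even_mod4 ha hb (m := s + 1) (by omega) (by omega))
  have ho16 := D_even_mod (a := a) (b := b) ha hb (m := s + 1) (by omega) (by omega)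
  have hoo : o % 2 = 1 := by omega
  -- symbol of Z
  have hZ : jacobiSym (Z a b s R : ℤ) M = jacobiSym (D a b s) M * jacobiSym (D a b (s + 1)) M := by
    rw [h.Z_eq (by omega), jac_prod, ← Finset.mul_prod_erase _ _ hm, mul_one]
    have h3 : ∏ u ∈ R.divisors.erase 1, jacobiSym (D a b (s * u)) M =
        ∏ u ∈ R.divisors.erase 1, jacobiSym (D a b (s + 2)) M := by
      refine Finset.prod_congr rfl fun u hu => ?_
      rw [Finset.mem_erase] at hu
      have hu2 := Nat.pos_of_mem_divisors hu.2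
      have hu3 : 2 ≤ u := by omega
      have hu4 : s * 2 ≤ s * u := Nat.mul_le_mul_left s hu3
      exact jac_tail h.cop s hdvd (by omega)
    rw [h3, Finset.prod_const, Finset.card_erase_of_mem hm, hc]
    have hsq : jacobiSym (D a b (s + 2)) M * jacobiSym (D a b (s + 2)) M = 1 := by
      apply jac_sq
      rw [hMN]
      exact (cop_N_self h.cop s).symm
    rw [pow_odd_of_sq hsq ⟨c - 1, by omega⟩, jac_first h.cop s (by omega) hdvd,
      jac_neg_one_of_one hM4, one_mul]
  -- the symbol of D_s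
  have hA : jacobiSym (D a b s) M = jacobiSym a b.natAbs := by
    rw [← hxD, jacobiSym.quadratic_reciprocity_one_mod_four' (Nat.odd_iff.2 hxo) hM4, hMN]
    have hNmod : N a b (s + 2) ≡ b ^ (2 ^ (s + 1) - 2) * (a + 2 * b) [ZMOD (x : ℤ)] := by
      rw [hxD, N_succ, D_succ (s + 1), D_succ s]
      have h5 : 2 ^ (s + 1) - 2 = 2 * (2 ^ s - 1) := by
        rw [pow_succ]; omega
      have h6 : 2 ^ (s + 1) - 1 = 2 * (2 ^ s - 1) + 1 := by
        have : 1 ≤ 2 ^ s := Nat.one_le_two_pow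
        rw [pow_succ]; omega
      have h7 : b ^ (2 ^ s) = b ^ (2 ^ s - 1) * b := by
        rw [← pow_succ]
        congr 1
        have : 1 ≤ 2 ^ s := Nat.one_le_two_pow
        omega
      rw [h5, h6, h7, pow_succ b, pow_mul' b 2]
      apply Int.ModEq.symm
      apply Int.modEq_iff_dvd.mpr
      refine ⟨a ^ 3 * D a b s ^ 3 + 2 * a ^ 2 * D a b s * b ^ (2 ^ s - 1) +
        a * b * D a b s * b ^ (2 ^ s - 1), ?_⟩
      ring
    rw [jac_congr hNmod, jacobiSym.mul_left, jac_sq_pow, one_mul]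
    · set y : ℕ := (a + 2 * b).natAbs with hy
      have hy0 : 0 < a + 2 * b := by simpa using h.posN 0
      have hyN : (y : ℤ) = a + 2 * b := Int.natAbs_of_nonneg hy0.le
      have hy4 : y % 4 = 1 := by omega
      rw [← hyN, jacobiSym.quadratic_reciprocity_one_mod_four hy4 (Nat.odd_iff.2 hxo), hxD]
      have hyd : (y : ℤ) ∣ N a b (0 + 2) := by rw [hyN]; simp
      rw [jac_tail h.cop 0 hyd (by omega : 0 + 2 ≤ s), jac_first0 (by simpa using hyd),
        ← neg_one_mul b, jacobiSym.mul_left, jac_neg_one_of_one hy4, one_mul,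
        jac_b hb (by omega), jac_neg_one_of_one hy4, one_mul, hyN]
      apply jac_congr
      apply Int.modEq_iff_dvd.mpr
      refine (Int.natAbs_dvd.2 dvd_rfl).trans ⟨-2, by ring⟩
    · rw [hxD]
      exact (cop_b h.cop (by omega)).symm
    · exact ⟨2 ^ s - 1, by rw [pow_succ]; omega⟩
  have hB : jacobiSym (D a b (s + 1)) M = jacobiSym 2 M * (jacobiSym (-1) o *
      (jacobiSym 2 b.natAbs * jacobiSym a b.natAbs)) := by
    rw [hoD, jacobiSym.mul_left]
    congr 1
    rw [jacobiSym.quadratic_reciprocity_one_mod_four' (Nat.odd_iff.2 hoo) hM4, hMN]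
    have hNmod : N a b (s + 2) ≡ b ^ (2 ^ (s + 1) - 2) * b [ZMOD (o : ℤ)] := by
      have h8 : N a b (s + 2) ≡ b ^ (2 ^ (s + 1) - 2) * b [ZMOD D a b (s + 1)] := by
        rw [N_succ, D_succ (s + 1), ← pow_succ]
        have h6 : 2 ^ (s + 1) - 2 + 1 = 2 ^ (s + 1) - 1 := by
          have : 1 ≤ 2 ^ s := Nat.one_le_two_pow
          rw [pow_succ]; omega
        rw [h6]
        apply Int.ModEq.symm
        apply Int.modEq_iff_dvd.mpr
        exact ⟨a * D a b (s + 1) + b ^ (2 ^ s), by ring⟩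
      exact h8.of_dvd (by rw [hoD]; exact dvd_mul_left _ _)
    rw [jac_congr hNmod, jacobiSym.mul_left, jac_sq_pow, one_mul, jac_b hb hoo]
    · congr 1
      have h9 : jacobiSym (D a b (s + 1)) b.natAbs = jacobiSym a b.natAbs :=
        jac_D_b h.cop (by omega)
      rw [hoD, jacobiSym.mul_left] at h9
      have h10 : jacobiSym 2 b.natAbs * jacobiSym 2 b.natAbs = 1 := by
        apply jac_sq
        rw [Int.isCoprime_iff_gcd_eq_one]
        have : b.natAbs % 2 = 1 := by omega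
        exact Nat.coprime_two_left.2 (Nat.odd_iff.2 this)
      rw [← h9]
      linear_combination (-jacobiSym (o : ℤ) b.natAbs) * h10
    · have h11 : (o : ℤ) ∣ D a b (s + 1) := by rw [hoD]; exact dvd_mul_left _ _
      exact ((cop_b h.cop (by omega : 1 ≤ s + 1)).of_isCoprime_of_dvd_left h11).symm
    · exact ⟨2 ^ s - 1, by rw [pow_succ]; omega⟩
  have haa := jac_a_b h.cop
  have hfin : jacobiSym 2 M * (jacobiSym (-1) o * jacobiSym 2 b.natAbs) = -1 := by
    have ha8 : a % 8 = 3 ∨ a % 8 = 7 := by omega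
    have hb8 : b % 8 = 3 ∨ b % 8 = 7 := by omega
    rcases ha8 with ha8 | ha8 <;> rcases hb8 with hb8 | hb8
    · rw [chi8_natAbs b 3 (by omega) (by norm_num),
        jac_two_congr (x := M) (y := 5) (by omega) (by omega),
        jac_neg_one_congr (x := o) (y := 3) (by omega) hoo]
      rw [jacobiSym.at_two (by decide), jacobiSym.at_two (by decide),
        jacobiSym.at_neg_one (by decide)]
      decide
    · rw [chi8_natAbs b 7 (by omega) (by norm_num),
        jac_two_congr (x := M) (y := 5) (by omega) (by omega),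
        jac_neg_one_congr (x := o) (y := 1) (by omega) hoo]
      rw [jacobiSym.at_two (by decide), jacobiSym.at_two (by decide),
        jacobiSym.at_neg_one (by decide)]
      decide
    · rw [chi8_natAbs b 3 (by omega) (by norm_num),
        jac_two_congr (x := M) (y := 1) (by omega) (by omega),
        jac_neg_one_congr (x := o) (y := 1) (by omega) hoo]
      rw [jacobiSym.at_two (by decide), jacobiSym.at_two (by decide),
        jacobiSym.at_neg_one (by decide)]
      decide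
    · rw [chi8_natAbs b 7 (by omega) (by norm_num),
        jac_two_congr (x := M) (y := 1) (by omega) (by omega),
        jac_neg_one_congr (x := o) (y := 3) (by omega) hoo]
      rw [jacobiSym.at_two (by decide), jacobiSym.at_two (by decide),
        jacobiSym.at_neg_one (by decide)]
      decide
  apply not_sq_of_jac (M := M)
  rw [hZ, hA, hB]
  linear_combination (jacobiSym 2 M * (jacobiSym (-1) o * jacobiSym 2 b.natAbs)) * haa + hfin

/-! ### the case `s ≥ 4` even: periodic moduli -/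

/-- odd part of `D_m` -/
def O (a b : ℤ) (m : ℕ) : ℕ := if m % 2 = 0 then (D a b m / 2).natAbs else (D a b m).natAbs

/-- numerator of the symbol -/
def K (a b : ℤ) (m : ℕ) : ℤ := if m = 1 then 1 else D a b m * b

/-- the symbol `J(m, k)` -/
def J (a b : ℤ) (m k : ℕ) : ℤ := jacobiSym (K a b m) (O a b k)

lemma Hyp.O_even (h : Hyp a b) {m : ℕ} (hm : m % 2 = 0) (h2 : 2 ≤ m) :
    D a b m = 2 * (O a b m : ℤ) ∧ O a b m % 2 = 1 := by
  have h3 : O a b m = (D a b m / 2).natAbs := by rw [O, if_pos hm]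
  have h4 := D_even_mod4 h.ha h.hb hm h2
  have h5 := natAbs_half (h.posD m (by omega)) h4
  rw [h3]
  exact ⟨h5, by omega⟩

lemma Hyp.O_odd (h : Hyp a b) {m : ℕ} (hm : m % 2 = 1) :
    D a b m = (O a b m : ℤ) := by
  have h3 : O a b m = (D a b m).natAbs := by rw [O, if_neg (by omega)]
  rw [h3]
  exact (Int.natAbs_of_nonneg (h.posD m (by omega)).le).symm

lemma Hyp.O_odd_mod (h : Hyp a b) {m : ℕ} (hm : m % 2 = 1) (h3 : 3 ≤ m) :
    O a b m % 4 = 3 := by
  have h4 := D_odd_mod (a := a) h.ha h.hb hm h3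
  have := h.O_odd hm
  have := h.hb
  omega

lemma Hyp.O_dvd (h : Hyp a b) {m : ℕ} (hm : 1 ≤ m) : (O a b m : ℤ) ∣ D a b m := by
  rcases Nat.mod_two_eq_zero_or_one m with h1 | h1
  · rw [(h.O_even h1 (by omega)).1]
    exact dvd_mul_left _ _
  · rw [h.O_odd h1]

lemma Hyp.cop_b_O (h : Hyp a b) {m : ℕ} (hm : 1 ≤ m) : IsCoprime b (O a b m : ℤ) :=
  ((cop_b h.cop hm).of_isCoprime_of_dvd_left (h.O_dvd hm)).symm

lemma Hyp.J_period (h : Hyp a b) {m k : ℕ} (hm : 1 ≤ m) (hk : 1 ≤ k) :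
    J a b (m + k) k = J a b m k := by
  obtain ⟨j, rfl⟩ : ∃ j, m = j + 1 := ⟨m - 1, by omega⟩
  have h1 := rigid (a := a) (b := b) k j
  have h2 : D a b (k + (j + 1)) ≡ b ^ (2 ^ j * (2 ^ k - 1)) * D a b (j + 1)
      [ZMOD (O a b k : ℤ)] := by
    refine h1.of_dvd ((h.O_dvd hk).trans (dvd_pow_self _ (by norm_num)))
  unfold J
  rw [K, if_neg (by omega), add_comm (j + 1) k, jac_congr (h2.mul_right b)]
  rcases Nat.eq_zero_or_pos j with rfl | hj
  · have h3 : b ^ (2 ^ 0 * (2 ^ k - 1)) * D a b (0 + 1) * b = b ^ (2 ^ k) := by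
      rw [zero_add, D_one, mul_one, pow_zero, one_mul, ← pow_succ]
      congr 1
      have : 1 ≤ 2 ^ k := Nat.one_le_two_pow
      omega
    rw [h3, jac_sq_pow (h.cop_b_O hk)]
    · simp [K]
    · obtain ⟨k, rfl⟩ : ∃ k', k = k' + 1 := ⟨k - 1, by omega⟩
      rw [pow_succ]
      exact even_two.mul_left _
  · rw [mul_assoc, jacobiSym.mul_left, jac_sq_pow (h.cop_b_O hk), one_mul]
    · rw [K, if_neg (by omega)]
    · obtain ⟨j, rfl⟩ : ∃ j', j = j' + 1 := ⟨j - 1, by omega⟩
      rw [pow_succ]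
      exact (even_two.mul_left _).mul_right _

lemma Hyp.J_period_mul (h : Hyp a b) {m k : ℕ} (hm : 1 ≤ m) (hk : 1 ≤ k) (c : ℕ) :
    J a b (m + c * k) k = J a b m k := by
  induction c with
  | zero => simp
  | succ c ih =>
    rw [show m + (c + 1) * k = (m + c * k) + k by ring, h.J_period (by omega) hk, ih]

lemma Hyp.J_modEq (h : Hyp a b) {m m' k : ℕ} (hm : 1 ≤ m) (hm' : 1 ≤ m') (hk : 1 ≤ k)
    (h1 : m ≡ m' [MOD k]) : J a b m k = J a b m' k := by
  wlog hle : m ≤ m' generalizing m m'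
  · exact (this hm' hm h1.symm (by omega)).symm
  · obtain ⟨c, hc⟩ := (Nat.modEq_iff_dvd' hle).1 h1
    have : m' = m + c * k := by rw [mul_comm c k, ← hc]; omega
    rw [this, h.J_period_mul hm hk]

lemma cop_D (h : IsCoprime a b) : ∀ n m k : ℕ, m + k = n → 1 ≤ m → 1 ≤ k → Nat.Coprime m k →
    IsCoprime (D a b m) (D a b k) := by
  intro n
  induction n using Nat.strong_induction_on with
  | _ n ih =>
    intro m k hmk hm hk hc
    rcases lt_trichotomy m k with hlt | rfl | hlt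
    · obtain ⟨j, rfl⟩ : ∃ j, k = m + (j + 1) := ⟨k - m - 1, by omega⟩
      have h1 : Nat.Coprime m (j + 1) := by simpa using hc
      have h2 := ih (m + (j + 1)) (by omega) m (j + 1) rfl hm (by omega) h1
      obtain ⟨q, hq⟩ := Int.modEq_iff_dvd.mp ((rigid (a := a) (b := b) m j).symm)
      have h3 : D a b (m + (j + 1)) = b ^ (2 ^ j * (2 ^ m - 1)) * D a b (j + 1) +
          D a b m * (D a b m * q) := by
        linear_combination hq
      rw [h3]
      refine IsCoprime.add_mul_left_right ?_ _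
      exact IsCoprime.mul_right (IsCoprime.pow_right (cop_b h hm)) h2
    · have : m = 1 := by simpa using hc
      subst this
      simp [isCoprime_one_left]
    · obtain ⟨j, rfl⟩ : ∃ j, m = k + (j + 1) := ⟨m - k - 1, by omega⟩
      have h1 : Nat.Coprime k (j + 1) := by
        have := hc.symm
        simpa using this
      have h2 := ih (k + (j + 1)) (by omega) k (j + 1) rfl hk (by omega) h1
      obtain ⟨q, hq⟩ := Int.modEq_iff_dvd.mp ((rigid (a := a) (b := b) k j).symm)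
      have h3 : D a b (k + (j + 1)) = b ^ (2 ^ j * (2 ^ k - 1)) * D a b (j + 1) +
          D a b k * (D a b k * q) := by
        linear_combination hq
      rw [h3]
      refine IsCoprime.symm (IsCoprime.add_mul_left_right ?_ _)
      exact IsCoprime.mul_right (IsCoprime.pow_right (cop_b h hk)) h2

lemma Hyp.cop_O (h : Hyp a b) {m k : ℕ} (hm : 1 ≤ m) (hk : 1 ≤ k) (hc : Nat.Coprime m k) :
    IsCoprime (D a b m) (O a b k : ℤ) :=
  (cop_D h.cop _ m k rfl hm hk hc).of_isCoprime_of_dvd_right (h.O_dvd hk)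

lemma Hyp.J_sq (h : Hyp a b) {m k : ℕ} (hm : 1 ≤ m) (hk : 1 ≤ k) (hc : Nat.Coprime m k) :
    J a b m k * J a b m k = 1 := by
  unfold J
  apply jac_sq
  rw [K]
  split_ifs with h1
  · exact isCoprime_one_left
  · exact IsCoprime.mul_left (h.cop_O hm hk hc) (h.cop_b_O hk)

lemma Hyp.jac_b_odd (h : Hyp a b) {k : ℕ} (hk : k % 2 = 1) (h3 : 3 ≤ k) :
    jacobiSym b (O a b k) = - jacobiSym a b.natAbs := by
  have h4 := h.O_odd_mod hk h3
  rw [jac_b h.hb (by omega), jac_neg_one_of_three h4, neg_one_mul, ← h.O_odd hk,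
    jac_D_b h.cop (by omega)]

/-- reciprocity, both indices odd -/
lemma Hyp.rec_oo (h : Hyp a b) {m k : ℕ} (hm : m % 2 = 1) (hm3 : 3 ≤ m) (hk : k % 2 = 1)
    (hk3 : 3 ≤ k) : J a b m k = - J a b k m := by
  have h1 : J a b m k = jacobiSym (O a b m : ℤ) (O a b k) * (- jacobiSym a b.natAbs) := by
    rw [J, K, if_neg (by omega), jacobiSym.mul_left, h.jac_b_odd hk hk3, h.O_odd hm]
  have h2 : J a b k m = jacobiSym (O a b k : ℤ) (O a b m) * (- jacobiSym a b.natAbs) := by
    rw [J, K, if_neg (by omega), jacobiSym.mul_left, h.jac_b_odd hm hm3, h.O_odd hk]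
  rw [h1, h2, jacobiSym.quadratic_reciprocity_three_mod_four (h.O_odd_mod hm hm3)
    (h.O_odd_mod hk hk3)]
  ring

lemma jac_two_sq {x : ℕ} (hx : x % 2 = 1) : jacobiSym 2 x * jacobiSym 2 x = 1 := by
  apply jac_sq
  rw [Int.isCoprime_iff_gcd_eq_one]
  exact Nat.coprime_two_left.2 (Nat.odd_iff.2 hx)

lemma jac_neg_one_sq {x : ℕ} : jacobiSym (-1) x * jacobiSym (-1) x = 1 := by
  apply jac_sq
  exact isCoprime_one_left.neg_left

/-- reciprocity, one index odd and one index even -/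
lemma Hyp.rec_oe (h : Hyp a b) {m k : ℕ} (hm : m % 2 = 0) (hm2 : 2 ≤ m) (hk : k % 2 = 1)
    (hk3 : 3 ≤ k) : J a b m k = J a b k m := by
  have hb := h.hb
  obtain ⟨hD, ho⟩ := h.O_even hm hm2
  set x := O a b m with hx
  set y := O a b k with hy
  have hy4 : y % 4 = 3 := h.O_odd_mod hk hk3
  have hyD : D a b k = (y : ℤ) := h.O_odd hk
  have hxo : Odd x := Nat.odd_iff.2 ho
  have h1 : J a b m k = jacobiSym 2 y * jacobiSym (x : ℤ) y * (- jacobiSym a b.natAbs) := by
    rw [J, K, if_neg (by omega), jacobiSym.mul_left, h.jac_b_odd hk hk3, hD, jacobiSym.mul_left]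
  have h2 : J a b k m = jacobiSym (y : ℤ) x * (jacobiSym (-1) x *
      (jacobiSym 2 b.natAbs * jacobiSym a b.natAbs)) := by
    rw [J, K, if_neg (by omega), jacobiSym.mul_left, hyD, ← hx, jac_b hb ho]
    congr 2
    have h9 : jacobiSym (D a b m) b.natAbs = jacobiSym a b.natAbs := jac_D_b h.cop hm2
    rw [hD, jacobiSym.mul_left] at h9
    have h10 := jac_two_sq (x := b.natAbs) (by omega)
    rw [← h9]
    linear_combination (-jacobiSym (x : ℤ) b.natAbs) * h10
  have h3 : jacobiSym (x : ℤ) y = jacobiSym (-1) x * jacobiSym (y : ℤ) x := by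
    have h4 : x % 4 = 1 ∨ x % 4 = 3 := by omega
    rcases h4 with h4 | h4
    · rw [jac_neg_one_of_one h4, one_mul]
      exact jacobiSym.quadratic_reciprocity_one_mod_four h4 (Nat.odd_iff.2 (by omega))
    · rw [jac_neg_one_of_three h4, neg_one_mul]
      exact jacobiSym.quadratic_reciprocity_three_mod_four h4 hy4
  have h4 : jacobiSym 2 y = - jacobiSym 2 b.natAbs := by
    have h5 := D_odd_mod (a := a) h.ha h.hb hk hk3
    rw [hyD] at h5
    have hb8 : b % 8 = 3 ∨ b % 8 = 7 := by omega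
    rcases hb8 with hb8 | hb8
    · rw [chi8_natAbs b 3 (by omega) (by norm_num),
        jac_two_congr (x := y) (y := 7) (by omega) (by omega)]
      rw [jacobiSym.at_two (by decide), jacobiSym.at_two (by decide)]
      decide
    · rw [chi8_natAbs b 7 (by omega) (by norm_num),
        jac_two_congr (x := y) (y := 3) (by omega) (by omega)]
      rw [jacobiSym.at_two (by decide), jacobiSym.at_two (by decide)]
      decide
  rw [h1, h2, h3, h4]
  ring

/-- the product of the symbols of `k` and `-k` modulo an even index -/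
lemma Hyp.F_neg (h : Hyp a b) {M k : ℕ} (hM : M % 2 = 0) (hk3 : 3 ≤ k) (hkM : k + 3 ≤ M)
    (hc : Nat.Coprime k M) : J a b k M * J a b (M - k) M = -1 := by
  have hk : k % 2 = 1 := by
    rcases Nat.mod_two_eq_zero_or_one k with h1 | h1
    · exfalso
      have h2 := Nat.dvd_gcd (Nat.dvd_of_mod_eq_zero h1) (Nat.dvd_of_mod_eq_zero hM)
      rw [hc] at h2
      omega
    · exact h1
  obtain ⟨l, rfl⟩ : ∃ l, M = k + l := ⟨M - k, by omega⟩
  rw [Nat.add_sub_cancel_left]
  have hl : l % 2 = 1 := by omega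
  have hcl : Nat.Coprime k l := by simpa using hc
  have h1 : J a b k (k + l) = J a b l k := by
    rw [← h.rec_oe (m := k + l) hM (by omega) hk hk3, add_comm k l,
      h.J_period (by omega) (by omega)]
  have h2 : J a b l (k + l) = J a b k l := by
    rw [← h.rec_oe (m := k + l) hM (by omega) hl (by omega),
      h.J_period (by omega) (by omega)]
  rw [h1, h2, h.rec_oo hk hk3 hl (by omega), mul_neg, h.J_sq (by omega) (by omega) hcl.symm]

lemma Hyp.F_one (h : Hyp a b) {M : ℕ} (hM : M % 2 = 0) (h4 : 4 ≤ M) :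
    J a b 1 M * J a b (M - 1) M = 1 := by
  have h1 : ∀ k, J a b 1 k = 1 := by intro k; simp [J, K]
  obtain ⟨l, rfl⟩ : ∃ l, M = 1 + l := ⟨M - 1, by omega⟩
  rw [Nat.add_sub_cancel_left, ← h.rec_oe (m := 1 + l) (k := l) hM (by omega) (by omega) (by omega),
    h.J_period (by omega) (by omega), h1, h1]
  rfl

/-- the choice of `k` -/
lemma exists_k {s R : ℕ} (hR : Squarefree R) (hs : 4 ≤ s) (h2 : s % 2 = 0)
    (hsR : ∀ p, p.Prime → p ∣ s → p ∣ R) : ∃ k, 3 ≤ k ∧ k ≡ 1 [MOD s] ∧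
      Nat.Coprime k (s * R) ∧ ∀ u, u ∣ R → 1 < u → ¬ k ≡ 1 [MOD s * u] := by
  have hR0 : R ≠ 0 := hR.ne_zero
  set g := Nat.gcd s R with hg
  obtain ⟨R₀, hR₀⟩ : g ∣ R := Nat.gcd_dvd_right s R
  have hg0 : 0 < g := Nat.gcd_pos_of_pos_left _ (by omega)
  have hc1 : Nat.Coprime s R₀ := by
    apply Nat.Coprime.symm
    by_contra hcon
    obtain ⟨p, hp, hp1, hp2⟩ := Nat.Prime.not_coprime_iff_dvd.1 hcon
    have hp3 : p ∣ g := Nat.dvd_gcd hp2 (hsR p hp hp2)
    have hp4 : p * p ∣ R := by rw [hR₀]; exact Nat.mul_dvd_mul hp3 hp1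
    have := hR p hp4
    exact hp.one_lt.ne' (Nat.isUnit_iff.1 this)
  have hc2 : Nat.Coprime (s * g) R₀ := by
    apply Nat.Coprime.mul_left hc1
    exact Nat.Coprime.coprime_dvd_left (Nat.gcd_dvd_left s R) hc1
  obtain ⟨k₀, hk1, hk2⟩ := Nat.chineseRemainder hc2 (1 + s) 2
  have hkk : k₀ + s * R ≡ k₀ [MOD s * g * R₀] := by
    rw [mul_assoc, ← hR₀]
    exact Nat.add_modulus_modEq_iff.2 rfl
  set k := k₀ + s * R with hk
  have hk1' : k ≡ 1 + s [MOD s * g] := (hkk.of_mul_right R₀).trans hk1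
  have hk2' : k ≡ 2 [MOD R₀] := (hkk.of_mul_left (s * g)).trans hk2
  have hks : k ≡ 1 [MOD s] := by
    refine (hk1'.of_mul_right g).trans ?_
    exact Nat.add_modulus_modEq_iff.2 rfl
  refine ⟨k, ?_, hks, ?_, ?_⟩
  · have : s * 1 ≤ s * R := Nat.mul_le_mul_left s (Nat.pos_of_ne_zero hR0)
    omega
  · by_contra hcon
    obtain ⟨p, hp, hp1, hp2⟩ := Nat.Prime.not_coprime_iff_dvd.1 hcon
    by_cases hps : p ∣ s
    · have h3 := (hks.of_dvd hps)
      have h4 : 0 ≡ 1 [MOD p] := ((Nat.modEq_zero_iff_dvd.2 hp1).symm).trans h3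
      have h5 := (Nat.modEq_zero_iff_dvd.1 h4.symm)
      exact hp.one_lt.ne' (Nat.dvd_one.1 h5)
    · have hpR : p ∣ R := (hp.dvd_mul.1 hp2).resolve_left hps
      have hpR0 : p ∣ R₀ := by
        rw [hR₀] at hpR
        refine (hp.dvd_mul.1 hpR).resolve_left fun h5 => hps (h5.trans (Nat.gcd_dvd_left s R))
      have h3 := (hk2'.of_dvd hpR0)
      have h4 : 0 ≡ 2 [MOD p] := ((Nat.modEq_zero_iff_dvd.2 hp1).symm).trans h3
      have h5 := (Nat.modEq_zero_iff_dvd.1 h4.symm)
      have h6 : p = 2 := (Nat.prime_dvd_prime_iff_eq hp Nat.prime_two).1 h5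
      exact hps (by rw [h6]; exact Nat.dvd_of_mod_eq_zero h2)
  · intro u hu hu1 hcon
    obtain ⟨p, hp, hpu⟩ := Nat.exists_prime_and_dvd (n := u) (by omega)
    have hpR : p ∣ R := hpu.trans hu
    have hcon' : k ≡ 1 [MOD s * p] := hcon.of_dvd (Nat.mul_dvd_mul_left s hpu)
    by_cases hps : p ∣ s
    · have hpg : p ∣ g := Nat.dvd_gcd hps hpR
      have h3 : k ≡ 1 + s [MOD s * p] := hk1'.of_dvd (Nat.mul_dvd_mul_left s hpg)
      have h4 : 1 + s ≡ 1 + 0 [MOD s * p] := h3.symm.trans hcon'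
      have h5 := Nat.modEq_zero_iff_dvd.1 (Nat.ModEq.add_left_cancel' 1 h4)
      have h6 : s * p ≤ s := Nat.le_of_dvd (by omega) h5
      have h7 := hp.two_le
      nlinarith
    · have hpR0 : p ∣ R₀ := by
        rw [hR₀] at hpR
        refine (hp.dvd_mul.1 hpR).resolve_left fun h5 => hps (h5.trans (Nat.gcd_dvd_left s R))
      have h3 : k ≡ 2 [MOD p] := (hk2'.of_dvd hpR0)
      have h4 : 1 + 1 ≡ 1 + 0 [MOD p] := h3.symm.trans (hcon'.of_mul_left s)
      have h5 := Nat.modEq_zero_iff_dvd.1 (Nat.ModEq.add_left_cancel' 1 h4)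
      exact hp.one_lt.ne' (Nat.dvd_one.1 h5)

/-- case `s ≥ 4` even -/
lemma Hyp.case_even (h : Hyp a b) {s R : ℕ} (hR : Squarefree R) (h1 : 1 < R) (hs : 4 ≤ s)
    (hs2 : s % 2 = 0) (hsR : ∀ p, p.Prime → p ∣ s → p ∣ R) : ¬ IsSquare (Z a b s R) := by
  obtain ⟨k, hk3, hks, hkc, hku⟩ := exists_k hR hs hs2 hsR
  have hn0 : 0 < s * R := Nat.mul_pos (by omega) (by omega)
  -- the companion `k'`
  set k' := (k + 3) * (s * R) - k with hk'
  have hk'k : k + k' = (k + 3) * (s * R) := by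
    have : (k + 3) * 1 ≤ (k + 3) * (s * R) := Nat.mul_le_mul_left _ hn0
    omega
  have hk'3 : 3 ≤ k' := by
    have : (k + 3) * 1 ≤ (k + 3) * (s * R) := Nat.mul_le_mul_left _ hn0
    omega
  have hk'c : Nat.Coprime k' (s * R) := by
    by_contra hcon
    obtain ⟨p, hp, hp1, hp2⟩ := Nat.Prime.not_coprime_iff_dvd.1 hcon
    have h3 : p ∣ k + k' := by rw [hk'k]; exact hp2.mul_left _
    have h4 : p ∣ k := (Nat.dvd_add_left hp1).1 h3
    exact Nat.Prime.not_coprime_iff_dvd.2 ⟨p, hp, h4, hp2⟩ hkc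
  have hodd : ∀ j, Nat.Coprime j (s * R) → j % 2 = 1 := by
    intro j hj
    rcases Nat.mod_two_eq_zero_or_one j with h5 | h5
    · exfalso
      have h6 := Nat.dvd_gcd (Nat.dvd_of_mod_eq_zero h5)
        ((Nat.dvd_of_mod_eq_zero hs2).mul_right R)
      rw [hj] at h6
      omega
    · exact h5
  have hko := hodd k hkc
  have hk'o := hodd k' hk'c
  obtain ⟨c, hc⟩ := even_card_divisors hR h1
  -- the symbol of `Z` as a product of `J`
  have hZJ : ∀ j, 3 ≤ j → j % 2 = 1 → jacobiSym (Z a b s R : ℤ) (O a b j) =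
      ∏ u ∈ R.divisors, J a b (s * u) j := by
    intro j hj3 hjo
    have h5 : ∏ u ∈ R.divisors, J a b (s * u) j =
        ∏ u ∈ R.divisors, jacobiSym (D a b (s * u)) (O a b j) * jacobiSym b (O a b j) := by
      refine Finset.prod_congr rfl fun u hu => ?_
      have hu0 := Nat.pos_of_mem_divisors hu
      have : s * 1 ≤ s * u := Nat.mul_le_mul_left s hu0
      rw [J, K, if_neg (by omega), jacobiSym.mul_left]
    rw [h5, Finset.prod_mul_distrib, Finset.prod_const, hc, ← two_mul, pow_mul, pow_two,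
      jac_sq (h.cop_b_O (by omega)), one_pow, mul_one, h.Z_eq (by omega), jac_prod]
  -- the product over both moduli
  have key : ∀ u ∈ R.divisors, J a b (s * u) k * J a b (s * u) k' = if u = 1 then 1 else -1 := by
    intro u hu
    have hu0 := Nat.pos_of_mem_divisors hu
    have huR : u ∣ R := Nat.dvd_of_mem_divisors hu
    have hsu4 : 4 ≤ s * u := by
      have : s * 1 ≤ s * u := Nat.mul_le_mul_left s hu0
      omega
    have hsu2 : (s * u) % 2 = 0 := by rw [Nat.mul_mod, hs2]; simp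
    have hsud : s * u ∣ s * R := Nat.mul_dvd_mul_left s huR
    rw [h.rec_oe hsu2 (by omega) hko hk3, h.rec_oe hsu2 (by omega) hk'o hk'3]
    -- residues
    have hkc' : Nat.Coprime k (s * u) := Nat.Coprime.coprime_dvd_right hsud hkc
    set k₀ := k % (s * u) with hk₀
    have hk₀lt : k₀ < s * u := Nat.mod_lt _ (by omega)
    have hk₀k : k₀ ≡ k [MOD s * u] := Nat.mod_modEq _ _
    have hk₀c : Nat.Coprime k₀ (s * u) := by
      have := hk₀k.gcd_eq
      rw [Nat.Coprime, this]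
      exact hkc'
    have hk₀1 : 1 ≤ k₀ := by
      rcases Nat.eq_zero_or_pos k₀ with h5 | h5
      · rw [h5, Nat.coprime_zero_left] at hk₀c
        omega
      · exact h5
    have hkk' : k' ≡ s * u - k₀ [MOD s * u] := by
      have h5 : k₀ + k' ≡ k₀ + (s * u - k₀) [MOD s * u] := by
        have h6 : k₀ + (s * u - k₀) = s * u := by omega
        rw [h6]
        have h7 : k₀ + k' ≡ k + k' [MOD s * u] := hk₀k.add_right k'
        refine h7.trans ?_
        rw [hk'k]
        exact (Nat.modEq_zero_iff_dvd.2 (hsud.mul_left _)).trans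
          (Nat.modEq_zero_iff_dvd.2 dvd_rfl).symm
      exact Nat.ModEq.add_left_cancel' k₀ h5
    rw [h.J_modEq (by omega) hk₀1 (by omega) hk₀k.symm,
      h.J_modEq (by omega) (by omega : 1 ≤ s * u - k₀) (by omega) hkk']
    split_ifs with hu1
    · subst hu1
      have : k₀ = 1 := by
        have h5 : k₀ ≡ 1 [MOD s * 1] := by
          rw [mul_one]
          rw [mul_one] at hk₀k
          exact hk₀k.trans hks
        have h6 : k₀ % (s * 1) = 1 % (s * 1) := h5
        rw [Nat.mod_eq_of_lt hk₀lt, Nat.mod_eq_of_lt (by omega)] at h6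
        exact h6
      rw [this]
      exact h.F_one hsu2 hsu4
    · have hne1 : k₀ ≠ 1 := by
        intro h5
        apply hku u huR (by omega)
        rw [h5] at hk₀k
        exact hk₀k.symm
      have hk₀o : k₀ % 2 = 1 := by
        rcases Nat.mod_two_eq_zero_or_one k₀ with h5 | h5
        · exfalso
          have h6 := Nat.dvd_gcd (Nat.dvd_of_mod_eq_zero h5) (Nat.dvd_of_mod_eq_zero hsu2)
          rw [hk₀c] at h6
          omega
        · exact h5
      have hne2 : k₀ ≠ s * u - 1 := by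
        intro h5
        have h6 : k₀ + 1 ≡ 1 + 1 [MOD s] := (hk₀k.of_mul_right u |>.trans hks).add_right 1
        rw [h5, show s * u - 1 + 1 = s * u by omega] at h6
        have h7 : 1 + 1 ≡ 0 [MOD s] := h6.symm.trans (Nat.modEq_zero_iff_dvd.2 (dvd_mul_right _ _))
        have h8 := Nat.le_of_dvd (by omega) (Nat.modEq_zero_iff_dvd.1 h7)
        omega
      exact h.F_neg hsu2 (by omega) (by omega) hk₀c
  have hprod : jacobiSym (Z a b s R : ℤ) (O a b k) * jacobiSym (Z a b s R : ℤ) (O a b k') = -1 := by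
    rw [hZJ k hk3 hko, hZJ k' hk'3 hk'o, ← Finset.prod_mul_distrib, Finset.prod_congr rfl key]
    have hm : 1 ∈ R.divisors := Nat.one_mem_divisors.2 (by omega)
    have hpos : 0 < R.divisors.card := Finset.card_pos.2 ⟨1, hm⟩
    rw [← Finset.mul_prod_erase _ _ hm, if_pos rfl, one_mul]
    have h5 : ∏ u ∈ R.divisors.erase 1, (if u = 1 then (1 : ℤ) else -1) =
        ∏ u ∈ R.divisors.erase 1, (-1 : ℤ) := by
      refine Finset.prod_congr rfl fun u hu => ?_
      rw [if_neg (Finset.ne_of_mem_erase hu)]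
    rw [h5, Finset.prod_const, Finset.card_erase_of_mem hm, hc,
      show c + c - 1 = 2 * (c - 1) + 1 by omega, pow_add, pow_mul]
    norm_num
  rintro ⟨y, hy⟩
  have h5 : ∀ M : ℕ, 0 ≤ jacobiSym (Z a b s R : ℤ) M := by
    intro M
    rw [hy]
    push_cast
    rw [jacobiSym.mul_left]
    exact mul_self_nonneg _
  have h6 := mul_nonneg (h5 (O a b k)) (h5 (O a b k'))
  rw [hprod] at h6
  norm_num at h6

theorem Hyp.noSq (h : Hyp a b) : NoSq a b := by
  intro s R hR h1 hsR hs h3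
  rcases Nat.lt_or_ge s 2 with hs1 | hs1
  · obtain rfl : s = 1 := by omega
    rcases Nat.mod_two_eq_zero_or_one R with h5 | h5
    · obtain ⟨R', rfl⟩ : ∃ R', R = 2 * R' := ⟨R / 2, by omega⟩
      exact h.case_one_even hR (by omega)
    · exact h.case_one_odd hR h1 h5
  · rcases Nat.lt_or_ge s 3 with hs3 | hs3
    · obtain rfl : s = 2 := by omega
      exact h.case_two hR h1
    · rcases Nat.mod_two_eq_zero_or_one s with h5 | h5
      · exact h.case_even hR h1 (by omega) h5 hsR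
      · exact h.case_odd hR h1 hs3 h5

end ClsC2

theorem clsC2_proof : Stmt_ClsC2 := by
  intro a b s h h1 h2
  have h3 := (ClsC2.hyp_of_adm h h1 h2).noSq
  have h4 : s = 1 ∨ s = -1 := by
    rcases h.hs with ⟨h5, -⟩ | ⟨h5, -⟩
    · exact Or.inl h5
    · exact Or.inr h5
  intro t R hR hR1 htR ht htR3
  have := h3 t R hR hR1 htR ht htR3
  rwa [ClsC2.Z_sign h4] at this

end Pool.Agent.Arb
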