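import Pool.Agent.Arb.Kill

/-!
# Congruences modulo powers of two
-/

namespace Pool.Agent.Arb

variable {a b e : ℤ}

lemma sq_mod8 {x : ℤ} (h : x % 2 = 1) : x ^ 2 ≡ 1 [ZMOD 8] := by
  have : x % 8 = 1 ∨ x % 8 = 3 ∨ x % 8 = 5 ∨ x % 8 = 7 := by omega
  rcases this with h | h | h | h <;> (unfold Int.ModEq; rw [pow_two, Int.mul_emod, h]; norm_num)

lemma pow_even_mod8 {x : ℤ} (h : x % 2 = 1) {k : ℕ} (hk : 1 ≤ k) : x ^ (2 ^ k) ≡ 1 [ZMOD 8] := by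
  obtain ⟨k, rfl⟩ : ∃ j, k = j + 1 := ⟨k - 1, by omega⟩
  rw [pow_succ' 2, pow_mul]
  simpa using (sq_mod8 h).pow (2 ^ k)

lemma pow_odd_mod8 {x : ℤ} (h : x % 2 = 1) {m : ℕ} (hm : 1 ≤ m) :
    x ^ (2 ^ m - 1) ≡ x [ZMOD 8] := by
  obtain ⟨k, rfl⟩ : ∃ j, m = j + 1 := ⟨m - 1, by omega⟩
  have : 2 ^ (k + 1) - 1 = 2 * (2 ^ k - 1) + 1 := by
    have : 1 ≤ 2 ^ k := Nat.one_le_two_pow
    rw [pow_succ]
    omega
  rw [this, pow_succ, pow_mul]
  simpa using ((sq_mod8 h).pow (2 ^ k - 1)).mul_right x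

lemma pow4_mod16 {x : ℤ} (h : x % 2 = 1) : x ^ 4 ≡ 1 [ZMOD 16] := by
  have h2 := (Int.modEq_iff_dvd.mp (sq_mod8 h))
  obtain ⟨k, hk⟩ := h2
  apply Int.modEq_iff_dvd.mpr
  refine ⟨k - 4 * k ^ 2, ?_⟩
  have : x ^ 2 = 1 - 8 * k := by linarith
  rw [show x ^ 4 = (x ^ 2) ^ 2 by ring, this]
  ring

lemma pow_odd_mod16 {x : ℤ} (h : x % 2 = 1) {m : ℕ} (hm : 2 ≤ m) :
    x ^ (2 ^ m - 1) ≡ x ^ 3 [ZMOD 16] := by
  obtain ⟨k, rfl⟩ : ∃ j, m = j + 2 := ⟨m - 2, by omega⟩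
  have : 2 ^ (k + 2) - 1 = 4 * (2 ^ k - 1) + 3 := by
    have : 1 ≤ 2 ^ k := Nat.one_le_two_pow
    rw [pow_add]
    omega
  rw [this, pow_add, pow_mul]
  simpa using ((pow4_mod16 h).pow (2 ^ k - 1)).mul_right (x ^ 3)

lemma pow_of_even {x : ℤ} (h : x % 2 = 0) {k n : ℕ} (hk : k ≤ n) : (2 : ℤ) ^ k ∣ x ^ n := by
  have h1 : (2 : ℤ) ∣ x := Int.dvd_of_emod_eq_zero h
  exact (pow_dvd_pow _ hk).trans (pow_dvd_pow_of_dvd h1 n)

lemma two_pow_ge {m k : ℕ} (h : k ≤ m) : 2 ^ k ≤ 2 ^ m := Nat.pow_le_pow_right (by norm_num) h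

/-! ### `a` even -/

lemma D_ae (ha : a % 2 = 0) (hb : b % 2 = 1) {m : ℕ} (hm : 1 ≤ m) :
    D a b (m + 1) ≡ a + b [ZMOD 8] ∧ D a b m % 2 = 1 := by
  induction m, hm using Nat.le_induction with
  | base => exact ⟨by rw [D_two], by simp⟩
  | succ m hm ih =>
    have h1 : D a b (m + 1) % 2 = 1 := by
      have := ih.1.of_dvd (show (2 : ℤ) ∣ 8 by norm_num)
      rw [Int.ModEq] at this
      omega
    refine ⟨?_, h1⟩
    rw [D_succ]
    refine Int.ModEq.add ?_ (pow_odd_mod8 hb (by omega))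
    simpa using (sq_mod8 h1).mul_left a

lemma N_ae (ha : a % 2 = 0) (hb : b % 2 = 1) {r : ℕ} (hr : 1 ≤ r) :
    N a b (r + 2) ≡ 2 * (a + b) [ZMOD 8] := by
  rw [N_succ, two_mul]
  refine Int.ModEq.add (D_ae ha hb (by omega)).1 ?_
  have h1 : D a b (r + 1) ≡ a + b [ZMOD 8] := (D_ae ha hb hr).1
  simpa using (pow_even_mod8 hb hr).mul h1

/-! ### `b` even -/

lemma D_be_odd (ha : a % 2 = 1) (hb : b % 2 = 0) {m : ℕ} (hm : 1 ≤ m) : D a b m % 2 = 1 := by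
  induction m, hm using Nat.le_induction with
  | base => simp
  | succ m hm ih =>
    rw [D_succ]
    have h1 : (2 : ℤ) ∣ b ^ (2 ^ m - 1) := by
      have := pow_of_even hb (k := 1) (n := 2 ^ m - 1) (by have := two_pow_ge hm; omega)
      simpa using this
    have h2 : a * (D a b m) ^ 2 % 2 = 1 := by
      rw [pow_two, Int.mul_emod, Int.mul_emod (D a b m), ih, ha]
      norm_num
    omega

lemma D_be (ha : a % 2 = 1) (hb : b % 2 = 0) {m : ℕ} (hm : 2 ≤ m) :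
    D a b (m + 1) ≡ a [ZMOD 8] := by
  rw [D_succ]
  have h1 := sq_mod8 (D_be_odd ha hb (m := m) (by omega))
  have h2 : (8 : ℤ) ∣ b ^ (2 ^ m - 1) := by
    have := pow_of_even hb (k := 3) (n := 2 ^ m - 1) (by have := two_pow_ge hm; omega)
    simpa using this
  have h3 : b ^ (2 ^ m - 1) ≡ 0 [ZMOD 8] := (Int.modEq_zero_iff_dvd).mpr h2
  simpa using (h1.mul_left a).add h3

lemma N_be (ha : a % 2 = 1) (hb : b % 2 = 0) {r : ℕ} (hr : 1 ≤ r) :
    N a b (r + 2) ≡ a [ZMOD 4] := by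
  rw [N_succ]
  have h1 : D a b (r + 2) ≡ a [ZMOD 4] :=
    (D_be ha hb (m := r + 1) (by omega)).of_dvd (by norm_num)
  have h2 : (4 : ℤ) ∣ b ^ (2 ^ r) := by
    have := pow_of_even hb (k := 2) (n := 2 ^ r) (by have := two_pow_ge hr; omega)
    simpa using this
  have h3 : b ^ (2 ^ r) * D a b (r + 1) ≡ 0 [ZMOD 4] :=
    (Int.modEq_zero_iff_dvd).mpr (h2.mul_right _)
  simpa using h1.add h3

lemma N_be8 (ha : a % 2 = 1) (hb : b % 2 = 0) {r : ℕ} (hr : 2 ≤ r) :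
    N a b (r + 2) ≡ a [ZMOD 8] := by
  rw [N_succ]
  have h1 : D a b (r + 2) ≡ a [ZMOD 8] := D_be ha hb (m := r + 1) (by omega)
  have h2 : (8 : ℤ) ∣ b ^ (2 ^ r) := by
    have := pow_of_even hb (k := 3) (n := 2 ^ r) (by have := two_pow_ge hr; omega)
    simpa using this
  have h3 : b ^ (2 ^ r) * D a b (r + 1) ≡ 0 [ZMOD 8] :=
    (Int.modEq_zero_iff_dvd).mpr (h2.mul_right _)
  simpa using h1.add h3

/-! ### `a, b` odd, `4 ∣ a + b` -/

lemma D_oo0 (ha : a % 2 = 1) (hb : b % 2 = 1) (h4 : (a + b) % 4 = 0) {k : ℕ} (hk : 1 ≤ k) :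
    D a b (2 * k) ≡ a + b [ZMOD 8] ∧ D a b (2 * k + 1) ≡ b [ZMOD 8] := by
  have step1 : ∀ m, 1 ≤ m → D a b m ≡ a + b [ZMOD 8] → D a b (m + 1) ≡ b [ZMOD 8] := by
    intro m hm h
    rw [D_succ]
    have h1 : (4 : ℤ) ∣ D a b m := by
      have := (h.of_dvd (show (4 : ℤ) ∣ 8 by norm_num))
      rw [Int.ModEq] at this
      exact Int.dvd_of_emod_eq_zero (by omega)
    have h2 : a * (D a b m) ^ 2 ≡ 0 [ZMOD 8] := by
      apply (Int.modEq_zero_iff_dvd).mpr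
      apply Dvd.dvd.mul_left
      obtain ⟨k, hk⟩ := h1
      exact ⟨2 * k ^ 2, by rw [hk]; ring⟩
    simpa using h2.add (pow_odd_mod8 hb hm)
  have step2 : ∀ m, 1 ≤ m → D a b m ≡ b [ZMOD 8] → D a b (m + 1) ≡ a + b [ZMOD 8] := by
    intro m hm h
    rw [D_succ]
    have h1 : D a b m % 2 = 1 := by
      have := (h.of_dvd (show (2 : ℤ) ∣ 8 by norm_num))
      rw [Int.ModEq] at this
      omega
    simpa using ((sq_mod8 h1).mul_left a).add (pow_odd_mod8 hb hm)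
  induction k, hk using Nat.le_induction with
  | base =>
    have h0 : D a b (2 * 1) ≡ a + b [ZMOD 8] := by simp
    exact ⟨h0, step1 _ (by omega) h0⟩
  | succ k hk ih =>
    have h0 : D a b (2 * (k + 1)) ≡ a + b [ZMOD 8] := step2 _ (by omega) ih.2
    exact ⟨h0, step1 _ (by omega) h0⟩

lemma N_oo0 (ha : a % 2 = 1) (hb : b % 2 = 1) (h4 : (a + b) % 4 = 0) {r : ℕ} (hr : 1 ≤ r) :
    N a b (r + 2) ≡ b + (a + b) [ZMOD 8] := by
  rw [N_succ]
  rcases Nat.even_or_odd r with h | h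
  · obtain ⟨k, rfl⟩ := h
    have h1 : D a b (k + k + 2) ≡ a + b [ZMOD 8] := by
      rw [show k + k + 2 = 2 * (k + 1) by ring]; exact (D_oo0 ha hb h4 (by omega)).1
    have h2 : D a b (k + k + 1) ≡ b [ZMOD 8] := by
      rw [show k + k + 1 = 2 * k + 1 by ring]; exact (D_oo0 ha hb h4 (by omega)).2
    have h3 := h1.add ((pow_even_mod8 hb hr).mul h2)
    rw [one_mul] at h3
    rwa [add_comm b]
  · obtain ⟨k, rfl⟩ := h
    have h1 : D a b (2 * k + 1 + 2) ≡ b [ZMOD 8] := by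
      rw [show 2 * k + 1 + 2 = 2 * (k + 1) + 1 by ring]; exact (D_oo0 ha hb h4 (by omega)).2
    have h2 : D a b (2 * k + 1 + 1) ≡ a + b [ZMOD 8] := by
      rw [show 2 * k + 1 + 1 = 2 * (k + 1) by ring]; exact (D_oo0 ha hb h4 (by omega)).1
    have h3 := h1.add ((pow_even_mod8 hb hr).mul h2)
    rwa [one_mul] at h3

/-! ### `a, b` odd, `a + b ≡ 2 (mod 4)` -/

lemma D_oo2 (ha : a % 2 = 1) (hb : b % 2 = 1) (h4 : (a + b) % 4 = 2) {k : ℕ} (hk : 1 ≤ k) :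
    D a b (2 * k + 1) ≡ b + 4 [ZMOD 8] ∧ D a b (2 * k + 2) ≡ a + b + 8 [ZMOD 16] := by
  obtain ⟨j, hj⟩ := Int.modEq_iff_dvd.mp (sq_mod8 hb)
  obtain ⟨i, hi⟩ : ∃ i, a + b = 4 * i + 2 := ⟨(a + b) / 4, by omega⟩
  obtain ⟨l, hl⟩ : ∃ l, a * b = 2 * l + 1 := by
    have : a * b % 2 = 1 := by rw [Int.mul_emod, ha, hb]; norm_num
    exact ⟨a * b / 2, by omega⟩
  have step1 : ∀ m, 1 ≤ m → D a b m % 4 = 2 → D a b (m + 1) ≡ b + 4 [ZMOD 8] := by
    intro m hm h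
    rw [D_succ]
    have h2 : a * (D a b m) ^ 2 ≡ 4 [ZMOD 8] := by
      obtain ⟨x, hx⟩ : ∃ x, D a b m = 4 * x + 2 := ⟨D a b m / 4, by omega⟩
      obtain ⟨y, hy⟩ : ∃ y, a = 2 * y + 1 := ⟨a / 2, by omega⟩
      apply Int.modEq_iff_dvd.mpr
      refine ⟨-(2 * a * x ^ 2 + 2 * a * x + y), ?_⟩
      rw [hx, hy]
      ring
    rw [add_comm b]
    exact h2.add (pow_odd_mod8 hb hm)
  have step2 : ∀ m, 2 ≤ m → D a b m ≡ b + 4 [ZMOD 8] → D a b (m + 1) ≡ a + b + 8 [ZMOD 16] := by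
    intro m hm h
    rw [D_succ]
    obtain ⟨x, hx⟩ := Int.modEq_iff_dvd.mp h
    obtain ⟨y, hy⟩ := Int.modEq_iff_dvd.mp (pow_odd_mod16 hb hm)
    have hx' : D a b m = b + 4 - 8 * x := by linarith
    have hy' : b ^ (2 ^ m - 1) = b ^ 3 - 16 * y := by linarith
    rw [hx', hy']
    apply Int.modEq_iff_dvd.mpr
    -- a + b + 8 - (a (b + 4 - 8 x)^2 + b^3 - 16 y)
    refine ⟨y - a + a * b * x + 4 * a * x - 4 * a * x ^ 2 + j * (2 * i + 1) - l, ?_⟩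
    have hb2 : b ^ 2 = 1 - 8 * j := by linarith
    have h5 : a * b ^ 2 = a * (1 - 8 * j) := by rw [hb2]
    have h6 : b ^ 3 = b * (1 - 8 * j) := by rw [← hb2]; ring
    have h7 : (a + b) * (8 * j) = (4 * i + 2) * (8 * j) := by rw [hi]
    linear_combination (-1) * h5 - h6 + h7 - 8 * hl
  have hev : ∀ m, D a b m ≡ a + b + 8 [ZMOD 16] → D a b m % 4 = 2 := by
    intro m h
    have := h.of_dvd (show (4 : ℤ) ∣ 16 by norm_num)
    rw [Int.ModEq] at this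
    omega
  induction k, hk using Nat.le_induction with
  | base =>
    have h0 : D a b (2 * 1) % 4 = 2 := by simpa using h4
    have h1 : D a b (2 * 1 + 1) ≡ b + 4 [ZMOD 8] := step1 _ (by omega) h0
    exact ⟨h1, step2 _ (by omega) h1⟩
  | succ k hk ih =>
    have h1 : D a b (2 * (k + 1) + 1) ≡ b + 4 [ZMOD 8] := step1 _ (by omega) (hev _ ih.2)
    exact ⟨h1, step2 _ (by omega) h1⟩

lemma D_oo2_even8 (ha : a % 2 = 1) (hb : b % 2 = 1) (h4 : (a + b) % 4 = 2) {k : ℕ} (hk : 1 ≤ k) :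
    D a b (2 * k) ≡ a + b [ZMOD 8] := by
  rcases Nat.eq_or_lt_of_le hk with rfl | hk
  · simp
  · obtain ⟨k, rfl⟩ : ∃ j, k = j + 1 := ⟨k - 1, by omega⟩
    have := (D_oo2 ha hb h4 (k := k) (by omega)).2.of_dvd (show (8 : ℤ) ∣ 16 by norm_num)
    rw [show 2 * (k + 1) = 2 * k + 2 by ring]
    refine this.trans ?_
    apply Int.modEq_iff_dvd.mpr
    exact ⟨-1, by ring⟩

lemma N_oo2 (ha : a % 2 = 1) (hb : b % 2 = 1) (h4 : (a + b) % 4 = 2) {r : ℕ} (hr : 1 ≤ r) :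
    N a b (r + 2) ≡ (b + 4) + (a + b) [ZMOD 8] := by
  rw [N_succ]
  rcases Nat.even_or_odd r with h | h
  · obtain ⟨k, rfl⟩ := h
    have h1 : D a b (k + k + 2) ≡ a + b [ZMOD 8] := by
      rw [show k + k + 2 = 2 * (k + 1) by ring]; exact D_oo2_even8 ha hb h4 (by omega)
    have h2 : D a b (k + k + 1) ≡ b + 4 [ZMOD 8] := by
      rw [show k + k + 1 = 2 * k + 1 by ring]; exact (D_oo2 ha hb h4 (by omega)).1
    have h3 := h1.add ((pow_even_mod8 hb hr).mul h2)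
    rw [one_mul] at h3
    rwa [add_comm (b + 4)]
  · obtain ⟨k, rfl⟩ := h
    have h1 : D a b (2 * k + 1 + 2) ≡ b + 4 [ZMOD 8] := by
      rw [show 2 * k + 1 + 2 = 2 * (k + 1) + 1 by ring]; exact (D_oo2 ha hb h4 (by omega)).1
    have h2 : D a b (2 * k + 1 + 1) ≡ a + b [ZMOD 8] := by
      rw [show 2 * k + 1 + 1 = 2 * (k + 1) by ring]; exact D_oo2_even8 ha hb h4 (by omega)
    have h3 := h1.add ((pow_even_mod8 hb hr).mul h2)
    rwa [one_mul] at h3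

/-! ### modulo `D_2` -/

lemma D_mod_two (i : ℕ) : D a b (2 * i) ≡ 0 [ZMOD a + b] ∧
    D a b (2 * i + 1) ≡ b ^ (2 ^ (2 * i) - 1) [ZMOD a + b] := by
  have hrig : ∀ j, D a b (2 + (j + 1)) ≡ b ^ (2 ^ j * (2 ^ 2 - 1)) * D a b (j + 1) [ZMOD a + b] := by
    intro j
    have := rigid (a := a) (b := b) 2 j
    rw [D_two] at this
    exact this.of_dvd (dvd_pow_self _ (by norm_num))
  induction i with
  | zero => simp
  | succ i ih =>
    constructor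
    · rcases Nat.eq_zero_or_pos i with rfl | hi
      · simp only [zero_add, mul_one, D_two]
        exact (Int.modEq_zero_iff_dvd).mpr dvd_rfl
      · have h1 := hrig (2 * i - 1)
        rw [show 2 + (2 * i - 1 + 1) = 2 * (i + 1) by omega, show 2 * i - 1 + 1 = 2 * i by omega] at h1
        have h2 := ih.1.mul_left (b ^ (2 ^ (2 * i - 1) * (2 ^ 2 - 1)))
        rw [mul_zero] at h2
        exact h1.trans h2
    · have h1 := hrig (2 * i)
      rw [show 2 + (2 * i + 1) = 2 * (i + 1) + 1 by ring] at h1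
      refine h1.trans ((ih.2.mul_left _).trans ?_)
      rw [← pow_add, ← two_pow_sub, show 2 + 2 * i = 2 * (i + 1) by ring]

lemma N_mod_two {r : ℕ} (hr : 1 ≤ r) :
    N a b (r + 2) ≡ b ^ (2 ^ (r + 1) - 1) [ZMOD a + b] := by
  rw [N_succ]
  rcases Nat.even_or_odd r with h | h
  · obtain ⟨k, rfl⟩ := h
    have h1 := (D_mod_two (a := a) (b := b) (k + 1)).1
    have h2 := (D_mod_two (a := a) (b := b) k).2
    rw [show k + k + 2 = 2 * (k + 1) by ring, show k + k + 1 = 2 * k + 1 by ring]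
    have h3 := h1.add (h2.mul_left (b ^ (2 ^ (k + k))))
    rw [zero_add, ← pow_add] at h3
    convert h3 using 2
    have : 1 ≤ 2 ^ (2 * k) := Nat.one_le_two_pow
    rw [← two_mul, pow_succ]
    omega
  · obtain ⟨k, rfl⟩ := h
    have h1 := (D_mod_two (a := a) (b := b) (k + 1)).2
    have h2 := (D_mod_two (a := a) (b := b) (k + 1)).1
    rw [show 2 * k + 1 + 2 = 2 * (k + 1) + 1 by ring, show 2 * k + 1 + 1 = 2 * (k + 1) by ring]
    have h3 := h1.add (h2.mul_left (b ^ (2 ^ (2 * k + 1))))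
    rwa [mul_zero, add_zero] at h3

end Pool.Agent.Arb
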