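import Pool.Agent.Arb.Defs

/-!
# The converse: if `-c`, `-(c + 1)` or `c (c + 1)` is a square then `c` is exceptional
-/

namespace Pool.Agent.Arb

open Polynomial

namespace Conv

variable {c : ℚ}

lemma aeval_iter (n : ℕ) (x : AlgebraicClosure ℚ) : aeval x (iter c n) = (phi c)^[n] x := by
  induction n with
  | zero => simp [iter]
  | succ n ih =>
    rw [Function.iterate_succ_apply', ← ih, iter, map_add, map_pow, aeval_C]
    rfl

lemma mem_level (n : ℕ) (x : AlgebraicClosure ℚ) : x ∈ level c n ↔ (phi c)^[n] x = 0 := by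
  rw [← aeval_iter]; rfl

lemma mem_level_succ (n : ℕ) (x : AlgebraicClosure ℚ) :
    x ∈ level c (n + 1) ↔ phi c x ∈ level c n := by
  rw [mem_level, mem_level, Function.iterate_succ_apply]

lemma deriv_zero (n : ℕ) : aeval (0 : AlgebraicClosure ℚ) (derivative (iter c (n + 1))) = 0 := by
  induction n with
  | zero => simp [iter, derivative_pow]
  | succ n ih =>
    rw [iter, derivative_add, derivative_C, add_zero, derivative_pow, map_mul, ih, mul_zero]

lemma ne_zero_of_mem (hc : ∀ n, (iter c n).Separable) {n : ℕ} {y : AlgebraicClosure ℚ}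
    (hy : y ∈ level c (n + 1)) : y ≠ 0 := by
  rintro rfl
  exact (hc (n + 1)).aeval_derivative_ne_zero hy (deriv_zero n)

lemma iter_monic (n : ℕ) : (iter c n).Monic ∧ 1 ≤ (iter c n).natDegree := by
  induction n with
  | zero => exact ⟨monic_X, by simp [iter]⟩
  | succ n ih =>
    obtain ⟨h1, h2⟩ := ih
    have h3 : (iter c n ^ 2).Monic := h1.pow 2
    have h4 : (C c).degree < (iter c n ^ 2).degree := by
      rw [degree_eq_natDegree h3.ne_zero, h1.natDegree_pow]
      refine lt_of_le_of_lt degree_C_le ?_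
      exact_mod_cast (by omega : 0 < 2 * (iter c n).natDegree)
    have h5 : (iter c (n + 1)).Monic := h3.add_of_left h4
    refine ⟨h5, ?_⟩
    rw [iter, natDegree_add_eq_left_of_degree_lt h4, h1.natDegree_pow]
    omega

lemma finite_level (n : ℕ) : (level c n).Finite := by
  have h := ((iter c n).rootSet (AlgebraicClosure ℚ)).toFinite
  refine h.subset ?_
  intro x hx
  rw [mem_rootSet]
  exact ⟨(iter_monic n).1.ne_zero, hx⟩

/-- a section of `phi c` -/
noncomputable def sec (c : ℚ) (x : AlgebraicClosure ℚ) : AlgebraicClosure ℚ :=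
  (IsAlgClosed.exists_pow_nat_eq (x - algebraMap ℚ _ c) (n := 2) (by norm_num)).choose

lemma sec_sq (x : AlgebraicClosure ℚ) : (sec c x) ^ 2 = x - algebraMap ℚ _ c :=
  (IsAlgClosed.exists_pow_nat_eq (x - algebraMap ℚ _ c) (n := 2) (by norm_num)).choose_spec

@[simp] lemma phi_sec (x : AlgebraicClosure ℚ) : phi c (sec c x) = x := by
  rw [phi, sec_sq]; ring

@[simp] lemma phi_neg (x : AlgebraicClosure ℚ) : phi c (-x) = phi c x := by
  simp [phi]

lemma eq_or (y : AlgebraicClosure ℚ) : y = sec c (phi c y) ∨ y = -sec c (phi c y) := by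
  apply sq_eq_sq_iff_eq_or_eq_neg.mp
  rw [sec_sq, phi]
  ring

open Classical in
/-- the maps of a tree automorphism with prescribed signs -/
noncomputable def F (c : ℚ) (ε : ℕ → AlgebraicClosure ℚ → ℤˣ) :
    ℕ → AlgebraicClosure ℚ → AlgebraicClosure ℚ
  | 0, x => x
  | n + 1, y => if y = sec c (phi c y) then ((ε n (phi c y) : ℤ) : AlgebraicClosure ℚ) *
      sec c (F c ε n (phi c y)) else -(((ε n (phi c y) : ℤ) : AlgebraicClosure ℚ) *
      sec c (F c ε n (phi c y)))

variable {ε : ℕ → AlgebraicClosure ℚ → ℤˣ}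

lemma unit_sq (u : ℤˣ) : (((u : ℤ) : AlgebraicClosure ℚ)) ^ 2 = 1 := by
  rcases Int.units_eq_one_or u with rfl | rfl <;> simp

lemma phi_F (n : ℕ) (y : AlgebraicClosure ℚ) : phi c (F c ε (n + 1) y) = F c ε n (phi c y) := by
  rw [F]
  split_ifs with h
  · rw [phi, mul_pow, unit_sq, one_mul, sec_sq]; ring
  · rw [phi_neg, phi, mul_pow, unit_sq, one_mul, sec_sq]; ring

lemma F_mem (n : ℕ) (y : AlgebraicClosure ℚ) (hy : y ∈ level c n) : F c ε n y ∈ level c n := by
  induction n generalizing y with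
  | zero => exact hy
  | succ n ih =>
    rw [mem_level_succ, phi_F]
    exact ih _ ((mem_level_succ n y).mp hy)

lemma F_sec (n : ℕ) (x : AlgebraicClosure ℚ) : F c ε (n + 1) (sec c x) =
    ((ε n x : ℤ) : AlgebraicClosure ℚ) * sec c (F c ε n x) := by
  rw [F, phi_sec, if_pos rfl]

lemma F_neg_sec (n : ℕ) (x : AlgebraicClosure ℚ) (hx : sec c x ≠ 0) :
    F c ε (n + 1) (-sec c x) = -(((ε n x : ℤ) : AlgebraicClosure ℚ) * sec c (F c ε n x)) := by
  rw [F, phi_neg, phi_sec, if_neg]
  intro h
  apply hx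
  have h2 : (2 : AlgebraicClosure ℚ) * sec c x = 0 := by linear_combination -h
  simpa using h2

lemma F_inj (hc : ∀ n, (iter c n).Separable) (n : ℕ) :
    ∀ y ∈ level c n, ∀ z ∈ level c n, F c ε n y = F c ε n z → y = z := by
  induction n with
  | zero => intro y _ z _ h; exact h
  | succ n ih =>
    intro y hy z hz h
    have hy' := (mem_level_succ n y).mp hy
    have hz' := (mem_level_succ n z).mp hz
    have h1 : phi c y = phi c z := by
      apply ih _ hy' _ hz'
      rw [← phi_F, ← phi_F, h]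
    set x := phi c y with hx
    have hxl : sec c x ≠ 0 := by
      apply ne_zero_of_mem hc (n := n)
      rw [mem_level_succ, phi_sec]; exact hy'
    have hxF : sec c (F c ε n x) ≠ 0 := by
      apply ne_zero_of_mem hc (n := n)
      rw [mem_level_succ, phi_sec]; exact F_mem n _ hy'
    have hu : ((ε n x : ℤ) : AlgebraicClosure ℚ) ≠ 0 := by
      intro h0
      have := unit_sq (ε n x)
      rw [h0] at this
      norm_num at this
    have hne : ((ε n x : ℤ) : AlgebraicClosure ℚ) * sec c (F c ε n x) ≠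
        -(((ε n x : ℤ) : AlgebraicClosure ℚ) * sec c (F c ε n x)) := by
      intro h2
      have h3 : (2 : AlgebraicClosure ℚ) * (((ε n x : ℤ) : AlgebraicClosure ℚ) *
        sec c (F c ε n x)) = 0 := by linear_combination h2
      have h4 : (2 : AlgebraicClosure ℚ) ≠ 0 := by norm_num
      exact mul_ne_zero h4 (mul_ne_zero hu hxF) h3
    rcases eq_or (c := c) y with h2 | h2 <;> rcases eq_or (c := c) z with h3 | h3 <;>
      rw [← h1] at h3 <;> rw [← hx] at h2
    · rw [h2, h3]
    · rw [h2, h3, F_sec, F_neg_sec n x hxl] at h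
      exact absurd h hne
    · rw [h2, h3, F_sec, F_neg_sec n x hxl] at h
      exact absurd h.symm hne
    · rw [h2, h3]

/-- the tree automorphism with prescribed signs -/
noncomputable def aut (hc : ∀ n, (iter c n).Separable) (ε : ℕ → AlgebraicClosure ℚ → ℤˣ) :
    TreeAut c where
  perm n := by
    haveI : Finite (level c n) := (finite_level n).to_subtype
    exact Equiv.ofBijective (fun x : level c n => (⟨F c ε n x, F_mem n x x.2⟩ : level c n))
      (Finite.injective_iff_bijective.mp (fun x y h =>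
        Subtype.ext (F_inj hc n x x.2 y y.2 (by simpa using h))))
  compat n x y h := by
    simp only [Equiv.ofBijective_apply]
    rw [phi_F, h]

lemma exists_sigma (h : c ∉ Exceptional) (ε : ℕ → AlgebraicClosure ℚ → ℤˣ) :
    ∃ σ : AlgebraicClosure ℚ ≃ₐ[ℚ] AlgebraicClosure ℚ,
      ∀ (n : ℕ) (x : AlgebraicClosure ℚ), x ∈ level c n → σ x = F c ε n x := by
  simp only [Exceptional, Set.mem_ofPred_eq, not_or, not_exists, not_not] at h
  obtain ⟨σ, hσ⟩ := h.2 (aut h.1 ε)
  exact ⟨σ, fun n x hx => hσ n ⟨x, hx⟩⟩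

end Conv

open Conv in
/-- the converse direction -/
theorem conv (c : ℚ) (h : IsSquare (-c) ∨ IsSquare (-(c + 1)) ∨ IsSquare (c * (c + 1))) :
    c ∈ Exceptional := by
  classical
  by_contra hc
  have hsep : ∀ n, (iter c n).Separable := by
    simp only [Exceptional, Set.mem_ofPred_eq, not_or, not_exists, not_not] at hc
    exact hc.1
  have h0 : (0 : AlgebraicClosure ℚ) ∈ level c 0 := by rw [mem_level]; rfl
  set g := sec c 0 with hg
  have hgl : g ∈ level c (0 + 1) := by rw [mem_level_succ, phi_sec]; exact h0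
  have hgl' : -g ∈ level c (0 + 1) := by rw [mem_level_succ, phi_neg, phi_sec]; exact h0
  have hg0 : g ≠ 0 := ne_zero_of_mem hsep hgl
  have hg2 : g ^ 2 = -algebraMap ℚ _ c := by rw [hg, sec_sq]; ring
  have hb1 : sec c g ∈ level c (1 + 1) := by rw [mem_level_succ, phi_sec]; exact hgl
  have hb2 : sec c (-g) ∈ level c (1 + 1) := by rw [mem_level_succ, phi_sec]; exact hgl'
  have hb10 := ne_zero_of_mem hsep hb1
  have hb20 := ne_zero_of_mem hsep hb2
  have hbb : (sec c g * sec c (-g)) ^ 2 = algebraMap ℚ _ (c * (c + 1)) := by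
    rw [mul_pow, sec_sq, sec_sq, map_mul, map_add, map_one]
    linear_combination -hg2
  have hgg : -g ≠ g := by
    intro h2
    apply hg0
    have : (2 : AlgebraicClosure ℚ) * g = 0 := by linear_combination -h2
    simpa using this
  have h2ne : ∀ x : AlgebraicClosure ℚ, x = -x → x = 0 := by
    intro x hx
    have : (2 : AlgebraicClosure ℚ) * x = 0 := by linear_combination hx
    simpa using this
  rcases h with ⟨r, hr⟩ | ⟨r, hr⟩ | ⟨r, hr⟩
  · obtain ⟨σ, hσ⟩ := exists_sigma hc (fun _ _ => -1)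
    have h1 := hσ 1 g hgl
    rw [hg, F_sec, ← hg] at h1
    have h3 : g = algebraMap ℚ _ r ∨ g = -algebraMap ℚ _ r := by
      apply sq_eq_sq_iff_eq_or_eq_neg.mp
      rw [hg2, ← map_pow, pow_two, ← hr, map_neg]
    have h4 : σ g = g := by
      rcases h3 with h3 | h3 <;> rw [h3]
      · exact σ.commutes r
      · rw [map_neg, σ.commutes]
    rw [h4] at h1
    apply hg0
    apply h2ne
    simpa [F] using h1
  · obtain ⟨σ, hσ⟩ := exists_sigma hc (fun n _ => if n = 0 then -1 else 1)
    have h1 := hσ 1 g hgl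
    have h1' := hσ 1 (-g) hgl'
    have hF1 : F c (fun n _ => if n = 0 then -1 else 1) 1 g = -g := by
      rw [hg, F_sec]; simp [F]
    have hF1' : F c (fun n _ => if n = 0 then -1 else 1) 1 (-g) = g := by
      rw [hg, F_neg_sec 0 0 (by rw [← hg]; exact hg0)]; simp [F]
    have h2 := hσ 2 _ hb1
    have h3 := hσ 2 _ hb2
    rw [F_sec, hF1] at h2
    rw [F_sec, hF1'] at h3
    simp only [one_ne_zero, if_false, Units.val_one, Int.cast_one, one_mul] at h2 h3
    rw [hF1] at h1
    have h5 : sec c g * sec c (-g) = g * algebraMap ℚ _ r ∨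
        sec c g * sec c (-g) = -(g * algebraMap ℚ _ r) := by
      apply sq_eq_sq_iff_eq_or_eq_neg.mp
      rw [hbb, mul_pow, hg2, ← map_pow, pow_two r, ← hr, ← map_neg, ← map_mul]
      congr 1
      ring
    have h6 : σ (sec c g * sec c (-g)) = sec c g * sec c (-g) := by
      rw [map_mul, h2, h3, mul_comm]
    have h7 : σ (sec c g * sec c (-g)) = -(sec c g * sec c (-g)) := by
      rcases h5 with h5 | h5 <;> rw [h5]
      · rw [map_mul, h1, σ.commutes]; ring
      · rw [map_neg, map_mul, h1, σ.commutes]; ring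
    rw [h6] at h7
    exact mul_ne_zero hb10 hb20 (h2ne _ h7)
  · obtain ⟨σ, hσ⟩ := exists_sigma hc (fun n x => if n = 1 ∧ x = g then -1 else 1)
    have hF1 : F c (fun n x => if n = 1 ∧ x = g then -1 else 1) 1 g = g := by
      conv_lhs => rw [hg]
      rw [F_sec]; simp [F]; exact hg.symm
    have hF1' : F c (fun n x => if n = 1 ∧ x = g then -1 else 1) 1 (-g) = -g := by
      conv_lhs => rw [hg]
      rw [F_neg_sec 0 0 (by rw [← hg]; exact hg0)]; simp [F]; exact hg.symm
    have h2 := hσ 2 _ hb1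
    have h3 := hσ 2 _ hb2
    rw [F_sec, hF1] at h2
    rw [F_sec, hF1'] at h3
    simp only [hgg, and_false, and_self, if_true, if_false, Units.val_one, Units.val_neg,
      Int.cast_one, Int.cast_neg, one_mul, neg_one_mul] at h2 h3
    have h5 : sec c g * sec c (-g) = algebraMap ℚ _ r ∨
        sec c g * sec c (-g) = -(algebraMap ℚ _ r) := by
      apply sq_eq_sq_iff_eq_or_eq_neg.mp
      rw [hbb, ← map_pow, pow_two r, ← hr]
    have h6 : σ (sec c g * sec c (-g)) = -(sec c g * sec c (-g)) := by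
      rw [map_mul, h2, h3]; ring
    have h7 : σ (sec c g * sec c (-g)) = sec c g * sec c (-g) := by
      rcases h5 with h5 | h5 <;> rw [h5]
      · exact σ.commutes r
      · rw [map_neg, σ.commutes]
    rw [h7] at h6
    exact mul_ne_zero hb10 hb20 (h2ne _ h6)

end Pool.Agent.Arb
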