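import Pool.Agent.Arb.Basic

/-!
# Non-squares: the core `s ≥ 2` (shared), and two elementary non-square criteria
-/

namespace Pool.Agent.Arb

namespace Core

variable {a b e : ℤ}

/-- `f j = (|D_j| / M)` -/
def f (a b : ℤ) (M : ℕ) (j : ℕ) : ℤ := jacobiSym ((D a b j).natAbs : ℤ) M

lemma f_eq (h : Adm a b e) (M : ℕ) {j : ℕ} (hj : 2 ≤ j) :
    f a b M j = jacobiSym e M * jacobiSym (D a b j) M := by
  rw [f, h.natAbs_D hj, jacobiSym.mul_left]

lemma f_one (M : ℕ) : f a b M 1 = 1 := by simp [f]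

/-- constant from `t = r + 2` on, modulo divisors of `N_t` -/
lemma f_tail (h : Adm a b e) (r : ℕ) {M : ℕ} (hM : (M : ℤ) ∣ N a b (r + 2)) {j : ℕ}
    (hj : r + 2 ≤ j) : f a b M j = f a b M (r + 2) := by
  rw [f_eq h M (by omega), f_eq h M (by omega), jac_tail h.cop r hM hj]

lemma f_first (h : Adm a b e) (r : ℕ) (hr : 1 ≤ r) {M : ℕ} (hM : (M : ℤ) ∣ N a b (r + 2)) :
    f a b M (r + 2) = jacobiSym (-1) M * f a b M (r + 1) := by
  rw [f_eq h M (by omega), f_eq h M (by omega), jac_first h.cop r hr hM]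
  ring

lemma jac_neg_one {M : ℕ} (hM : M % 4 = 3) : jacobiSym (-1) M = -1 := by
  rw [jacobiSym.at_neg_one (by rw [Nat.odd_iff]; omega)]
  exact ZMod.χ₄_nat_three_mod_four hM

lemma f_sq {M : ℕ} {j : ℕ} (hc : IsCoprime (D a b j) (M : ℤ)) : f a b M j * f a b M j = 1 := by
  refine jac_sq ?_
  rcases Int.natAbs_eq (D a b j) with h1 | h1
  · rwa [← h1]
  · have : ((D a b j).natAbs : ℤ) = - D a b j := by omega
    rw [this]
    exact hc.neg_left

lemma jac_Z_f (s R M : ℕ) : jacobiSym (Z a b s R : ℤ) M = ∏ u ∈ R.divisors, f a b M (s * u) :=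
  jac_Z s R M

/-- the core `s ≥ 2`: a square is excluded by `|N_{s+1}| ≡ 3 (mod 4)` -/
theorem core (h : Adm a b e) {s R : ℕ} (hs : 2 ≤ s) (hR : Squarefree R) (h1 : 1 < R)
    (hM : (e * N a b (s + 1)) % 4 = 3) : ¬ IsSquare (Z a b s R) := by
  obtain ⟨r, rfl⟩ : ∃ r, s = r + 1 := ⟨s - 1, by omega⟩
  set M := (N a b (r + 2)).natAbs with hMdef
  have hMe : (M : ℤ) = e * N a b (r + 2) := h.natAbs_N r
  have hM4 : M % 4 = 3 := by
    have : ((M : ℤ)) % 4 = 3 := by rw [hMe]; exact hM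
    omega
  have hMd : (M : ℤ) ∣ N a b (r + 2) := Int.natAbs_dvd.2 dvd_rfl
  refine not_sq_of_jac (M := M) ?_
  rw [jac_Z_f, prod_tail (f a b M) (r + 2) (fun j hj => f_tail h r hMd hj)]
  have hfil : R.divisors.filter (fun u => (r + 1) * u < r + 2) = {1} := by
    ext u
    simp only [Finset.mem_filter, Nat.mem_divisors, Finset.mem_singleton]
    constructor
    · rintro ⟨⟨hu, _⟩, hlt⟩
      have hu0 : u ≠ 0 := by rintro rfl; simp at hu; omega
      by_contra hne
      have : 2 ≤ u := by omega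
      nlinarith
    · rintro rfl
      exact ⟨⟨one_dvd _, by omega⟩, by omega⟩
  have hcard : (R.divisors.filter (fun u => ¬ (r + 1) * u < r + 2)).card + 1 = R.divisors.card := by
    have := Finset.card_filter_add_card_filter_not (s := R.divisors) (fun u => (r + 1) * u < r + 2)
    rw [hfil, Finset.card_singleton] at this
    omega
  rw [hfil, Finset.prod_singleton, mul_one, f_first h r (by omega) hMd, jac_neg_one hM4]
  set k := (R.divisors.filter (fun u => ¬ (r + 1) * u < r + 2)).card with hk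
  have hodd : Odd k := by
    have := even_card_divisors hR h1
    rw [← hcard] at this
    rcases Nat.even_or_odd k with hk' | hk'
    · exfalso
      exact (Nat.not_odd_iff_even.2 this) (hk'.add_one)
    · exact hk'
  have hsq : f a b M (r + 1) * f a b M (r + 1) = 1 :=
    f_sq ((cop_N_prev h.cop r).symm.of_isCoprime_of_dvd_right hMd)
  obtain ⟨l, hl⟩ := hodd
  rw [hl]
  set x := f a b M (r + 1)
  have : x * (-1 * x) ^ (2 * l + 1) = -((x * x) * (x * x) ^ l) := by
    rw [mul_pow, pow_succ (-1 : ℤ), pow_mul (-1 : ℤ)]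
    simp only [even_two, Even.neg_pow, one_pow, one_mul]
    ring
  rw [this, hsq]
  simp

/-- a product of an odd number of integers `≡ 3 (mod 4)` and of integers `≡ 1 (mod 4)` -/
lemma prod_mod4 (S : Finset ℕ) (g : ℕ → ℕ) (hg : ∀ u ∈ S, g u % 4 = 3) (hS : Odd S.card) :
    (∏ u ∈ S, g u) % 4 = 3 := by
  have key : ∀ T : Finset ℕ, (∀ u ∈ T, g u % 4 = 3) → (∏ u ∈ T, g u) % 4 = if Odd T.card then 3 else 1 := by
    intro T
    induction T using Finset.induction_on with
    | empty => simp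
    | insert i T hi ih =>
      intro hT
      rw [Finset.prod_insert hi, Nat.mul_mod, hT i (Finset.mem_insert_self _ _),
        ih (fun u hu => hT u (Finset.mem_insert_of_mem hu)), Finset.card_insert_of_notMem hi]
      by_cases ho : Odd T.card
      · have : ¬ Odd (T.card + 1) := by
          rw [Nat.not_odd_iff_even]; exact ho.add_one
        rw [if_pos ho, if_neg this]
      · have : Odd (T.card + 1) := by
          rw [Nat.not_odd_iff_even] at ho; exact ho.add_one
        rw [if_neg ho, if_pos this]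
  rw [key S hg, if_pos hS]

lemma not_sq_of_mod4 {z : ℕ} (h : z % 4 = 3) : ¬ IsSquare z := by
  rintro ⟨y, rfl⟩
  have : y % 4 = 0 ∨ y % 4 = 1 ∨ y % 4 = 2 ∨ y % 4 = 3 := by omega
  rcases this with h' | h' | h' | h' <;> simp [Nat.mul_mod, h'] at h

/-- `y² m` with `m ≡ 3 (mod 4)` is not a square -/
lemma not_sq_of_mul {z y m : ℕ} (hz : z = y ^ 2 * m) (hy : y ≠ 0) (hm : m % 4 = 3) : ¬ IsSquare z := by
  rintro ⟨x, hx⟩
  have hdvd : y ^ 2 ∣ x ^ 2 := ⟨m, by rw [← hz, hx]; ring⟩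
  have hyx : y ∣ x := (Nat.pow_dvd_pow_iff (by norm_num)).1 hdvd
  obtain ⟨k, rfl⟩ := hyx
  have hy2 : 0 < y ^ 2 := by positivity
  have : m = k * k := by
    have h1 : y ^ 2 * m = y ^ 2 * (k * k) := by
      rw [← hz, hx]; ring
    exact Nat.eq_of_mul_eq_mul_left hy2 h1
  exact not_sq_of_mod4 hm ⟨k, this⟩

/-- `s = 1`, `n` odd: if `|D_u| ≡ 3 (mod 4)` for all odd `u ≥ 3` then `Z` is not a square -/
theorem odd_one {R : ℕ} (hR : Squarefree R) (h1 : 1 < R) (hodd : Odd R)
    (hD : ∀ u, 3 ≤ u → Odd u → (D a b u).natAbs % 4 = 3) : ¬ IsSquare (Z a b 1 R) := by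
  refine not_sq_of_mod4 ?_
  have hmem : 1 ∈ R.divisors := by rw [Nat.mem_divisors]; exact ⟨one_dvd _, by omega⟩
  rw [Z, ← Finset.mul_prod_erase _ _ hmem]
  simp only [mul_one, D_one, Int.natAbs_one, one_mul]
  refine prod_mod4 _ _ ?_ ?_
  · intro u hu
    rw [Finset.mem_erase, Nat.mem_divisors] at hu
    have hu2 : Odd u := Odd.of_dvd_nat hodd hu.2.1
    have hu0 : u ≠ 0 := by rintro rfl; simp at hu2
    refine hD u ?_ hu2
    obtain ⟨k, hk⟩ := hu2
    omega
  · rw [Finset.card_erase_of_mem hmem]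
    have := even_card_divisors hR h1
    have hpos : 0 < R.divisors.card := Finset.card_pos.2 ⟨1, hmem⟩
    obtain ⟨k, hk⟩ := this
    exact ⟨k - 1, by omega⟩

end Core

end Pool.Agent.Arb
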