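import Pool.Agent.Arb.DensB

set_option autoImplicit false

/-!
# MP_5c2e18_nt: the three conics have density zero (DENSC)
-/

namespace Pool.Agent.Arb

open Filter Topology

namespace DensAux

/-- the four quadratic parametrisations -/
def par (k : ℕ) (m n : ℤ) : ℤ × ℤ :=
  if k = 0 then (-m ^ 2, n ^ 2) else if k = 1 then (-n ^ 2 - m ^ 2, n ^ 2)
  else if k = 2 then (m ^ 2, n ^ 2 - m ^ 2) else (-m ^ 2, -n ^ 2 + m ^ 2)

/-- the small set of parameters -/
noncomputable def small (B : ℕ) : Finset (ℤ × ℤ) :=
  (Finset.range 4 ×ˢ (Finset.range (Nat.sqrt (2 * B) + 1) ×ˢ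
    Finset.range (Nat.sqrt (2 * B) + 1))).image (fun t => par t.1 (t.2.1 : ℤ) (t.2.2 : ℤ))

lemma small_card (B : ℕ) : (small B).card ≤ 16 * B + 8 := by
  unfold small
  refine Finset.card_image_le.trans ?_
  rw [Finset.card_product, Finset.card_product, Finset.card_range, Finset.card_range]
  have h := Nat.sqrt_le' (2 * B)
  set r := Nat.sqrt (2 * B)
  have h2 : 2 * r ≤ r ^ 2 + 1 := by
    nlinarith [sq_nonneg ((r : ℤ) - 1), Nat.zero_le r]
  nlinarith

lemma mem_small {B k : ℕ} {m n : ℤ} (hk : k < 4) (hm : m ^ 2 ≤ 2 * B) (hn : n ^ 2 ≤ 2 * B) :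
    par k m n ∈ small B := by
  unfold small
  rw [Finset.mem_image]
  refine ⟨(k, m.natAbs, n.natAbs), ?_, ?_⟩
  · simp only [Finset.mem_product, Finset.mem_range]
    refine ⟨hk, ?_, ?_⟩
    · rw [Nat.lt_succ_iff, Nat.le_sqrt']
      zify
      rw [sq_abs]; exact hm
    · rw [Nat.lt_succ_iff, Nat.le_sqrt']
      zify
      rw [sq_abs]; exact hn
  · simp only [par, Int.natCast_natAbs, sq_abs]

lemma conic_small {B : ℕ} {x : ℤ × ℤ} (hx : x ∈ box B)
    (h : IsSquare (-((x.1 : ℚ) / x.2)) ∨ IsSquare (-((x.1 : ℚ) / x.2 + 1)) ∨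
      IsSquare (((x.1 : ℚ) / x.2) * ((x.1 : ℚ) / x.2 + 1))) : x ∈ small B := by
  obtain ⟨a, b⟩ := x
  obtain ⟨h1, h2, h3, h4, hc⟩ := mem_box.1 hx
  simp only at h1 h2 h3 h4 hc h
  have hb0 : 0 < b := by omega
  have hbq : (b : ℚ) ≠ 0 := by exact_mod_cast hb0.ne'
  rcases h with h | h | h
  · -- `-a / b` is a square
    have e : -((a : ℚ) / b) = ((-a : ℤ) : ℚ) / b := by push_cast; ring
    have hcop : Nat.Coprime (-a).natAbs b.natAbs := by
      rw [Int.natAbs_neg]
      rwa [Int.isCoprime_iff_gcd_eq_one] at hc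
    rw [e, Rat.isSquare_iff, Rat.num_div_eq_of_coprime hb0 hcop] at h
    obtain ⟨⟨m, hm⟩, ⟨n, hn⟩⟩ := h
    have hd : ((((-a : ℤ) : ℚ) / b).den : ℤ) = b := Rat.den_div_eq_of_coprime hb0 hcop
    rw [hn] at hd
    push_cast at hd
    have e1 : (a, b) = par 0 m n := by
      simp only [par, if_true, Prod.mk.injEq]
      constructor
      · linarith
      · linarith
    rw [e1]
    exact mem_small (by norm_num) (by nlinarith) (by nlinarith)
  · -- `-(a + b) / b` is a square
    have e : -((a : ℚ) / b + 1) = ((-(a + b) : ℤ) : ℚ) / b := by push_cast; field_simp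
    have hcop : Nat.Coprime (-(a + b)).natAbs b.natAbs := by
      rw [Int.natAbs_neg]
      have : IsCoprime (a + b) b := by simpa using hc.add_mul_right_left 1
      rwa [Int.isCoprime_iff_gcd_eq_one] at this
    rw [e, Rat.isSquare_iff, Rat.num_div_eq_of_coprime hb0 hcop] at h
    obtain ⟨⟨m, hm⟩, ⟨n, hn⟩⟩ := h
    have hd : ((((-(a + b) : ℤ) : ℚ) / b).den : ℤ) = b := Rat.den_div_eq_of_coprime hb0 hcop
    rw [hn] at hd
    push_cast at hd
    have e1 : (a, b) = par 1 m n := by
      simp only [par, Prod.mk.injEq]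
      norm_num
      constructor
      · linarith
      · linarith
    rw [e1]
    exact mem_small (by norm_num) (by nlinarith) (by nlinarith)
  · -- `a (a + b) / b ^ 2` is a square
    obtain ⟨r, hr⟩ := h
    have hsq : IsSquare ((a * (a + b) : ℤ) : ℚ) := by
      refine ⟨r * b, ?_⟩
      have : (a : ℚ) / b * (a / b + 1) * b ^ 2 = r * r * b ^ 2 := by rw [hr]
      have e : (a : ℚ) / b * (a / b + 1) * b ^ 2 = a * (a + b) := by
        field_simp
      push_cast
      rw [← e, this]
      ring
    rw [Rat.isSquare_intCast_iff] at hsq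
    obtain ⟨t, ht⟩ := hsq
    have hc' : IsCoprime a (a + b) := by
      have := (hc.add_mul_left_right 1)
      simpa [add_comm] using this
    have ht2 : a * (a + b) = t ^ 2 := by rw [ht]; ring
    obtain ⟨m, hm⟩ := Int.sq_of_isCoprime hc' ht2
    obtain ⟨n, hn⟩ := Int.sq_of_isCoprime hc'.symm (by rw [mul_comm]; exact ht2)
    rcases hm with hm | hm
    · have hn' : a + b = n ^ 2 := by
        rcases hn with hn | hn
        · exact hn
        · nlinarith [sq_nonneg m, sq_nonneg n]
      have e1 : (a, b) = par 2 m n := by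
        simp only [par, Prod.mk.injEq]
        norm_num
        constructor
        · linarith
        · linarith
      rw [e1]
      exact mem_small (by norm_num) (by nlinarith) (by nlinarith)
    · have hn' : a + b = - n ^ 2 ∨ a = 0 := by
        rcases hn with hn | hn
        · by_cases hm0 : m = 0
          · right; rw [hm, hm0]; norm_num
          · left
            have h5 : 0 < m ^ 2 := by positivity
            have h6 : 0 ≤ n ^ 2 := sq_nonneg n
            have h7 : a * (a + b) = - (m ^ 2 * n ^ 2) := by rw [hn, hm]; ring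
            have h8 : m ^ 2 * n ^ 2 ≤ 0 := by nlinarith [sq_nonneg t]
            have h9 : n ^ 2 ≤ 0 := by
              by_contra hcon
              push Not at hcon
              have : 0 < m ^ 2 * n ^ 2 := mul_pos h5 hcon
              linarith
            linarith
        · left; exact hn
      rcases hn' with hn' | hn'
      · have e1 : (a, b) = par 3 m n := by
          simp only [par, Prod.mk.injEq]
          norm_num
          constructor
          · linarith
          · linarith
        rw [e1]
        exact mem_small (by norm_num) (by nlinarith) (by nlinarith [sq_nonneg m])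
      · subst hn'
        have hu : IsUnit b := by
          rw [isCoprime_zero_left] at hc
          exact hc
        rcases Int.isUnit_iff.1 hu with h | h
        · subst h
          have e1 : ((0 : ℤ), (1 : ℤ)) = par 0 0 1 := by
            simp [par]
          rw [e1]
          exact mem_small (by norm_num) (by nlinarith) (by nlinarith)
        · omega

lemma N_le {Q : ℤ × ℤ → Prop} {B : ℕ} {s : Finset (ℤ × ℤ)} (h : ∀ x ∈ box B, Q x → x ∈ s) :
    N Q B ≤ s.card := by
  classical
  unfold N
  refine Finset.card_le_card ?_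
  intro x hx
  rw [Finset.mem_filter] at hx
  exact h x hx.1 hx.2

lemma cnt_small (B : ℕ) :
    cnt (fun c => IsSquare (-c) ∨ IsSquare (-(c + 1)) ∨ IsSquare (c * (c + 1))) B ≤
      16 * B + 8 := by
  rw [cnt_eq]
  exact (N_le fun x hx h => conic_small hx h).trans (small_card B)

end DensAux

/-- DENSC -/
theorem DensC_proof (h : Stmt_Pairs) : Stmt_Sparse := by
  obtain ⟨κ, hκ, h⟩ := h
  have hz : Tendsto (fun B : ℕ => (cnt (fun c => IsSquare (-c) ∨ IsSquare (-(c + 1)) ∨
      IsSquare (c * (c + 1))) B : ℝ) / (B : ℝ) ^ 2) atTop (𝓝 0) := by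
    have hup : Tendsto (fun B : ℕ => 24 * ((B : ℝ))⁻¹) atTop (𝓝 0) := by
      have := (tendsto_inv_atTop_nhds_zero_nat (𝕜 := ℝ)).const_mul 24
      simpa using this
    refine squeeze_zero' (Eventually.of_forall fun B => by positivity) ?_ hup
    filter_upwards [eventually_gt_atTop 0] with B hB
    have hB' : (0 : ℝ) < B := by exact_mod_cast hB
    have h1 : (cnt (fun c => IsSquare (-c) ∨ IsSquare (-(c + 1)) ∨ IsSquare (c * (c + 1))) B : ℝ)
        ≤ 16 * B + 8 := by exact_mod_cast DensAux.cnt_small B
    have h2 : (1 : ℝ) ≤ B := by exact_mod_cast hB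
    rw [div_le_iff₀ (by positivity)]
    have h3 : 24 * (B : ℝ)⁻¹ * (B : ℝ) ^ 2 = 24 * B := by field_simp
    rw [h3]
    linarith
  have h1 := hz.div (DensAux.total h) (by positivity)
  rw [zero_div] at h1
  refine h1.congr' ?_
  filter_upwards [eventually_gt_atTop 0] with B hB
  have hB' : (B : ℝ) ≠ 0 := by positivity
  simp only [Pi.div_apply]
  field_simp

end Pool.Agent.Arb
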