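import Pool.Agent.Arb.Basic

/-!
# Jacobi symbols of `Z(s, R)` modulo divisors of `N_t`
-/

namespace Pool.Agent.Arb

variable {a b e : ℤ}

lemma Adm.cop_e (h : Adm a b e) (M : ℤ) : IsCoprime e M := ⟨e, 0, by simpa using h.e_sq⟩

/-- the symbol of `|D_j|`, `j ≥ 2` -/
lemma Adm.jac_abs (h : Adm a b e) {j : ℕ} (hj : 2 ≤ j) (M : ℕ) :
    jacobiSym ((D a b j).natAbs : ℤ) M = jacobiSym e M * jacobiSym (D a b j) M := by
  rw [h.natAbs_D hj, jacobiSym.mul_left]

lemma jac_neg_one_of_three {M : ℕ} (h : M % 4 = 3) : jacobiSym (-1) M = -1 := by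
  rw [jacobiSym.at_neg_one (by rw [Nat.odd_iff]; omega), ZMod.χ₄_nat_three_mod_four h]

lemma jac_neg_one_of_one {M : ℕ} (h : M % 4 = 1) : jacobiSym (-1) M = 1 := by
  rw [jacobiSym.at_neg_one (by rw [Nat.odd_iff]; omega), ZMod.χ₄_nat_one_mod_four h]

/-- symbols of `|D_j|`, `j ≥ t ≥ 2`, modulo a divisor of `N_t` do not depend on `j` -/
lemma Adm.abs_tail (h : Adm a b e) (r : ℕ) {M : ℕ} (hM : (M : ℤ) ∣ N a b (r + 2)) (j : ℕ)
    (hj : r + 2 ≤ j) : jacobiSym ((D a b j).natAbs : ℤ) M =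
      jacobiSym ((D a b (r + 2)).natAbs : ℤ) M := by
  rw [h.jac_abs (by omega), h.jac_abs (by omega), jac_tail h.cop r hM hj]

lemma Adm.abs_sq (h : Adm a b e) (r : ℕ) {M : ℕ} (hM : (M : ℤ) ∣ N a b (r + 2)) :
    jacobiSym ((D a b (r + 2)).natAbs : ℤ) M * jacobiSym ((D a b (r + 2)).natAbs : ℤ) M = 1 := by
  apply jac_sq
  rw [h.natAbs_D (by omega)]
  exact IsCoprime.mul_left (h.cop_e _)
    ((cop_N_self h.cop r).of_isCoprime_of_dvd_left hM).symm

lemma Adm.abs_prev_sq (h : Adm a b e) (r : ℕ) (hr : 1 ≤ r) {M : ℕ}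
    (hM : (M : ℤ) ∣ N a b (r + 2)) :
    jacobiSym ((D a b (r + 1)).natAbs : ℤ) M * jacobiSym ((D a b (r + 1)).natAbs : ℤ) M = 1 := by
  apply jac_sq
  rw [h.natAbs_D (by omega)]
  exact IsCoprime.mul_left (h.cop_e _)
    ((cop_N_prev h.cop r).of_isCoprime_of_dvd_left hM).symm

/-- relation between the symbols of `|D_t|` and `|D_{t-1}|`, `t ≥ 3` -/
lemma Adm.abs_first (h : Adm a b e) (r : ℕ) (hr : 1 ≤ r) {M : ℕ}
    (hM : (M : ℤ) ∣ N a b (r + 2)) :
    jacobiSym ((D a b (r + 2)).natAbs : ℤ) M =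
      jacobiSym (-1) M * jacobiSym ((D a b (r + 1)).natAbs : ℤ) M := by
  rw [h.jac_abs (by omega), h.jac_abs (by omega), jac_first h.cop r hr hM]
  ring

lemma pow_odd_of_sq {x : ℤ} (h : x * x = 1) {k : ℕ} (hk : Odd k) : x ^ k = x := by
  obtain ⟨l, rfl⟩ := hk
  rw [pow_succ, pow_mul, pow_two, h, one_pow, one_mul]

lemma pow_even_of_sq {x : ℤ} (h : x * x = 1) {k : ℕ} (hk : Even k) : x ^ k = 1 := by
  obtain ⟨l, rfl⟩ := hk
  rw [← two_mul, pow_mul, pow_two, h, one_pow]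

/-- splitting the symbol of `Z`: `T` is the set of divisors `u` with `s u < t` -/
lemma Adm.jac_split (h : Adm a b e) (r : ℕ) {M : ℕ} (hM : (M : ℤ) ∣ N a b (r + 2)) {s R : ℕ}
    (hR : Squarefree R) (h1 : 1 < R) (T : Finset ℕ)
    (hT : R.divisors.filter (fun u => s * u < r + 2) = T) :
    jacobiSym (Z a b s R : ℤ) M = (∏ u ∈ T, jacobiSym ((D a b (s * u)).natAbs : ℤ) M) *
      (if Even T.card then 1 else jacobiSym ((D a b (r + 2)).natAbs : ℤ) M) := by
  rw [jac_Z, prod_tail (fun j => jacobiSym ((D a b j).natAbs : ℤ) M) (r + 2)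
    (fun j hj => h.abs_tail r hM j hj) s R, hT]
  congr 1
  have hc := Finset.card_filter_add_card_filter_not (s := R.divisors) (fun u => s * u < r + 2)
  have he := even_card_divisors hR h1
  rw [hT] at hc
  split_ifs with h2
  · apply pow_even_of_sq (h.abs_sq r hM)
    rw [← hc] at he
    exact (Nat.even_add.mp he).mp h2
  · apply pow_odd_of_sq (h.abs_sq r hM)
    rw [← hc] at he
    exact Nat.not_even_iff_odd.mp (fun h3 => h2 ((Nat.even_add.mp he).mpr h3))

lemma filter_one {s R t : ℕ} (hR : R ≠ 0) (h1 : s < t) (h2 : t ≤ 2 * s) :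
    R.divisors.filter (fun u => s * u < t) = {1} := by
  ext u
  simp only [Finset.mem_filter, Nat.mem_divisors, Finset.mem_singleton]
  constructor
  · rintro ⟨⟨h3, -⟩, h4⟩
    have h5 : u ≠ 0 := by rintro rfl; simp at h3; exact hR h3
    by_contra h6
    have : 2 ≤ u := by omega
    nlinarith
  · rintro rfl
    exact ⟨⟨one_dvd _, hR⟩, by simpa using h1⟩

/-- `s ≥ 2`, `t = s + 1`: `(Z / M) = (-1 / M)` -/
lemma Adm.kill_succ (h : Adm a b e) {s R : ℕ} (hR : Squarefree R) (h1 : 1 < R) (hs : 2 ≤ s)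
    {M : ℕ} (hM : (M : ℤ) ∣ N a b (s + 1)) (h3 : M % 4 = 3) : ¬ IsSquare (Z a b s R) := by
  obtain ⟨r, rfl⟩ : ∃ r, s = r + 1 := ⟨s - 1, by omega⟩
  apply not_sq_of_jac (M := M)
  rw [h.jac_split r hM hR h1 {1} (filter_one (by omega) (by omega) (by omega))]
  simp only [Finset.prod_singleton, mul_one, Finset.card_singleton, Nat.not_even_one, if_false]
  rw [h.abs_first r (by omega) hM, jac_neg_one_of_three h3]
  have := h.abs_prev_sq r (by omega) hM
  linarith

/-- `s ≥ 2`, `t = s + 2`: `(Z / M) = (-1 / M) (|D_s| / M) (|D_{s+1}| / M)` -/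
lemma Adm.jac_succ2 (h : Adm a b e) {s R : ℕ} (hR : Squarefree R) (h1 : 1 < R) (hs : 2 ≤ s)
    {M : ℕ} (hM : (M : ℤ) ∣ N a b (s + 2)) :
    jacobiSym (Z a b s R : ℤ) M = jacobiSym (-1) M * jacobiSym ((D a b s).natAbs : ℤ) M *
      jacobiSym ((D a b (s + 1)).natAbs : ℤ) M := by
  rw [h.jac_split s hM hR h1 {1} (filter_one (by omega) (by omega) (by omega))]
  simp only [Finset.prod_singleton, mul_one, Finset.card_singleton, Nat.not_even_one, if_false]
  rw [h.abs_first s (by omega) hM]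
  ring

/-- `s = 1`, `t = 2`: `(Z / M) = (-e b / M)` -/
lemma Adm.jac_two (h : Adm a b e) {R : ℕ} (hR : Squarefree R) (h1 : 1 < R)
    {M : ℕ} (hM : (M : ℤ) ∣ a + 2 * b) :
    jacobiSym (Z a b 1 R : ℤ) M = jacobiSym (-(e * b)) M := by
  have hM' : (M : ℤ) ∣ N a b (0 + 2) := by simpa using hM
  rw [h.jac_split 0 hM' hR h1 {1} (filter_one (by omega) (by omega) (by omega))]
  simp only [Finset.prod_singleton, mul_one, Finset.card_singleton, Nat.not_even_one, if_false,
    zero_add]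
  rw [h.jac_abs (le_refl 2), jac_first0 (by simpa using hM), ← jacobiSym.mul_left]
  simp

lemma filter_lt_minFac {R : ℕ} (h1 : 1 < R) :
    R.divisors.filter (fun u => 1 * u < R.minFac + 1) = {1, R.minFac} := by
  have hp := Nat.minFac_prime (n := R) (by omega)
  ext u
  simp only [one_mul, Finset.mem_filter, Nat.mem_divisors, Finset.mem_insert,
    Finset.mem_singleton]
  constructor
  · rintro ⟨⟨h3, h4⟩, h5⟩
    by_cases h6 : u = 1
    · exact Or.inl h6
    · right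
      have h7 : R.minFac ≤ u := by
        have h8 : 2 ≤ u := by
          have : u ≠ 0 := by rintro rfl; simp at h3; omega
          omega
        exact Nat.minFac_le_of_dvd h8 h3
      omega
  · rintro (rfl | rfl)
    · exact ⟨⟨one_dvd _, by omega⟩, by have := hp.two_le; omega⟩
    · exact ⟨⟨R.minFac_dvd, by omega⟩, by omega⟩

/-- `s = 1`, `t = q + 1`, `q` the least prime factor of `R`, `q ≥ 3`: `(Z / M) = (|D_q| / M)` -/
lemma Adm.jac_minFac (h : Adm a b e) {R : ℕ} (hR : Squarefree R) (h1 : 1 < R)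
    {M : ℕ} (hM : (M : ℤ) ∣ N a b (R.minFac + 1)) :
    jacobiSym (Z a b 1 R : ℤ) M = jacobiSym ((D a b R.minFac).natAbs : ℤ) M := by
  have hp := Nat.minFac_prime (n := R) (by omega)
  obtain ⟨r, hr⟩ : ∃ r, R.minFac = r + 1 := ⟨R.minFac - 1, by have := hp.two_le; omega⟩
  rw [hr] at hM
  rw [h.jac_split r hM hR h1 {1, R.minFac} (by rw [← filter_lt_minFac h1, hr])]
  have hc : ({1, R.minFac} : Finset ℕ).card = 2 := Finset.card_pair hp.one_lt.ne
  rw [hc, if_pos even_two, Finset.prod_pair hp.one_lt.ne]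
  simp

lemma filter_lt_three {R : ℕ} (h1 : 1 < R) (h2 : 2 ∣ R) :
    R.divisors.filter (fun u => 1 * u < 3) = {1, 2} := by
  ext u
  simp only [one_mul, Finset.mem_filter, Nat.mem_divisors, Finset.mem_insert,
    Finset.mem_singleton]
  constructor
  · rintro ⟨⟨h3, h4⟩, h5⟩
    have : u ≠ 0 := by rintro rfl; simp at h3; omega
    omega
  · rintro (rfl | rfl)
    · exact ⟨⟨one_dvd _, by omega⟩, by omega⟩
    · exact ⟨⟨h2, by omega⟩, by omega⟩

/-- `s = 1`, `R` even, `t = 3`: `(Z / M) = (|D_2| / M)` -/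
lemma Adm.jac_three (h : Adm a b e) {R : ℕ} (hR : Squarefree R) (h1 : 1 < R) (h2 : 2 ∣ R)
    {M : ℕ} (hM : (M : ℤ) ∣ N a b 3) :
    jacobiSym (Z a b 1 R : ℤ) M = jacobiSym ((D a b 2).natAbs : ℤ) M := by
  rw [h.jac_split 1 hM hR h1 {1, 2} (filter_lt_three h1 h2)]
  have hc : ({1, 2} : Finset ℕ).card = 2 := rfl
  rw [hc, if_pos even_two, Finset.prod_pair (by norm_num)]
  simp

/-- `s = 1`, `R = 2 R'`, `q` the least prime factor of `R'`, `t = q + 1`:
`(Z / M) = (-1 / M) (|D_2| / M)` -/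
lemma Adm.jac_even (h : Adm a b e) {R' : ℕ} (hR : Squarefree (2 * R')) (h1 : 1 < R')
    {M : ℕ} (hM : (M : ℤ) ∣ N a b (R'.minFac + 1)) :
    jacobiSym (Z a b 1 (2 * R') : ℤ) M =
      jacobiSym (-1) M * jacobiSym ((D a b 2).natAbs : ℤ) M := by
  have hp := Nat.minFac_prime (n := R') (by omega)
  have hc2 : Nat.Coprime 2 R' := Nat.coprime_of_squarefree_mul hR
  have hp2 : R'.minFac ≠ 2 := by
    intro h3
    have := R'.minFac_dvd
    rw [h3] at this
    have h4 := Nat.dvd_gcd (dvd_refl 2) this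
    rw [hc2] at h4
    omega
  have hp3 : 3 ≤ R'.minFac := by have := hp.two_le; omega
  obtain ⟨r, hr⟩ : ∃ r, R'.minFac = r + 1 := ⟨R'.minFac - 1, by omega⟩
  have hf : (2 * R').divisors.filter (fun u => 1 * u < R'.minFac + 1) = {1, 2, R'.minFac} := by
    ext u
    simp only [one_mul, Finset.mem_filter, Nat.mem_divisors, Finset.mem_insert,
      Finset.mem_singleton]
    constructor
    · rintro ⟨⟨h3, h4⟩, h5⟩
      by_contra hcon
      push Not at hcon
      obtain ⟨h6, h7, h8⟩ := hcon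
      have h9 : u ≠ 0 := by rintro rfl; simp at h3; omega
      have h10 : u < R'.minFac := by omega
      -- a prime factor of `u` other than `2`, or `4 ∣ u`
      rcases Nat.even_or_odd u with h11 | h11
      · obtain ⟨v, hv⟩ := h11
        have h12 : v ∣ R' := by
          have : 2 * v ∣ 2 * R' := by rw [two_mul v, ← hv]; exact h3
          exact Nat.dvd_of_mul_dvd_mul_left (by norm_num) this
        have h13 := Nat.minFac_le_of_dvd (n := R') (m := v) (by omega) h12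
        omega
      · have h12 : u ∣ R' := by
          apply Nat.Coprime.dvd_of_dvd_mul_left _ h3
          exact (Nat.coprime_two_right.mpr h11)
        have h13 := Nat.minFac_le_of_dvd (n := R') (m := u) (by omega) h12
        omega
    · rintro (rfl | rfl | rfl)
      · exact ⟨⟨one_dvd _, by omega⟩, by omega⟩
      · exact ⟨⟨dvd_mul_right _ _, by omega⟩, by omega⟩
      · exact ⟨⟨R'.minFac_dvd.mul_left 2, by omega⟩, by omega⟩
  rw [hr] at hM hf
  rw [h.jac_split r hM hR (by omega) _ hf]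
  have hc : ({1, 2, r + 1} : Finset ℕ).card = 3 := by
    rw [Finset.card_eq_three]
    exact ⟨1, 2, r + 1, by norm_num, by omega, by omega, rfl⟩
  rw [hc, if_neg (by decide), Finset.prod_insert (by simp; omega), Finset.prod_pair (by omega)]
  rw [h.abs_first r (by omega) hM]
  have h5 := h.abs_prev_sq r (by omega) hM
  simp only [one_mul, D_one, Int.natAbs_one, Nat.cast_one, jacobiSym.one_left]
  linear_combination (jacobiSym (-1) M * jacobiSym ((D a b 2).natAbs : ℤ) M) * h5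

/-- the symbol `(x / M)` only depends on `M` modulo squares mod `x`, and mod 8 (mod 4, `x` odd) -/
lemma jac_indep {x M₁ M₂ : ℕ} (hx : x ≠ 0) (h₁ : Odd M₁) (h₂ : Odd M₂)
    (h8 : M₁ % 8 = M₂ % 8 ∨ (Odd x ∧ M₁ % 4 = M₂ % 4)) {w : ℤ} (hw : IsCoprime w (x : ℤ))
    (hc : (M₂ : ℤ) ≡ M₁ * w ^ 2 [ZMOD (x : ℤ)]) :
    jacobiSym (x : ℤ) M₁ = jacobiSym (x : ℤ) M₂ := by
  obtain ⟨v, y, hy, rfl⟩ := Nat.exists_eq_two_pow_mul_odd hx
  push_cast
  rw [jacobiSym.mul_left, jacobiSym.mul_left, jacobiSym.pow_left, jacobiSym.pow_left]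
  have hyo : Odd y := hy
  have h2 : (jacobiSym 2 M₁) ^ v = (jacobiSym 2 M₂) ^ v := by
    rcases Nat.eq_zero_or_pos v with rfl | hv
    · simp
    · rcases h8 with h8 | ⟨h8, -⟩
      · rw [jacobiSym.at_two h₁, jacobiSym.at_two h₂, ZMod.χ₈_nat_mod_eight,
          ZMod.χ₈_nat_mod_eight M₂, h8]
      · exfalso
        rw [Nat.odd_mul] at h8
        obtain ⟨v, rfl⟩ : ∃ k, v = k + 1 := ⟨v - 1, by omega⟩
        have := h8.1
        rw [pow_succ, Nat.odd_mul] at this
        exact absurd this.2 (by decide)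
  rw [h2]
  congr 1
  have h4 : M₁ % 4 = M₂ % 4 := by
    rcases h8 with h8 | ⟨-, h8⟩
    · omega
    · exact h8
  have hwy : IsCoprime w (y : ℤ) := by
    apply IsCoprime.of_isCoprime_of_dvd_right hw
    push_cast
    exact dvd_mul_left _ _
  have hJ : jacobiSym (M₁ : ℤ) y = jacobiSym (M₂ : ℤ) y := by
    have hc' : (M₂ : ℤ) ≡ M₁ * w ^ 2 [ZMOD (y : ℤ)] :=
      hc.of_dvd (by push_cast; exact dvd_mul_left _ _)
    rw [jac_congr hc', jacobiSym.mul_left, jac_sq_pow hwy 2 even_two, mul_one]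
  rw [jacobiSym.quadratic_reciprocity' hyo h₁, jacobiSym.quadratic_reciprocity' hyo h₂, hJ]
  congr 1
  simp only [qrSign]
  rw [ZMod.χ₄_nat_mod_four M₁, ZMod.χ₄_nat_mod_four M₂, h4]

end Pool.Agent.Arb
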