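import Pool.Agent.Arb.Stmts

/-!
# Assembly
-/

namespace Pool.Agent.Arb

open Filter Topology

lemma Good.adm {c : ℚ} (h : Good c) : Adm c.num c.den (sgn c) where
  hb := by exact_mod_cast c.den_pos
  ha := by simpa using h.2.1
  cop := by
    rw [Int.isCoprime_iff_gcd_eq_one]
    exact c.reduced
  hs := by
    have hc : (c.num : ℚ) = c * c.den := (Rat.mul_den_eq_num c).symm
    have hd : (0 : ℚ) < c.den := by exact_mod_cast c.den_pos
    rcases h.1 with h1 | h1
    · right
      refine ⟨by rw [sgn, if_pos h1], ?_⟩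
      have : (c.num : ℚ) < -2 * (c.den : ℚ) := by
        rw [hc]; exact mul_lt_mul_of_pos_right h1 hd
      exact_mod_cast this
    · left
      refine ⟨by rw [sgn, if_neg (by linarith)], ?_⟩
      have : -(c.den : ℚ) < (c.num : ℚ) := by
        rw [hc]; nlinarith
      exact_mod_cast this

theorem arith (hAE : Stmt_ClsAE) (hB4 : Stmt_ClsB4) (hB1 : Stmt_ClsB1) (hB2 : Stmt_ClsB2)
    (hA3 : Stmt_ClsA3) (hC1 : Stmt_ClsC1) (hC2 : Stmt_ClsC2) {c : ℚ} (h : Good c) :
    NoSq c.num c.den := by
  have hadm := h.adm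
  obtain ⟨_, _, h3, h4, h5⟩ := h
  have hs : sgn c = 1 ∨ sgn c = -1 := by unfold sgn; split_ifs <;> simp
  rcases Int.emod_two_eq_zero_or_one c.num with ha | ha
  · exact hAE _ _ _ hadm ha (h3 ha)
  · rcases Int.emod_two_eq_zero_or_one (c.den : ℤ) with hb | hb
    · by_cases hb4 : (c.den : ℤ) % 4 = 0
      · exact hB4 _ _ _ hadm hb4 (h4 hb4)
      · have hb2 : (c.den : ℤ) % 4 = 2 := by omega
        have h6 : (sgn c * c.num) % 4 = 1 ∨ (sgn c * c.num) % 4 = 3 := by
          rcases hs with hs | hs <;> rw [hs] <;> omega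
        rcases h6 with h6 | h6
        · exact hB1 _ _ _ hadm hb2 h6
        · exact hB2 _ _ _ hadm hb2 h6
    · have h5' := h5 ha hb
      have h6 : (sgn c * c.num) % 4 = 1 ∨ (sgn c * c.num) % 4 = 3 := by
        rcases hs with hs | hs <;> rw [hs] <;> omega
      have h7 : (sgn c * (c.den : ℤ)) % 4 = 1 ∨ (sgn c * (c.den : ℤ)) % 4 = 3 := by
        rcases hs with hs | hs <;> rw [hs] <;> omega
      rcases h6 with h6 | h6
      · rcases h7 with h7 | h7
        · exact hC1 _ _ _ hadm h6 h7
        · exact hA3 _ _ _ hadm h6 h7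
      · rcases h7 with h7 | h7
        · exact absurd ⟨h6, h7⟩ h5'
        · exact hC2 _ _ _ hadm h6 h7

lemma sqf_rad (n : ℕ) : Squarefree (∏ p ∈ n.primeFactors, p) := by
  apply Finset.squarefree_prod_of_pairwise_isCoprime
  · intro p hp q hq hpq
    have h1 := Nat.prime_of_mem_primeFactors (Finset.mem_coe.mp hp)
    have h2 := Nat.prime_of_mem_primeFactors (Finset.mem_coe.mp hq)
    simpa [Function.onFun, Nat.coprime_iff_isRelPrime] using (Nat.coprime_primes h1 h2).mpr hpq
  · intro p hp
    exact (Nat.prime_of_mem_primeFactors hp).prime.squarefree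

theorem part_one (hGal : Stmt_Gal) (hVal : Stmt_Val)
    (hAr : ∀ c : ℚ, Good c → NoSq c.num c.den) (c : ℚ) (h : Good c) (h1 : ¬ IsSquare (-c))
    (h2 : ¬ IsSquare (-(c + 1))) (h3 : ¬ IsSquare (c * (c + 1))) : c ∉ Exceptional := by
  apply hGal
  intro S hS h0 hsq
  have hc0 : c ≠ 0 := h.2.1
  have hn : S.max' hS ∈ S := S.max'_mem hS
  set n := S.max' hS with hndef
  have hle : ∀ m ∈ S, 1 ≤ m ∧ m ≤ n := by
    intro m hm
    refine ⟨?_, S.le_max' m hm⟩
    rcases Nat.eq_zero_or_pos m with rfl | hm'
    · exact absurd hm h0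
    · exact hm'
  have hn1 := (hle n hn).1
  rcases Nat.lt_or_ge n 3 with hn3 | hn3
  · have hc1 : crit c 1 = -c := by simp [crit]
    have hc2 : crit c 2 = c * (c + 1) := by simp [crit]; ring
    have hsub : S ⊆ {1, 2} := by
      intro m hm
      have := hle m hm
      simp only [Finset.mem_insert, Finset.mem_singleton]
      omega
    have hcases : S = {1} ∨ S = {2} ∨ S = {1, 2} := by
      by_cases h1 : 1 ∈ S <;> by_cases h2 : 2 ∈ S
      · right; right
        apply Finset.Subset.antisymm hsub
        intro m hm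
        simp only [Finset.mem_insert, Finset.mem_singleton] at hm
        rcases hm with rfl | rfl <;> assumption
      · left
        ext m
        simp only [Finset.mem_singleton]
        constructor
        · intro hm
          have := hsub hm
          simp only [Finset.mem_insert, Finset.mem_singleton] at this
          rcases this with rfl | rfl
          · rfl
          · exact absurd hm h2
        · rintro rfl; exact h1
      · right; left
        ext m
        simp only [Finset.mem_singleton]
        constructor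
        · intro hm
          have := hsub hm
          simp only [Finset.mem_insert, Finset.mem_singleton] at this
          rcases this with rfl | rfl
          · exact absurd hm h1
          · rfl
        · rintro rfl; exact h2
      · exfalso
        obtain ⟨m, hm⟩ := hS
        have := hsub hm
        simp only [Finset.mem_insert, Finset.mem_singleton] at this
        rcases this with rfl | rfl
        · exact h1 hm
        · exact h2 hm
    rcases hcases with hS' | hS' | hS'
    · rw [hS', Finset.prod_singleton, hc1] at hsq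
      exact h1 hsq
    · rw [hS', Finset.prod_singleton, hc2] at hsq
      exact h3 hsq
    · rw [hS', Finset.prod_pair (by norm_num), hc1, hc2] at hsq
      apply h2
      obtain ⟨y, hy⟩ := hsq
      refine ⟨y / c, ?_⟩
      field_simp
      linear_combination hy
  · have hR := hVal c hc0 S n hn hle (by omega) hsq (n / ∏ p ∈ n.primeFactors, p)
      (∏ p ∈ n.primeFactors, p) (sqf_rad n) ?_
      (Nat.div_mul_cancel (Nat.prod_primeFactors_dvd n))
    · refine hAr c h _ _ (sqf_rad n) ?_ ?_ ?_ ?_ hR
      · have hp := Nat.minFac_prime (n := n) (by omega)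
        have hmem : n.minFac ∈ n.primeFactors := by
          rw [Nat.mem_primeFactors]
          exact ⟨hp, n.minFac_dvd, by omega⟩
        have := Finset.dvd_prod_of_mem (fun p => p) hmem
        have hpos : 0 < ∏ p ∈ n.primeFactors, p :=
          Finset.prod_pos (fun p hp => (Nat.prime_of_mem_primeFactors hp).pos)
        exact lt_of_lt_of_le hp.one_lt (Nat.le_of_dvd hpos this)
      · intro p hp hps
        have : p ∣ n := hps.trans (Nat.div_dvd_of_dvd (Nat.prod_primeFactors_dvd n))
        exact Finset.dvd_prod_of_mem (fun p => p)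
          (Nat.mem_primeFactors.mpr ⟨hp, this, by omega⟩)
      · exact Nat.div_pos (Nat.le_of_dvd (by omega) (Nat.prod_primeFactors_dvd n))
          (Finset.prod_pos (fun p hp => (Nat.prime_of_mem_primeFactors hp).pos))
      · rw [Nat.div_mul_cancel (Nat.prod_primeFactors_dvd n)]
        exact hn3
    · intro p hp hpn
      exact Finset.dvd_prod_of_mem (fun p => p)
        (Nat.mem_primeFactors.mpr ⟨hp, hpn, by omega⟩)

lemma finite_ht (B : ℕ) (P : ℚ → Prop) : {c : ℚ | ht c ≤ B ∧ P c}.Finite := by
  have h1 : (Set.Icc (-(B : ℤ)) B ×ˢ Set.Icc (0 : ℕ) B).Finite :=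
    (Set.finite_Icc _ _).prod (Set.finite_Icc _ _)
  refine Set.Finite.of_finite_image (f := fun c : ℚ => (c.num, c.den)) (h1.subset ?_) ?_
  · rintro _ ⟨c, ⟨hc, _⟩, rfl⟩
    simp only [ht, max_le_iff] at hc
    simp only [Set.mem_prod, Set.mem_Icc]
    omega
  · intro c _ d _ h
    simp only [Prod.mk.injEq] at h
    exact Rat.ext h.1 h.2

theorem main_of (hGal : Stmt_Gal) (hVal : Stmt_Val) (hAE : Stmt_ClsAE) (hB4 : Stmt_ClsB4)
    (hB1 : Stmt_ClsB1) (hB2 : Stmt_ClsB2) (hA3 : Stmt_ClsA3) (hC1 : Stmt_ClsC1)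
    (hC2 : Stmt_ClsC2) (hThin : Stmt_Thin) (hDens : Stmt_Dens) (hSparse : Stmt_Sparse) :
    Stmt_Main := by
  have h1 := part_one hGal hVal (fun c h => arith hAE hB4 hB1 hB2 hA3 hC1 hC2 h)
  refine ⟨h1, ?_, hDens, ?_⟩
  · obtain ⟨F, W, hF, hW⟩ := hThin
    refine ⟨F, W, hF, ?_⟩
    rintro c ⟨hg, he⟩
    apply hW
    by_contra hcon
    simp only [Set.mem_ofPred_eq, not_or] at hcon
    exact h1 c hg hcon.1 hcon.2.1 hcon.2.2 he
  · intro ε hε
    have h2 : ∀ᶠ B : ℕ in atTop, 7 / 12 - ε / 2 ≤
        (cnt Good B : ℝ) / (cnt (fun _ => True) B : ℝ) :=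
      hDens.eventually (eventually_ge_nhds (by linarith))
    have h3 : ∀ᶠ B : ℕ in atTop, (cnt (fun c => IsSquare (-c) ∨ IsSquare (-(c + 1)) ∨
        IsSquare (c * (c + 1))) B : ℝ) / (cnt (fun _ => True) B : ℝ) ≤ ε / 2 :=
      hSparse.eventually (eventually_le_nhds (by linarith))
    filter_upwards [h2, h3] with B h2 h3
    have h4 : cnt Good B ≤ cnt (fun c => c ∉ Exceptional) B +
        cnt (fun c => IsSquare (-c) ∨ IsSquare (-(c + 1)) ∨ IsSquare (c * (c + 1))) B := by
      unfold cnt
      refine le_trans (Set.ncard_le_ncard ?_ ?_) (Set.ncard_union_le _ _)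
      · rintro c ⟨hc, hg⟩
        by_cases hsq : IsSquare (-c) ∨ IsSquare (-(c + 1)) ∨ IsSquare (c * (c + 1))
        · exact Or.inr ⟨hc, hsq⟩
        · simp only [not_or] at hsq
          exact Or.inl ⟨hc, h1 c hg hsq.1 hsq.2.1 hsq.2.2⟩
      · exact (finite_ht B _).union (finite_ht B _)
    have h5 : (cnt Good B : ℝ) / (cnt (fun _ => True) B : ℝ) ≤
        (cnt (fun c => c ∉ Exceptional) B : ℝ) / (cnt (fun _ => True) B : ℝ) +
        (cnt (fun c => IsSquare (-c) ∨ IsSquare (-(c + 1)) ∨ IsSquare (c * (c + 1))) B : ℝ) /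
          (cnt (fun _ => True) B : ℝ) := by
      rw [← add_div]
      apply div_le_div_of_nonneg_right _ (by positivity)
      exact_mod_cast h4
    linarith

end Pool.Agent.Arb
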