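import Pool.Agent.Arb.Defs

/-!
# MP_5c2e18_nt: module statements (see `/team-store/MP_5c2e18_PROOF.md`)
-/

namespace Pool.Agent.Arb

open Polynomial Filter Topology

/-- GAL (Stoll's criterion). -/
def Stmt_Gal : Prop := ∀ c : ℚ,
  (∀ S : Finset ℕ, S.Nonempty → 0 ∉ S → ¬ IsSquare (∏ m ∈ S, crit c m)) → c ∉ Exceptional

/-- VAL. If `∏_{m ∈ S} c'_m` is a square and `n = max S ≥ 2`, `n = s R` with `R = rad n`, then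
`Z(s, R)` is a perfect square. -/
def Stmt_Val : Prop := ∀ c : ℚ, c ≠ 0 → ∀ (S : Finset ℕ) (n : ℕ), n ∈ S →
  (∀ m ∈ S, 1 ≤ m ∧ m ≤ n) → 2 ≤ n → IsSquare (∏ m ∈ S, crit c m) →
  ∀ s R : ℕ, Squarefree R → (∀ p, p.Prime → p ∣ n → p ∣ R) → s * R = n →
    IsSquare (Z c.num c.den s R)

/-- No `Z(s, R)` with `s R ≥ 3` is a square. -/
def NoSq (a b : ℤ) : Prop := ∀ s R : ℕ, Squarefree R → 1 < R →
  (∀ p, p.Prime → p ∣ s → p ∣ R) → 0 < s → 3 ≤ s * R → ¬ IsSquare (Z a b s R)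

/-- class `a` even -/
def Stmt_ClsAE : Prop := ∀ a b s : ℤ, Adm a b s → a % 2 = 0 → (s * (a + b)) % 4 = 3 → NoSq a b
/-- class `4 ∣ b` -/
def Stmt_ClsB4 : Prop := ∀ a b s : ℤ, Adm a b s → b % 4 = 0 → (s * a) % 4 = 3 → NoSq a b
/-- class `b ≡ 2 (4)`, `s a ≡ 1 (4)` -/
def Stmt_ClsB1 : Prop := ∀ a b s : ℤ, Adm a b s → b % 4 = 2 → (s * a) % 4 = 1 → NoSq a b
/-- class `b ≡ 2 (4)`, `s a ≡ 3 (4)` -/
def Stmt_ClsB2 : Prop := ∀ a b s : ℤ, Adm a b s → b % 4 = 2 → (s * a) % 4 = 3 → NoSq a b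
/-- class `s a ≡ 1`, `s b ≡ 3 (4)` -/
def Stmt_ClsA3 : Prop := ∀ a b s : ℤ, Adm a b s → (s * a) % 4 = 1 → (s * b) % 4 = 3 → NoSq a b
/-- class `s a ≡ 1`, `s b ≡ 1 (4)` -/
def Stmt_ClsC1 : Prop := ∀ a b s : ℤ, Adm a b s → (s * a) % 4 = 1 → (s * b) % 4 = 1 → NoSq a b
/-- class `s a ≡ 3`, `s b ≡ 3 (4)` -/
def Stmt_ClsC2 : Prop := ∀ a b s : ℤ, Adm a b s → (s * a) % 4 = 3 → (s * b) % 4 = 3 → NoSq a b

/-- THIN. -/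
def Stmt_Thin : Prop :=
  IsThin {c : ℚ | IsSquare (-c) ∨ IsSquare (-(c + 1)) ∨ IsSquare (c * (c + 1))}

/-- Number of coprime pairs `(a, b)`, `|a| ≤ B`, `1 ≤ b ≤ B`, `a ≡ α`, `b ≡ β (mod 4)` with `P`. -/
noncomputable def pairs (α β : ℤ) (P : ℤ → ℤ → Prop) (B : ℕ) : ℕ :=
  {x : ℤ × ℤ | -(B : ℤ) ≤ x.1 ∧ x.1 ≤ B ∧ 1 ≤ x.2 ∧ x.2 ≤ B ∧ IsCoprime x.1 x.2 ∧
    x.1 ≡ α [ZMOD 4] ∧ x.2 ≡ β [ZMOD 4] ∧ P x.1 x.2}.ncard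

/-- DENSA: asymptotic count of coprime pairs in a residue class mod 4 in three regions. -/
def Stmt_Pairs : Prop := ∃ κ : ℝ, 0 < κ ∧ ∀ α β : ℤ, ¬ (2 ∣ α ∧ 2 ∣ β) →
  Tendsto (fun B : ℕ => (pairs α β (fun _ _ => True) B : ℝ) / (B : ℝ) ^ 2) atTop (𝓝 (2 * κ)) ∧
  Tendsto (fun B : ℕ => (pairs α β (fun a b => a ≤ -b) B : ℝ) / (B : ℝ) ^ 2) atTop
    (𝓝 (κ / 2)) ∧
  Tendsto (fun B : ℕ => (pairs α β (fun a b => a < -2 * b) B : ℝ) / (B : ℝ) ^ 2) atTop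
    (𝓝 (κ / 4))

/-- DENSB (from DENSA): the density of `Good` is `7/12`. -/
def Stmt_Dens : Prop :=
  Tendsto (fun B : ℕ => (cnt Good B : ℝ) / (cnt (fun _ => True) B : ℝ)) atTop (𝓝 (7 / 12))

/-- DENSC: the three conics have density zero. -/
def Stmt_Sparse : Prop :=
  Tendsto (fun B : ℕ => (cnt (fun c => IsSquare (-c) ∨ IsSquare (-(c + 1)) ∨
    IsSquare (c * (c + 1))) B : ℝ) / (cnt (fun _ => True) B : ℝ)) atTop (𝓝 0)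

/-- The final theorem. -/
def Stmt_Main : Prop :=
  (∀ c : ℚ, Good c → ¬ IsSquare (-c) → ¬ IsSquare (-(c + 1)) → ¬ IsSquare (c * (c + 1)) →
    c ∉ Exceptional) ∧
  IsThin {c : ℚ | Good c ∧ c ∈ Exceptional} ∧
  Tendsto (fun B : ℕ => (cnt Good B : ℝ) / (cnt (fun _ => True) B : ℝ)) atTop (𝓝 (7 / 12)) ∧
  ∀ ε : ℝ, 0 < ε → ∀ᶠ B : ℕ in atTop,
    7 / 12 - ε ≤ (cnt (fun c => c ∉ Exceptional) B : ℝ) / (cnt (fun _ => True) B : ℝ)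

end Pool.Agent.Arb
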