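import Pool.Agent.Arb.Stmts

/-! THIN: the three conics form a thin set. -/

namespace Pool.Agent.Arb

open Polynomial

theorem ratfunc_sq (q : ℚ[X]) (r : RatFunc ℚ) (h : r ^ 2 = algebraMap ℚ[X] (RatFunc ℚ) q) :
    IsSquare q := by
  obtain ⟨p, hp⟩ := IsIntegrallyClosed.exists_algebraMap_eq_of_isIntegral_pow (R := ℚ[X])
    (K := RatFunc ℚ) (x := r) (n := 2) (by norm_num) (by rw [h]; exact isIntegral_algebraMap)
  refine ⟨p, ?_⟩
  have hinj : Function.Injective (algebraMap ℚ[X] (RatFunc ℚ)) := IsFractionRing.injective _ _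
  apply hinj
  rw [map_mul, hp, ← h, pow_two]

theorem irr_of (q : ℚ[X]) (h : ¬ IsSquare (-q)) :
    2 ≤ (X ^ 2 + C q : ℚ[X][X]).natDegree ∧
      Irreducible ((X ^ 2 + C q : ℚ[X][X]).map (algebraMap ℚ[X] (RatFunc ℚ))) := by
  have hdeg : (X ^ 2 + C q : ℚ[X][X]).natDegree = 2 := natDegree_X_pow_add_C
  refine ⟨hdeg.ge, ?_⟩
  have hmap : (X ^ 2 + C q : ℚ[X][X]).map (algebraMap ℚ[X] (RatFunc ℚ)) =
      X ^ 2 + C (algebraMap ℚ[X] (RatFunc ℚ) q) := by
    rw [Polynomial.map_add, Polynomial.map_pow, map_X, map_C]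
  rw [hmap]
  set a : RatFunc ℚ := algebraMap ℚ[X] (RatFunc ℚ) q with ha
  have hm : (X ^ 2 + C a : (RatFunc ℚ)[X]).Monic := monic_X_pow_add_C a (by norm_num)
  have hd : (X ^ 2 + C a : (RatFunc ℚ)[X]).natDegree = 2 := natDegree_X_pow_add_C
  rw [hm.irreducible_iff_roots_eq_zero_of_degree_le_three hd.ge (by rw [hd]; norm_num)]
  rw [Multiset.eq_zero_iff_forall_notMem]
  intro r hr
  rw [mem_roots hm.ne_zero, IsRoot.def, eval_add, eval_pow, eval_X, eval_C] at hr
  apply h
  apply ratfunc_sq _ r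
  rw [map_neg, ← ha]
  linear_combination hr

theorem thin_proof : Stmt_Thin := by
  have h1 : ¬ IsSquare (-(X : ℚ[X])) := by
    rintro ⟨p, hp⟩
    have h2 := congrArg natDegree hp
    rw [natDegree_neg, natDegree_X, ← pow_two, natDegree_pow] at h2
    omega
  have h2 : ¬ IsSquare (-(X + 1 : ℚ[X])) := by
    rintro ⟨p, hp⟩
    have h2 := congrArg natDegree hp
    have h3 : (X + 1 : ℚ[X]).natDegree = 1 := by
      have : (X + 1 : ℚ[X]) = X + C 1 := by simp
      rw [this, natDegree_X_add_C]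
    rw [natDegree_neg, h3, ← pow_two, natDegree_pow] at h2
    omega
  have h3 : ¬ IsSquare (-(-(X * (X + 1)) : ℚ[X])) := by
    rw [neg_neg]
    rintro ⟨p, hp⟩
    have hX : (X : ℚ[X]) ∣ p := by
      have : (X : ℚ[X]) ∣ p * p := ⟨X + 1, hp.symm⟩
      rcases prime_X.dvd_or_dvd this with h | h <;> exact h
    obtain ⟨g, rfl⟩ := hX
    have h4 : (X : ℚ[X]) * (X + 1) = X * (g * (X * g)) := by rw [hp]; ring
    have h5 := mul_left_cancel₀ X_ne_zero h4
    have h6 := congrArg (eval 0) h5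
    simp at h6
  refine ⟨{X ^ 2 + C X, X ^ 2 + C (X + 1), X ^ 2 + C (-(X * (X + 1)))}, ∅, ?_, ?_⟩
  · intro P hP
    simp only [Finset.mem_insert, Finset.mem_singleton] at hP
    rcases hP with rfl | rfl | rfl
    · exact irr_of _ h1
    · exact irr_of _ h2
    · exact irr_of _ h3
  · intro t ht
    right
    rcases ht with ⟨r, hr⟩ | ⟨r, hr⟩ | ⟨r, hr⟩
    · refine ⟨X ^ 2 + C X, by simp, r, ?_⟩
      simp only [Polynomial.map_add, Polynomial.map_pow, map_X, map_C, coe_evalRingHom, eval_add,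
        eval_pow, eval_X, eval_C]
      linear_combination -hr
    · refine ⟨X ^ 2 + C (X + 1), by simp, r, ?_⟩
      simp only [Polynomial.map_add, Polynomial.map_pow, map_X, map_C, coe_evalRingHom, eval_add,
        eval_pow, eval_X, eval_C, eval_one]
      linear_combination -hr
    · refine ⟨X ^ 2 + C (-(X * (X + 1))), by simp, r, ?_⟩
      simp only [Polynomial.map_add, Polynomial.map_pow, map_X, map_C, coe_evalRingHom, eval_add,
        eval_pow, eval_X, eval_C, eval_one, eval_neg, eval_mul]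
      linear_combination -hr

end Pool.Agent.Arb
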